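import Pool.Agent.RMK.LiftB

/-!
RMK ADEFS: definitions for the absorption lemma (complete file).

`n` is a `(C, s)`-name for a subset of `Q × {0} ∪ ω³ × {1}`; `pair (pair q 0) p ∈ n` with `p ∈ C` says that
`p` puts `q` into the first part of the set.
-/

namespace RMK

/-- `c` forces, by an explicit element of the name `n`, the element `x` into the set named by `n` -/
def Frc (C s n x c : ZFSet.{0}) : Prop :=
  ∃ p ∈ C, ZFSet.pair x p ∈ n ∧ ZFSet.pair c p ∈ s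

/-- `c` is compatible with some `p` putting `x` into the set named by `n` -/
def Tc (C s n x c : ZFSet.{0}) : Prop :=
  ∃ c2 ∈ C, ZFSet.pair c2 c ∈ s ∧ Frc C s n x c2

/-- `q ⊥ q'` -/
def Inc (Q r q q' : ZFSet.{0}) : Prop :=
  ¬ ∃ z ∈ Q, ZFSet.pair z q ∈ r ∧ ZFSet.pair z q' ∈ r

/-- code of `q` -/
noncomputable def cq (q : ZFSet.{0}) : ZFSet.{0} := ZFSet.pair q (natZ 0)

/-- code of `t` -/
noncomputable def ct (t : ZFSet.{0}) : ZFSet.{0} := ZFSet.pair t (natZ 1)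

/-- `c` forces that the first part of `n` meets all dense sets of `M` and has no incompatible
elements -/
structure Good (M : Set ZFSet.{0}) (Q r C s n c : ZFSet.{0}) : Prop where
  mem : c ∈ C
  g1 : ∀ D ∈ M, D ⊆ Q → (∀ x ∈ Q, ∃ y ∈ D, ZFSet.pair y x ∈ r) →
    ∀ c1 ∈ C, ZFSet.pair c1 c ∈ s → ∃ c2 ∈ C, ZFSet.pair c2 c1 ∈ s ∧
      ∃ q ∈ D, Frc C s n (cq q) c2
  g2 : ∀ q ∈ Q, ∀ q' ∈ Q, Inc Q r q q' → ∀ c1 ∈ C, ZFSet.pair c1 c ∈ s →
    ¬ (Frc C s n (cq q) c1 ∧ Frc C s n (cq q') c1)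

end RMK
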