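import Pool.Agent.RMK.ADefs

/-!
RMK ABSA: some condition of the generic filter `H` on `C` forces that the first part of `n` is a
generic filter (the conditions of `Good`).

PROOF.  Let `c1 ≤ c` stand for `pair c1 c ∈ s`.  Consider the statement
Bad `c`: (B1) there is `D ∈ M`, `D ⊆ Q` dense, such that no `c1 ∈ C` with `c1 ≤ c` satisfies `Frc (cq q) c1` for
some `q ∈ D`; or (B2) there are `q, q' ∈ Q` with `Inc q q'` and `Frc (cq q) c ∧ Frc (cq q') c`.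
Every `c ∈ C` has an extension that is Good or Bad: if `c` itself is not Good, then either `g1` fails, giving
`D` and `c1 ≤ c` such that no `c2 ≤ c1` has `Frc (cq q) c2` with `q ∈ D`, so `c1` is Bad; or `g2` fails, giving
`c1 ≤ c` with (B2).  The predicate `Good ∨ Bad` is definable over `M` in `c` (`MD`): all quantifiers can be
restricted to elements of `M` (`ZModel.ball`, `ZModel.bex`; the quantifier `∀ D ∈ M` is a quantifier over
`↥M` already; `D ⊆ Q` is `∀ z : M, z ∈ D → z ∈ Q`), and the calculus applies.  By `exists_dense_mem` (for the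
poset `C` and its generic filter `H`) there is `c ∈ H` which is Good or Bad.  It is not Bad:
(B1): `D` is a dense subset of `Q` in `M`, so there is `q ∈ g ∩ D` (`hg.meets`); by `hcode` there is `p ∈ H` with
`pair (cq q) p ∈ n`; by directedness there is `c1 ∈ H` below `p` and `c`; then `Frc (cq q) c1` (with `p ∈ C` as
`H ⊆ C`), contradiction.
(B2): from `Frc (cq q) c` get `p ∈ C`, `pair (cq q) p ∈ n`, `c ≤ p`; `p ∈ H` (`up`), so `q ∈ g` by `hcode`; in the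
same way `q' ∈ g`; so `q` and `q'` are compatible (`hg.dir`, `hg.sub`), contradiction.
-/

namespace RMK

open Set

variable {M : Set ZFSet.{0}} {Q r C s n : ZFSet.{0}} {g H : Set ZFSet.{0}}

/-- the definability of `Frc` on codes -/
private theorem md_frc {X : Type 1} [Ctx M X] (hM : ZModel M) (hCM : C ∈ M) (hsM : s ∈ M)
    (hn : n ∈ M) {f g : X → M} (hf : DFc M f) (hg : DFc M g) :
    MD M fun x => Frc C s n (cq (f x).1) (g x).1 := by
  have h1 : MD M fun x : X => ∃ p : M, p.1 ∈ C ∧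
      (ZFSet.pair (prM hM (f x) (natM hM 0)).1 p.1 ∈ n ∧ ZFSet.pair (g x).1 p.1 ∈ s) :=
    MD.ex (MD.and (MD.mem DFc.id.snd (DFc.const (⟨C, hCM⟩ : M)))
      (MD.and (MD.pair_mem hM (DFc.pr hM (hf.comp DFc.id.fst) (DFc.const (natM hM 0))) DFc.id.snd
        (DFc.const (⟨n, hn⟩ : M)))
        (MD.pair_mem hM (hg.comp DFc.id.fst) DFc.id.snd (DFc.const (⟨s, hsM⟩ : M)))))
  refine MD.congr (fun x => ?_) h1
  exact (hM.bex hCM (P := fun p => ZFSet.pair (cq (f x).1) p ∈ n ∧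
    ZFSet.pair (g x).1 p ∈ s)).symm

/-- the definability of `Inc` -/
private theorem md_inc {X : Type 1} [Ctx M X] (hM : ZModel M) (hQM : Q ∈ M) (hrM : r ∈ M)
    {f g : X → M} (hf : DFc M f) (hg : DFc M g) :
    MD M fun x => Inc Q r (f x).1 (g x).1 := by
  have h1 : MD M fun x : X => ¬ ∃ z : M, z.1 ∈ Q ∧
      (ZFSet.pair z.1 (f x).1 ∈ r ∧ ZFSet.pair z.1 (g x).1 ∈ r) :=
    MD.not (MD.ex (MD.and (MD.mem DFc.id.snd (DFc.const (⟨Q, hQM⟩ : M)))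
      (MD.and (MD.pair_mem hM DFc.id.snd (hf.comp DFc.id.fst) (DFc.const (⟨r, hrM⟩ : M)))
        (MD.pair_mem hM DFc.id.snd (hg.comp DFc.id.fst) (DFc.const (⟨r, hrM⟩ : M))))))
  refine MD.congr (fun x => ?_) h1
  exact not_congr (hM.bex hQM (P := fun z => ZFSet.pair z (f x).1 ∈ r ∧
    ZFSet.pair z (g x).1 ∈ r)).symm

/-- some dense set is avoided below `c` -/
private def B1 (M : Set ZFSet.{0}) (Q r C s n : ZFSet.{0}) (c : M) : Prop :=
  ∃ D : M, (∀ z : M, z.1 ∈ D.1 → z.1 ∈ Q) ∧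
    (∀ x : M, x.1 ∈ Q → ∃ y : M, y.1 ∈ D.1 ∧ ZFSet.pair y.1 x.1 ∈ r) ∧
    ∀ c1 : M, c1.1 ∈ C → ZFSet.pair c1.1 c.1 ∈ s → ∀ q : M, q.1 ∈ D.1 →
      ¬ Frc C s n (cq q.1) c1.1

/-- two incompatible elements are forced by `c` -/
private def B2 (M : Set ZFSet.{0}) (Q r C s n : ZFSet.{0}) (c : M) : Prop :=
  ∃ q : M, ∃ q' : M, q.1 ∈ Q ∧ q'.1 ∈ Q ∧ Inc Q r q.1 q'.1 ∧ Frc C s n (cq q.1) c.1 ∧
    Frc C s n (cq q'.1) c.1

private theorem v0 {X : Type 1} [Ctx M X] : DFc M fun p : X × M => p.2 := DFc.id.snd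

private theorem wk {X : Type 1} [Ctx M X] {f : X → M} (hf : DFc M f) :
    DFc M fun p : X × M => f p.1 := hf.comp DFc.id.fst

private theorem md_B1 (hM : ZModel M) (hQ : IsPoset M Q r) (hC : IsPoset M C s) (hn : n ∈ M) :
    MD M fun c : M => B1 M Q r C s n c := by
  have a1 : MD M fun p : (M × M) × M => p.2.1 ∈ p.1.2.1 := MD.mem v0 (wk v0)
  have a2 : MD M fun p : (M × M) × M => p.2.1 ∈ Q := MD.mem v0 (DFc.const (⟨Q, hQ.memQ⟩ : M))
  have a3 : MD M fun p : ((M × M) × M) × M => p.2.1 ∈ p.1.1.2.1 := MD.mem v0 (wk (wk v0))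
  have a4 : MD M fun p : ((M × M) × M) × M => ZFSet.pair p.2.1 p.1.2.1 ∈ r := by
    have h0 : DFc M (fun _ : ((M × M) × M) × M => (⟨r, hQ.memr⟩ : M)) := DFc.const _
    have h1 : DFc M (fun p : ((M × M) × M) × M => p.2) := v0
    have h2 : DFc M (fun p : ((M × M) × M) × M => p.1.2) := wk v0
    have h3 := MD.pair_mem hM h1 h2 h0
    exact h3
  have a5 : MD M fun p : (M × M) × M => p.2.1 ∈ C := MD.mem v0 (DFc.const (⟨C, hC.memQ⟩ : M))
  have a6 : MD M fun p : (M × M) × M => ZFSet.pair p.2.1 p.1.1.1 ∈ s := by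
    have h0 : DFc M (fun _ : (M × M) × M => (⟨s, hC.memr⟩ : M)) := DFc.const _
    have h1 : DFc M (fun p : (M × M) × M => p.2) := v0
    have h2 : DFc M (fun p : (M × M) × M => p.1.1) := wk (wk DFc.id)
    have h3 := MD.pair_mem hM h1 h2 h0
    exact h3
  have a7 : MD M fun p : ((M × M) × M) × M => Frc C s n (cq p.2.1) p.1.2.1 :=
    md_frc hM hC.memQ hC.memr hn v0 (wk v0)
  exact MD.ex (MD.and (MD.all (MD.imp a1 a2)) (MD.and (MD.all (MD.imp a2 (MD.ex (MD.and a3 a4))))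
    (MD.all (MD.imp a5 (MD.imp a6 (MD.all (MD.imp a3 (MD.not a7))))))))

private theorem md_B2 (hM : ZModel M) (hQ : IsPoset M Q r) (hC : IsPoset M C s) (hn : n ∈ M) :
    MD M fun c : M => B2 M Q r C s n c := by
  have a1 : MD M fun p : (M × M) × M => p.1.2.1 ∈ Q :=
    MD.mem (wk v0) (DFc.const (⟨Q, hQ.memQ⟩ : M))
  have a2 : MD M fun p : (M × M) × M => p.2.1 ∈ Q := MD.mem v0 (DFc.const (⟨Q, hQ.memQ⟩ : M))
  have a3 : MD M fun p : (M × M) × M => Inc Q r p.1.2.1 p.2.1 :=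
    md_inc hM hQ.memQ hQ.memr (wk v0) v0
  have a4 : MD M fun p : (M × M) × M => Frc C s n (cq p.1.2.1) p.1.1.1 :=
    md_frc hM hC.memQ hC.memr hn (wk v0) (wk (wk DFc.id))
  have a5 : MD M fun p : (M × M) × M => Frc C s n (cq p.2.1) p.1.1.1 :=
    md_frc hM hC.memQ hC.memr hn v0 (wk (wk DFc.id))
  exact MD.ex (MD.ex (MD.and a1 (MD.and a2 (MD.and a3 (MD.and a4 a5)))))

theorem exists_good (hM : ZModel M) (hQ : IsPoset M Q r) (hg : IsGeneric M Q r g)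
    (hC : IsPoset M C s) (hH : IsGeneric M C s H) (hn : n ∈ M)
    (hcode : ∀ q ∈ Q, q ∈ g ↔ ∃ p ∈ H, ZFSet.pair (cq q) p ∈ n) :
    ∃ c ∈ H, Good M Q r C s n c := by
  have hbad : ∀ c : M, c.1 ∈ H → ¬ (B1 M Q r C s n c ∨ B2 M Q r C s n c) := by
    rintro c hc (⟨D, h1, h2, h3⟩ | ⟨q, q', hq, hq', hi, hf, hf'⟩)
    · obtain ⟨x, hxg, hxD⟩ := hg.meets D.1 D.2
        (fun z hz => h1 ⟨z, hM.trans D.1 D.2 z hz⟩ hz) (fun x hx => by
          obtain ⟨y, hy, hyx⟩ := h2 ⟨x, hM.trans Q hQ.memQ x hx⟩ hx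
          exact ⟨y.1, hy, hyx⟩)
      obtain ⟨p, hpH, hpn⟩ := (hcode x (hg.sub x hxg)).1 hxg
      obtain ⟨c1, hc1, hc1p, hc1c⟩ := hH.dir p hpH c.1 hc
      have hc1C := hH.sub c1 hc1
      exact h3 ⟨c1, hM.trans C hC.memQ c1 hc1C⟩ hc1C hc1c ⟨x, hM.trans D.1 D.2 x hxD⟩ hxD
        ⟨p, hH.sub p hpH, hpn, hc1p⟩
    · obtain ⟨p, hpC, hpn, hcp⟩ := hf
      obtain ⟨p', hpC', hpn', hcp'⟩ := hf'
      have hqg := (hcode q.1 hq).2 ⟨p, hH.up c.1 hc p hpC hcp, hpn⟩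
      have hqg' := (hcode q'.1 hq').2 ⟨p', hH.up c.1 hc p' hpC' hcp', hpn'⟩
      obtain ⟨z, hz, hzq, hzq'⟩ := hg.dir q.1 hqg q'.1 hqg'
      exact hi ⟨z, hg.sub z hz, hzq, hzq'⟩
  have hmd : MD M fun c : M => (B1 M Q r C s n c ∨ B2 M Q r C s n c) ∨
      ∀ c1 : M, c1.1 ∈ C → ZFSet.pair c1.1 c.1 ∈ s →
        ¬ (B1 M Q r C s n c1 ∨ B2 M Q r C s n c1) := by
    have hb : MD M fun c : M => B1 M Q r C s n c ∨ B2 M Q r C s n c :=
      MD.or (md_B1 hM hQ hC hn) (md_B2 hM hQ hC hn)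
    have a1 : MD M fun p : M × M => p.2.1 ∈ C := MD.mem v0 (DFc.const (⟨C, hC.memQ⟩ : M))
    have a2 : MD M fun p : M × M => ZFSet.pair p.2.1 p.1.1 ∈ s := by
      have h0 : DFc M (fun _ : M × M => (⟨s, hC.memr⟩ : M)) := DFc.const _
      have h1 : DFc M (fun p : M × M => p.2) := v0
      have h2 : DFc M (fun p : M × M => p.1) := wk DFc.id
      have h3 := MD.pair_mem hM h1 h2 h0
      exact h3
    have a3 : MD M fun p : M × M => B1 M Q r C s n p.2 ∨ B2 M Q r C s n p.2 := MD.comp hb v0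
    exact MD.or hb (MD.all (MD.imp a1 (MD.imp a2 (MD.not a3))))
  obtain ⟨c, hcH, hc⟩ := exists_dense_mem hM hC.memQ hH hmd (fun x hx => by
    by_cases h : ∃ c1 : M, c1.1 ∈ C ∧ ZFSet.pair c1.1 x.1 ∈ s ∧
      (B1 M Q r C s n c1 ∨ B2 M Q r C s n c1)
    · obtain ⟨c1, h1, h2, h3⟩ := h
      exact ⟨c1, h1, h2, Or.inl h3⟩
    · refine ⟨x, hx, hC.refl x.1 hx, Or.inr fun c1 h1 h2 h3 => h ⟨c1, h1, h2, h3⟩⟩)
  have hc' := hc.resolve_left (hbad c hcH)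
  refine ⟨c.1, hcH, hH.sub c.1 hcH, ?_, ?_⟩
  · intro D hD hDQ hDd c1 hc1 hc1c
    by_contra hno
    refine hc' ⟨c1, hM.trans C hC.memQ c1 hc1⟩ hc1 hc1c (Or.inl ⟨⟨D, hD⟩, fun z hz => hDQ hz,
      fun x hx => ?_, fun c2 hc2 hc21 q hq hf => hno ⟨c2.1, hc2, hc21, q.1, hq, hf⟩⟩)
    obtain ⟨y, hy, hyx⟩ := hDd x.1 hx
    exact ⟨⟨y, hM.trans D hD y hy⟩, hy, hyx⟩
  · rintro q hq q' hq' hi c1 hc1 hc1c ⟨hf, hf'⟩
    exact hc' ⟨c1, hM.trans C hC.memQ c1 hc1⟩ hc1 hc1c (Or.inr ⟨⟨q, hM.trans Q hQ.memQ q hq⟩,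
      ⟨q', hM.trans Q hQ.memQ q' hq'⟩, hq, hq', hi, hf, hf'⟩)

end RMK
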