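import Pool.Agent.RMK.ADefs

/-!
RMK ABSB: the poset of pairs and the generic filter on it for the absorption lemma.

Setting: `c₀ ∈ H` is Good.  Let `K (q, c)` be: `c ≤ c₀` (that is `pair c c₀ ∈ s`) and for all `q' ∈ Q` with
`q' ≤ q`, `Tc (cq q') c`.  `Q' = {(q, c) ∈ Q × C | K (q, c)}` (by `exists_PP`; `K` is definable and closed
under strengthening `q`).  `g' = {(q, c) ∈ Q' | q ∈ g ∧ c ∈ H}`.

PROOFS.
`good_dense` (Lemma): if `c ∈ C`, `c ≤ c₀`, `q ∈ Q` and `Tc (cq q) c`, then there is `q' ∈ Q`, `q' ≤ q` such that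
for all `q'' ∈ Q` with `q'' ≤ q'`, `Tc (cq q'') c`.  Proof: let `c2 ≤ c` with `Frc (cq q) c2`.  Suppose that every
`q' ≤ q` has some `q'' ≤ q'` with `¬ Tc (cq q'') c`.  Let `D` be the set of `q' ∈ Q` with (`q' ≤ q` and `¬ Tc
(cq q') c`) or `Inc q' q`.  It is in `M` (`exists_sep`) and dense in `Q` (given `p`: if `Inc p q` fine; else take
`p' ≤ p, q` and then `q'' ≤ p'` with `¬ Tc (cq q'') c`).  By `g1` (for `c₀` and `c2 ≤ c ≤ c₀`) there are `c3 ≤ c2`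
and `q' ∈ D` with `Frc (cq q') c3`.  If `q' ≤ q` and `¬ Tc (cq q') c`: contradiction with `c3 ≤ c`.  If
`Inc q' q`: note `Frc (cq q) c3` (as `c3 ≤ c2`), contradiction with `g2`.
`exists_first`: for `c ∈ H`, `c ≤ c₀` there is `q ∈ g` with `K (q, c)`: the set of `q ∈ Q` with
(`∀ q' ≤ q, Tc (cq q') c`) or `¬ Tc (cq q) c` is in `M` and dense in `Q` (if some `q' ≤ q` has `¬ Tc (cq q') c`
take it, else take `q`); let `q ∈ g` be in it.  Since `q ∈ g`, by `hcode` there is `p ∈ H` with `pair (cq q) p ∈ n`,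
and `c2 ∈ H` below `p` and `c` shows `Tc (cq q) c`.  So the first alternative holds.
`good_generic`: nonempty: `exists_first` for `c₀`.  `up`: clear (`g`, `H` are filters; use `rel`).
Directed: given `(q, c), (q', c') ∈ g'`, take `c1 ∈ H` below `c, c'` (so `c1 ≤ c₀`), `q1 ∈ g` with `K (q1, c1)`
(`exists_first`), `q2 ∈ g` below `q1, q, q'` (directedness twice); then `(q2, c1) ∈ Q'`, it is in `g'` and below
both.  Meets: let `D ∈ M` be dense in `Q'`.  Let `E` be the set of `c ∈ C` such that `c ≤ c₀` and there are `q,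
c'` with `(q, c') ∈ D`, `c ≤ c'`, `Frc (cq q) c`; or such that `c` is incompatible with `c₀` in `C`.  `E` is dense in
`C`: given `c`, if it is incompatible with `c₀` fine, else let `c1 ≤ c, c₀`.  By `g1` for `D = Q` there are `c2
≤ c1` and `q ∈ Q` with `Frc (cq q) c2`, so `Tc (cq q) c1`.  By `good_dense` there is `q' ≤ q` with `K (q', c1)`,
i.e. `(q', c1) ∈ Q'`.  Let `(q'', c'') ∈ D` be below it.  As `(q'', c'') ∈ Q'`, `Tc (cq q'') c''` (reflexivity):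
there is `c3 ≤ c''` with `Frc (cq q'') c3`.  So `c3 ∈ E`, `c3 ≤ c'' ≤ c1 ≤ c`.  Let `c ∈ H ∩ E`
(`exists_dense_mem` or `meets`): it is compatible with `c₀ ∈ H`, so there are `(q, c') ∈ D`, `c ≤ c'`, `Frc (cq q)
c`, so `c' ∈ H`, and `q ∈ g` by `hcode` (`c ≤ p`, `p ∈ C`, so `p ∈ H`).  Hence `(q, c') ∈ D ∩ g'`.
-/

namespace RMK

open Set

variable {M : Set ZFSet.{0}} {Q r C s n c₀ : ZFSet.{0}} {g H : Set ZFSet.{0}}

section md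

variable {X : Type 1} [Ctx M X]

private theorem mdFrc (hM : ZModel M) (hC : C ∈ M) (hs : s ∈ M) (hn : n ∈ M) {f h : X → M}
    (hf : DFc M f) (hh : DFc M h) : MD M fun x => Frc C s n (f x).1 (h x).1 := by
  refine MD.congr (P := fun x => ∃ p : M, p.1 ∈ C ∧ (ZFSet.pair (f x).1 p.1 ∈ n ∧
    ZFSet.pair (h x).1 p.1 ∈ s)) (fun x => (hM.bex hC
      (P := fun p => ZFSet.pair (f x).1 p ∈ n ∧ ZFSet.pair (h x).1 p ∈ s)).symm) ?_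
  have hfst : DFc M fun p : X × M => p.1 := DFc.id.fst
  have hsnd : DFc M fun p : X × M => p.2 := DFc.id.snd
  exact MD.ex ((MD.mem hsnd (DFc.const ⟨C, hC⟩)).and
    ((MD.pair_mem hM (hf.comp hfst) hsnd (DFc.const ⟨n, hn⟩)).and
      (MD.pair_mem hM (hh.comp hfst) hsnd (DFc.const ⟨s, hs⟩))))

private theorem mdTc (hM : ZModel M) (hC : C ∈ M) (hs : s ∈ M) (hn : n ∈ M) {f h : X → M}
    (hf : DFc M f) (hh : DFc M h) : MD M fun x => Tc C s n (f x).1 (h x).1 := by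
  refine MD.congr (P := fun x => ∃ p : M, p.1 ∈ C ∧ (ZFSet.pair p.1 (h x).1 ∈ s ∧
    Frc C s n (f x).1 p.1)) (fun x => (hM.bex hC
      (P := fun p => ZFSet.pair p (h x).1 ∈ s ∧ Frc C s n (f x).1 p)).symm) ?_
  have hfst : DFc M fun p : X × M => p.1 := DFc.id.fst
  have hsnd : DFc M fun p : X × M => p.2 := DFc.id.snd
  exact MD.ex ((MD.mem hsnd (DFc.const ⟨C, hC⟩)).and
    ((MD.pair_mem hM hsnd (hh.comp hfst) (DFc.const ⟨s, hs⟩)).and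
      (mdFrc hM hC hs hn (hf.comp hfst) hsnd)))

private theorem mdInc (hM : ZModel M) (hQ : Q ∈ M) (hr : r ∈ M) {f h : X → M}
    (hf : DFc M f) (hh : DFc M h) : MD M fun x => Inc Q r (f x).1 (h x).1 := by
  refine MD.congr (P := fun x => ¬ ∃ z : M, z.1 ∈ Q ∧ (ZFSet.pair z.1 (f x).1 ∈ r ∧
    ZFSet.pair z.1 (h x).1 ∈ r)) (fun x => (not_congr (hM.bex hQ
      (P := fun z => ZFSet.pair z (f x).1 ∈ r ∧ ZFSet.pair z (h x).1 ∈ r))).symm) ?_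
  have hfst : DFc M fun p : X × M => p.1 := DFc.id.fst
  have hsnd : DFc M fun p : X × M => p.2 := DFc.id.snd
  exact MD.not (MD.ex ((MD.mem hsnd (DFc.const ⟨Q, hQ⟩)).and
    ((MD.pair_mem hM hsnd (hf.comp hfst) (DFc.const ⟨r, hr⟩)).and
      (MD.pair_mem hM hsnd (hh.comp hfst) (DFc.const ⟨r, hr⟩)))))

private theorem dfCq (hM : ZModel M) {f : X → M} (hf : DFc M f) :
    DFc M fun x => prM hM (f x) (natM hM 0) := DFc.pr hM hf (DFc.const _)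

/-- all extensions satisfy `Tc` -/
private theorem mdAll (hM : ZModel M) (hQ : Q ∈ M) (hr : r ∈ M) (hC : C ∈ M) (hs : s ∈ M)
    (hn : n ∈ M) {f h : X → M} (hf : DFc M f) (hh : DFc M h) :
    MD M fun x => ∀ q' ∈ Q, ZFSet.pair q' (f x).1 ∈ r → Tc C s n (cq q') (h x).1 := by
  refine MD.congr (P := fun x => ∀ z : M, z.1 ∈ Q → (ZFSet.pair z.1 (f x).1 ∈ r →
    Tc C s n (prM hM z (natM hM 0)).1 (h x).1)) (fun x => (hM.ball hQ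
      (P := fun z => ZFSet.pair z (f x).1 ∈ r → Tc C s n (cq z) (h x).1)).symm) ?_
  have hfst : DFc M fun p : X × M => p.1 := DFc.id.fst
  have hsnd : DFc M fun p : X × M => p.2 := DFc.id.snd
  exact MD.all ((MD.mem hsnd (DFc.const ⟨Q, hQ⟩)).imp
    ((MD.pair_mem hM hsnd (hf.comp hfst) (DFc.const ⟨r, hr⟩)).imp
      (mdTc hM hC hs hn (dfCq hM hsnd) (hh.comp hfst))))

end md

private theorem frc_mono (hC : IsPoset M C s) {x c c' : ZFSet.{0}} (hc : c ∈ C) (hc' : c' ∈ C)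
    (h : ZFSet.pair c' c ∈ s) (hF : Frc C s n x c) : Frc C s n x c' := by
  obtain ⟨p, hp, h1, h2⟩ := hF
  exact ⟨p, hp, h1, hC.trans _ hc' _ hc _ hp h h2⟩

theorem good_dense (hM : ZModel M) (hQ : IsPoset M Q r) (hC : IsPoset M C s) (hn : n ∈ M)
    (hc₀ : Good M Q r C s n c₀) {q c : ZFSet.{0}} (hq : q ∈ Q) (hc : c ∈ C)
    (hcc : ZFSet.pair c c₀ ∈ s) (h : Tc C s n (cq q) c) :
    ∃ q' ∈ Q, ZFSet.pair q' q ∈ r ∧ ∀ q'' ∈ Q, ZFSet.pair q'' q' ∈ r → Tc C s n (cq q'') c := by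
  by_contra hcon
  have hcon' : ∀ q' ∈ Q, ZFSet.pair q' q ∈ r →
      ∃ q'' ∈ Q, ZFSet.pair q'' q' ∈ r ∧ ¬ Tc C s n (cq q'') c := by
    intro q' hq' hqq
    by_contra h1
    apply hcon
    refine ⟨q', hq', hqq, fun q'' h2 h3 => ?_⟩
    by_contra h4
    exact h1 ⟨q'', h2, h3, h4⟩
  obtain ⟨c2, hc2, hc2c, hF⟩ := h
  have hqM : q ∈ M := hM.trans _ hQ.memQ _ hq
  have hcM : c ∈ M := hM.trans _ hC.memQ _ hc
  have d1 : DFc M fun z : M => z := DFc.id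
  have d2 : DFc M fun z : M => prM hM z (natM hM 0) := (dfCq hM d1 :)
  have dc : DFc M fun _ : M => (⟨c, hcM⟩ : M) := DFc.const _
  have dq : DFc M fun _ : M => (⟨q, hqM⟩ : M) := DFc.const _
  have dr : DFc M fun _ : M => (⟨r, hQ.memr⟩ : M) := DFc.const _
  have hP1 : MD M fun z : M => ZFSet.pair z.1 q ∈ r := (MD.pair_mem hM d1 dq dr :)
  have hP2 : MD M fun z : M => Tc C s n (prM hM z (natM hM 0)).1 c :=
    (mdTc hM hC.memQ hC.memr hn d2 dc :)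
  have hP3 : MD M fun z : M => Inc Q r z.1 q := (mdInc hM hQ.memQ hQ.memr d1 dq :)
  have hP : MD M fun z : M => (ZFSet.pair z.1 q ∈ r ∧ ¬ Tc C s n (prM hM z (natM hM 0)).1 c) ∨
      Inc Q r z.1 q := (hP1.and hP2.not).or hP3
  obtain ⟨D, hD⟩ := exists_sep hM hP ⟨Q, hQ.memQ⟩
  have hDQ : D.1 ⊆ Q := fun z hz => ((hD ⟨z, hM.trans _ D.2 _ hz⟩).1 hz).1
  have hdense : ∀ x ∈ Q, ∃ y ∈ D.1, ZFSet.pair y x ∈ r := by
    intro x hx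
    by_cases h1 : Inc Q r x q
    · exact ⟨x, (hD ⟨x, hM.trans _ hQ.memQ _ hx⟩).2 ⟨hx, Or.inr h1⟩, hQ.refl _ hx⟩
    · obtain ⟨z, hz, hzx, hzq⟩ := not_not.1 h1
      obtain ⟨q'', h2, h3, h4⟩ := hcon' z hz hzq
      exact ⟨q'', (hD ⟨q'', hM.trans _ hQ.memQ _ h2⟩).2
        ⟨h2, Or.inl ⟨hQ.trans _ h2 _ hz _ hq h3 hzq, h4⟩⟩, hQ.trans _ h2 _ hz _ hx h3 hzx⟩
  obtain ⟨c3, hc3, hc32, q', hq', hF'⟩ := hc₀.g1 D.1 D.2 hDQ hdense c2 hc2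
    (hC.trans _ hc2 _ hc _ hc₀.mem hc2c hcc)
  have hq'Q := hDQ hq'
  have hc3c := hC.trans _ hc3 _ hc2 _ hc hc32 hc2c
  rcases ((hD ⟨q', hM.trans _ D.2 _ hq'⟩).1 hq').2 with ⟨-, h1⟩ | h1
  · exact h1 ⟨c3, hc3, hc3c, hF'⟩
  · exact hc₀.g2 q' hq'Q q hq h1 c3 hc3 (hC.trans _ hc3 _ hc _ hc₀.mem hc3c hcc)
      ⟨hF', frc_mono hC hc2 hc3 hc32 hF⟩

theorem exists_first (hM : ZModel M) (hQ : IsPoset M Q r) (hg : IsGeneric M Q r g)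
    (hC : IsPoset M C s) (hH : IsGeneric M C s H) (hn : n ∈ M)
    (hcode : ∀ q ∈ Q, q ∈ g ↔ ∃ p ∈ H, ZFSet.pair (cq q) p ∈ n) {c : ZFSet.{0}} (hc : c ∈ H) :
    ∃ q ∈ g, ∀ q' ∈ Q, ZFSet.pair q' q ∈ r → Tc C s n (cq q') c := by
  have hcM : c ∈ M := hM.trans _ hC.memQ _ (hH.sub _ hc)
  have d1 : DFc M fun z : M => z := DFc.id
  have d2 : DFc M fun z : M => prM hM z (natM hM 0) := (dfCq hM d1 :)
  have dc : DFc M fun _ : M => (⟨c, hcM⟩ : M) := DFc.const _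
  have hP1 : MD M fun z : M => ∀ q' ∈ Q, ZFSet.pair q' z.1 ∈ r → Tc C s n (cq q') c :=
    (mdAll hM hQ.memQ hQ.memr hC.memQ hC.memr hn d1 dc :)
  have hP2 : MD M fun z : M => Tc C s n (prM hM z (natM hM 0)).1 c :=
    (mdTc hM hC.memQ hC.memr hn d2 dc :)
  have hP : MD M fun z : M => (∀ q' ∈ Q, ZFSet.pair q' z.1 ∈ r → Tc C s n (cq q') c) ∨
      ¬ Tc C s n (prM hM z (natM hM 0)).1 c := hP1.or hP2.not
  obtain ⟨q, hq, h⟩ := exists_dense_mem hM hQ.memQ hg hP (by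
    intro x hx
    by_cases h1 : ∀ q' ∈ Q, ZFSet.pair q' x.1 ∈ r → Tc C s n (cq q') c
    · exact ⟨x, hx, hQ.refl _ hx, Or.inl h1⟩
    · have h2 : ∃ q' ∈ Q, ZFSet.pair q' x.1 ∈ r ∧ ¬ Tc C s n (cq q') c := by
        by_contra h3
        apply h1
        intro q' h4 h5
        by_contra h6
        exact h3 ⟨q', h4, h5, h6⟩
      obtain ⟨q', h3, h4, h5⟩ := h2
      exact ⟨⟨q', hM.trans _ hQ.memQ _ h3⟩, h3, h4, Or.inr h5⟩)
  refine ⟨q.1, hq, h.resolve_right (not_not.2 ?_)⟩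
  obtain ⟨p, hp, hpn⟩ := (hcode q.1 (hg.sub _ hq)).1 hq
  obtain ⟨c2, hc2, h1, h2⟩ := hH.dir p hp c hc
  exact ⟨c2, hH.sub _ hc2, h2, p, hH.sub _ hp, hpn, h1⟩

theorem good_generic (hM : ZModel M) (hQ : IsPoset M Q r) (hg : IsGeneric M Q r g)
    (hC : IsPoset M C s) (hH : IsGeneric M C s H) (hn : n ∈ M)
    (hcode : ∀ q ∈ Q, q ∈ g ↔ ∃ p ∈ H, ZFSet.pair (cq q) p ∈ n)
    (hc₀H : c₀ ∈ H) (hc₀ : Good M Q r C s n c₀) :
    ∃ Q' r' : ZFSet.{0}, PP M Q r C s Q' r' ∧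
      IsGeneric M Q' r' {w | w ∈ Q' ∧ ∃ q ∈ g, ∃ c ∈ H, w = ZFSet.pair q c} ∧
      ∀ c ∈ H, ZFSet.pair c c₀ ∈ s → ∃ q ∈ g, ZFSet.pair q c ∈ Q' := by
  have hc₀M : c₀ ∈ M := hM.trans _ hC.memQ _ hc₀.mem
  have hfst : DFc M fun p : M × M => p.1 := DFc.id.fst
  have hsnd : DFc M fun p : M × M => p.2 := DFc.id.snd
  have eQ : DFc M fun _ : M × M => (⟨Q, hQ.memQ⟩ : M) := DFc.const _
  have es : DFc M fun _ : M × M => (⟨s, hC.memr⟩ : M) := DFc.const _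
  have ec : DFc M fun _ : M × M => (⟨c₀, hc₀M⟩ : M) := DFc.const _
  have hP1 : MD M fun p : M × M => p.1.1 ∈ Q := (MD.mem hfst eQ :)
  have hP2 : MD M fun p : M × M => ZFSet.pair p.2.1 c₀ ∈ s := (MD.pair_mem hM hsnd ec es :)
  have hP3 : MD M fun p : M × M => ∀ q' ∈ Q, ZFSet.pair q' p.1.1 ∈ r → Tc C s n (cq q') p.2.1 :=
    (mdAll hM hQ.memQ hQ.memr hC.memQ hC.memr hn hfst hsnd :)
  have hP : MD M fun p : M × M => p.1.1 ∈ Q ∧ (ZFSet.pair p.2.1 c₀ ∈ s ∧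
      ∀ q' ∈ Q, ZFSet.pair q' p.1.1 ∈ r → Tc C s n (cq q') p.2.1) := hP1.and (hP2.and hP3)
  obtain ⟨Q', r', hPP, hQ'⟩ := exists_PP hM hQ hC
    (P := fun q c : M => q.1 ∈ Q ∧ (ZFSet.pair c.1 c₀ ∈ s ∧
      ∀ q' ∈ Q, ZFSet.pair q' q.1 ∈ r → Tc C s n (cq q') c.1)) hP (by
      rintro q c q' ⟨h1, h2, h3⟩ h4 h5
      exact ⟨h4, h2, fun q'' h6 h7 => h3 q'' h6 (hQ.trans _ h6 _ h4 _ h1 h7 h5)⟩)
  have hmem : ∀ {q c : ZFSet.{0}}, ZFSet.pair q c ∈ Q' ↔ q ∈ Q ∧ c ∈ C ∧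
      ZFSet.pair c c₀ ∈ s ∧ ∀ q' ∈ Q, ZFSet.pair q' q ∈ r → Tc C s n (cq q') c := by
    intro q c
    constructor
    · intro h
      have hpM : ZFSet.pair q c ∈ M := hM.trans _ hPP.memQ' _ h
      obtain ⟨h1, h2, h3⟩ := (hQ' ⟨q, hM.pair_left hpM⟩ ⟨c, hM.pair_right hpM⟩).1 h
      exact ⟨h1, h2, h3.2⟩
    · rintro ⟨h1, h2, h3⟩
      exact (hQ' ⟨q, hM.trans _ hQ.memQ _ h1⟩ ⟨c, hM.trans _ hC.memQ _ h2⟩).2 ⟨h1, h2, h1, h3⟩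
  have hlast : ∀ c ∈ H, ZFSet.pair c c₀ ∈ s → ∃ q ∈ g, ZFSet.pair q c ∈ Q' := by
    intro c hc hcc
    obtain ⟨q, hq, h⟩ := exists_first hM hQ hg hC hH hn hcode hc
    exact ⟨q, hq, hmem.2 ⟨hg.sub _ hq, hH.sub _ hc, hcc, h⟩⟩
  refine ⟨Q', r', hPP, ⟨fun x hx => hx.1, ?_, ?_, ?_, ?_⟩, hlast⟩
  · obtain ⟨q, hq, h⟩ := hlast c₀ hc₀H (hC.refl _ hc₀.mem)
    exact ⟨_, h, q, hq, c₀, hc₀H, rfl⟩
  · rintro x ⟨hx, q, hq, c, hc, rfl⟩ y hy hxy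
    obtain ⟨q1, hq1, c1, hc1, rfl⟩ := hPP.sub y hy
    obtain ⟨h1, h2⟩ := (hPP.rel _ _ _ _ hx hy).1 hxy
    exact ⟨hy, q1, hg.up _ hq _ hq1 h1, c1, hH.up _ hc _ hc1 h2, rfl⟩
  · rintro x ⟨hx, q, hq, c, hc, rfl⟩ y ⟨hy, q', hq', c', hc', rfl⟩
    obtain ⟨c1, hc1, h1, h2⟩ := hH.dir c hc c' hc'
    have hc1c₀ : ZFSet.pair c1 c₀ ∈ s := hC.trans _ (hH.sub _ hc1) _ (hH.sub _ hc) _ hc₀.mem h1
      (hmem.1 hx).2.2.1
    obtain ⟨q1, hq1, h3⟩ := hlast c1 hc1 hc1c₀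
    obtain ⟨q2, hq2, h4, h5⟩ := hg.dir q hq q' hq'
    obtain ⟨q3, hq3, h6, h7⟩ := hg.dir q1 hq1 q2 hq2
    have hQ3 := hg.sub _ hq3
    have hQ2 := hg.sub _ hq2
    have hw : ZFSet.pair q3 c1 ∈ Q' := hPP.down _ _ _ h3 hQ3 h6
    exact ⟨_, ⟨hw, q3, hq3, c1, hc1, rfl⟩,
      (hPP.rel _ _ _ _ hw hx).2 ⟨hQ.trans _ hQ3 _ hQ2 _ (hg.sub _ hq) h7 h4, h1⟩,
      (hPP.rel _ _ _ _ hw hy).2 ⟨hQ.trans _ hQ3 _ hQ2 _ (hg.sub _ hq') h7 h5, h2⟩⟩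
  · intro D hD hDQ hdense
    have hE : MD M fun z : M => (ZFSet.pair z.1 c₀ ∈ s ∧ ∃ q c' : M, ZFSet.pair q.1 c'.1 ∈ D ∧
        (ZFSet.pair z.1 c'.1 ∈ s ∧ Frc C s n (prM hM q (natM hM 0)).1 z.1)) ∨
        Inc C s z.1 c₀ := by
      have d1 : DFc M fun z : M => z := DFc.id
      have d2 : DFc M fun _ : M => (⟨s, hC.memr⟩ : M) := DFc.const _
      have d3 : DFc M fun _ : M => (⟨c₀, hc₀M⟩ : M) := DFc.const _
      have k1 : DFc M fun p : (M × M) × M => p.1.1 := DFc.id.fst.fst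
      have k2 : DFc M fun p : (M × M) × M => p.1.2 := DFc.id.fst.snd
      have k3 : DFc M fun p : (M × M) × M => p.2 := DFc.id.snd
      have k4 : DFc M fun _ : (M × M) × M => (⟨D, hD⟩ : M) := DFc.const _
      have k5 : DFc M fun _ : (M × M) × M => (⟨s, hC.memr⟩ : M) := DFc.const _
      have k6 : DFc M fun p : (M × M) × M => prM hM p.1.2 (natM hM 0) := (dfCq hM k2 :)
      have m1 : MD M fun z : M => ZFSet.pair z.1 c₀ ∈ s := (MD.pair_mem hM d1 d3 d2 :)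
      have m2 : MD M fun z : M => Inc C s z.1 c₀ := (mdInc hM hC.memQ hC.memr d1 d3 :)
      have m3 : MD M fun p : (M × M) × M => ZFSet.pair p.1.2.1 p.2.1 ∈ D :=
        (MD.pair_mem hM k2 k3 k4 :)
      have m4 : MD M fun p : (M × M) × M => ZFSet.pair p.1.1.1 p.2.1 ∈ s :=
        (MD.pair_mem hM k1 k3 k5 :)
      have m5 : MD M fun p : (M × M) × M => Frc C s n (prM hM p.1.2 (natM hM 0)).1 p.1.1.1 :=
        (mdFrc hM hC.memQ hC.memr hn k6 k1 :)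
      exact (m1.and (MD.ex (MD.ex (m3.and (m4.and m5))))).or m2
    obtain ⟨c, hc, h⟩ := exists_dense_mem hM hC.memQ hH hE (by
      intro x hx
      by_cases h1 : Inc C s x.1 c₀
      · exact ⟨x, hx, hC.refl _ hx, Or.inr h1⟩
      · obtain ⟨z, hz, hzx, hzc⟩ := not_not.1 h1
        obtain ⟨c2, hc2, h2, q, hq, h3⟩ := hc₀.g1 Q hQ.memQ (fun _ h => h)
          (fun x hx => ⟨x, hx, hQ.refl _ hx⟩) z hz hzc
        obtain ⟨q', hq', h4, h5⟩ := good_dense hM hQ hC hn hc₀ hq hz hzc ⟨c2, hc2, h2, h3⟩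
        have hw : ZFSet.pair q' z ∈ Q' := hmem.2 ⟨hq', hz, hzc, h5⟩
        obtain ⟨w, hwD, hww⟩ := hdense _ hw
        obtain ⟨q'', hq'', c'', hc'', rfl⟩ := hPP.sub w (hDQ hwD)
        obtain ⟨h6, h7⟩ := (hPP.rel _ _ _ _ (hDQ hwD) hw).1 hww
        obtain ⟨-, -, h8, h9⟩ := hmem.1 (hDQ hwD)
        obtain ⟨c3, hc3, h10, h11⟩ := h9 q'' hq'' (hQ.refl _ hq'')
        refine ⟨⟨c3, hM.trans _ hC.memQ _ hc3⟩, hc3,
          hC.trans _ hc3 _ hz _ hx (hC.trans _ hc3 _ hc'' _ hz h10 h7) hzx,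
          Or.inl ⟨hC.trans _ hc3 _ hc'' _ hc₀.mem h10 h8,
            ⟨q'', hM.trans _ hQ.memQ _ hq''⟩, ⟨c'', hM.trans _ hC.memQ _ hc''⟩, hwD, h10, h11⟩⟩)
    rcases h with ⟨h1, q, c', h2, h3, p, hp, h4, h5⟩ | h
    · obtain ⟨h6, h7, -⟩ := hmem.1 (hDQ h2)
      have hpH : p ∈ H := hH.up _ hc _ hp h5
      have hqg : q.1 ∈ g := (hcode q.1 h6).2 ⟨p, hpH, h4⟩
      exact ⟨_, ⟨hDQ h2, q.1, hqg, c'.1, hH.up _ hc _ h7 h3, rfl⟩, h2⟩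
    · obtain ⟨z, hz, h1, h2⟩ := hH.dir _ hc _ hc₀H
      exact absurd ⟨z, hH.sub _ hz, h1, h2⟩ h

end RMK
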