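import Pool.Agent.RMK.AbsA
import Pool.Agent.RMK.AbsB

/-!
RMK ABSC: the absorption lemma: every relation `Y` on the natural numbers has a name in an extension
of the given poset by a poset of pairs.

PROOF.  `hG.2` applied to `a = (Q × {0}) ∪ (ω³ × {1})`, more precisely the set `a = Q.prod {natZ 0} ∪
om3.prod {natZ 1}` (in `M` by `prodZ`, `unionZ`), and `z = {x ∈ a | (∃ q ∈ g, x = cq q) ∨ (∃ i j k, Y i j k ∧ x =
ct (nat3 i j k))}` (`ZFSet.sep`) gives a poset `(C, s)` of `M`, a generic filter `H` on it and `n ∈ M` with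
`x ∈ z ↔ x ∈ a ∧ ∃ p ∈ H, pair x p ∈ n`.  For `q ∈ Q`: `q ∈ g ↔ cq q ∈ z ↔ ∃ p ∈ H, pair (cq q) p ∈ n` (`cq q` is not
of the form `ct t`: `natZ_inj`, `ZFSet.pair_inj`).  For a triple `t = nat3 i j k`: `Y i j k ↔ ct t ∈ z ↔ ∃ p ∈ H,
pair (ct t) p ∈ n`.  Let `c₀` be from `exists_good` and `Q', r'`, `g'` from `good_generic`.
`σ₀ = {(t, (q, c)) ∈ om3 × Q' | ∃ p ∈ C, pair (ct t) p ∈ n ∧ c ≤ p}` is in `M` (`exists_sep` over `prodZ om3 Q'`,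
with the predicate `∃ t q c : M, z = pair t (pair q c) ∧ Frc C s n (ct t) c`).  `evR σ₀ g' = Y`: for `t = nat3 i
j k`: if `(q, c) ∈ g'` and `Frc (ct t) c`, then `c ∈ H`, `c ≤ p`, `p ∈ C`, so `p ∈ H` and `Y i j k`.  Conversely let
`Y i j k` and `p ∈ H` with `pair (ct t) p ∈ n`.  Take `c1 ∈ H` below `p` and `c₀`, and `q ∈ g` with `(q, c1) ∈ Q'`
(last clause of `good_generic`); then `(q, c1) ∈ g'` and `(t, (q, c1)) ∈ σ₀`.
-/

namespace RMK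

open Set

private theorem singleton_mem42 {M : Set ZFSet.{0}} (hM : ZModel M) {x : ZFSet.{0}} (hx : x ∈ M) :
    ({x} : ZFSet.{0}) ∈ M := by
  have h : ({x, x} : ZFSet.{0}) = {x} := by
    ext z
    rw [ZFSet.mem_pair, ZFSet.mem_singleton, or_self]
  rw [← h]
  exact hM.pair x hx x hx

private theorem natZ01_42 : natZ 0 ≠ natZ 1 := by
  intro h
  have := natZ_inj.mp h
  omega

private theorem md_sigma42 {M : Set ZFSet.{0}} (hM : ZModel M) (C s n o : M) :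
    MD M (fun z : M => ∃ t : M, ∃ q : M, ∃ c : M, z = prM hM t (prM hM q c) ∧
      ∃ p : M, p.1 ∈ C.1 ∧ ZFSet.pair (ZFSet.pair t.1 o.1) p.1 ∈ n.1 ∧
        ZFSet.pair c.1 p.1 ∈ s.1) := by
  refine MD.ex ?_
  refine MD.ex ?_
  refine MD.ex ?_
  refine MD.and (MD.eq ?_ (DFc.pr hM ?_ (DFc.pr hM ?_ ?_))) ?_
  · exact DFc.fst (DFc.fst (DFc.fst DFc.id))
  · exact DFc.snd (DFc.fst (DFc.fst DFc.id))
  · exact DFc.snd (DFc.fst DFc.id)
  · exact DFc.snd DFc.id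
  · refine MD.ex ?_
    refine MD.and (MD.mem (DFc.snd DFc.id) (DFc.const C)) (MD.and ?_ ?_)
    · exact MD.pair2_mem hM (DFc.snd (DFc.fst (DFc.fst (DFc.fst DFc.id)))) (DFc.const o)
        (DFc.snd DFc.id) (DFc.const n)
    · exact MD.pair_mem hM (DFc.snd (DFc.fst DFc.id)) (DFc.snd DFc.id) (DFc.const s)

theorem absorb {M : Set ZFSet.{0}} (hG : Ground M) {Q r : ZFSet.{0}} (hQ : IsPoset M Q r)
    {g : Set ZFSet.{0}} (hg : IsGeneric M Q r g) (Y : Rel) :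
    ∃ (C s Q' r' σ₀ : ZFSet.{0}) (g' : Set ZFSet.{0}), PP M Q r C s Q' r' ∧ σ₀ ∈ M ∧
      IsGeneric M Q' r' g' ∧ (∀ q c, ZFSet.pair q c ∈ g' → q ∈ g) ∧ evR σ₀ g' = Y := by
  classical
  have hM := hG.1
  set a : ZFSet.{0} := Q.prod {natZ 0} ∪ om3.prod {natZ 1} with ha
  have haM : a ∈ M := hM.unionZ (hM.prodZ hQ.memQ (singleton_mem42 hM (hM.natZ_mem 0)))
    (hM.prodZ hM.om3_mem (singleton_mem42 hM (hM.natZ_mem 1)))
  set z : ZFSet.{0} := ZFSet.sep (fun x => (∃ q ∈ g, x = cq q) ∨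
    (∃ i j k, Y i j k ∧ x = ct (nat3 i j k))) a with hz
  have hza : z ⊆ a := by
    intro x hx
    rw [hz, ZFSet.mem_sep] at hx
    exact hx.1
  obtain ⟨C, s, n, H, hC, hH, hn, hzn⟩ := hG.2 a haM z hza
  have hcqa : ∀ q ∈ Q, cq q ∈ a := by
    intro q hq
    rw [ha, ZFSet.mem_union]
    left
    unfold cq
    rw [ZFSet.pair_mem_prod, ZFSet.mem_singleton]
    exact ⟨hq, rfl⟩
  have hcta : ∀ i j k, ct (nat3 i j k) ∈ a := by
    intro i j k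
    rw [ha, ZFSet.mem_union]
    right
    unfold ct
    rw [ZFSet.pair_mem_prod, ZFSet.mem_singleton]
    exact ⟨mem_om3.mpr ⟨i, j, k, rfl⟩, rfl⟩
  have hcode : ∀ q ∈ Q, q ∈ g ↔ ∃ p ∈ H, ZFSet.pair (cq q) p ∈ n := by
    intro q hq
    have h1 : cq q ∈ z ↔ q ∈ g := by
      rw [hz, ZFSet.mem_sep]
      constructor
      · rintro ⟨-, ⟨q', hq', h⟩ | ⟨i, j, k, -, h⟩⟩
        · unfold cq at h
          rw [ZFSet.pair_inj] at h
          rw [h.1]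
          exact hq'
        · unfold cq ct at h
          rw [ZFSet.pair_inj] at h
          exact absurd h.2 natZ01_42
      · intro h
        exact ⟨hcqa q hq, Or.inl ⟨q, h, rfl⟩⟩
    rw [← h1, hzn]
    exact ⟨fun h => h.2, fun h => ⟨hcqa q hq, h⟩⟩
  have htri : ∀ i j k, Y i j k ↔ ∃ p ∈ H, ZFSet.pair (ct (nat3 i j k)) p ∈ n := by
    intro i j k
    have h1 : ct (nat3 i j k) ∈ z ↔ Y i j k := by
      rw [hz, ZFSet.mem_sep]
      constructor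
      · rintro ⟨-, ⟨q', hq', h⟩ | ⟨i', j', k', hY, h⟩⟩
        · unfold cq ct at h
          rw [ZFSet.pair_inj] at h
          exact absurd h.2.symm natZ01_42
        · unfold ct at h
          rw [ZFSet.pair_inj, nat3_inj] at h
          obtain ⟨⟨rfl, rfl, rfl⟩, -⟩ := h
          exact hY
      · intro h
        exact ⟨hcta i j k, Or.inr ⟨i, j, k, h, rfl⟩⟩
    rw [← h1, hzn]
    exact ⟨fun h => h.2, fun h => ⟨hcta i j k, h⟩⟩
  obtain ⟨c₀, hc₀H, hc₀⟩ := exists_good hM hQ hg hC hH hn hcode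
  obtain ⟨Q', r', hPP, hgen, hlast⟩ := good_generic hM hQ hg hC hH hn hcode hc₀H hc₀
  obtain ⟨σ₀, hσ₀⟩ := exists_sep hM
    (md_sigma42 hM ⟨C, hC.memQ⟩ ⟨s, hC.memr⟩ ⟨n, hn⟩ ⟨natZ 1, hM.natZ_mem 1⟩)
    (prodM hM ⟨om3, hM.om3_mem⟩ ⟨Q', hPP.memQ'⟩)
  have hprod : (prodM hM ⟨om3, hM.om3_mem⟩ ⟨Q', hPP.memQ'⟩).1 = om3.prod Q' := rfl
  refine ⟨C, s, Q', r', σ₀.1, {w | w ∈ Q' ∧ ∃ q ∈ g, ∃ c ∈ H, w = ZFSet.pair q c}, hPP, σ₀.2, hgen,
    ?_, ?_⟩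
  · rintro q c ⟨-, q', hq', c', -, h⟩
    rw [ZFSet.pair_inj] at h
    rw [h.1]
    exact hq'
  · funext i j k
    apply propext
    rw [htri i j k]
    constructor
    · rintro ⟨w, ⟨hw, q, hq, c, hc, rfl⟩, h⟩
      have hwM : ZFSet.pair q c ∈ M := hM.trans _ hPP.memQ' _ hw
      have hm : ZFSet.pair (nat3 i j k) (ZFSet.pair q c) ∈ M := hM.pairZ (hM.nat3_mem i j k) hwM
      obtain ⟨-, t, q', c', h1, p, hp, h2, h3⟩ := (hσ₀ ⟨_, hm⟩).mp h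
      have h4 : ZFSet.pair (nat3 i j k) (ZFSet.pair q c) =
          ZFSet.pair t.1 (ZFSet.pair q'.1 c'.1) := congrArg Subtype.val h1
      rw [ZFSet.pair_inj, ZFSet.pair_inj] at h4
      obtain ⟨h5, h6, h7⟩ := h4
      refine ⟨p.1, hH.up c hc p.1 hp ?_, ?_⟩
      · rw [h7]
        exact h3
      · unfold ct
        rw [h5]
        exact h2
    · rintro ⟨p, hp, h⟩
      obtain ⟨c1, hc1, h1, h2⟩ := hH.dir p hp c₀ hc₀H
      obtain ⟨q, hq, h3⟩ := hlast c1 hc1 h2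
      refine ⟨ZFSet.pair q c1, ⟨h3, q, hq, c1, hc1, rfl⟩, ?_⟩
      have hwM : ZFSet.pair q c1 ∈ M := hM.trans _ hPP.memQ' _ h3
      have hm : ZFSet.pair (nat3 i j k) (ZFSet.pair q c1) ∈ M := hM.pairZ (hM.nat3_mem i j k) hwM
      refine (hσ₀ ⟨_, hm⟩).mpr ⟨?_, ⟨nat3 i j k, hM.nat3_mem i j k⟩, ⟨q, hM.pair_left hwM⟩,
        ⟨c1, hM.pair_right hwM⟩, rfl, ⟨p, hM.trans _ hC.memQ _ (hH.sub p hp)⟩, hH.sub p hp, h, h1⟩
      rw [hprod]
      show ZFSet.pair (nat3 i j k) (ZFSet.pair q c1) ∈ om3.prod Q'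
      rw [ZFSet.pair_mem_prod]
      exact ⟨mem_om3.mpr ⟨i, j, k, rfl⟩, h3⟩

end RMK
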