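import Pool.Agent.RMK.Defs

/-!
RMK CLUB: the calculus of closed unbounded and stationary families of countable sets.

PROOFS.
`exists_closed_superset`: `N = ⋃ k, A k` with `A 0 = S₀ ∪ {F []}`, `A (k+1) = A k ∪ F '' {l | ∀ z ∈ l, z ∈ A k}`.
The set of lists over a countable set is countable (`Set.Countable` of lists: `List (A k)` is
countable, `l` is a map of such a list).  A list over the union of the increasing sequence lies in
one `A k` (induction on the list).
`club_forall`: let `F n` be the given functions.  Put `G l = F (l.length.unpair.1) (l.take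
(l.length.unpair.2))`.  If `N` is closed under `G`, then `a := G [] = F 0 []` is in `N` (`Nat.unpair 0 =
(0, 0)`), and for a list `l` over `N` and `n`, the list `l' = l ++ List.replicate (Nat.pair n l.length -
l.length) a` is over `N`, has length `Nat.pair n l.length` (`Nat.right_le_pair`), so
`G l' = F n (l'.take l.length) = F n l`.
`club_comap`: `G l = if h : ∀ z ∈ l, z ∈ range j then j (F (l.attach.map ...))`, i.e. if `l = l₀.map j` for
some `l₀` then `j (F l₀)` for the (unique, `j` injective) such `l₀`, else anything, e.g. `j (F [])`.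
The preimage of a countable set under an injective map is countable.
`StatMany.lift`: let `F : List S → S` be given.  Let `Tm` be the countable type of terms (e.g. natural
numbers: `ev : ℕ → (ℕ → S) → S` with `ev (2 k) v = v k` and `ev (2 k + 1) v = F (list)` where `list` is the
decoding (`Denumerable.ofNat (List ℕ) k`, all entries `< 2 k + 1`) mapped by `fun m => ev m v`; or an
inductive type `Tm` with `var : ℕ → Tm` and `app : List Tm → Tm`).  For a nonempty countable `N ⊆ T` the
set `N' = {ev t v | t, v : ℕ → S with values in j '' N}` is closed under `F` (finitely many terms with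
different `v` can be combined: it is simpler to use lists: for `l : List T` let `v_l i = j (l.getD i a)`
with a fixed `a ∈ N`; or simply take an enumeration `e : ℕ → T` with range `N` and the single
assignment `v = j ∘ e`, so that `N' = {ev t (j ∘ e) | t}` is clearly countable, contains `j '' N` and is
closed under `F`).  Every `ev t v` depends only on finitely many values `v i`, so there is, for each `t`,
a function `H t : List T → T` with: if `ev t (fun i => j (l.getD i a)) = j x` then `H t l = x` (where
`a = l.headD ..`), and for `N` closed under all `H t` (`club_forall` and `Encodable`) we get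
`j ⁻¹' N' = N`: if `ev t (j ∘ e) = j x`, let `l` be the list `e 0, ..., e K` with `K` large, then
`ev t (fun i => j (l.getD i (e 0))) = ev t (j ∘ e) = j x`, so `x = H t l ∈ N`.  Apply `StatMany Q` to the
function `List T → T` given by `club_forall` for the `H t`.
-/

namespace RMK

open Set

universe u v

variable {S : Type u} {T : Type v}

private def clStep (F : List S → S) (A : Set S) : Set S :=
  A ∪ F '' {l | ∀ z ∈ l, z ∈ A}

private theorem clStep_countable (F : List S → S) {A : Set S} (h : A.Countable) :
    (clStep F A).Countable := by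
  refine h.union (Set.Countable.image ?_ F)
  haveI := h.to_subtype
  refine (Set.countable_range (fun l : List A => l.map Subtype.val)).mono ?_
  intro l hl
  refine ⟨l.attach.map fun z => ⟨z.1, hl z.1 z.2⟩, ?_⟩
  simp only [List.map_map, Function.comp_def]
  exact List.attach_map_subtype_val l

private def clSeq (F : List S → S) (S₀ : Set S) : ℕ → Set S
  | 0 => S₀
  | k + 1 => clStep F (clSeq F S₀ k)

private theorem clSeq_countable (F : List S → S) {S₀ : Set S} (h : S₀.Countable) (k : ℕ) :
    (clSeq F S₀ k).Countable := by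
  induction k with
  | zero => exact h
  | succ k ih => exact clStep_countable F ih

private theorem clSeq_mono (F : List S → S) (S₀ : Set S) : Monotone (clSeq F S₀) :=
  monotone_nat_of_le_succ fun _ => Set.subset_union_left

private theorem clSeq_list (F : List S → S) (S₀ : Set S) (l : List S)
    (h : ∀ z ∈ l, z ∈ ⋃ k, clSeq F S₀ k) : ∃ k, ∀ z ∈ l, z ∈ clSeq F S₀ k := by
  induction l with
  | nil => exact ⟨0, by simp⟩
  | cons x l ih =>
    obtain ⟨k, hk⟩ := ih fun z hz => h z (List.mem_cons_of_mem _ hz)
    obtain ⟨m, hm⟩ := Set.mem_iUnion.1 (h x List.mem_cons_self)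
    refine ⟨max k m, fun z hz => ?_⟩
    rcases List.mem_cons.1 hz with rfl | hz
    · exact clSeq_mono F S₀ (le_max_right _ _) hm
    · exact clSeq_mono F S₀ (le_max_left _ _) (hk z hz)

theorem exists_closed_superset (F : List S → S) {S₀ : Set S} (h : S₀.Countable) :
    ∃ N : Set S, S₀ ⊆ N ∧ N.Countable ∧ Closed F N := by
  refine ⟨⋃ k, clSeq F S₀ k, Set.subset_iUnion (clSeq F S₀) 0,
    Set.countable_iUnion fun k => clSeq_countable F h k, ?_⟩
  intro l hl
  obtain ⟨k, hk⟩ := clSeq_list F S₀ l hl
  exact Set.mem_iUnion.2 ⟨k + 1, Or.inr ⟨l, hk, rfl⟩⟩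

theorem ClubMany.mono {Q Q' : Set S → Prop} (hQ : ClubMany Q)
    (h : ∀ N : Set S, N.Countable → Q N → Q' N) : ClubMany Q' := by
  obtain ⟨F, hF⟩ := hQ
  exact ⟨F, fun N hN hc => h N hN (hF N hN hc)⟩

theorem club_closed (F : List S → S) : ClubMany (Closed F) :=
  ⟨F, fun _ _ h => h⟩

theorem club_forall {Q : ℕ → Set S → Prop} (h : ∀ n, ClubMany (Q n)) :
    ClubMany fun N => ∀ n, Q n N := by
  choose F hF using h
  refine ⟨fun l => F (Nat.unpair l.length).1 (l.take (Nat.unpair l.length).2), ?_⟩
  intro N hN hc n
  have h0 : F 0 [] ∈ N := by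
    have := hc [] (by simp)
    simpa using this
  refine hF n N hN ?_
  intro l hl
  have hle : l.length ≤ Nat.pair n l.length := Nat.right_le_pair _ _
  have h1 := hc (l ++ List.replicate (Nat.pair n l.length - l.length) (F 0 [])) (by
    intro z hz
    rcases List.mem_append.1 hz with hz | hz
    · exact hl z hz
    · rw [List.eq_of_mem_replicate hz]
      exact h0)
  have hlen : (l ++ List.replicate (Nat.pair n l.length - l.length) (F 0 [])).length =
      Nat.pair n l.length := by
    rw [List.length_append, List.length_replicate]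
    omega
  beta_reduce at h1
  rw [hlen, Nat.unpair_pair] at h1
  dsimp only at h1
  rwa [List.take_left'] at h1
  rfl

theorem ClubMany.and {Q Q' : Set S → Prop} (hQ : ClubMany Q) (hQ' : ClubMany Q') :
    ClubMany fun N => Q N ∧ Q' N := by
  have h := club_forall (Q := fun n => if n = 0 then Q else Q') (by
    intro n
    by_cases hn : n = 0
    · rw [if_pos hn]; exact hQ
    · rw [if_neg hn]; exact hQ')
  refine h.mono fun N _ hN => ⟨?_, ?_⟩
  · have := hN 0
    simpa using this
  · have := hN 1
    simpa using this

theorem club_mem (a : S) : ClubMany fun N => a ∈ N :=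
  ⟨fun _ => a, fun _ _ h => h [] (by simp)⟩

theorem club_map [Nonempty S] (f : S → S) : ClubMany fun N => ∀ x ∈ N, f x ∈ N := by
  refine ⟨fun l => match l with
    | [] => Classical.arbitrary S
    | x :: _ => f x, ?_⟩
  intro N _ hc x hx
  exact hc [x] (by simpa using hx)

theorem club_map2 [Nonempty S] (f : S → S → S) :
    ClubMany fun N => ∀ x ∈ N, ∀ y ∈ N, f x y ∈ N := by
  refine ⟨fun l => match l with
    | x :: y :: _ => f x y
    | _ => Classical.arbitrary S, ?_⟩
  intro N _ hc x hx y hy
  exact hc [x, y] (by
    intro z hz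
    simp only [List.mem_cons, List.not_mem_nil, or_false] at hz
    rcases hz with rfl | rfl
    · exact hx
    · exact hy)

theorem club_comap {j : T → S} (hj : Function.Injective j) {Q : Set T → Prop}
    (hQ : ClubMany Q) : ClubMany fun N : Set S => Q (j ⁻¹' N) := by
  classical
  obtain ⟨F, hF⟩ := hQ
  refine ⟨fun l => if h : ∃ l₀ : List T, l₀.map j = l then j (F h.choose) else j (F []), ?_⟩
  intro N hN hc
  refine hF _ (hN.preimage hj) ?_
  intro l₀ hl
  have h1 := hc (l₀.map j) (by
    intro z hz
    obtain ⟨x, hx, rfl⟩ := List.mem_map.1 hz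
    exact hl x hx)
  have h2 : ∃ l₁ : List T, l₁.map j = l₀.map j := ⟨l₀, rfl⟩
  beta_reduce at h1
  rw [dif_pos h2] at h1
  have h3 : h2.choose = l₀ := List.map_injective_iff.2 hj h2.choose_spec
  rw [h3] at h1
  exact h1

theorem StatMany.and_club {Q Q' : Set S → Prop} (hQ : StatMany Q) (hQ' : ClubMany Q') :
    StatMany fun N => Q N ∧ Q' N := by
  intro F
  obtain ⟨G, hG⟩ := (club_closed F).and hQ'
  obtain ⟨N, h1, h2, h3⟩ := hQ G
  exact ⟨N, h1, (hG N h1 h2).1, h3, (hG N h1 h2).2⟩

/-- the smallest closed superset -/
private def clo (F : List S → S) (A : Set S) : Set S := {x | ∀ N, A ⊆ N → Closed F N → x ∈ N}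

private theorem clo_mono (F : List S → S) {A B : Set S} (h : A ⊆ B) : clo F A ⊆ clo F B :=
  fun _ hx N hN hc => hx N (h.trans hN) hc

private theorem sub_clo (F : List S → S) (A : Set S) : A ⊆ clo F A := fun _ hx _ hN _ => hN hx

private theorem clo_closed (F : List S → S) (A : Set S) : Closed F (clo F A) :=
  fun _ hl N hN hc => hc _ fun z hz => hl z hz N hN hc

private theorem clo_countable (F : List S → S) {A : Set S} (h : A.Countable) :
    (clo F A).Countable := by
  obtain ⟨N, h1, h2, h3⟩ := exists_closed_superset F h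
  exact h2.mono fun x hx => hx N h1 h3

theorem StatMany.lift [Nonempty T] {j : T → S} (hj : Function.Injective j) {Q : Set T → Prop}
    (hQ : StatMany Q) : StatMany fun N : Set S => Q (j ⁻¹' N) := by
  intro F
  have hc : ∀ l : List T, (j ⁻¹' clo F (j '' {x | x ∈ l})).Countable := by
    intro l
    refine (clo_countable F ?_).preimage hj
    exact (List.finite_toSet l).countable.image j
  have hH : ∀ l : List T, ∃ H : ℕ → T, j ⁻¹' clo F (j '' {x | x ∈ l}) ⊆ Set.range H := by
    intro l
    rcases (j ⁻¹' clo F (j '' {x | x ∈ l})).eq_empty_or_nonempty with h0 | h0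
    · exact ⟨fun _ => Classical.arbitrary T, by rw [h0]; exact Set.empty_subset _⟩
    · obtain ⟨H, hH⟩ := (hc l).exists_eq_range h0
      exact ⟨H, hH.subset⟩
  choose H hH using hH
  obtain ⟨G, hG⟩ := club_forall (S := T) fun n => club_closed fun l => H l n
  obtain ⟨N, h1, h2, h3⟩ := hQ G
  have h4 := hG N h1 h2
  refine ⟨⋃ l ∈ {l : List T | ∀ x ∈ l, x ∈ N}, clo F (j '' {x | x ∈ l}), ?_, ?_, ?_⟩
  · refine Set.Countable.biUnion ?_ fun l _ => clo_countable F
      ((List.finite_toSet l).countable.image j)
    haveI := h1.to_subtype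
    refine (Set.countable_range (fun l : List N => l.map Subtype.val)).mono ?_
    intro l hl
    refine ⟨l.attach.map fun z => ⟨z.1, hl z.1 z.2⟩, ?_⟩
    simp only [List.map_map, Function.comp_def]
    exact List.attach_map_subtype_val l
  · intro l hl
    have h5 : ∀ l : List S, (∀ z ∈ l, z ∈ ⋃ l ∈ {l : List T | ∀ x ∈ l, x ∈ N},
        clo F (j '' {x | x ∈ l})) → ∃ l' : List T, (∀ x ∈ l', x ∈ N) ∧
        ∀ z ∈ l, z ∈ clo F (j '' {x | x ∈ l'}) := by
      intro l
      induction l with
      | nil => exact fun _ => ⟨[], by simp, by simp⟩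
      | cons x l ih =>
        intro h
        obtain ⟨l1, h6, h7⟩ := ih fun z hz => h z (List.mem_cons_of_mem _ hz)
        obtain ⟨l2, h8, h9⟩ := Set.mem_iUnion₂.1 (h x List.mem_cons_self)
        refine ⟨l1 ++ l2, ?_, ?_⟩
        · intro y hy
          rcases List.mem_append.1 hy with hy | hy
          · exact h6 y hy
          · exact h8 y hy
        · intro z hz
          rcases List.mem_cons.1 hz with rfl | hz
          · exact clo_mono F (Set.image_mono fun y hy => List.mem_append_right _ hy) h9
          · exact clo_mono F (Set.image_mono fun y hy => List.mem_append_left _ hy) (h7 z hz)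
    obtain ⟨l', h6, h7⟩ := h5 l hl
    exact Set.mem_iUnion₂.2 ⟨l', h6, clo_closed F _ l h7⟩
  · have h5 : j ⁻¹' (⋃ l ∈ {l : List T | ∀ x ∈ l, x ∈ N}, clo F (j '' {x | x ∈ l})) = N := by
      ext x
      constructor
      · intro hx
        obtain ⟨l, h6, h7⟩ := Set.mem_iUnion₂.1 hx
        obtain ⟨n, rfl⟩ := hH l h7
        exact h4 n l h6
      · intro hx
        refine Set.mem_iUnion₂.2 ⟨[x], ?_, ?_⟩
        · intro y hy
          rw [List.mem_singleton.1 hy]
          exact hx
        · exact sub_clo F _ ⟨x, by simp, rfl⟩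
    beta_reduce
    rw [h5]
    exact h3

theorem ClubMany.exists {Q : Set S → Prop} (hQ : ClubMany Q) {S₀ : Set S} (h : S₀.Countable) :
    ∃ N : Set S, S₀ ⊆ N ∧ N.Countable ∧ Q N := by
  obtain ⟨F, hF⟩ := hQ
  obtain ⟨N, h1, h2, h3⟩ := exists_closed_superset F h
  exact ⟨N, h1, h2, hF N h2 h3⟩

end RMK
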