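import Pool.Agent.RMK.LevCol

/-!
RMK LEVEX: existence of codes of relative levels, countability.  (Adapt `PU/LEx.lean`.)

PROOFS.
`defSetsR_countable`: as `defSets_countable` (with `sat_congr (relE A) M φ`).
`LR_countable`: as `L_countable`.
`exists_lcodeR`: as `exists_lcode`.  Let `ι : LR (ords S) β → ℕ` be injective and `π` an inverse.  Put
`cd E m n` iff (`m = ι x`, `n = ι y`, `x ∈ y`) or (`m = n ∉ range ι`), and
`cd E' m n` iff (`m = ι x`, `n = ι y` and `relE (ords S) x y`) or (`m = n ∉ range ι`) (the second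
alternative is irrelevant).  Put `ρ (ι x)` = least `γ` with `x ∈ DefSetsR (ords S) (LR (ords S) γ)`.
Clauses 1 to 4 as in `exists_lcode` (with `sat_iso` for `relE (ords S)` and `cd E'`), clause 5: for
`x ≠ y`, `relE A x y ↔ x ∈ y`.  `Link`: `cd E' (ι x) (ι x) ↔ x ∈ ords S ↔ ∃ α ∈ S, x = α.1.toZFSet`,
and for `α : Om`, `VN E (ι x) α ↔ x = α.1.toZFSet`: proved as in `vn_iff` (both directions are direct
from transitivity of the level and the definition of `E`).
-/

namespace RMK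

open MeasureTheory Set PU

private theorem lvx_ord (ξ : Om) (z : ZFSet.{0}) :
    z ∈ ξ.1.toZFSet ↔ ∃ ξ' : Om, ξ' < ξ ∧ ξ'.1.toZFSet = z := by
  rw [Ordinal.mem_toZFSet_iff]
  constructor
  · rintro ⟨a, ha, rfl⟩
    exact ⟨⟨a, ha.trans ξ.2⟩, ha, rfl⟩
  · rintro ⟨ξ', h1, rfl⟩
    exact ⟨ξ'.1, h1, rfl⟩

theorem defSetsR_countable (A : Set ZFSet.{0}) {M : Set ZFSet.{0}} (hM : M.Countable) :
    (DefSetsR A M).Countable := by
  classical
  rcases M.eq_empty_or_nonempty with hE | hne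
  · refine (Set.countable_singleton (∅ : ZFSet.{0})).mono ?_
    rintro x ⟨φ, s, -, h⟩
    rw [Set.mem_singleton_iff, ZFSet.eq_empty]
    intro z hz
    have h1 := ((h z).1 hz).1
    rw [hE] at h1
    exact h1
  have hc := hM.to_subtype
  have hF := fml_countable
  have key : ∀ x : DefSetsR A M, ∃ p : Fml × List M, ∃ s : ℕ → M,
      p.2 = (List.range (sat_congr (relE A) M p.1).choose).map s ∧
      ∀ z, z ∈ x.1 ↔ z ∈ M ∧ Sat (relE A) M p.1
        (Function.update (fun i => (s i : ZFSet.{0})) 0 z) := by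
    rintro ⟨x, φ, s, h1, h2⟩
    exact ⟨(φ, (List.range (sat_congr (relE A) M φ).choose).map
      fun i => ⟨s i, h1 hne i⟩), fun i => ⟨s i, h1 hne i⟩, rfl, h2⟩
  choose f s hf1 hf2 using key
  have hinj : Function.Injective f := by
    intro x y hxy
    apply Subtype.ext
    have h3 : ∀ z, Sat (relE A) M (f x).1
        (Function.update (fun i => (s x i : ZFSet.{0})) 0 z) ↔
        Sat (relE A) M (f y).1
        (Function.update (fun i => (s y i : ZFSet.{0})) 0 z) := by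
      intro z
      rw [← hxy]
      refine (sat_congr (relE A) M (f x).1).choose_spec _ _ fun i hi => ?_
      by_cases hi0 : i = 0
      · subst hi0
        simp
      · rw [Function.update_of_ne hi0, Function.update_of_ne hi0]
        have h4 := hf1 x
        have h5 := hf1 y
        rw [← hxy] at h5
        have h6 := h4.symm.trans h5
        have h7 := List.map_eq_map_iff.1 h6 i (List.mem_range.2 hi)
        rw [h7]
    apply ZFSet.ext
    intro z
    rw [hf2 x z, hf2 y z, h3 z]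
  exact Set.countable_coe_iff.1 hinj.countable

theorem LR_countable (A : Set ZFSet.{0}) (β : Om) : (LR A β.1).Countable := by
  have key : ∀ γ : Ordinal.{0}, γ < Ordinal.omega 1 → (LR A γ).Countable := by
    intro γ
    induction γ using WellFoundedLT.induction with
    | ind γ ih =>
      intro hγ
      have h1 : LR A γ ⊆ ⋃ δ ∈ Iio γ, DefSetsR A (LR A δ) := by
        intro z hz
        obtain ⟨δ, hδ, h⟩ := mem_LR_iff.1 hz
        exact mem_biUnion hδ h
      refine Set.Countable.mono h1 ((lt_omega1_iff.1 hγ).biUnion fun δ hδ => ?_)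
      exact defSetsR_countable A (ih δ hδ (lt_trans hδ hγ))
  exact key β.1 β.2

theorem exists_lcodeR (S : Set Om) (β : Om) : ∃ E E' ρ, LCodeR β E E' ρ ∧ Link E E' S := by
  classical
  obtain ⟨A, hA⟩ : ∃ A, A = ords S := ⟨_, rfl⟩
  obtain ⟨ι, hι⟩ := Set.countable_iff_exists_injOn.1 (LR_countable A β)
  obtain ⟨Z, hZ⟩ : ∃ Z, Z = LR A β.1 := ⟨_, rfl⟩
  rw [← hZ] at hι
  -- the inverse of the numbering
  obtain ⟨π, hπ⟩ : ∃ π : ℕ → ZFSet.{0}, ∀ x ∈ Z, π (ι x) = x :=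
    ⟨Function.invFunOn ι Z, fun x hx => hι.leftInvOn_invFunOn hx⟩
  let R : ℕ → ℕ → Prop := fun m n =>
    (∃ x ∈ Z, ∃ y ∈ Z, x ∈ y ∧ m = ι x ∧ n = ι y) ∨ (m = n ∧ m ∉ ι '' Z)
  let R' : ℕ → ℕ → Prop := fun m n => ∃ x ∈ Z, ∃ y ∈ Z, relE A x y ∧ m = ι x ∧ n = ι y
  let E : ℕ → Bool := fun k => decide (R k.unpair.1 k.unpair.2)
  let E' : ℕ → Bool := fun k => decide (R' k.unpair.1 k.unpair.2)
  have hE : ∀ m n, cd E m n ↔ R m n := by
    intro m n
    unfold cd
    simp only [E, Nat.unpair_pair, decide_eq_true_eq]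
  have hE' : ∀ m n, cd E' m n ↔ R' m n := by
    intro m n
    unfold cd
    simp only [E', Nat.unpair_pair, decide_eq_true_eq]
  let rko : ZFSet.{0} → Ordinal.{0} := fun x => sInf {γ | x ∈ DefSetsR A (LR A γ)}
  have hrk : ∀ x ∈ Z, x ∈ DefSetsR A (LR A (rko x)) ∧ rko x < β.1 := by
    intro x hx
    rw [hZ] at hx
    obtain ⟨γ, hγ, h⟩ := mem_LR_iff.1 hx
    have h1 : γ ∈ {γ | x ∈ DefSetsR A (LR A γ)} := h
    exact ⟨csInf_mem (s := {γ | x ∈ DefSetsR A (LR A γ)}) ⟨γ, h1⟩,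
      lt_of_le_of_lt (csInf_le' h1) hγ⟩
  have hrk2 : ∀ x γ, x ∈ DefSetsR A (LR A γ) → rko x ≤ γ := fun x γ h => csInf_le' h
  let ρ : ℕ → Om := fun n => if h : rko (π n) < Ordinal.omega 1 then ⟨rko (π n), h⟩ else default
  have hρ : ∀ x ∈ Z, (ρ (ι x)).1 = rko x := by
    intro x hx
    have h1 : rko (π (ι x)) < Ordinal.omega 1 := by
      rw [hπ x hx]
      exact lt_trans (hrk x hx).2 β.2
    simp only [ρ]
    rw [dif_pos h1]
    show rko (π (ι x)) = rko x
    rw [hπ x hx]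
  have hdiag : ∀ n, ¬ cd E n n ↔ n ∈ ι '' Z := by
    intro n
    rw [hE]
    constructor
    · intro h
      by_contra hn
      exact h (Or.inr ⟨rfl, hn⟩)
    · intro hn h
      rcases h with ⟨x, hx, y, hy, hxy, h1, h2⟩ | ⟨-, h⟩
      · have h3 := hι hx hy (h1.symm.trans h2)
        rw [h3] at hxy
        exact ZFSet.mem_irrefl _ hxy
      · exact h hn
  have hmem : ∀ x ∈ Z, ∀ y ∈ Z, (cd E (ι x) (ι y) ↔ x ∈ y) := by
    intro x hx y hy
    rw [hE]
    constructor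
    · rintro (⟨x', hx', y', hy', hxy, h1, h2⟩ | ⟨-, h⟩)
      · rw [hι hx hx' h1, hι hy hy' h2]
        exact hxy
      · exact absurd ⟨x, hx, rfl⟩ h
    · intro h
      exact Or.inl ⟨x, hx, y, hy, h, rfl, rfl⟩
  have hmemR : ∀ x ∈ Z, ∀ y ∈ Z, (cd E' (ι x) (ι y) ↔ relE A x y) := by
    intro x hx y hy
    rw [hE']
    constructor
    · rintro ⟨x', hx', y', hy', hxy, h1, h2⟩
      rw [hι hx hx' h1, hι hy hy' h2]
      exact hxy
    · intro h
      exact ⟨x, hx, y, hy, h, rfl, rfl⟩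
  have hmem' : ∀ b, ∀ y ∈ Z, cd E b (ι y) → ∃ x ∈ Z, x ∈ y ∧ b = ι x := by
    intro b y hy h
    rw [hE] at h
    rcases h with ⟨x', hx', y', hy', hxy, h1, h2⟩ | ⟨h1, h⟩
    · exact ⟨x', hx', by rw [hι hy hy' h2]; exact hxy, h1⟩
    · exact absurd (h1 ▸ ⟨y, hy, rfl⟩) h
  have htr : ∀ x ∈ Z, ∀ y, y ∈ x → y ∈ Z := by
    intro x hx y hy
    rw [hZ] at hx ⊢
    exact LR_transitive hx hy
  have hsub : ∀ γ : Om, γ ≤ β → LR A γ.1 ⊆ Z := by
    intro γ hγ
    rw [hZ]
    exact LR_mono hγ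
  have hlset : ∀ γ : Om, γ ≤ β → lset E ρ γ = ι '' LR A γ.1 := by
    intro γ hγ
    ext b
    constructor
    · rintro ⟨h1, h2⟩
      obtain ⟨x, hx, rfl⟩ := (hdiag b).1 h1
      refine ⟨x, mem_LR_iff.2 ⟨rko x, ?_, (hrk x hx).1⟩, rfl⟩
      rw [← hρ x hx]
      exact h2
    · rintro ⟨x, hx, rfl⟩
      have hxZ := hsub γ hγ hx
      refine ⟨(hdiag _).2 ⟨x, hxZ, rfl⟩, ?_⟩
      obtain ⟨γ', h1, h2⟩ := mem_LR_iff.1 hx
      show (ρ (ι x)).1 < γ.1
      rw [hρ x hxZ]
      exact lt_of_le_of_lt (hrk2 x γ' h2) h1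
  have hkey : ∀ γ : Om, γ ≤ β → ∀ (φ : Fml) (t : ℕ → ZFSet.{0}), (∀ i, t i ∈ LR A γ.1) →
      ∀ z ∈ LR A γ.1, (Sat (cd E') (lset E ρ γ) φ (Function.update (fun i => ι (t i)) 0 (ι z)) ↔
        Sat (relE A) (LR A γ.1) φ (Function.update t 0 z)) := by
    intro γ hγ φ t ht z hz
    rw [hlset γ hγ]
    have h1 := sat_iso (E := relE A) (F := cd E') (M := LR A γ.1)
      (N := ι '' LR A γ.1) ι (fun a ha => ⟨a, ha, rfl⟩) (fun b hb => hb)
      (fun a ha b hb => hmemR a (hsub γ hγ ha) b (hsub γ hγ hb))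
      (fun a ha b hb hab => hι (hsub γ hγ ha) (hsub γ hγ hb) hab) φ (Function.update t 0 z)
      (fun i => by
        by_cases hi : i = 0
        · subst hi
          simpa using hz
        · rw [Function.update_of_ne hi]
          exact ht i)
    have h2 : (fun i => ι (Function.update t 0 z i)) =
        Function.update (fun i => ι (t i)) 0 (ι z) := by
      funext i
      by_cases hi : i = 0
      · subst hi
        simp
      · rw [Function.update_of_ne hi, Function.update_of_ne hi]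
    rw [h2] at h1
    exact h1
  refine ⟨E, E', ρ, ⟨?_, ?_, ?_, ?_, ?_⟩, ?_⟩
  · intro a ha
    obtain ⟨x, hx, rfl⟩ := (hdiag a).1 ha
    show (ρ (ι x)).1 < β.1
    rw [hρ x hx]
    exact (hrk x hx).2
  · intro a ha
    obtain ⟨x, hx, rfl⟩ := (hdiag a).1 ha
    obtain ⟨γ, hγ⟩ : ∃ γ, γ = ρ (ι x) := ⟨_, rfl⟩
    rw [← hγ]
    have hγ1 : γ.1 = rko x := by rw [hγ, hρ x hx]
    have hγβ : γ ≤ β := by
      show γ.1 ≤ β.1
      rw [hγ1]
      exact (hrk x hx).2.le
    obtain ⟨φ, t, h1, h2⟩ := (hrk x hx).1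
    rw [← hγ1] at h1 h2
    have hne : (lset E ρ γ).Nonempty → (LR A γ.1).Nonempty := by
      rw [hlset γ hγβ]
      rintro ⟨_, z, hz, -⟩
      exact ⟨z, hz⟩
    refine ⟨φ, fun i => ι (t i), fun h i => ?_, fun b => ?_⟩
    · rw [hlset γ hγβ]
      exact ⟨t i, h1 (hne h) i, rfl⟩
    · constructor
      · intro hb
        obtain ⟨z, hz, hzx, rfl⟩ := hmem' b x hx hb
        obtain ⟨h3, h4⟩ := (h2 z).1 hzx
        refine ⟨by rw [hlset γ hγβ]; exact ⟨z, h3, rfl⟩, ?_⟩
        exact (hkey γ hγβ φ t (h1 ⟨z, h3⟩) z h3).2 h4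
      · rintro ⟨h3, h4⟩
        rw [hlset γ hγβ] at h3
        obtain ⟨z, hz, rfl⟩ := h3
        have h5 := (hkey γ hγβ φ t (h1 ⟨z, hz⟩) z hz).1 h4
        exact (hmem z (hsub γ hγβ hz) x hx).2 ((h2 z).2 ⟨hz, h5⟩)
  · intro γ hγ φ s hs
    have hγβ : γ ≤ β := hγ.le
    have hcount : ({z | z ∈ LR A γ.1 ∧ Sat (relE A) (LR A γ.1) φ
        (Function.update (fun i => π (s i)) 0 z)} : Set ZFSet.{0}).Countable :=
      (LR_countable A γ).mono fun z hz => hz.1
    have hc := hcount.to_subtype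
    obtain ⟨x, hx⟩ : ∃ x : ZFSet.{0}, ∀ z, z ∈ x ↔ z ∈ LR A γ.1 ∧
        Sat (relE A) (LR A γ.1) φ
          (Function.update (fun i => π (s i)) 0 z) := by
      refine ⟨ZFSet.range fun z : ({z | z ∈ LR A γ.1 ∧ Sat (relE A) (LR A γ.1) φ
        (Function.update (fun i => π (s i)) 0 z)} : Set ZFSet.{0}) => z.1, fun z => ?_⟩
      rw [ZFSet.mem_range]
      constructor
      · rintro ⟨z', rfl⟩
        exact z'.2
      · intro hz
        exact ⟨⟨z, hz⟩, rfl⟩
    have hs2 : (LR A γ.1).Nonempty → ∀ i, π (s i) ∈ LR A γ.1 ∧ ι (π (s i)) = s i := by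
      rintro ⟨z, hz⟩ i
      have h1 := hs (by rw [hlset γ hγβ]; exact ⟨ι z, z, hz, rfl⟩) i
      rw [hlset γ hγβ] at h1
      obtain ⟨y, hy, h2⟩ := h1
      rw [← h2, hπ y (hsub γ hγβ hy)]
      exact ⟨hy, rfl⟩
    have hxD : x ∈ DefSetsR A (LR A γ.1) := ⟨φ, fun i => π (s i), fun h i => (hs2 h i).1, hx⟩
    have hxZ : x ∈ Z := by
      rw [hZ]
      exact mem_LR_iff.2 ⟨γ.1, hγ, hxD⟩
    refine ⟨ι x, (hdiag _).2 ⟨x, hxZ, rfl⟩, ?_, fun b => ?_⟩
    · show (ρ (ι x)).1 ≤ γ.1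
      rw [hρ x hxZ]
      exact hrk2 x γ.1 hxD
    · constructor
      · intro hb
        obtain ⟨z, hz, hzx, rfl⟩ := hmem' b x hxZ hb
        obtain ⟨h3, h4⟩ := (hx z).1 hzx
        refine ⟨by rw [hlset γ hγβ]; exact ⟨z, h3, rfl⟩, ?_⟩
        have h5 := (hkey γ hγβ φ _ (fun i => (hs2 ⟨z, h3⟩ i).1) z h3).2 h4
        have h6 : (fun i => ι (π (s i))) = s := funext fun i => (hs2 ⟨z, h3⟩ i).2
        rwa [h6] at h5
      · rintro ⟨h3, h4⟩
        rw [hlset γ hγβ] at h3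
        obtain ⟨z, hz, rfl⟩ := h3
        have h6 : (fun i => ι (π (s i))) = s := funext fun i => (hs2 ⟨z, hz⟩ i).2
        have h5 := (hkey γ hγβ φ _ (fun i => (hs2 ⟨z, hz⟩ i).1) z hz).1 (by rw [h6]; exact h4)
        exact (hmem z (hsub γ hγβ hz) x hxZ).2 ((hx z).2 ⟨hz, h5⟩)
  · intro a a' ha ha' h
    obtain ⟨x, hx, rfl⟩ := (hdiag a).1 ha
    obtain ⟨x', hx', rfl⟩ := (hdiag a').1 ha'
    have key : ∀ x ∈ Z, ∀ x' ∈ Z, (∀ b, cd E b (ι x) → cd E b (ι x')) → ∀ z ∈ x, z ∈ x' := by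
      intro x hx x' hx' h z hz
      have hzZ : z ∈ Z := htr x hx z hz
      exact (hmem z hzZ x' hx').1 (h _ ((hmem z hzZ x hx).2 hz))
    have h1 : x = x' := by
      apply ZFSet.ext
      intro z
      exact ⟨key x hx x' hx' (fun b => (h b).1) z, key x' hx' x hx (fun b => (h b).2) z⟩
    rw [h1]
  · intro a b ha hb hab
    obtain ⟨x, hx, rfl⟩ := (hdiag a).1 ha
    obtain ⟨y, hy, rfl⟩ := (hdiag b).1 hb
    rw [hmemR x hx y hy, hmem x hx y hy]
    constructor
    · rintro (h1 | ⟨h1, -⟩)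
      · exact h1
      · exact absurd (by rw [h1]) hab
    · intro h1
      exact Or.inl h1
  · -- the predicate
    have hvn : ∀ x ∈ Z, ∀ α : Om, VN E (ι x) α ↔ x = α.1.toZFSet := by
      intro x hx α
      constructor
      · rintro ⟨f, -, hf, hb⟩
        have key : ∀ ξ : Om, ξ ≤ α → ξ.1.toZFSet ∈ Z ∧ f.val ξ = ι ξ.1.toZFSet := by
          intro ξ
          induction ξ using WellFoundedLT.induction with
          | ind ξ ih =>
            intro hξ
            obtain ⟨y, hy, hyf⟩ := (hdiag _).1 (hf ξ hξ).1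
            have hyξ : y = ξ.1.toZFSet := by
              apply ZFSet.ext
              intro z
              rw [lvx_ord]
              constructor
              · intro hz
                have hzZ := htr y hy z hz
                have h1 : cd E (ι z) (f.val ξ) := by
                  rw [← hyf]
                  exact (hmem z hzZ y hy).2 hz
                obtain ⟨ξ', h2, h3⟩ := ((hf ξ hξ).2 _).1 h1
                obtain ⟨h4, h5⟩ := ih ξ' h2 (h2.le.trans hξ)
                exact ⟨ξ', h2, hι h4 hzZ (h5.symm.trans h3)⟩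
              · rintro ⟨ξ', h2, rfl⟩
                obtain ⟨h4, h5⟩ := ih ξ' h2 (h2.le.trans hξ)
                have h6 := ((hf ξ hξ).2 (f.val ξ')).2 ⟨ξ', h2, rfl⟩
                rw [h5, ← hyf] at h6
                exact (hmem _ h4 y hy).1 h6
            rw [← hyξ]
            exact ⟨hy, hyf.symm⟩
        obtain ⟨h1, h2⟩ := key α le_rfl
        rw [hb] at h2
        exact hι hx h1 h2
      · intro hxα
        have hin : ∀ ξ : Om, ξ ≤ α → ξ.1.toZFSet ∈ Z := by
          intro ξ hξ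
          rcases eq_or_lt_of_le hξ with h1 | h1
          · rw [h1, ← hxα]
            exact hx
          · refine htr x hx _ ?_
            rw [hxα, lvx_ord]
            exact ⟨ξ, h1, rfl⟩
        obtain ⟨α', hα'⟩ := Om.bdd (S := {α}) (countable_singleton α)
        have hαα : α < α' := hα' α rfl
        have hval : ∀ ξ, ξ ≤ α → (Seq.mk' (fun ξ : Om => ι ξ.1.toZFSet) α').val ξ =
            ι ξ.1.toZFSet := by
          intro ξ hξ
          have h1 : ξ < α' := lt_of_le_of_lt hξ hαα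
          show (if ξ < α' then ι ξ.1.toZFSet else default) = ι ξ.1.toZFSet
          rw [if_pos h1]
        refine ⟨Seq.mk' (fun ξ : Om => ι ξ.1.toZFSet) α', hαα, fun ξ hξ => ?_, ?_⟩
        · rw [hval ξ hξ]
          refine ⟨(hdiag _).2 ⟨_, hin ξ hξ, rfl⟩, fun b' => ?_⟩
          constructor
          · intro hb'
            obtain ⟨z, hz, hz2, rfl⟩ := hmem' b' _ (hin ξ hξ) hb'
            rw [lvx_ord] at hz2
            obtain ⟨ξ', h3, rfl⟩ := hz2
            exact ⟨ξ', h3, hval ξ' (h3.le.trans hξ)⟩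
          · rintro ⟨ξ', h3, rfl⟩
            have h5 := h3.le.trans hξ
            rw [hval ξ' h5]
            refine (hmem _ (hin ξ' h5) _ (hin ξ hξ)).2 ?_
            rw [lvx_ord]
            exact ⟨ξ', h3, rfl⟩
        · rw [hval α le_rfl, hxα]
    intro a ha
    obtain ⟨x, hx, rfl⟩ := (hdiag a).1 ha
    rw [hmemR x hx x hx]
    constructor
    · rintro (h1 | ⟨-, h1⟩)
      · exact absurd h1 (ZFSet.mem_irrefl _)
      · rw [hA] at h1
        obtain ⟨α, hα, h2⟩ := h1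
        exact ⟨α, hα, (hvn x hx α).2 h2⟩
    · rintro ⟨α, hα, h2⟩
      refine Or.inr ⟨rfl, ?_⟩
      rw [hA]
      exact ⟨α, hα, (hvn x hx α).1 h2⟩

end RMK
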