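import Pool.Agent.RMK.ValB
import Pool.Agent.RMK.Club
import Pool.Agent.RMK.LevEx

/-!
RMK ENUM: the hypothesis `Captured` implies the continuum hypothesis; enumeration of the valid
sequences.

PROOFS.
`reals_surj`: for a real `r` let `R r a b c` be `∃ n : ℕ, a = natO n ∧ r n = true`.  By
`ClubMany.exists` applied to `hG` and the countable set `{R r, lev ω}` (`ω : Om`, the ordinal
`Ordinal.omega0`) there are `N`, `δ`, `β`, `φ`, `s` as in `Captured` with `R r ∈ N`; `ω < δ` since
`lev ω ∈ N`, so `natO n < δ` for all `n`; so for some `ξ < δ`,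
`r n = true ↔ Sat (relE A) (LR A β.1) φ (asg s ξ (natO n) (natO 0) (natO 0))` with
`A = ords {α | α ∈ G ∧ α < δ}`.  For fixed `(δ, β)` the set `K δ β` of all such reals `r` is countable:
the level is countable (`LR_countable`), `Fml` is countable, `ξ < δ`, and the relation depends only on
`φ`, `ξ` and finitely many `s i` (`sat_congr`), as in `defSets_countable`.  So `univ = ⋃ (δ, β), K δ β` is
a union of `ℵ₁` many countable sets: `#(ℕ → Bool) ≤ ℵ₁` (`Cardinal.mk_iUnion_le_sum_mk`,
`#(Om × Om) = ℵ₁`; mind the universe lifts as in `exists_om_inj`), which gives a surjection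
`Om → (ℕ → Bool)`.  (Alternatively: choose for every `(δ, β)` a map `ℕ → (ℕ → Bool)` whose range contains
`K δ β`, and compose with a surjection `Om → Om × Om × ℕ`, which exists because
`#(Om × Om × ℕ) = #Om`, `Cardinal.mul_eq_self`.)
`enum_val`: every sequence `p : Seq (ℕ → Bool)` has a code `c` in the Polish space
`Rep.C (Seq (ℕ → Bool))` (`Rep.surj`), which determines it (`Rep.inj`).  A Polish space has cardinality
`≤ 2 ^ ℵ₀` (`Cardinal.mk_le...`, or: it is a continuous image of `ℕ → ℕ` when nonempty,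
`PolishSpace.exists_nat_nat_continuous_surjective`, and `ℕ → ℕ` injects into `ℕ → Bool`), so there is a
surjection from `ℕ → Bool` onto the (nonempty, `val_nil`) set `{p | Val G p}`; compose with
`reals_surj`.
-/

namespace RMK

open MeasureTheory Set PU

/-- the reals which are sections of relations definable over a relative level -/
private def KK (A : Set ZFSet.{0}) (δ β : Om) : Set (ℕ → Bool) :=
  {r | ∃ (φ : Fml) (s : ℕ → ZFSet.{0}) (ξ : Om), (∀ i, s i ∈ LR A β.1) ∧ ξ < δ ∧
    ∀ n : ℕ, r n = true ↔ Sat (relE A) (LR A β.1) φ (asg s ξ (natO n) (natO 0) (natO 0))}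

private theorem kk_countable (A : Set ZFSet.{0}) (δ β : Om) : (KK A δ β).Countable := by
  classical
  have hc := (LR_countable A β).to_subtype
  have hF := fml_countable
  have hδ : Countable {ξ : Om // ξ < δ} := (Om.countable_Iio δ).to_subtype
  have key : ∀ r : KK A δ β, ∃ p : Fml × {ξ : Om // ξ < δ} × List (LR A β.1),
      ∃ s : ℕ → LR A β.1,
      p.2.2 = (List.range (sat_congr (relE A) (LR A β.1) p.1).choose).map s ∧
      ∀ n : ℕ, r.1 n = true ↔ Sat (relE A) (LR A β.1) p.1
        (asg (fun i => (s i : ZFSet.{0})) p.2.1.1 (natO n) (natO 0) (natO 0)) := by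
    rintro ⟨r, φ, s, ξ, h1, h2, h3⟩
    exact ⟨(φ, ⟨ξ, h2⟩, (List.range (sat_congr (relE A) (LR A β.1) φ).choose).map
      fun i => ⟨s i, h1 i⟩), fun i => ⟨s i, h1 i⟩, rfl, h3⟩
  choose f s hf1 hf2 using key
  have hinj : Function.Injective f := by
    intro x y hxy
    apply Subtype.ext
    funext n
    have h3 : Sat (relE A) (LR A β.1) (f x).1
        (asg (fun i => (s x i : ZFSet.{0})) (f x).2.1.1 (natO n) (natO 0) (natO 0)) ↔
        Sat (relE A) (LR A β.1) (f y).1
        (asg (fun i => (s y i : ZFSet.{0})) (f y).2.1.1 (natO n) (natO 0) (natO 0)) := by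
      rw [← hxy]
      refine (sat_congr (relE A) (LR A β.1) (f x).1).choose_spec _ _ fun i hi => ?_
      unfold asg
      split_ifs
      · rfl
      · rfl
      · rfl
      · rfl
      · have h4 := hf1 x
        have h5 := hf1 y
        rw [← hxy] at h5
        have h6 := h4.symm.trans h5
        have h7 := List.map_eq_map_iff.1 h6 i (List.mem_range.2 hi)
        beta_reduce
        rw [h7]
    rw [← hf2 x n, ← hf2 y n] at h3
    exact Bool.eq_iff_iff.2 h3
  exact Set.countable_coe_iff.1 hinj.countable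

private theorem natO_inj {m n : ℕ} (h : natO m = natO n) : m = n := by
  have h1 : ((m : ℕ) : Ordinal.{0}) = n := congrArg Subtype.val h
  exact_mod_cast h1

private theorem om_infinite : Infinite Om := by
  refine Infinite.of_injective natO fun m n h => natO_inj h

private theorem om_prod : Nonempty (Om × Om ≃ Om) := by
  have := om_infinite
  have h : Cardinal.mk (Om × Om) = Cardinal.mk Om := by
    rw [← Cardinal.mul_def]
    exact Cardinal.mul_eq_self (Cardinal.aleph0_le_mk Om)
  exact Cardinal.eq.1 h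

theorem reals_surj {G : Set Om} (hG : Captured G) :
    ∃ e : Om → (ℕ → Bool), Function.Surjective e := by
  classical
  have := om_infinite
  obtain ⟨E⟩ := om_prod
  -- enumerations of the countable sets
  have hg : ∀ δ β : Om, ∃ g : ℕ → (ℕ → Bool), KK (ords {α | α ∈ G ∧ α < δ}) δ β ⊆ Set.range g := by
    intro δ β
    rcases (KK (ords {α | α ∈ G ∧ α < δ}) δ β).eq_empty_or_nonempty with h0 | h0
    · exact ⟨fun _ _ => false, by rw [h0]; exact Set.empty_subset _⟩
    · obtain ⟨g, hg⟩ := (kk_countable _ δ β).exists_eq_range h0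
      exact ⟨g, hg.subset⟩
  choose g hg using hg
  obtain ⟨h, hh⟩ : ∃ h : Om → ℕ, Function.Surjective h :=
    ⟨Function.invFun (Infinite.natEmbedding Om),
      Function.invFun_surjective (Infinite.natEmbedding Om).injective⟩
  refine ⟨fun o => g (E.symm (E.symm o).1).1 (E.symm (E.symm o).1).2 (h (E.symm o).2), ?_⟩
  intro r
  -- the real `r` is captured
  have hω : Ordinal.omega0 < Ordinal.omega 1 := by
    rw [← Ordinal.omega_zero]
    exact Ordinal.omega_strictMono (by norm_num)
  obtain ⟨N, hN, -, δ, hδ, β, hβ, φ, s, hs, hR⟩ := hG.exists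
    (S₀ := {(fun a _ _ => ∃ n : ℕ, a = natO n ∧ r n = true : T3), lev ⟨Ordinal.omega0, hω⟩})
    ((Set.countable_singleton _).insert _)
  have hωδ : (⟨Ordinal.omega0, hω⟩ : Om) < δ := (hδ _).1 (hN (by simp))
  have hn : ∀ n : ℕ, natO n < δ := by
    intro n
    refine lt_trans ?_ hωδ
    show ((n : ℕ) : Ordinal.{0}) < Ordinal.omega0
    exact Ordinal.natCast_lt_omega0 n
  obtain ⟨ξ, hξ, hξ2⟩ := hR _ (hN (Set.mem_insert _ _))
  have hr : r ∈ KK (ords {α | α ∈ G ∧ α < δ}) δ β := by
    refine ⟨φ, s, ξ, hs, hξ, fun n => ?_⟩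
    rw [← hξ2 (natO n) (natO 0) (natO 0) (hn n) (hn 0) (hn 0)]
    constructor
    · intro h1
      exact ⟨n, rfl, h1⟩
    · rintro ⟨m, h1, h2⟩
      rw [natO_inj h1]
      exact h2
  obtain ⟨n, hn2⟩ := hg δ β hr
  obtain ⟨t, ht⟩ := hh n
  refine ⟨E (E (δ, β), t), ?_⟩
  simp only [Equiv.symm_apply_apply]
  rw [ht, hn2]

theorem enum_val {G : Set Om} (hG : Captured G) : ∃ e : Om → Seq (ℕ → Bool),
    (∀ i, Val G (e i)) ∧ ∀ p, Val G p → ∃ i, e i = p := by
  classical
  obtain ⟨e, he⟩ := reals_surj hG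
  obtain ⟨p₀, hp₀, -⟩ := val_nil (G := G)
  have : Nonempty (Rep.C (Seq (ℕ → Bool))) := by
    obtain ⟨c, -⟩ := Rep.surj p₀
    exact ⟨c⟩
  obtain ⟨f, -, hf⟩ := PolishSpace.exists_nat_nat_continuous_surjective (Rep.C (Seq (ℕ → Bool)))
  have hj : Function.Injective
      (fun (a : ℕ → ℕ) (k : ℕ) => decide (a k.unpair.1 = k.unpair.2)) := by
    intro a b hab
    funext n
    have h1 := congrFun hab (Nat.pair n (a n))
    simp only [Nat.unpair_pair, decide_true] at h1
    have h2 := of_decide_eq_true h1.symm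
    exact h2.symm
  have hq := Function.invFun_surjective hj
  have hv : ∀ c : Rep.C (Seq (ℕ → Bool)), ∃ p, Val G p ∧ ∀ p', Rep.rel c p' → Val G p' → p' = p := by
    intro c
    by_cases h : ∃ p, Rep.rel c p ∧ Val G p
    · obtain ⟨p, h1, h2⟩ := h
      exact ⟨p, h2, fun p' h3 _ => Rep.inj c p' p h3 h1⟩
    · exact ⟨p₀, hp₀, fun p' h3 h4 => absurd ⟨p', h3, h4⟩ h⟩
  choose v hv1 hv2 using hv
  refine ⟨fun o => v (f (Function.invFun
    (fun (a : ℕ → ℕ) (k : ℕ) => decide (a k.unpair.1 = k.unpair.2)) (e o))), fun i => hv1 _,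
    fun p hp => ?_⟩
  obtain ⟨c, hc⟩ := Rep.surj p
  obtain ⟨a, rfl⟩ := hf c
  obtain ⟨b, rfl⟩ := hq a
  obtain ⟨i, rfl⟩ := he b
  exact ⟨i, (hv2 _ p hc hp).symm⟩

end RMK
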