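import Pool.Agent.RMK.ValB

/-!
RMK EXTLONG: every valid sequence has valid extensions of every countable length.

PROOF.  Let `Val G p`, `p.len ≤ α`.  Let `j : Om → ℕ` be injective on the countable set
`{ξ | ξ < α}` (`Om.countable_Iio`, `Set.Countable.exists_injOn...`/`Set.countable_iff_exists_injOn`).
Let `p'` be the sequence of length `α` which agrees with `p` below `p.len` and has at
`ξ ∈ [p.len, α)` a real `y ξ` as in `exists_entry_nn G ξ (j ξ)`.  The first clause of `Val` is clear.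
Second clause: for `β ≤ p.len` use `p`.  Let `p.len < β ≤ α`.  If `β` is a successor (there is a
greatest `ξ < β`) use the second clause of `W`.  Otherwise `β` is a limit: for every `ξ < β` there is
`ξ' < β` with `ξ < ξ'`.  Put `u = p'.restr β`, `l = p.len < β = u.len`; the numbers `nn (u.val ξ) = j ξ`,
`l ≤ ξ < β`, are distinct.  Let `S` be the set of `ξ` with `l ≤ ξ < β` such that `j ξ < j ξ'` for all
`ξ'` with `ξ < ξ' < β`.  (a) `S` is unbounded in `β`: for `η < β` (w.l.o.g. `l ≤ η`) let `ξ > η`,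
`ξ < β`, have minimal `j ξ` among those; then `ξ ∈ S`.  (b) `j` is strictly increasing on `S`, so
`{ξ' ∈ S | ξ' < ξ}` is finite for `ξ ∈ S` (it embeds into `{k | k < j ξ}`).  So `S` has order type `ω`:
there is a strictly increasing `f : ℕ → Om` with range `S` (e.g. take `f` = enumeration of the infinite
set `j '' S ⊆ ℕ` by `Nat.nth`/`Nat.Subtype.orderIsoOfNat`, composed with the inverse of `j` on `S`).
Then `I2 u f`.
-/

namespace RMK

open MeasureTheory Set PU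

/-- the enumeration of the places after which all numbers are larger -/
private theorem enum_aux {l β : Om} {j : Om → ℕ} (hl : l < β)
    (hj : ∀ ξ ξ', ξ < β → ξ' < β → j ξ = j ξ' → ξ = ξ')
    (hlim : ∀ ξ, ξ < β → ∃ ξ', ξ' < β ∧ ξ < ξ') :
    ∃ f : ℕ → Om, (∀ η, η < β → ∃ n, η < f n) ∧ (∀ m n : ℕ, m < n → f m < f n) ∧
      ∀ ξ, (∃ n, f n = ξ) ↔ l ≤ ξ ∧ ξ < β ∧ ∀ ξ', ξ < ξ' → ξ' < β → j ξ < j ξ' := by
  classical
  obtain ⟨S, hS⟩ : ∃ S : Set Om, ∀ ξ, ξ ∈ S ↔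
      l ≤ ξ ∧ ξ < β ∧ ∀ ξ', ξ < ξ' → ξ' < β → j ξ < j ξ' := ⟨{ξ | _}, fun ξ => Iff.rfl⟩
  have hunb : ∀ η, η < β → ∃ ξ ∈ S, η < ξ := by
    intro η hη
    have h1 : max η l < β := max_lt hη hl
    have h2 : ∃ n, ∃ ξ, max η l < ξ ∧ ξ < β ∧ j ξ = n := by
      obtain ⟨ξ, h3, h4⟩ := hlim _ h1
      exact ⟨j ξ, ξ, h4, h3, rfl⟩
    obtain ⟨ξ, h3, h4, h5⟩ := Nat.find_spec h2
    refine ⟨ξ, (hS ξ).2 ⟨(le_max_right η l).trans h3.le, h4, ?_⟩, (le_max_left η l).trans_lt h3⟩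
    intro ξ' h6 h7
    have h8 : Nat.find h2 ≤ j ξ' := Nat.find_min' h2 ⟨ξ', h3.trans h6, h7, rfl⟩
    rw [← h5] at h8
    refine lt_of_le_of_ne h8 fun h9 => ?_
    exact h6.ne (hj _ _ h4 h7 h9)
  have hinc : ∀ ξ ∈ S, ∀ ξ' ∈ S, ξ < ξ' → j ξ < j ξ' := fun ξ h ξ' h' hlt =>
    ((hS ξ).1 h).2.2 ξ' hlt ((hS ξ').1 h').2.1
  have hinf : {n : ℕ | ∃ ξ ∈ S, j ξ = n}.Infinite := by
    apply Set.infinite_of_forall_exists_gt
    intro n
    induction n with
    | zero =>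
      obtain ⟨ξ, h1, _⟩ := hunb l hl
      obtain ⟨ξ', h2, h3⟩ := hunb ξ ((hS ξ).1 h1).2.1
      exact ⟨j ξ', ⟨ξ', h2, rfl⟩, (Nat.zero_le _).trans_lt (hinc ξ h1 ξ' h2 h3)⟩
    | succ n ih =>
      obtain ⟨b, ⟨ξ, h1, rfl⟩, h4⟩ := ih
      obtain ⟨ξ', h2, h3⟩ := hunb ξ ((hS ξ).1 h1).2.1
      have := hinc ξ h1 ξ' h2 h3
      exact ⟨j ξ', ⟨ξ', h2, rfl⟩, by omega⟩
  have hex : ∀ n, ∃ ξ ∈ S, j ξ = Nat.nth (fun n => ∃ ξ ∈ S, j ξ = n) n := fun n =>
    Nat.nth_mem_of_infinite hinf n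
  choose f hf1 hf2 using hex
  have hr : ∀ ξ, (∃ n, f n = ξ) ↔ ξ ∈ S := by
    intro ξ
    constructor
    · rintro ⟨n, rfl⟩
      exact hf1 n
    · intro h
      have h1 : j ξ ∈ Set.range (Nat.nth (fun n => ∃ ξ ∈ S, j ξ = n)) := by
        rw [Nat.range_nth_of_infinite hinf]
        exact ⟨ξ, h, rfl⟩
      obtain ⟨n, hn⟩ := h1
      refine ⟨n, ?_⟩
      apply hj _ _ ((hS _).1 (hf1 n)).2.1 ((hS _).1 h).2.1
      rw [hf2, hn]
  refine ⟨f, ?_, ?_, ?_⟩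
  · intro η hη
    obtain ⟨ξ, h1, h2⟩ := hunb η hη
    obtain ⟨n, rfl⟩ := (hr ξ).2 h1
    exact ⟨n, h2⟩
  · intro m n hmn
    have h1 : j (f m) < j (f n) := by
      rw [hf2, hf2]
      exact Nat.nth_strictMono hinf hmn
    rcases lt_trichotomy (f m) (f n) with h2 | h2 | h2
    · exact h2
    · rw [h2] at h1
      exact absurd h1 (lt_irrefl _)
    · exact absurd (hinc _ (hf1 n) _ (hf1 m) h2) (by omega)
  · intro ξ
    rw [hr, hS]

theorem ext_long {G : Set Om} {p : Seq (ℕ → Bool)} (hp : Val G p) {α : Om} (hα : p.len ≤ α) :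
    ∃ p', Val G p' ∧ p'.len = α ∧ Ext p p' := by
  classical
  obtain ⟨j, hj⟩ := Set.countable_iff_exists_injOn.1 (Om.countable_Iio α)
  choose y hy1 hy2 hy3 using fun ξ => exists_entry_nn G ξ (j ξ)
  have hlen : (Seq.mk' (fun ξ => if ξ < p.len then p.val ξ else y ξ) α).len = α := rfl
  have hv1 : ∀ ξ, ξ < p.len →
      (Seq.mk' (fun ξ => if ξ < p.len then p.val ξ else y ξ) α).val ξ = p.val ξ := by
    intro ξ hξ
    change (if ξ < α then (if ξ < p.len then p.val ξ else y ξ) else default) = p.val ξ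
    rw [if_pos (hξ.trans_le hα), if_pos hξ]
  have hv2 : ∀ ξ, p.len ≤ ξ → ξ < α →
      (Seq.mk' (fun ξ => if ξ < p.len then p.val ξ else y ξ) α).val ξ = y ξ := by
    intro ξ hξ hξ'
    change (if ξ < α then (if ξ < p.len then p.val ξ else y ξ) else default) = y ξ
    rw [if_pos hξ', if_neg (not_lt.2 hξ)]
  generalize Seq.mk' (fun ξ => if ξ < p.len then p.val ξ else y ξ) α = q at *
  have hE : Ext p q := ext_of (by rw [hlen]; exact hα) hv1
  refine ⟨q, ⟨?_, ?_⟩, hlen, hE⟩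
  · intro ξ hξ
    rw [hlen] at hξ
    rcases lt_or_ge ξ p.len with h | h
    · rw [hv1 ξ h]
      exact hp.1 ξ h
    · rw [hv2 ξ h hξ]
      exact ⟨hy1 ξ, hy2 ξ⟩
  · intro β hβ
    rcases le_or_gt β p.len with h | h
    · rw [hE.restr h]
      exact hp.2 β h
    have hul : (q.restr β).len = β := Seq.restr_len q hβ
    have huv : ∀ ξ, p.len ≤ ξ → ξ < β → nn ((q.restr β).val ξ) = j ξ := by
      intro ξ h1 h2
      rw [Seq.restr_val q hβ h2, hv2 ξ h1 (h2.trans_le (by rwa [hlen] at hβ)), hy3]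
    generalize q.restr β = u at *
    by_cases hs : ∃ ξ, ξ < β ∧ ∀ η, η < β → η ≤ ξ
    · obtain ⟨ξ, h1, h2⟩ := hs
      refine ⟨fun _ => ξ, Or.inr (Or.inl ⟨ξ, ?_, ?_, fun _ => rfl⟩)⟩
      · rw [hul]
        exact h1
      · rw [hul]
        exact h2
    · push Not at hs
      have hβα : β ≤ α := by rwa [hlen] at hβ
      have hj' : ∀ ξ ξ', ξ < β → ξ' < β → j ξ = j ξ' → ξ = ξ' := fun ξ ξ' h1 h2 h3 =>
        hj (h1.trans_le hβα) (h2.trans_le hβα) h3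
      obtain ⟨f, hf1, hf2, hf3⟩ := enum_aux h hj' hs
      refine ⟨f, Or.inr (Or.inr (Or.inr (Or.inl ?_)))⟩
      refine ⟨⟨?_, ?_⟩, p.len, ?_, ?_, hf2, ?_⟩
      · intro n
        rw [hul]
        exact ((hf3 (f n)).1 ⟨n, rfl⟩).2.1
      · rw [hul]
        exact hf1
      · rw [hul]
        exact h
      · rw [hul]
        intro ξ ξ' h1 h2 h3 h4 h5
        rw [huv ξ h1 h2, huv ξ' h3 h4] at h5
        exact hj' ξ ξ' h2 h4 h5
      · intro ξ
        rw [hf3, hul]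
        constructor
        · rintro ⟨h1, h2, h3⟩
          refine ⟨h1, h2, fun ξ' h4 h5 => ?_⟩
          rw [huv ξ h1 h2, huv ξ' (h1.trans h4.le) h5]
          exact h3 ξ' h4 h5
        · rintro ⟨h1, h2, h3⟩
          refine ⟨h1, h2, fun ξ' h4 h5 => ?_⟩
          have := h3 ξ' h4 h5
          rwa [huv ξ h1 h2, huv ξ' (h1.trans h4.le) h5] at this

end RMK
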