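import Pool.Agent.RMK.GenDefs
import Pool.Agent.RMK.ExtLong
import Pool.Agent.RMK.Club

/-!
RMK GEN: generic sequences (total properness of the reshaping forcing).

PROOF of `gen`.  Let `e` enumerate the valid sequences.  `e (idx e p) = p` for valid `p`, and for `OD G D`
and valid `p`, `extD D p ∈ D` and `Ext p (extD D p)` (`Classical.epsilon_spec`).
Let `Rl i ξ _ := ξ < (e i).len`, `Re i ξ c := ξ < (e i).len ∧ ∃ n : ℕ, c = natO n ∧ (e i).val ξ n = true`.
For `i, θ : Om` let `app i θ` be the index of a valid extension of `e i` by one entry `y` with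
`IsWO (rrc y) θ.1` (`exists_isWO`, `exists_entry`, `Val.snoc`); so `e (app i θ)` has length
`(e i).len + 1` and its last entry is this `y`.
Claim: for club many `N : Set T3`: (0) the property in `Captured` holds, with `δ`; (1) `Rl, Re ∈ N`; (2)
`natO n < δ`, `0 < δ`; (3) `i < δ → (e i).len < δ`; (4) `i, θ < δ → app i θ < δ`; (5) `R ∈ N`, `i < δ` and
`∃ j, R i j (natO 0)` imply that some `j < δ` has `R i j (natO 0)`; (6) for `η < δ` the relation `RD e D_η` is in
`N`, where `D_η = {p | Val G p ∧ η < p.len}`, which is `OD` by `ext_long`.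
Each of these is a closure property of `N` under a countable family of unary and binary functions
`T3 → T3`, `T3 × T3 → T3` (`club_map`, `club_map2`, `club_mem`, `club_forall`): e.g. (4): the function taking
`(lev i, lev θ)` to `lev (app i θ)` and anything else to anything; `lev` is injective (`lev α = lev β`
implies `α = β`), and `lev α ∈ N ↔ α < δ`; (5): `(R, lev i) ↦ lev j` for a chosen `j`.
Now let `N` be such a set and `i < δ`.  The set `{R ∈ N | ∃ D, OD G D ∧ R = RD e D}` is countable and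
nonempty (6); enumerate it as `RD e (D n)`, `n : ℕ`, with `OD G (D n)`; by (0) choose `θ n < δ` with
`RD e (D n) a b c ↔ T (θ n) a b c` for `a, b, c < δ`, where
`T ξ a b c ↔ ξ, a, b, c < δ ∧ Sat (relE A) (LR A β.1) φ (asg s ξ a b c)`, `A = ords {α ∈ G | α < δ}`.
Choose in the same way `ε₁, ε₂ < δ` for `Re`, `Rl`.  Define `i₀ = i`, `i'ₙ = app iₙ (θ n)`,
`i_{n+1} = idx e (extD (D n) (e i'ₙ))`; all are `< δ` ((4), (5)).  So `pₙ = e iₙ` is an increasing sequence
(`Ext`) of valid sequences, with lengths `αₙ` strictly increasing and `< δ` ((3)), and for every `η < δ`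
some `αₙ > η` (as `D_η` occurs, up to having the same relation `RD`: if `RD e D = RD e D'` then
`extD D p = extD D' p` for all valid `p`, so `p_{n+1} ∈ D_η` for the `n` with `RD e (D n) = RD e D_η`).
Let `q` be the union: length `δ`, values `q.val ξ = pₙ.val ξ` for any `n` with `ξ < αₙ`.  `Ext pₙ q`.
If `OD G D` and `RD e D ∈ N` then `RD e D = RD e (D n)` for some `n` and
`p_{n+1} = extD (D n) (e i'ₙ) = extD D (e i'ₙ) ∈ D`, `j = i_{n+1} < δ`.
`Val G q`: the first clause and the restrictions to `α < δ` are those of some `pₙ`.  It remains to find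
`f` with `W q f`.  `bitSet q = {ξ ∈ G | ξ < δ}`, so `TR q β T`.  Let `f₀ n = αₙ`, `σ = α₀`.  `Cof q f₀`.
`StepAt T ε₁ ε₂ q αₙ α_{n+1}` holds with `i = i'ₙ`, `j = i_{n+1}`, `θ = θ n`: `q.val αₙ` is the last
entry of `e i'ₙ`, and `e i'ₙ` is the restriction of `q` to `αₙ + 1`.  If `α' < α_{n+1}` and
`StepAt T ε₁ ε₂ q αₙ α'` by `i*, j*, θ*`, then `θ* = θ n` (`IsWO.unique`); `T ε₂ i* αₙ (natO 0)` is true, so
`i* < δ`, and the second and third clauses say that `e i*` has length `αₙ + 1` and agrees with `q`, so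
`e i* = e i'ₙ`; then `T (θ n) i* j* (natO 0)` says `j* = idx e (extD (D n) (e i*)) = i_{n+1}`, and the last
clause gives `∀ ξ < δ, ξ < α_{n+1} ↔ ξ < α'`, contradicting `α' < α_{n+1}` (take `ξ = α'`).  So
`Rule T ε₁ ε₂ σ q f₀` and `I1 β q f₀`.  Take the least `β'` such that `∃ f, I1 β' q f`
(`WellFounded.min` on `Om`) and such an `f`: the last clause of `W`.
`(q.restr δ = q`.)
-/

namespace RMK

open MeasureTheory Set PU

/-! ### closure properties -/

private theorem lev_inj : Function.Injective lev := by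
  intro α β h
  have h1 : ∀ x, x < α ↔ x < β := fun x => by
    have := congrFun (congrFun (congrFun h x) x) x
    exact iff_of_eq this
  exact le_antisymm (not_lt.1 fun h2 => lt_irrefl _ ((h1 β).1 h2))
    (not_lt.1 fun h2 => lt_irrefl _ ((h1 α).2 h2))

private theorem club_lev (g : Om → T3) : ClubMany fun N : Set T3 => ∀ α, lev α ∈ N → g α ∈ N := by
  classical
  refine (club_map (fun R : T3 => if h : ∃ α, lev α = R then g h.choose else R)).mono ?_
  intro N _ h α hα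
  have h1 := h _ hα
  have h2 : ∃ α', lev α' = lev α := ⟨α, rfl⟩
  rw [dif_pos h2] at h1
  rwa [lev_inj h2.choose_spec] at h1

private theorem club_lev2 (g : Om → Om → T3) : ClubMany fun N : Set T3 =>
    ∀ α β, lev α ∈ N → lev β ∈ N → g α β ∈ N := by
  classical
  refine (club_map2 (fun R S : T3 => if h : ∃ p : Om × Om, lev p.1 = R ∧ lev p.2 = S then
    g h.choose.1 h.choose.2 else R)).mono ?_
  intro N _ h α β hα hβ
  have h1 := h _ hα _ hβ
  have h2 : ∃ p : Om × Om, lev p.1 = lev α ∧ lev p.2 = lev β := ⟨(α, β), rfl, rfl⟩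
  rw [dif_pos h2] at h1
  rwa [lev_inj h2.choose_spec.1, lev_inj h2.choose_spec.2] at h1

private theorem club_wit : ClubMany fun N : Set T3 => ∀ R ∈ N, ∀ i, lev i ∈ N →
    (∃ j, R i j (natO 0)) → ∃ j, lev j ∈ N ∧ R i j (natO 0) := by
  classical
  refine (club_map2 (fun R S : T3 => if h : ∃ p : Om × Om, lev p.1 = S ∧ R p.1 p.2 (natO 0) then
    lev h.choose.2 else R)).mono ?_
  rintro N _ h R hR i hi ⟨j, hj⟩
  have h1 := h _ hR _ hi
  have h2 : ∃ p : Om × Om, lev p.1 = lev i ∧ R p.1 p.2 (natO 0) := ⟨(i, j), rfl, hj⟩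
  rw [dif_pos h2] at h1
  have h3 := h2.choose_spec
  rw [lev_inj h3.1] at h3
  exact ⟨_, h1, h3.2⟩

private theorem natO_inj {m n : ℕ} (h : natO m = natO n) : m = n := by
  have := congrArg Subtype.val h
  exact Nat.cast_injective this

/-! ### chosen extensions -/

section choice

variable {G : Set Om} {e : Om → Seq (ℕ → Bool)}

private theorem e_idx (hs : ∀ p, Val G p → ∃ i, e i = p) {p : Seq (ℕ → Bool)} (hp : Val G p) :
    e (idx e p) = p := Classical.epsilon_spec (hs p hp)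

private theorem extD_spec {D : Set (Seq (ℕ → Bool))} (hD : OD G D) {p : Seq (ℕ → Bool)}
    (hp : Val G p) : extD D p ∈ D ∧ Ext p (extD D p) :=
  Classical.epsilon_spec (p := fun p' => p' ∈ D ∧ Ext p p')
    (by
      obtain ⟨p', h1, h2⟩ := hD.2.2 p hp
      exact ⟨p', h1, h2⟩)

private theorem extD_congr (hs : ∀ p, Val G p → ∃ i, e i = p) {D D' : Set (Seq (ℕ → Bool))}
    (hD : OD G D) (hD' : OD G D') (h : RD e D = RD e D') {p : Seq (ℕ → Bool)} (hp : Val G p) :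
    extD D p = extD D' p := by
  obtain ⟨i, hi⟩ := hs p hp
  have h1 : RD e D i (idx e (extD D (e i))) (natO 0) := rfl
  rw [h] at h1
  have h2 : idx e (extD D (e i)) = idx e (extD D' (e i)) := h1
  rw [hi] at h2
  have h3 := congrArg e h2
  rwa [e_idx hs (hD.1 _ (extD_spec hD hp).1), e_idx hs (hD'.1 _ (extD_spec hD' hp).1)] at h3

private theorem exists_app (he : ∀ i, Val G (e i)) (hs : ∀ p, Val G p → ∃ i, e i = p)
    (i θ : Om) : ∃ j, Ext (e i) (e j) ∧ Suc (e i).len (e j).len ∧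
      IsWO (rrc ((e j).val (e i).len)) θ.1 := by
  obtain ⟨r, hr⟩ := exists_isWO θ.2
  obtain ⟨y, hy1, hy2, hy3⟩ := exists_entry G (e i).len r
  obtain ⟨p', h1, h2, h3, h4⟩ := (he i).snoc hy1 hy2
  obtain ⟨j, rfl⟩ := hs p' h1
  exact ⟨j, h2, h3, by rw [h4, hy3]; exact hr⟩

private theorem od_len (η : Om) : OD G {p | Val G p ∧ η < p.len} := by
  refine ⟨fun p hp => hp.1, fun p hp p' h1 h2 => ⟨h1, hp.2.trans_le h2.1⟩, fun p hp => ?_⟩
  obtain ⟨b, hb⟩ := exists_suc (max p.len η)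
  obtain ⟨p', h1, h2, h3⟩ := ext_long hp (α := b) ((le_max_left _ _).trans hb.1.le)
  refine ⟨p', ⟨h1, ?_⟩, h3⟩
  rw [h2]
  exact (le_max_right _ _).trans_lt hb.1

end choice

/-- the length relation -/
private def Rl (e : Om → Seq (ℕ → Bool)) : T3 := fun i ξ _ => ξ < (e i).len

/-- the value relation -/
private def Re (e : Om → Seq (ℕ → Bool)) : T3 := fun i ξ c =>
  ξ < (e i).len ∧ ∃ n : ℕ, c = natO n ∧ (e i).val ξ n = true

private theorem val_union {G : Set Om} {p : ℕ → Seq (ℕ → Bool)} (hp : ∀ n, Val G (p n))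
    (hinc : ∀ n, Ext (p n) (p (n + 1))) {δ : Om} (hlt : ∀ n, (p n).len < δ)
    (hcof : ∀ η, η < δ → ∃ n, η < (p n).len) : ∃ q : Seq (ℕ → Bool), q.len = δ ∧
      (∀ n, Ext (p n) q) ∧
      (∀ ξ, ξ < q.len → (bitc (q.val ξ) = true ↔ ξ ∈ G) ∧ ∃ a, Suc ξ a ∧ IsWO (qqc (q.val ξ)) a.1) ∧
      (∀ α, α < q.len → ∃ f, W (q.restr α) f) := by
  classical
  have hmon : ∀ n m, n ≤ m → Ext (p n) (p m) := by
    intro n m h
    induction m, h using Nat.le_induction with
    | base => exact Ext.refl _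
    | succ m _ ih => exact ih.trans (hinc m)
  let q : Seq (ℕ → Bool) :=
    { len := δ
      val := fun ξ => if h : ∃ n, ξ < (p n).len then (p (Nat.find h)).val ξ else default
      out := by
        intro ξ hξ
        rw [dif_neg]
        rintro ⟨n, hn⟩
        exact absurd (hn.trans (hlt n)) (not_lt.2 hξ) }
  have hq : ∀ n ξ, ξ < (p n).len → q.val ξ = (p n).val ξ := by
    intro n ξ hξ
    have h : ∃ n, ξ < (p n).len := ⟨n, hξ⟩
    have h1 : q.val ξ = (p (Nat.find h)).val ξ := dif_pos h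
    rw [h1]
    exact ((hmon _ _ (Nat.find_min' h hξ)).val (Nat.find_spec h)).symm
  have hE : ∀ n, Ext (p n) q := fun n => ext_of (hlt n).le (hq n)
  refine ⟨q, rfl, hE, ?_, ?_⟩
  · intro ξ hξ
    obtain ⟨n, hn⟩ := hcof ξ hξ
    rw [hq n ξ hn]
    exact (hp n).1 ξ hn
  · intro α hα
    obtain ⟨n, hn⟩ := hcof α hα
    rw [(hE n).restr hn.le]
    exact (hp n).2 α hn.le

theorem gen {G : Set Om} (hG : Captured G) (e : Om → Seq (ℕ → Bool)) (he : ∀ i, Val G (e i))
    (hs : ∀ p, Val G p → ∃ i, e i = p) :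
    ClubMany fun N : Set T3 => ∃ δ : Om, (∀ α, lev α ∈ N ↔ α < δ) ∧
      ∀ i, i < δ → ∃ q, Val G q ∧ q.len = δ ∧ Ext (e i) q ∧
        ∀ D, OD G D → RD e D ∈ N → ∃ j, j < δ ∧ e j ∈ D ∧ Ext (e j) q := by
  classical
  choose app happ1 happ2 happ3 using exists_app he hs
  have hclub := ((((((hG.and (club_mem (Rl e))).and (club_mem (Re e))).and
    (club_forall fun n => club_mem (lev (natO n)))).and
    (club_lev fun i => lev (e i).len)).and (club_lev2 fun i θ => lev (app i θ))).and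
    club_wit).and (club_lev fun η => RD e {p | Val G p ∧ η < p.len})
  refine hclub.mono ?_
  rintro N hNc ⟨⟨⟨⟨⟨⟨⟨⟨δ, hδ, β, hβ, φ, s, hsL, hcap⟩, hRl⟩, hRe⟩, hnat⟩, hlen⟩, happN⟩, hwit⟩, hDη⟩
  refine ⟨δ, hδ, ?_⟩
  intro i hi
  set A : Set ZFSet.{0} := ords {α | α ∈ G ∧ α < δ} with hA
  -- the set of relations of dense sets in `N`
  have hcount : {R : T3 | R ∈ N ∧ ∃ D, OD G D ∧ R = RD e D}.Countable := hNc.mono fun R h => h.1
  have hne : {R : T3 | R ∈ N ∧ ∃ D, OD G D ∧ R = RD e D}.Nonempty :=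
    ⟨_, hDη _ (hnat 0), _, od_len _, rfl⟩
  obtain ⟨r, hr⟩ := hcount.exists_eq_range hne
  have hr1 : ∀ n, r n ∈ N ∧ ∃ D, OD G D ∧ r n = RD e D := fun n => by
    have : r n ∈ {R : T3 | R ∈ N ∧ ∃ D, OD G D ∧ R = RD e D} := by rw [hr]; exact mem_range_self n
    exact this
  choose hrN D hOD hrD using hr1
  have hr2 : ∀ D', OD G D' → RD e D' ∈ N → ∃ n, RD e D' = RD e (D n) := by
    intro D' h1 h2
    have h3 : RD e D' ∈ {R : T3 | R ∈ N ∧ ∃ D, OD G D ∧ R = RD e D} := ⟨h2, D', h1, rfl⟩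
    rw [hr] at h3
    obtain ⟨n, hn⟩ := h3
    exact ⟨n, by rw [← hn, hrD n]⟩
  -- the definable relation
  let T : T4 := fun ξ a b c => ξ < δ ∧ a < δ ∧ b < δ ∧ c < δ ∧
    Sat (relE A) (LR A β.1) φ (asg s ξ a b c)
  have hT : ∀ R ∈ N, ∃ ξ, ξ < δ ∧ ∀ a b c, a < δ → b < δ → c < δ → (T ξ a b c ↔ R a b c) := by
    intro R hR
    obtain ⟨ξ, hξ, h⟩ := hcap R hR
    refine ⟨ξ, hξ, fun a b c ha hb hc => ?_⟩
    rw [h a b c ha hb hc]
    exact ⟨fun h => h.2.2.2.2, fun h => ⟨hξ, ha, hb, hc, h⟩⟩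
  have hTlt : ∀ ξ a b c, T ξ a b c → a < δ ∧ b < δ := fun ξ a b c h => ⟨h.2.1, h.2.2.1⟩
  have hn0 : ∀ n, natO n < δ := fun n => (hδ _).1 (hnat n)
  have hrDN : ∀ n, RD e (D n) ∈ N := fun n => hrD n ▸ hrN n
  obtain ⟨ε₁, hε₁, hT1⟩ := hT _ hRe
  obtain ⟨ε₂, hε₂, hT2⟩ := hT _ hRl
  choose θ hθ hTθ using fun n => hT _ (hrDN n)
  have hlenδ : ∀ i, i < δ → (e i).len < δ := fun i h => (hδ _).1 (hlen i ((hδ i).2 h))
  have happδ : ∀ i θ, i < δ → θ < δ → app i θ < δ := fun i θ h h' =>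
    (hδ _).1 (happN i θ ((hδ i).2 h) ((hδ θ).2 h'))
  have hnxδ : ∀ n i, i < δ → idx e (extD (D n) (e i)) < δ := by
    intro n i hi
    obtain ⟨j, hj1, hj2⟩ := hwit _ (hrDN n) i ((hδ i).2 hi) ⟨_, rfl⟩
    have hj3 : j = idx e (extD (D n) (e i)) := hj2
    rw [← hj3]
    exact (hδ j).1 hj1
  -- the sequence of indices
  let ii : ℕ → Om := fun n => Nat.rec i (fun n j => idx e (extD (D n) (e (app j (θ n))))) n
  have hii : ∀ n, ii (n + 1) = idx e (extD (D n) (e (app (ii n) (θ n)))) := fun n => rfl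
  have hiiδ : ∀ n, ii n < δ := by
    intro n
    induction n with
    | zero => exact hi
    | succ n ih =>
      rw [hii]
      exact hnxδ n _ (happδ _ _ ih (hθ n))
  have hep : ∀ n, e (ii (n + 1)) = extD (D n) (e (app (ii n) (θ n))) := by
    intro n
    rw [hii]
    exact e_idx hs ((hOD n).1 _ (extD_spec (hOD n) (he _)).1)
  have hE1 : ∀ n, Ext (e (app (ii n) (θ n))) (e (ii (n + 1))) := by
    intro n
    rw [hep]
    exact (extD_spec (hOD n) (he _)).2
  have hEn : ∀ n, Ext (e (ii n)) (e (ii (n + 1))) := fun n => (happ1 _ _).trans (hE1 n)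
  have hmeet : ∀ D', OD G D' → RD e D' ∈ N → ∃ n, e (ii (n + 1)) ∈ D' := by
    intro D' h1 h2
    obtain ⟨n, hn⟩ := hr2 D' h1 h2
    refine ⟨n, ?_⟩
    rw [hep, ← extD_congr hs h1 (hOD n) hn (he _)]
    exact (extD_spec h1 (he _)).1
  have hcof : ∀ η, η < δ → ∃ n, η < (e (ii n)).len := by
    intro η hη
    obtain ⟨n, hn⟩ := hmeet _ (od_len η) (hDη η ((hδ η).2 hη))
    exact ⟨n + 1, hn.2⟩
  obtain ⟨q, hql, hEq, hq1, hq2⟩ := val_union (fun n => he (ii n)) hEn
    (fun n => hlenδ _ (hiiδ n)) hcof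
  have hEq' : ∀ n, Ext (e (app (ii n) (θ n))) q := fun n => (hE1 n).trans (hEq (n + 1))
  have hbit : bitSet q = {α | α ∈ G ∧ α < δ} := by
    ext ξ
    constructor
    · rintro ⟨h1, h2⟩
      exact ⟨(hq1 ξ h1).1.1 h2, hql ▸ h1⟩
    · rintro ⟨h1, h2⟩
      exact ⟨hql.symm ▸ h2, (hq1 ξ (hql.symm ▸ h2)).1.2 h1⟩
  have hTR : TR q β T := by
    unfold TR
    rw [hbit, hql]
    exact ⟨hβ, φ, s, hsL, fun ξ a b c => Iff.rfl⟩
  have hCof : Cof q fun n => (e (ii n)).len := by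
    refine ⟨fun n => ?_, fun η hη => ?_⟩
    · rw [hql]
      exact hlenδ _ (hiiδ n)
    · rw [hql] at hη
      exact hcof η hη
  -- the value and length relations
  have hTl : ∀ k, k < δ → ∀ ξ, ξ < δ → (T ε₂ k ξ (natO 0) ↔ ξ < (e k).len) := fun k hk ξ hξ =>
    hT2 k ξ (natO 0) hk hξ (hn0 0)
  have hTv : ∀ k, k < δ → ∀ ξ, ξ < δ → ξ < (e k).len → ∀ m : ℕ,
      (T ε₁ k ξ (natO m) ↔ (e k).val ξ m = true) := by
    intro k hk ξ hξ hξ' m
    rw [hT1 k ξ (natO m) hk hξ (hn0 m)]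
    constructor
    · rintro ⟨-, m', h1, h2⟩
      rw [natO_inj h1]
      exact h2
    · intro h
      exact ⟨hξ', m, rfl, h⟩
  have hsuc : ∀ n ξ, ξ < (e (app (ii n) (θ n))).len ↔ ξ ≤ (e (ii n)).len := by
    intro n ξ
    exact ⟨fun h => (happ2 _ _).2 ξ h, fun h => h.trans_lt (happ2 _ _).1⟩
  have hRule : Rule T ε₁ ε₂ (e (ii 0)).len q fun n => (e (ii n)).len := by
    refine ⟨rfl, fun n => ⟨?_, ?_⟩⟩
    · have hi' : app (ii n) (θ n) < δ := happδ _ _ (hiiδ n) (hθ n)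
      refine ⟨app (ii n) (θ n), ii (n + 1), θ n, ?_, ?_, ?_, ?_, ?_⟩
      · rw [(hEq' n).val (happ2 _ _).1]
        exact happ3 _ _
      · intro ξ hξ
        rw [hql] at hξ
        rw [hTl _ hi' ξ hξ, hsuc]
      · intro ξ hξ m
        have hξδ : ξ < δ := hξ.trans_lt (hlenδ _ (hiiδ n))
        rw [hTv _ hi' ξ hξδ ((hsuc n ξ).2 hξ), (hEq' n).val ((hsuc n ξ).2 hξ)]
      · exact (hTθ n _ _ _ hi' (hiiδ (n + 1)) (hn0 0)).2 (hii n)
      · intro ξ hξ
        rw [hql] at hξ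
        exact hTl _ (hiiδ (n + 1)) ξ hξ
    · rintro α' hα' ⟨i', j', θ', h1, h2, h3, h4, h5⟩
      rw [hql] at h2 h5
      have hθ' : θ' = θ n := by
        rw [(hEq' n).val (happ2 _ _).1] at h1
        exact Subtype.ext (h1.unique (happ3 _ _))
      subst hθ'
      have hi' : i' < δ := (hTlt _ _ _ _ h4).1
      have hj' : j' < δ := (hTlt _ _ _ _ h4).2
      have hα'δ : α' < δ := hα'.trans (hlenδ _ (hiiδ (n + 1)))
      have ha' : app (ii n) (θ n) < δ := happδ _ _ (hiiδ n) (hθ n)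
      have hiff : ∀ ξ, ξ < δ → (ξ < (e i').len ↔ ξ < (e (app (ii n) (θ n))).len) := by
        intro ξ hξ
        rw [← hTl i' hi' ξ hξ, h2 ξ hξ, hsuc]
      have hl : (e i').len = (e (app (ii n) (θ n))).len := by
        rcases lt_trichotomy (e i').len (e (app (ii n) (θ n))).len with h | h | h
        · exact absurd ((hiff _ (hlenδ _ hi')).2 h) (lt_irrefl _)
        · exact h
        · exact absurd ((hiff _ (hlenδ _ ha')).1 h) (lt_irrefl _)
      have hee : e i' = e (app (ii n) (θ n)) := by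
        refine Seq.ext' hl fun ξ hξ => ?_
        have hξ1 : ξ < (e (app (ii n) (θ n))).len := hl ▸ hξ
        have hξδ : ξ < δ := hξ.trans (hlenδ _ hi')
        rw [← (hEq' n).val hξ1]
        funext m
        have h6 := (hTv i' hi' ξ hξδ hξ m).symm.trans (h3 ξ ((hsuc n ξ).1 hξ1) m)
        exact Bool.eq_iff_iff.2 h6
      have hj : j' = ii (n + 1) := by
        have h6 : RD e (D n) i' j' (natO 0) := (hTθ n _ _ _ hi' hj' (hn0 0)).1 h4
        have h7 : j' = idx e (extD (D n) (e i')) := h6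
        rw [h7, hee, hii]
      subst hj
      exact lt_irrefl _ ((h5 α' hα'δ).1 ((hTl _ (hiiδ (n + 1)) α' hα'δ).2 hα'))
  have hI1 : ∃ β, ∃ f, I1 β q f := by
    refine ⟨β, fun n => (e (ii n)).len, hCof, T, ε₁, ε₂, (e (ii 0)).len, hTR, ?_, ?_, ?_, hRule⟩
    · rw [hql]; exact hε₁
    · rw [hql]; exact hε₂
    · rw [hql]; exact hlenδ _ (hiiδ 0)
  have hWq : ∃ f, W q f := by
    obtain ⟨β₀, ⟨f, hf⟩, hmin⟩ := WellFounded.has_min (wellFounded_lt (α := Om))
      {β | ∃ f, I1 β q f} hI1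
    exact ⟨f, Or.inr (Or.inr (Or.inr (Or.inr ⟨β₀, hf, fun β' h f' hf' => hmin β' ⟨f', hf'⟩ h⟩)))⟩
  have hrestr : q.restr q.len = q := by
    have h1 : Ext q q := Ext.refl q
    exact h1.2
  refine ⟨q, ⟨hq1, fun α hα => ?_⟩, hql, hEq 0, fun D' h1 h2 => ?_⟩
  · rcases lt_or_eq_of_le hα with h | h
    · exact hq2 α h
    · rw [h, hrestr]
      exact hWq
  · obtain ⟨n, hn⟩ := hmeet D' h1 h2
    exact ⟨ii (n + 1), hiiδ (n + 1), hn, hEq (n + 1)⟩

end RMK
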