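import Pool.Agent.RMK.OverQ
import Pool.Agent.RMK.Gen
import Pool.Agent.RMK.Enum

/-!
RMK BAIRESEQ: countably many open dense sets of conditions can be met simultaneously.

PROOF.  Let `e` be as in `enum_val`.  For `n : ℕ`, `t : List Bool` let `D n t` be the set of valid `p` such
that either there is `F` with `GoodF p F` and `O n p t F`, or for all valid `p'` extending `p` and all `F`
with `GoodF p' F`, not `O n p' t F`.  `OD G (D n t)`: openness by the first clause of `ODC` (with the same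
`t`, `F`; `FExt.refl`, `goodF_mono`), and density is clear: if the second alternative fails for `p`, some
extension satisfies the first.
By `gen` and `ClubMany.exists` there is `N` as in `gen` containing all `RD e (D n t)` and `lev i'` for some
`i' > i`, where `e i = p`; so `i < δ`; let `q` be the sequence given for `i`.
Define `P n s' F' := O n q s' F'`.  Monotone by the first clause of `ODC`.  Dense: given `(s', F')` with `GoodF q F'`, by density
there are `q' ⊇ q`, `(t, F'')` with `FExt s' F' t F''`, `GoodF q' F''` and `O n q' t F''`.  There is `j < δ` with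
`e j ∈ D n t`, `Ext (e j) q`.  The second alternative fails for `e j` (because of `q'`, `F''`), so there is `F₃`
with `GoodF (e j) F₃` and `O n (e j) t F₃`.  By openness, `O n q t F₃`, and then (again openness, with
`FExt t F₃ t (F₃ ∪ F')`, `fext_add`) `O n q t (F₃ ∪ F')`; `GoodF q (F₃ ∪ F')`.  Finally
`FExt s' F' t (F₃ ∪ F')`: `s' <+: t`, `F' ⊆ F₃ ∪ F'` and the third clause is that of
`FExt s' F' t F''`.
Apply `over_q` to `q` and `(s, F)` (`GoodF q F` by `goodF_mono`); `Bas q s F ⊆ Bas p s F`.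
-/

namespace RMK

open MeasureTheory Set PU

/-- `O` is an open dense set of conditions. -/
def ODC (G : Set Om) (O : Seq (ℕ → Bool) → List Bool → FS → Prop) : Prop :=
  (∀ p s F p' s' F', Val G p → Val G p' → GoodF p F → GoodF p' F' → O p s F → Ext p p' →
    FExt s F s' F' → O p' s' F') ∧
  ∀ p s F, Val G p → GoodF p F → ∃ p' s' F', Val G p' ∧ GoodF p' F' ∧ Ext p p' ∧ FExt s F s' F' ∧
    O p' s' F'

theorem baire_seq {G : Set Om} (hG : Captured G)
    (O : ℕ → Seq (ℕ → Bool) → List Bool → FS → Prop) (hO : ∀ n, ODC G (O n))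
    {p : Seq (ℕ → Bool)} (hp : Val G p) {s : List Bool} {F : FS} (hF : GoodF p F) :
    ∃ x ∈ Bas p s F, ∀ n, ∃ p' s' F', Val G p' ∧ GoodF p' F' ∧ O n p' s' F' ∧
      x ∈ Bas p' s' F' := by
  classical
  obtain ⟨e, he, hs⟩ := enum_val hG
  let D : ℕ → List Bool → Set (Seq (ℕ → Bool)) := fun n t => {r | Val G r ∧
    ((∃ E, GoodF r E ∧ O n r t E) ∨ ∀ r' E, Val G r' → Ext r r' → GoodF r' E → ¬ O n r' t E)}
  have hD : ∀ n t, OD G (D n t) := by
    intro n t
    refine ⟨fun r hr => hr.1, ?_, ?_⟩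
    · rintro r ⟨hr, hr2⟩ r' hr' hext
      refine ⟨hr', ?_⟩
      rcases hr2 with ⟨E, hE, hO1⟩ | h
      · exact Or.inl ⟨E, goodF_mono hE hext, (hO n).1 r t E r' t E hr hr' hE
          (goodF_mono hE hext) hO1 hext (FExt.refl t E)⟩
      · exact Or.inr fun r'' E h1 h2 h3 => h r'' E h1 (hext.trans h2) h3
    · intro r hr
      by_cases h : ∀ r' E, Val G r' → Ext r r' → GoodF r' E → ¬ O n r' t E
      · exact ⟨r, ⟨hr, Or.inr h⟩, Ext.refl r⟩
      · push Not at h
        obtain ⟨r', E, h1, h2, h3, h4⟩ := h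
        exact ⟨r', ⟨h1, Or.inl ⟨E, h3, h4⟩⟩, h2⟩
  obtain ⟨i, hi⟩ := hs p hp
  obtain ⟨i', hi'⟩ := Om.bdd (S := {i}) (countable_singleton i)
  obtain ⟨N, hN, -, δ, hδ, hq⟩ := (gen hG e he hs).exists
    (S₀ := range (fun r : ℕ × List Bool => RD e (D r.1 r.2)) ∪ {lev i'})
    ((countable_range _).union (countable_singleton _))
  have hiδ : i < δ := (hi' i rfl).trans ((hδ i').1 (hN (Or.inr rfl)))
  obtain ⟨q, hqv, hql, hqe, hqD⟩ := hq i hiδ
  rw [hi] at hqe
  have hFq : GoodF q F := goodF_mono hF hqe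
  obtain ⟨x, hx, hxP⟩ := over_q hqv (fun n s' F' => O n q s' F')
    (fun n s1 F1 s2 F2 h1 h2 h3 => (hO n).1 q s1 F1 q s2 F2 hqv hqv (fun r hr => h3 r (h2.2.1 hr)) h3
      h1 (Ext.refl q) h2)
    (by
      intro n s1 F1 hF1
      obtain ⟨q', t, F2, hq'v, hq'F, hext, hfe, hOn⟩ := (hO n).2 q s1 F1 hqv hF1
      obtain ⟨j, hj, hjD, hjq⟩ := hqD (D n t) (hD n t) (hN (Or.inl ⟨(n, t), rfl⟩))
      obtain ⟨hjv, hjD2⟩ := hjD
      rcases hjD2 with ⟨F3, h3, h4⟩ | h
      · have h5 : GoodF q F3 := goodF_mono h3 hjq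
        have h6 : O n q t F3 := (hO n).1 (e j) t F3 q t F3 hjv hqv h3 h5 h4 hjq (FExt.refl t F3)
        have h7 : GoodF q (F3 ∪ F1) := by
          intro r hr
          rcases Finset.mem_union.1 hr with h | h
          · exact h5 r h
          · exact hF1 r h
        refine ⟨t, F3 ∪ F1, ⟨hfe.1, Finset.subset_union_right, hfe.2.2⟩, h7, ?_⟩
        exact (hO n).1 q t F3 q t (F3 ∪ F1) hqv hqv h5 h7 h6 (Ext.refl q) (fext_add t F3 F1)
      · exact absurd hOn (h q' F2 hq'v (hjq.trans hext) hq'F)) (s := s) hFq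
  refine ⟨x, Bas.mono hqe (FExt.refl s F) hx, fun n => ?_⟩
  obtain ⟨s', F', h1, h2, h3⟩ := hxP n
  exact ⟨q, s', F', hqv, h1, h2, h3⟩

end RMK
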