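import Pool.Agent.RMK.Defs

/-!
RMK BORENUM: under CH the positive Borel sets are enumerated by the countable ordinals.

PROOF.  There are at most `𝔠` Borel subsets of `ℕ → Bool` (`MeasurableSpace.cardinal_measurableSet_le_continuum`
or similar, for countably generated σ-algebras), `𝔠 = ℵ₁`, and `Om` has cardinality `ℵ₁`
(`Cardinal.mk_Iio_ordinal`, with universe lifts: `Om : Type 1`).  So there is an injection of the subtype
of positive Borel sets (lifted to `Type 1`) into `Om`; since this subtype is nonempty (`A`), there is a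
surjection of `Om` onto it.
-/

namespace RMK

open MeasureTheory Set PU

private theorem card_meas : Cardinal.mk {B : Set (ℕ → Bool) // MeasurableSet B} ≤ Cardinal.continuum.{0} := by
  obtain ⟨b, hb, he⟩ := MeasurableSpace.CountablyGenerated.isCountablyGenerated (α := ℕ → Bool)
  have h1 : Cardinal.mk b ≤ Cardinal.continuum :=
    (Cardinal.le_aleph0_iff_set_countable.2 hb).trans Cardinal.aleph0_le_continuum
  have h2 := MeasurableSpace.cardinal_measurableSet_le_continuum h1
  rw [← he] at h2
  exact h2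

private theorem card_Om : Cardinal.mk Om = Cardinal.lift.{1, 0} (Cardinal.aleph 1) := by
  have h := Cardinal.mk_Iio_ordinal (Ordinal.omega.{0} 1)
  rw [Ordinal.card_omega] at h
  exact h

theorem exists_enum (hCH : Cardinal.continuum.{0} = Cardinal.aleph 1)
    {I : SigmaIdeal (ℕ → Bool)} {A : Set (ℕ → Bool)} (hA : Pos I A) :
    ∃ b : Om → Set (ℕ → Bool), (∀ ζ, Pos I (b ζ)) ∧ ∀ B, Pos I B → ∃ ζ, b ζ = B := by
  have h1 : Cardinal.mk {B : Set (ℕ → Bool) // Pos I B} ≤ Cardinal.aleph 1 := by
    rw [← hCH]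
    refine le_trans ?_ card_meas
    exact Cardinal.mk_le_of_injective (f := fun B : {B : Set (ℕ → Bool) // Pos I B} =>
      (⟨B.1, B.2.1⟩ : {B : Set (ℕ → Bool) // MeasurableSet B}))
      (fun B C h => by
        have h' : (⟨B.1, B.2.1⟩ : {B : Set (ℕ → Bool) // MeasurableSet B}) = ⟨C.1, C.2.1⟩ := h
        have h2 := congrArg (fun x : {B : Set (ℕ → Bool) // MeasurableSet B} => x.1) h'
        exact Subtype.ext h2)
  have h2 : Cardinal.lift.{1, 0} (Cardinal.mk {B : Set (ℕ → Bool) // Pos I B}) ≤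
      Cardinal.lift.{0, 1} (Cardinal.mk Om) := by
    rw [card_Om, Cardinal.lift_lift, Cardinal.lift_le]
    exact h1
  obtain ⟨f⟩ := Cardinal.lift_mk_le'.1 h2
  have : Nonempty {B : Set (ℕ → Bool) // Pos I B} := ⟨⟨A, hA⟩⟩
  refine ⟨fun ζ => (Function.invFun f ζ).1, fun ζ => (Function.invFun f ζ).2, fun B hB => ⟨f ⟨B, hB⟩, ?_⟩⟩
  have h3 := Function.leftInverse_invFun f.injective ⟨B, hB⟩
  exact congrArg Subtype.val h3

end RMK
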