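import Pool.Agent.RMK.LiftB

/-!
RMK BORL: lifting generic filters along a poset of pairs in a Borel way.

Let `G x` (`x ∈ B`) be generic filters on `(Q, r)` depending in a Borel way on `x ∈ 2^ω` (for every `q`,
the set `{x | q ∈ G x}` is Borel), and let `w₀ = (q₀, c₀) ∈ Q'` with `q₀ ∈ G x` for all `x ∈ B`.  Then there are
generic filters `G' x ∋ w₀` on `(Q', r')` depending in a Borel way on `x`, with first coordinates in
`G x`.

PROOF of `borel_lift`.  `Q'` and the set of the dense `D ∈ M`, `D ⊆ Q'` are countable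
(`ZModel.countable_mem`, `ZModel.countable_subsets`) and nonempty (`w₀`, `Q'` itself), so let
`d : ℕ → ZFSet` enumerate the set of dense sets (`Set.Countable.exists_eq_range`) and `u : ℕ → ZFSet`
enumerate `Q'`.  Say that `k : ℕ` is good for `(n, w, x)` if `u k ∈ d n`, `pair (u k) w ∈ r'` and `fst (u k) ∈
G x` (the last: `∃ q c, u k = pair q c ∧ q ∈ G x`).  Define `W x 0 = w₀` and `W x (n + 1) = u k` for the least
good `k` for `(n, W x n, x)` (`Nat.find`/`sInf`), which exists for `x ∈ B` by `lift_step`; otherwise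
`W x (n + 1) = W x n`.  For `x ∈ B`, by induction: `W x n ∈ Q'`, its first coordinate is in `G x`,
`W x (n + 1) ≤ W x n` and `W x (n + 1) ∈ d n`.  For every `n` and `w` the set `{x | x ∈ B ∧ W x n = w}` is Borel,
by induction on `n`: it is the union over the countably many `w' ∈ Q'` (only `w' ∈ Q'` occur on `B`) and
`k` of the sets `{x ∈ B | W x n = w'} ∩ {k is the least good number for (n, w', x)}`, and for fixed `k, n,
w'` the set of `x` for which `k` is good is empty or `{x | q ∈ G x}` with `u k = pair q c`.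
Put `G' x = {w ∈ Q' | ∃ n, pair (W x n) w ∈ r'}`.  Borel: countable unions over `n` and over the `w' ∈ Q'`
with `pair w' w ∈ r'`.  Genericity for `x ∈ B`: `sub`, `up` clear (`r'` is transitive on `Q'`: `PP.isPoset`);
directed: the `W x n` are decreasing (transitivity, induction) and belong to `G' x` (reflexivity);
`meets`: `W x (n + 1) ∈ d n`.  `w₀ ∈ G' x`.  If `pair q c ∈ G' x`, then `W x n = pair q' c' ≤ pair q c`, so `q' ≤ q`
by `rel`, `q' ∈ G x`, and `q ∈ G x` by `up` (`q ∈ Q` by `sub` and injectivity of pairs).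
`lift_generic`: apply `borel_lift` with `B = univ` and constant `G`.
-/

namespace RMK

open Set MeasureTheory

variable {M : Set ZFSet.{0}} {Q r C s Q' r' : ZFSet.{0}} {g : Set ZFSet.{0}}

/-- `u k` is a good choice at the stage `n` after `w` -/
private def BGood (r' : ZFSet.{0}) (d u : ℕ → ZFSet.{0}) (G : (ℕ → Bool) → Set ZFSet.{0})
    (k n : ℕ) (w : ZFSet.{0}) (x : ℕ → Bool) : Prop :=
  u k ∈ d n ∧ ZFSet.pair (u k) w ∈ r' ∧ ∃ q c, u k = ZFSet.pair q c ∧ q ∈ G x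

open Classical in
/-- one step -/
private noncomputable def bstep (r' : ZFSet.{0}) (d u : ℕ → ZFSet.{0})
    (G : (ℕ → Bool) → Set ZFSet.{0}) (x : ℕ → Bool) (n : ℕ) (w : ZFSet.{0}) : ZFSet.{0} :=
  if h : ∃ k, BGood r' d u G k n w x then u (Nat.find h) else w

/-- the sequence -/
private noncomputable def bseq (r' : ZFSet.{0}) (d u : ℕ → ZFSet.{0})
    (G : (ℕ → Bool) → Set ZFSet.{0}) (w₀ : ZFSet.{0}) (x : ℕ → Bool) : ℕ → ZFSet.{0}
  | 0 => w₀
  | n + 1 => bstep r' d u G x n (bseq r' d u G w₀ x n)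

private theorem bgood_meas {r' : ZFSet.{0}} {d u : ℕ → ZFSet.{0}}
    {G : (ℕ → Bool) → Set ZFSet.{0}} (hG : ∀ q, MeasurableSet {x | q ∈ G x}) (k n : ℕ)
    (w : ZFSet.{0}) : MeasurableSet {x | BGood r' d u G k n w x} := by
  by_cases h1 : u k ∈ d n ∧ ZFSet.pair (u k) w ∈ r' ∧ ∃ q c, u k = ZFSet.pair q c
  · obtain ⟨h2, h3, q, c, h4⟩ := h1
    have h5 : {x | BGood r' d u G k n w x} = {x | q ∈ G x} := by
      ext x
      constructor
      · rintro ⟨-, -, q', c', h6, h7⟩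
        have h8 : q = q' := (ZFSet.pair_inj.1 (h4.symm.trans h6)).1
        change q ∈ G x
        rw [h8]
        exact h7
      · intro h6
        exact ⟨h2, h3, q, c, h4, h6⟩
    rw [h5]
    exact hG q
  · have h5 : {x | BGood r' d u G k n w x} = ∅ := by
      ext x
      constructor
      · rintro ⟨h2, h3, q, c, h4, -⟩
        exact absurd ⟨h2, h3, q, c, h4⟩ h1
      · intro h
        exact absurd h (Set.notMem_empty x)
    rw [h5]
    exact MeasurableSet.empty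

private theorem bstep_eq_iff {r' : ZFSet.{0}} {d u : ℕ → ZFSet.{0}}
    {G : (ℕ → Bool) → Set ZFSet.{0}} (x : ℕ → Bool) (n : ℕ) (w v : ZFSet.{0}) :
    bstep r' d u G x n w = v ↔
      (∃ k, (BGood r' d u G k n w x ∧ ∀ j, j < k → ¬ BGood r' d u G j n w x) ∧ u k = v) ∨
      ((∀ k, ¬ BGood r' d u G k n w x) ∧ w = v) := by
  classical
  unfold bstep
  split_ifs with h
  · constructor
    · intro h1
      exact Or.inl ⟨Nat.find h, ⟨Nat.find_spec h, fun j hj => Nat.find_min h hj⟩, h1⟩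
    · rintro (⟨k, ⟨h1, h2⟩, h3⟩ | ⟨h1, -⟩)
      · have h4 : Nat.find h = k := by
          rw [Nat.find_eq_iff]
          exact ⟨h1, h2⟩
        rw [h4]
        exact h3
      · obtain ⟨k, hk⟩ := h
        exact absurd hk (h1 k)
  · constructor
    · intro h1
      exact Or.inr ⟨fun k hk => h ⟨k, hk⟩, h1⟩
    · rintro (⟨k, ⟨h1, -⟩, -⟩ | ⟨-, h1⟩)
      · exact absurd ⟨k, h1⟩ h
      · exact h1

private theorem bstep_meas {r' : ZFSet.{0}} {d u : ℕ → ZFSet.{0}}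
    {G : (ℕ → Bool) → Set ZFSet.{0}} (hG : ∀ q, MeasurableSet {x | q ∈ G x}) (n : ℕ)
    (w v : ZFSet.{0}) : MeasurableSet {x | bstep r' d u G x n w = v} := by
  have h1 : {x | bstep r' d u G x n w = v} =
      (⋃ k, ({x | BGood r' d u G k n w x} ∩
        ⋂ j, {x | j < k → ¬ BGood r' d u G j n w x}) ∩ {_x | u k = v}) ∪
      ((⋂ k, {x | ¬ BGood r' d u G k n w x}) ∩ {_x | w = v}) := by
    ext x
    rw [Set.mem_ofPred_eq, bstep_eq_iff]
    simp only [Set.mem_union, Set.mem_iUnion, Set.mem_inter_iff, Set.mem_iInter,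
      Set.mem_ofPred_eq]
  rw [h1]
  refine MeasurableSet.union (MeasurableSet.iUnion fun k => ?_) ?_
  · refine ((bgood_meas hG k n w).inter (MeasurableSet.iInter fun j => ?_)).inter
      (MeasurableSet.const _)
    by_cases hj : j < k
    · have h2 : {x | j < k → ¬ BGood r' d u G j n w x} = {x | BGood r' d u G j n w x}ᶜ := by
        ext x
        simp [hj]
      rw [h2]
      exact (bgood_meas hG j n w).compl
    · have h2 : {x : ℕ → Bool | j < k → ¬ BGood r' d u G j n w x} = Set.univ := by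
        ext x
        simp [hj]
      rw [h2]
      exact MeasurableSet.univ
  · refine (MeasurableSet.iInter fun k => ?_).inter (MeasurableSet.const _)
    exact (bgood_meas hG k n w).compl

theorem borel_lift (hM : ZModel M) (hQ : IsPoset M Q r) (hP : PP M Q r C s Q' r')
    {B : Set (ℕ → Bool)} (hB : MeasurableSet B) {G : (ℕ → Bool) → Set ZFSet.{0}}
    (hG : ∀ q, MeasurableSet {x | q ∈ G x}) (hgen : ∀ x ∈ B, IsGeneric M Q r (G x))
    {q₀ c₀ : ZFSet.{0}} (hw : ZFSet.pair q₀ c₀ ∈ Q') (hq : ∀ x ∈ B, q₀ ∈ G x) :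
    ∃ G' : (ℕ → Bool) → Set ZFSet.{0}, (∀ w, MeasurableSet {x | x ∈ B ∧ w ∈ G' x}) ∧
      ∀ x ∈ B, IsGeneric M Q' r' (G' x) ∧ ZFSet.pair q₀ c₀ ∈ G' x ∧
        ∀ q c, ZFSet.pair q c ∈ G' x → q ∈ G x := by
  classical
  have hpo := PP.isPoset hQ hP ⟨_, hw⟩
  -- the dense sets
  obtain ⟨d, hd⟩ : ∃ d : ℕ → ZFSet.{0}, {D : ZFSet.{0} | D ∈ M ∧ D ⊆ Q' ∧
      ∀ w ∈ Q', ∃ w' ∈ D, ZFSet.pair w' w ∈ r'} = Set.range d := by
    refine Set.Countable.exists_eq_range ?_ ?_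
    · refine (hM.countable_subsets hP.memQ').mono ?_
      rintro D ⟨h1, h2, -⟩
      exact ⟨h1, h2⟩
    · exact ⟨Q', hP.memQ', fun _ h => h, fun w hw => ⟨w, hw, hpo.refl w hw⟩⟩
  obtain ⟨u, hu⟩ : ∃ u : ℕ → ZFSet.{0}, {w : ZFSet.{0} | w ∈ Q'} = Set.range u :=
    Set.Countable.exists_eq_range (hM.countable_mem hP.memQ') ⟨_, hw⟩
  have hdn : ∀ n, d n ∈ M ∧ d n ⊆ Q' ∧ ∀ w ∈ Q', ∃ w' ∈ d n, ZFSet.pair w' w ∈ r' := by
    intro n
    have h1 : d n ∈ Set.range d := ⟨n, rfl⟩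
    rw [← hd] at h1
    exact h1
  have huk : ∀ w, w ∈ Q' ↔ ∃ k, u k = w := by
    intro w
    have h1 : w ∈ {w : ZFSet.{0} | w ∈ Q'} ↔ w ∈ Set.range u := by rw [hu]
    exact h1
  set W : (ℕ → Bool) → ℕ → ZFSet.{0} := fun x => bseq r' d u G (ZFSet.pair q₀ c₀) x with hW
  have hWs : ∀ x n, W x (n + 1) = bstep r' d u G x n (W x n) := fun x n => rfl
  -- existence of good numbers
  have hex : ∀ x ∈ B, ∀ n w, w ∈ Q' → (∃ q c, w = ZFSet.pair q c ∧ q ∈ G x) →
      ∃ k, BGood r' d u G k n w x := by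
    rintro x hx n w hwQ ⟨q, c, rfl, hqG⟩
    obtain ⟨q', c', h1, h2, h3⟩ := lift_step hM hQ (hgen x hx) hP (hdn n).1 (hdn n).2.1
      (hdn n).2.2 hwQ hqG
    obtain ⟨k, hk⟩ := (huk _).1 ((hdn n).2.1 h1)
    refine ⟨k, ?_, ?_, q', c', hk, h3⟩
    · rw [hk]
      exact h1
    · rw [hk]
      exact h2
  have hstep : ∀ x ∈ B, ∀ n w, w ∈ Q' → (∃ q c, w = ZFSet.pair q c ∧ q ∈ G x) →
      bstep r' d u G x n w ∈ d n ∧ ZFSet.pair (bstep r' d u G x n w) w ∈ r' ∧
        ∃ q c, bstep r' d u G x n w = ZFSet.pair q c ∧ q ∈ G x := by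
    intro x hx n w h1 h2
    have h3 := hex x hx n w h1 h2
    unfold bstep
    rw [dif_pos h3]
    exact Nat.find_spec h3
  have hWQ : ∀ x ∈ B, ∀ n, W x n ∈ Q' ∧ ∃ q c, W x n = ZFSet.pair q c ∧ q ∈ G x := by
    intro x hx n
    induction n with
    | zero => exact ⟨hw, q₀, c₀, rfl, hq x hx⟩
    | succ n ih =>
      rw [hWs]
      obtain ⟨h1, -, h3⟩ := hstep x hx n _ ih.1 ih.2
      exact ⟨(hdn n).2.1 h1, h3⟩
  have hWd : ∀ x ∈ B, ∀ n, W x (n + 1) ∈ d n := fun x hx n =>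
    (hstep x hx n _ (hWQ x hx n).1 (hWQ x hx n).2).1
  have hWr : ∀ x ∈ B, ∀ n, ZFSet.pair (W x (n + 1)) (W x n) ∈ r' := fun x hx n =>
    (hstep x hx n _ (hWQ x hx n).1 (hWQ x hx n).2).2.1
  have hWl : ∀ x ∈ B, ∀ n k, ZFSet.pair (W x (n + k)) (W x n) ∈ r' := by
    intro x hx n k
    induction k with
    | zero => exact hpo.refl _ (hWQ x hx n).1
    | succ k ih =>
      exact hpo.trans _ (hWQ x hx (n + (k + 1))).1 _ (hWQ x hx (n + k)).1 _ (hWQ x hx n).1
        (hWr x hx (n + k)) ih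
  -- measurability
  have hmeas : ∀ n w, MeasurableSet {x | x ∈ B ∧ W x n = w} := by
    intro n
    induction n with
    | zero =>
      intro w
      exact hB.inter (MeasurableSet.const (ZFSet.pair q₀ c₀ = w))
    | succ n ih =>
      intro w
      have h1 : {x | x ∈ B ∧ W x (n + 1) = w} =
          ⋃ i, {x | x ∈ B ∧ W x n = u i} ∩ {x | bstep r' d u G x n (u i) = w} := by
        ext x
        simp only [Set.mem_iUnion, Set.mem_inter_iff, Set.mem_ofPred_eq]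
        constructor
        · rintro ⟨h1, h2⟩
          obtain ⟨i, hi⟩ := (huk _).1 (hWQ x h1 n).1
          refine ⟨i, ⟨h1, hi.symm⟩, ?_⟩
          rw [hi, ← hWs]
          exact h2
        · rintro ⟨i, ⟨h1, h2⟩, h3⟩
          refine ⟨h1, ?_⟩
          rw [hWs, h2]
          exact h3
      rw [h1]
      exact MeasurableSet.iUnion fun i => (ih (u i)).inter (bstep_meas hG n (u i) w)
  refine ⟨fun x => {w | w ∈ Q' ∧ ∃ n, ZFSet.pair (W x n) w ∈ r'}, fun w => ?_, fun x hx => ?_⟩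
  · have h1 : {x | x ∈ B ∧ w ∈ {w | w ∈ Q' ∧ ∃ n, ZFSet.pair (W x n) w ∈ r'}} =
        ⋃ n, ⋃ i, {x | x ∈ B ∧ W x n = u i} ∩ {_x | w ∈ Q' ∧ ZFSet.pair (u i) w ∈ r'} := by
      ext x
      simp only [Set.mem_iUnion, Set.mem_inter_iff, Set.mem_ofPred_eq]
      constructor
      · rintro ⟨h1, h2, n, h3⟩
        obtain ⟨i, hi⟩ := (huk _).1 (hWQ x h1 n).1
        refine ⟨n, i, ⟨h1, hi.symm⟩, h2, ?_⟩
        rw [hi]
        exact h3
      · rintro ⟨n, i, ⟨h1, h2⟩, h3, h4⟩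
        refine ⟨h1, h3, n, ?_⟩
        rw [h2]
        exact h4
    rw [h1]
    exact MeasurableSet.iUnion fun n => MeasurableSet.iUnion fun i =>
      (hmeas n (u i)).inter (MeasurableSet.const _)
  · have hWG : ∀ n, W x n ∈ {w | w ∈ Q' ∧ ∃ n, ZFSet.pair (W x n) w ∈ r'} := fun n =>
      ⟨(hWQ x hx n).1, n, hpo.refl _ (hWQ x hx n).1⟩
    refine ⟨⟨fun w hw => hw.1, ⟨_, hWG 0⟩, ?_, ?_, ?_⟩, hWG 0, ?_⟩
    · rintro w ⟨h1, n, h2⟩ y hy h3
      exact ⟨hy, n, hpo.trans _ (hWQ x hx n).1 _ h1 _ hy h2 h3⟩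
    · rintro w ⟨h1, n, h2⟩ w' ⟨h3, m, h4⟩
      refine ⟨W x (n + m), hWG _, ?_, ?_⟩
      · exact hpo.trans _ (hWQ x hx (n + m)).1 _ (hWQ x hx n).1 _ h1 (hWl x hx n m) h2
      · have h5 := hWl x hx m n
        rw [add_comm m n] at h5
        exact hpo.trans _ (hWQ x hx (n + m)).1 _ (hWQ x hx m).1 _ h3 h5 h4
    · intro D h1 h2 h3
      have h4 : D ∈ Set.range d := by
        rw [← hd]
        exact ⟨h1, h2, h3⟩
      obtain ⟨n, rfl⟩ := h4
      exact ⟨W x (n + 1), hWG _, hWd x hx n⟩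
    · rintro q c ⟨h1, n, h2⟩
      obtain ⟨h3, q', c', h4, h5⟩ := hWQ x hx n
      rw [h4] at h2 h3
      have h6 := ((hP.rel q' c' q c h3 h1).1 h2).1
      obtain ⟨q1, hq1, c1, -, h7⟩ := hP.sub _ h1
      have h8 : q = q1 := (ZFSet.pair_inj.1 h7).1
      subst h8
      exact (hgen x hx).up q' h5 q hq1 h6

theorem lift_generic (hM : ZModel M) (hQ : IsPoset M Q r) (hP : PP M Q r C s Q' r')
    (hg : IsGeneric M Q r g) {q₀ c₀ : ZFSet.{0}} (hw : ZFSet.pair q₀ c₀ ∈ Q') (hq : q₀ ∈ g) :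
    ∃ g' : Set ZFSet.{0}, IsGeneric M Q' r' g' ∧ ZFSet.pair q₀ c₀ ∈ g' ∧
      ∀ q c, ZFSet.pair q c ∈ g' → q ∈ g := by
  obtain ⟨G', -, h⟩ := borel_lift hM hQ hP (B := Set.univ) MeasurableSet.univ (G := fun _ => g)
    (fun q => MeasurableSet.const (q ∈ g)) (fun _ _ => hg) hw (fun _ _ => hq)
  exact ⟨G' fun _ => false, h _ (Set.mem_univ _)⟩

end RMK
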