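import Pool.Agent.RMK.Club

/-!
RMK CCCPROPER: the countable chain condition implies properness.

PROOF.  Let `CCC I`.  For a dense set `D` of conditions let `𝓐` be a maximal family of elements of `D` with
pairwise intersections in `I` (Zorn, `zorn_subset`).  It is countable by `CCC`.  For every positive
`C` there is `E ∈ 𝓐` with `Pos I (C ∩ E)`: otherwise choose `E ∈ D`, `E ⊆ C`; then `E ∩ E' ∈ I` for all
`E' ∈ 𝓐` (`E ∩ E'` is Borel and contained in `C ∩ E'`, which is in `I`), `E ∉ 𝓐` (as `E ∩ E = E` is positive), and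
`insert E 𝓐` contradicts maximality.  Enumerate `𝓐 = {E D n | n : ℕ}` (if it is nonempty; if there are no
positive sets everything is trivial).  For club many `N`: `inr D ∈ N` implies `inl (E D n) ∈ N` for all `n`
(`club_map`, `club_forall`).  For such an `N` and `inl A ∈ N` positive take `B = A`.
-/

namespace RMK

open MeasureTheory Set PU

private theorem exists_seq {X : Type} [MeasurableSpace X] {I : SigmaIdeal X} (h : CCC I)
    (D : Set (Set X)) (hD : DenseIn I D) :
    ∃ E : ℕ → Set X, ∀ C, Pos I C → ∃ n, E n ∈ D ∧ Pos I (C ∩ E n) := by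
  obtain ⟨A, hA⟩ := zorn_subset
    {A : Set (Set X) | A ⊆ D ∧ A.Pairwise fun U V => I.mem (U ∩ V)} (by
      intro c hc hch
      refine ⟨⋃₀ c, ⟨Set.sUnion_subset fun t ht => (hc ht).1, ?_⟩,
        fun s hs => Set.subset_sUnion_of_mem hs⟩
      exact (Set.pairwise_sUnion hch.directedOn).2 fun t ht => (hc ht).2)
  have hA1 : A ⊆ D := hA.prop.1
  have hA2 : A.Pairwise fun U V => I.mem (U ∩ V) := hA.prop.2
  have key : ∀ C, Pos I C → ∃ E ∈ A, Pos I (C ∩ E) := by
    intro C hC
    by_contra hn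
    push Not at hn
    obtain ⟨E, hE, hEC⟩ := hD.2 C hC
    have hEp : Pos I E := hD.1 E hE
    have h1 : ∀ E' ∈ A, I.mem (E ∩ E') := by
      intro E' hE'
      have h2 : Pos I E' := hD.1 E' (hA1 hE')
      have h3 : I.mem (C ∩ E') := by
        by_contra h4
        exact hn E' hE' ⟨hC.1.inter h2.1, h4⟩
      exact I.mono _ _ h3 (hEp.1.inter h2.1) (Set.inter_subset_inter_left _ hEC)
    have h2 : E ∉ A := by
      intro h3
      have h4 := h1 E h3
      rw [Set.inter_self] at h4
      exact hEp.2 h4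
    have h3 : insert E A ∈ {A : Set (Set X) | A ⊆ D ∧ A.Pairwise fun U V => I.mem (U ∩ V)} := by
      refine ⟨Set.insert_subset hE hA1, ?_⟩
      rw [Set.pairwise_insert]
      refine ⟨hA2, fun E' hE' _ => ⟨h1 E' hE', ?_⟩⟩
      rw [Set.inter_comm]
      exact h1 E' hE'
    have h4 : insert E A ⊆ A := hA.le_of_ge h3 (Set.subset_insert E A)
    exact h2 (h4 (Set.mem_insert E A))
  have hcount : A.Countable := h A (fun U hU => hD.1 U (hA1 hU)) hA2
  rcases A.eq_empty_or_nonempty with h0 | h0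
  · refine ⟨fun _ => ∅, fun C hC => ?_⟩
    obtain ⟨E, hE, _⟩ := key C hC
    rw [h0] at hE
    exact absurd hE (Set.notMem_empty E)
  · obtain ⟨e, he⟩ := hcount.exists_eq_range h0
    refine ⟨e, fun C hC => ?_⟩
    obtain ⟨E, hE, hE2⟩ := key C hC
    have hE3 := hE
    rw [he] at hE3
    obtain ⟨n, rfl⟩ := hE3
    exact ⟨n, hA1 hE, hE2⟩

theorem proper_of_ccc {X : Type} [MeasurableSpace X] {I : SigmaIdeal X} (h : CCC I) : Proper I := by
  classical
  have h1 : ∀ D : Set (Set X), ∃ E : ℕ → Set X, DenseIn I D →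
      ∀ C, Pos I C → ∃ n, E n ∈ D ∧ Pos I (C ∩ E n) := by
    intro D
    by_cases hD : DenseIn I D
    · obtain ⟨E, hE⟩ := exists_seq h D hD
      exact ⟨E, fun _ => hE⟩
    · exact ⟨fun _ => ∅, fun h' => absurd h' hD⟩
  choose E hE using h1
  have h2 : ∀ n : ℕ, ClubMany fun N : Set (Set X ⊕ Set (Set X)) =>
      ∀ x ∈ N, Sum.elim (fun A => Sum.inl A) (fun D => Sum.inl (E D n)) x ∈ N :=
    fun n => club_map _
  refine (club_forall h2).mono fun N _ hN A hA hpos => ⟨A, subset_rfl, hpos, ?_⟩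
  intro D hDN hD C _ hCp
  obtain ⟨n, hn, hn2⟩ := hE D hD C hCp
  exact ⟨E D n, hn, hN n (Sum.inr D) hDN, hn2⟩

end RMK
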