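import Pool.Agent.RMK.LevEx
import Pool.Agent.PU.TruB

/-!
RMK CNT: the canonical sets of cofinal sequences and of keys are countable; keys determine the length.

PROOFS.
`tr_countable`: `LR (ords (bitSet u)) β` is countable (`LR_countable`), there are countably many formulas
(`fml_countable`), and by `sat_congr` the relation `Sat .. φ (asg s ξ a b c)` depends only on `φ` and on
finitely many values `s i`, `i < n φ` (if `s i = s' i` for `i < n φ` then the assignments
`asg s ξ a b c` and `asg s' ξ a b c` agree below `n φ`).  As in `defSets_countable`: choose for every `T`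
in the set a pair `(φ, (List.range (n φ)).map s)`; the choice is injective.
`i1_countable`: `f` is determined by `(T, ε₁, ε₂, σ)`: `f 0 = σ` and `f (n+1)` is the least `α'` with
`StepAt T ε₁ ε₂ u (f n) α'`; `T` ranges over a countable set and `ε₁, ε₂, σ < u.len` over countable sets
(`Om.countable_Iio`).
`i2_countable`: `f` is determined by `l < u.len`: it is strictly increasing with a prescribed range (two
strictly increasing maps `ℕ → Om` with the same range are equal: strong induction).
`w_countable`: the union of at most one function (`u.len = natO 0`), at most one (`ξ` is the maximum),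
at most one, a countable set, and the set of `f` with `I1 β₀ u f` for the least `β₀` (if
`I1 β u f ∧ ∀ β' < β ..` and `I1 β₁ u f₁ ∧ ..` then `β = β₁`).
`key_len`: let `f` be as in `W (p.restr α) f`.  If `α = 0` then `p.restr α` has all values equal to
`default = fun _ => false`, so the row `n ↦ key .. (Nat.pair 0 n)` is the zero real; `qqc` of it codes no
successor ordinal (`IsWO (fun _ => false) l` implies `l = 0`: if `0 < l` there is `n` with
`cd v n n`, but all `cd` are false).  If `0 < α`, then `f n < α` for all `n` and for every `η < α` there is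
`n` with `η ≤ f n` (in the successor case `f n` is the maximum; in the other cases `Cof`), and row `n` of
the key is `p.val (f n)`, whose `qqc` part codes the successor of `f n` (`Val`).  So if two keys for
`α ≤ α'` are equal: `α = 0 < α'` is impossible by the above (row `0`), and if `0 < α < α'` choose `n`
with `α ≤ f' n`; row `n` codes the successor of `f' n` and the successor of `f n < α ≤ f' n`,
contradicting `IsWO.unique` (successors of different ordinals are different).
Note `(p.restr α).len = α` for `α ≤ p.len` (`Seq.restr_len` in `PU/TruB.lean`) and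
`(p.restr α).val ξ = p.val ξ` for `ξ < α`.
-/

namespace RMK

open MeasureTheory Set PU

theorem tr_countable (u : Seq (ℕ → Bool)) (β : Om) : {T : T4 | TR u β T}.Countable := by
  classical
  obtain ⟨A, hA⟩ : ∃ A, A = ords (bitSet u) := ⟨_, rfl⟩
  obtain ⟨M, hM⟩ : ∃ M, M = LR A β.1 := ⟨_, rfl⟩
  have hMc : M.Countable := by rw [hM]; exact LR_countable A β
  have hc := hMc.to_subtype
  have hF := fml_countable
  have key : ∀ T : {T : T4 | TR u β T}, ∃ p : Fml × List M, ∃ s : ℕ → M,
      p.2 = (List.range (sat_congr (relE A) M p.1).choose).map s ∧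
      ∀ ξ a b c, T.1 ξ a b c ↔ ξ < u.len ∧ a < u.len ∧ b < u.len ∧ c < u.len ∧
        Sat (relE A) M p.1 (asg (fun i => (s i : ZFSet.{0})) ξ a b c) := by
    rintro ⟨T, -, φ, s, h1, h2⟩
    rw [← hA, ← hM] at h1
    rw [← hA, ← hM] at h2
    exact ⟨(φ, (List.range (sat_congr (relE A) M φ).choose).map
      fun i => ⟨s i, h1 i⟩), fun i => ⟨s i, h1 i⟩, rfl, h2⟩
  choose f s hf1 hf2 using key
  have hinj : Function.Injective f := by
    intro x y hxy
    apply Subtype.ext
    have h3 : ∀ ξ a b c, Sat (relE A) M (f x).1 (asg (fun i => (s x i : ZFSet.{0})) ξ a b c) ↔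
        Sat (relE A) M (f y).1 (asg (fun i => (s y i : ZFSet.{0})) ξ a b c) := by
      intro ξ a b c
      rw [← hxy]
      refine (sat_congr (relE A) M (f x).1).choose_spec _ _ fun i hi => ?_
      have h4 := hf1 x
      have h5 := hf1 y
      rw [← hxy] at h5
      have h6 := h4.symm.trans h5
      have h7 := List.map_eq_map_iff.1 h6 i (List.mem_range.2 hi)
      unfold asg
      simp only [h7]
    funext ξ a b c
    refine propext ?_
    rw [hf2 x ξ a b c, hf2 y ξ a b c, h3 ξ a b c]
  exact Set.countable_coe_iff.1 hinj.countable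

private theorem rule_unique {T : T4} {ε₁ ε₂ σ : Om} {u : Seq (ℕ → Bool)} {f f' : ℕ → Om}
    (h : Rule T ε₁ ε₂ σ u f) (h' : Rule T ε₁ ε₂ σ u f') : f = f' := by
  funext n
  induction n with
  | zero => rw [h.1, h'.1]
  | succ n ih =>
    obtain ⟨h1, h2⟩ := h.2 n
    obtain ⟨h1', h2'⟩ := h'.2 n
    rw [ih] at h1 h2
    rcases lt_trichotomy (f (n + 1)) (f' (n + 1)) with hlt | heq | hgt
    · exact absurd h1 (h2' _ hlt)
    · exact heq
    · exact absurd h1' (h2 _ hgt)

private theorem i1_countable (u : Seq (ℕ → Bool)) (β : Om) : {f | I1 β u f}.Countable := by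
  have h1 : (⋃ T ∈ {T : T4 | TR u β T}, ⋃ ε₁ ∈ {ε : Om | ε < u.len}, ⋃ ε₂ ∈ {ε : Om | ε < u.len},
      ⋃ σ ∈ {σ : Om | σ < u.len}, {f | Rule T ε₁ ε₂ σ u f}).Countable := by
    refine (tr_countable u β).biUnion fun T _ => (Om.countable_Iio u.len).biUnion fun ε₁ _ =>
      (Om.countable_Iio u.len).biUnion fun ε₂ _ => (Om.countable_Iio u.len).biUnion fun σ _ => ?_
    have h2 : {f | Rule T ε₁ ε₂ σ u f}.Subsingleton := fun f hf f' hf' => rule_unique hf hf'
    exact h2.countable
  refine h1.mono ?_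
  rintro f ⟨-, T, ε₁, ε₂, σ, hT, h1, h2, h3, h4⟩
  exact mem_biUnion (show T ∈ {T : T4 | TR u β T} from hT)
    (mem_biUnion (show ε₁ ∈ {ε : Om | ε < u.len} from h1)
      (mem_biUnion (show ε₂ ∈ {ε : Om | ε < u.len} from h2)
        (mem_biUnion (show σ ∈ {σ : Om | σ < u.len} from h3) h4)))

private theorem i2_countable (u : Seq (ℕ → Bool)) : {f | I2 u f}.Countable := by
  have h1 : (⋃ l ∈ {l : Om | l < u.len}, {f : ℕ → Om | (∀ m n : ℕ, m < n → f m < f n) ∧
      ∀ ξ, (∃ n, f n = ξ) ↔ l ≤ ξ ∧ ξ < u.len ∧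
        ∀ ξ', ξ < ξ' → ξ' < u.len → nn (u.val ξ) < nn (u.val ξ')}).Countable := by
    refine (Om.countable_Iio u.len).biUnion fun l _ => ?_
    refine Set.Subsingleton.countable ?_
    rintro f ⟨hf1, hf2⟩ f' ⟨hf1', hf2'⟩
    have e1 : StrictMono f := fun m n h => hf1 m n h
    have e2 : StrictMono f' := fun m n h => hf1' m n h
    refine (StrictMono.range_inj e1 e2).1 ?_
    ext ξ
    exact (hf2 ξ).trans (hf2' ξ).symm
  refine h1.mono ?_
  rintro f ⟨-, l, hl, -, h2, h3⟩
  exact mem_biUnion (show l ∈ {l : Om | l < u.len} from hl) ⟨h2, h3⟩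

theorem w_countable (u : Seq (ℕ → Bool)) : {f | W u f}.Countable := by
  have c1 : {f : ℕ → Om | u.len = natO 0 ∧ ∀ n, f n = natO 0}.Countable :=
    Set.Subsingleton.countable fun f hf f' hf' => funext fun n => by rw [hf.2 n, hf'.2 n]
  have c2 : {f : ℕ → Om | ∃ ξ, ξ < u.len ∧ (∀ η, η < u.len → η ≤ ξ) ∧ ∀ n, f n = ξ}.Countable := by
    refine Set.Subsingleton.countable ?_
    rintro f ⟨ξ, h1, h2, h3⟩ f' ⟨ξ', h1', h2', h3'⟩
    have e : ξ = ξ' := le_antisymm (h2' ξ h1) (h2 ξ' h1')
    funext n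
    rw [h3, h3', e]
  have c3 : {f : ℕ → Om | Cof u f ∧ ∀ n, f n = natO n}.Countable :=
    Set.Subsingleton.countable fun f hf f' hf' => funext fun n => by rw [hf.2 n, hf'.2 n]
  have c5 : {f : ℕ → Om | ∃ β, I1 β u f ∧ ∀ β', β' < β → ∀ f', ¬ I1 β' u f'}.Countable := by
    by_cases hne : ∃ β f, I1 β u f ∧ ∀ β', β' < β → ∀ f', ¬ I1 β' u f'
    · obtain ⟨β, f₀, h1, h2⟩ := hne
      refine (i1_countable u β).mono ?_
      rintro f ⟨β', h1', h2'⟩
      have e : β = β' := by
        rcases lt_trichotomy β β' with hlt | heq | hgt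
        · exact absurd h1 (h2' β hlt f₀)
        · exact heq
        · exact absurd h1' (h2 β' hgt f)
      rw [e]
      exact h1'
    · refine Set.countable_empty.mono ?_
      rintro f ⟨β, h⟩
      exact hne ⟨β, f, h⟩
  refine ((((c1.union c2).union c3).union (i2_countable u)).union c5).mono ?_
  rintro f (h | h | h | h | h)
  · exact Or.inl (Or.inl (Or.inl (Or.inl h)))
  · exact Or.inl (Or.inl (Or.inl (Or.inr h)))
  · exact Or.inl (Or.inl (Or.inr h))
  · exact Or.inl (Or.inr h)
  · exact Or.inr h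

theorem keys_countable (u : Seq (ℕ → Bool)) : (Keys u).Countable := by
  refine ((w_countable u).image (key u)).mono ?_
  rintro v ⟨f, hf, rfl⟩
  exact ⟨f, hf, rfl⟩

private theorem w_cof {u : Seq (ℕ → Bool)} {f : ℕ → Om} (h : W u f) (h0 : u.len ≠ natO 0) :
    (∀ n, f n < u.len) ∧ ∀ η, η < u.len → ∃ n, η ≤ f n := by
  rcases h with h | ⟨ξ, h1, h2, h3⟩ | h | h | ⟨β, h, -⟩
  · exact absurd h.1 h0
  · exact ⟨fun n => by rw [h3]; exact h1, fun η hη => ⟨0, by rw [h3]; exact h2 η hη⟩⟩
  · exact ⟨h.1.1, fun η hη => (h.1.2 η hη).imp fun _ h => h.le⟩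
  · exact ⟨h.1.1, fun η hη => (h.1.2 η hη).imp fun _ h => h.le⟩
  · exact ⟨h.1.1, fun η hη => (h.1.2 η hη).imp fun _ h => h.le⟩

private theorem isWO_default {a ξ : Om} (h : Suc ξ a)
    (h2 : IsWO (qqc (default : ℕ → Bool)) a.1) : False := by
  obtain ⟨e, he⟩ := h2
  have h3 : (ξ.1 : Ordinal.{0}) < a.1 := h.1
  obtain ⟨n, hn, -⟩ := he.2.2 ξ.1 h3
  unfold cd qqc at hn
  exact Bool.false_ne_true hn

private theorem key_row {u u' : Seq (ℕ → Bool)} {f f' : ℕ → Om} (h : key u f = key u' f') (n : ℕ) :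
    u.val (f n) = u'.val (f' n) := by
  funext k
  have h1 := congrFun h (Nat.pair n k)
  unfold key at h1
  simpa only [Nat.unpair_pair] using h1

private theorem not_lt_natO (α : Om) : ¬ α < natO 0 := by
  intro h
  have h1 : α.1 < ((0 : ℕ) : Ordinal.{0}) := h
  simp at h1

private theorem key_aux {G : Set Om} {p : Seq (ℕ → Bool)} (hp : Val G p) {α α' : Om} (hα : α ≤ p.len)
    (hα' : α' ≤ p.len) {v : ℕ → Bool} (hv : v ∈ Keys (p.restr α)) (hv' : v ∈ Keys (p.restr α')) :
    ¬ α < α' := by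
  intro hlt
  obtain ⟨f, -, hvf⟩ := hv
  obtain ⟨f', hf', hvf'⟩ := hv'
  have hl : (p.restr α).len = α := p.restr_len hα
  have hl' : (p.restr α').len = α' := p.restr_len hα'
  have h0 : (p.restr α').len ≠ natO 0 := by
    rw [hl']
    rintro rfl
    exact not_lt_natO α hlt
  obtain ⟨h1, h2⟩ := w_cof hf' h0
  rw [hl'] at h1 h2
  obtain ⟨n, hn⟩ := h2 α hlt
  have hrow := key_row (hvf.symm.trans hvf') n
  rw [p.restr_val hα' (h1 n)] at hrow
  obtain ⟨a', hs', hc'⟩ := (hp.1 (f' n) (lt_of_lt_of_le (h1 n) hα')).2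
  rcases lt_or_ge (f n) α with hfn | hfn
  · rw [p.restr_val hα hfn] at hrow
    obtain ⟨a, hs, hc⟩ := (hp.1 (f n) (lt_of_lt_of_le hfn hα)).2
    rw [hrow] at hc
    have e : a = a' := Subtype.ext (hc.unique hc')
    have h3 : f' n < a := by rw [e]; exact hs'.1
    have h4 : f' n ≤ f n := hs.2 _ h3
    exact absurd (lt_of_lt_of_le hfn hn) (not_lt.2 h4)
  · rw [(p.restr α).out (f n) (by rw [hl]; exact hfn)] at hrow
    rw [← hrow] at hc'
    exact isWO_default hs' hc'

theorem key_len {G : Set Om} {p : Seq (ℕ → Bool)} (hp : Val G p) {α α' : Om} (hα : α ≤ p.len)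
    (hα' : α' ≤ p.len) {v : ℕ → Bool} (hv : v ∈ Keys (p.restr α)) (hv' : v ∈ Keys (p.restr α')) :
    α = α' :=
  le_antisymm (not_lt.1 (key_aux hp hα' hα hv' hv)) (not_lt.1 (key_aux hp hα hα' hv hv'))

end RMK
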