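import Pool.Agent.RMK.Uniq

/-!
RMK VALB: basic operations on valid sequences.

PROOFS.
`Ext.refl`, `Ext.trans`, `ext_restr`: from `Seq.ext'` and the values and lengths of restrictions
(`Seq.restr`: length `min s.len μ`).
`val_nil`: the empty sequence (`default`, length `0`): there is nothing to check for the first clause, and
`W (p.restr 0) (fun _ => natO 0)` by the first clause of `W` (`natO 0 = default`, i.e. the ordinal `0`).
`Val.restr`: `(p.restr α).restr β = p.restr β` for `β ≤ α ≤ p.len`.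
`snoc p y`: the sequence of length `p.len + 1` (as an element of `Om`) extending `p` with last value `y`.
`Val.snoc`: the restrictions to `β ≤ p.len` are those of `p`; for `β = p.len + 1` the second clause of `W`
holds with `ξ = p.len` (`f` constant).
`exists_entry`: `w 0` = the bit, `w (2n+1)` = the real `r`, `w (2n+2)` = a code of the successor of `α`
(`exists_isWO`); `rrc`, `qqc` of it by `omega`.
`exists_entry_nn`: the same with `r k = decide (k = n)`, so that `nn w = n`.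
-/

namespace RMK

open MeasureTheory Set PU

private theorem rlen {s : Seq (ℕ → Bool)} {μ : Om} (h : μ ≤ s.len) : (s.restr μ).len = μ :=
  min_eq_right h

private theorem rval {s : Seq (ℕ → Bool)} {μ ξ : Om} (h : ξ < s.len) (h' : ξ < μ) :
    (s.restr μ).val ξ = s.val ξ := by
  have h1 : ξ < min s.len μ := lt_min h h'
  simp only [Seq.restr, if_pos h1]

private theorem restr_restr' {s : Seq (ℕ → Bool)} {μ ν : Om} (hν : ν ≤ s.len) (hμ : μ ≤ ν) :
    (s.restr ν).restr μ = s.restr μ := by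
  have h1 : (s.restr ν).len = ν := rlen hν
  refine Seq.ext' ?_ ?_
  · rw [rlen (by rw [h1]; exact hμ), rlen (hμ.trans hν)]
  · intro ξ hξ
    rw [rlen (by rw [h1]; exact hμ)] at hξ
    rw [rval (by rw [h1]; exact hξ.trans_le hμ) hξ, rval (hξ.trans_le (hμ.trans hν)) (hξ.trans_le hμ),
      rval (hξ.trans_le (hμ.trans hν)) hξ]

private theorem ext_val {p q : Seq (ℕ → Bool)} (h : Ext p q) {ξ : Om} (hξ : ξ < p.len) :
    q.val ξ = p.val ξ := by
  have h1 : (q.restr p.len).val ξ = p.val ξ := by rw [h.2]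
  rw [rval (hξ.trans_le h.1) hξ] at h1
  exact h1

private theorem ext_mk {p q : Seq (ℕ → Bool)} (hl : p.len ≤ q.len)
    (h : ∀ ξ, ξ < p.len → q.val ξ = p.val ξ) : Ext p q := by
  refine ⟨hl, Seq.ext' (rlen hl) ?_⟩
  intro ξ hξ
  rw [rlen hl] at hξ
  rw [rval (hξ.trans_le hl) hξ, h ξ hξ]

theorem Ext.refl (p : Seq (ℕ → Bool)) : Ext p p := ext_mk le_rfl fun _ _ => rfl

theorem Ext.trans {p q r : Seq (ℕ → Bool)} (h : Ext p q) (h' : Ext q r) : Ext p r :=
  ext_mk (h.1.trans h'.1) fun ξ hξ => by rw [ext_val h' (hξ.trans_le h.1), ext_val h hξ]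

theorem Ext.val {p q : Seq (ℕ → Bool)} (h : Ext p q) {ξ : Om} (hξ : ξ < p.len) :
    q.val ξ = p.val ξ := ext_val h hξ

theorem Ext.restr {p q : Seq (ℕ → Bool)} (h : Ext p q) {α : Om} (hα : α ≤ p.len) :
    q.restr α = p.restr α := by
  refine Seq.ext' ?_ ?_
  · rw [rlen (hα.trans h.1), rlen hα]
  · intro ξ hξ
    rw [rlen (hα.trans h.1)] at hξ
    rw [rval (hξ.trans_le (hα.trans h.1)) hξ, rval (hξ.trans_le hα) hξ, ext_val h (hξ.trans_le hα)]

theorem ext_of {p q : Seq (ℕ → Bool)} (hl : p.len ≤ q.len) (h : ∀ ξ, ξ < p.len → q.val ξ = p.val ξ) :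
    Ext p q := ext_mk hl h

theorem ext_restr {q : Seq (ℕ → Bool)} {α : Om} (h : α ≤ q.len) : Ext (q.restr α) q := by
  refine ext_mk (by rw [rlen h]; exact h) ?_
  intro ξ hξ
  rw [rlen h] at hξ
  rw [rval (hξ.trans_le h) hξ]

theorem Ext.linear {p p' q : Seq (ℕ → Bool)} (h : Ext p q) (h' : Ext p' q) (hl : p.len ≤ p'.len) :
    Ext p p' :=
  ext_mk hl fun _ hξ => by rw [← ext_val h' (hξ.trans_le hl), ext_val h hξ]

theorem Ext.antisymm {p q : Seq (ℕ → Bool)} (h : Ext p q) (hl : q.len ≤ p.len) : p = q :=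
  Seq.ext' (le_antisymm h.1 hl) fun ξ hξ => (ext_val h hξ).symm

variable {G : Set Om}

private theorem natO_zero_le (α : Om) : natO 0 ≤ α := by
  change ((0 : ℕ) : Ordinal.{0}) ≤ α.1
  rw [Nat.cast_zero]
  exact bot_le

theorem val_nil : ∃ p, Val G p ∧ p.len = natO 0 := by
  have h0 : (Seq.mk' (fun _ => fun _ => false) (natO 0) : Seq (ℕ → Bool)).len = natO 0 := rfl
  refine ⟨Seq.mk' (fun _ => fun _ => false) (natO 0), ⟨?_, ?_⟩, h0⟩
  · intro ξ hξ
    rw [h0] at hξ
    exact absurd hξ (not_lt.2 (natO_zero_le ξ))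
  · intro α hα
    refine ⟨fun _ => natO 0, Or.inl ⟨?_, fun _ => rfl⟩⟩
    rw [rlen hα]
    rw [h0] at hα
    exact le_antisymm hα (natO_zero_le α)

theorem Val.restr {p : Seq (ℕ → Bool)} (hp : Val G p) {α : Om} (hα : α ≤ p.len) :
    Val G (p.restr α) := by
  refine ⟨?_, ?_⟩
  · intro ξ hξ
    rw [rlen hα] at hξ
    rw [rval (hξ.trans_le hα) hξ]
    exact hp.1 ξ (hξ.trans_le hα)
  · intro β hβ
    rw [rlen hα] at hβ
    rw [restr_restr' hα hβ]
    exact hp.2 β (hβ.trans hα)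

theorem Val.snoc {p : Seq (ℕ → Bool)} (hp : Val G p) {y : ℕ → Bool}
    (hb : bitc y = true ↔ p.len ∈ G) (hc : ∃ a, Suc p.len a ∧ IsWO (qqc y) a.1) :
    ∃ p', Val G p' ∧ Ext p p' ∧ Suc p.len p'.len ∧ p'.val p.len = y := by
  classical
  obtain ⟨a, ha, hwo⟩ := hc
  let p' : Seq (ℕ → Bool) := Seq.mk' (fun ξ => if ξ < p.len then p.val ξ else y) a
  have hlen : p'.len = a := rfl
  have hval : ∀ ξ, ξ < a → p'.val ξ = if ξ < p.len then p.val ξ else y := by
    intro ξ hξ
    show (if ξ < a then (if ξ < p.len then p.val ξ else y) else default) = _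
    rw [if_pos hξ]
  have hv1 : ∀ ξ, ξ < p.len → p'.val ξ = p.val ξ := by
    intro ξ hξ
    rw [hval ξ (hξ.trans ha.1), if_pos hξ]
  have hv2 : p'.val p.len = y := by
    rw [hval p.len ha.1, if_neg (lt_irrefl _)]
  have hext : Ext p p' := ext_mk (by rw [hlen]; exact ha.1.le) hv1
  refine ⟨p', ⟨?_, ?_⟩, hext, by rw [hlen]; exact ha, hv2⟩
  · intro ξ hξ
    rw [hlen] at hξ
    rcases lt_or_eq_of_le (ha.2 ξ hξ) with h | h
    · rw [hv1 ξ h]
      exact hp.1 ξ h
    · rw [h, hv2]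
      exact ⟨hb, a, ha, hwo⟩
  · intro α hα
    rw [hlen] at hα
    rcases le_or_gt α p.len with h | h
    · rw [hext.restr h]
      exact hp.2 α h
    · have h1 : α = a := by
        rcases lt_or_eq_of_le hα with h2 | h2
        · exact absurd (ha.2 α h2) (not_le.2 h)
        · exact h2
      subst h1
      refine ⟨fun _ => p.len, Or.inr (Or.inl ⟨p.len, ?_, ?_, fun _ => rfl⟩)⟩
      · rw [rlen (by rw [hlen])]
        exact h
      · intro η hη
        rw [rlen (by rw [hlen])] at hη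
        exact ha.2 η hη

theorem exists_entry (G : Set Om) (α : Om) (r : ℕ → Bool) : ∃ y : ℕ → Bool,
    (bitc y = true ↔ α ∈ G) ∧ (∃ a, Suc α a ∧ IsWO (qqc y) a.1) ∧ rrc y = r := by
  classical
  obtain ⟨a, ha⟩ := exists_suc α
  obtain ⟨v, hv⟩ := exists_isWO a.2
  refine ⟨fun k => if k = 0 then decide (α ∈ G) else if k % 2 = 1 then r (k / 2) else v (k / 2 - 1),
    ?_, ⟨a, ha, ?_⟩, ?_⟩
  · show (if (0 : ℕ) = 0 then decide (α ∈ G) else if 0 % 2 = 1 then r (0 / 2) else v (0 / 2 - 1)) =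
      true ↔ α ∈ G
    rw [if_pos rfl]
    exact decide_eq_true_iff
  · have e : qqc (fun k => if k = 0 then decide (α ∈ G) else if k % 2 = 1 then r (k / 2)
        else v (k / 2 - 1)) = v := by
      funext n
      show (if 2 * n + 2 = 0 then decide (α ∈ G) else if (2 * n + 2) % 2 = 1 then r ((2 * n + 2) / 2)
        else v ((2 * n + 2) / 2 - 1)) = v n
      rw [if_neg (by omega), if_neg (by omega)]
      congr 1
      omega
    rw [e]
    exact hv
  · funext n
    show (if 2 * n + 1 = 0 then decide (α ∈ G) else if (2 * n + 1) % 2 = 1 then r ((2 * n + 1) / 2)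
      else v ((2 * n + 1) / 2 - 1)) = r n
    rw [if_neg (by omega), if_pos (by omega)]
    congr 1
    omega

theorem exists_entry_nn (G : Set Om) (α : Om) (n : ℕ) : ∃ y : ℕ → Bool,
    (bitc y = true ↔ α ∈ G) ∧ (∃ a, Suc α a ∧ IsWO (qqc y) a.1) ∧ nn y = n := by
  classical
  obtain ⟨y, h1, h2, h3⟩ := exists_entry G α fun k => decide (k = n)
  refine ⟨y, h1, h2, ?_⟩
  have h4 : ∃ m, rrc y m = true := ⟨n, by rw [h3]; simp⟩
  unfold nn
  rw [dif_pos h4]
  have h5 : ∀ m, rrc y m = true → m = n := by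
    intro m hm
    rw [h3] at hm
    exact of_decide_eq_true hm
  exact h5 _ (Nat.find_spec h4)

end RMK
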