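import Pool.Agent.RMK.CondDefs
import Pool.Agent.RMK.ValB
import Pool.Agent.RMK.Cnt

/-!
RMK COND: basic facts on the basic sets.

PROOFS.
`Prm.mono`: `FExt s F s' F'` and `Prm s' F' x` give `Prm s F x`: for `r ∈ F`, `s.length ≤ e = enc ..`, either
`e < s'.length`, then `x e = s'[e] = false` by the last clause of `FExt`, or `s'.length ≤ e` and `r ∈ F'`.
`FExt.trans`: similar.  `FExt.refl`, `fext_add`: `s[e]? = none` for `e ≥ s.length`.
`fext_of_prm`: for `Prm s F x` and `s.length ≤ k`, `FExt s F ((List.range k).map x) F`.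
`Prm.range`: if `Prm s F x`, `Prm s' F' x` and `s.length, s'.length ≤ k` then
`Prm ((List.range k).map x) (F ∪ F') x`.
`Bas.mono`: `DecOK p' x` and `Ext p p'` give `DecOK p x` (restrictions and values agree, `Ext.restr`,
`Ext.val`).
`bas_inter`: let `x` be in both sets.  `p`, `p'` are comparable: say `p.len ≤ p'.len`; then `Ext p p'`,
because `DecR x p`, `DecR x p'` (`decR_of_decOK`) and `decR_unique`.  Take `p'' = p'`,
`s'' = (List.range k).map x` with `k = max s.length s'.length`, `F'' = F ∪ F'` (`fext_of_prm`: then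
`FExt s F s'' F''` and `FExt s' F' s'' F''`).  Symmetric if `p'.len ≤ p.len`.
`decR_of_decOK`: for `μ < p.len`: `Nx x (p.restr μ) (p.val μ)`: there is `f` with `W (p.restr μ) f` (`Val`),
for each such `f`, `p.val μ = theta x (key ..)` (`DecOK`), and `p.val μ` codes the successor of `μ`.
`sxR_of_decOK`: for `l < p.len` use `u = p.restr l`.
`measurableSet_bas`: `Prm` is a countable intersection of conditions on single coordinates; `DecOK` is a
countable intersection (`Om.countable_Iio`, `keys_countable`) of the sets `{x | theta x v = w}`, which are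
measurable since `measurable_theta` is measurable in `(x, v)`; singletons are measurable.
`goodF_mono`: `GoodF p F`, `Ext p p'` imply `GoodF p' F`.
`not_promised`: if `GoodF p F`, `v ∈ Keys (p.restr α)`, `α < p.len` and `p.val α n = false` then
`(v, n) ∉ F`: otherwise `v ∈ Keys (p.restr α')` with `p.val α' n = true`, and `α = α'` by `key_len`.
-/

namespace RMK

open MeasureTheory Set PU

theorem pre_get {s s' : List Bool} (h : s <+: s') {j : ℕ} {b : Bool} (hj : s[j]? = some b) :
    s'[j]? = some b := by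
  obtain ⟨hj1, hj2⟩ := List.getElem?_eq_some_iff.1 hj
  rw [List.prefix_iff_getElem?.1 h j hj1, hj2]

theorem get_range {k : ℕ} {x : ℕ → Bool} {j : ℕ} {b : Bool} :
    ((List.range k).map x)[j]? = some b ↔ j < k ∧ x j = b := by
  simp [List.getElem?_eq_some_iff]

theorem Prm.mono {s s' : List Bool} {F F' : FS} {x : ℕ → Bool} (h : FExt s F s' F')
    (hx : Prm s' F' x) : Prm s F x := by
  refine ⟨fun j b hj => hx.1 j b (pre_get h.1 hj), fun r hr m hm => ?_⟩
  by_cases hlt : enc r.1 r.2 m < s'.length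
  · have h1 : s'[enc r.1 r.2 m]? = some s'[enc r.1 r.2 m] := List.getElem?_eq_getElem hlt
    have h2 := h.2.2 r hr m hm _ h1
    have h3 := hx.1 _ _ h1
    rw [h3, h2]
  · exact hx.2 r (h.2.1 hr) m (not_lt.1 hlt)

theorem FExt.refl (s : List Bool) (F : FS) : FExt s F s F := by
  refine ⟨List.prefix_rfl, Finset.Subset.refl _, fun r _ m hm b hb => ?_⟩
  obtain ⟨h, -⟩ := List.getElem?_eq_some_iff.1 hb
  omega

theorem FExt.trans {s s' s'' : List Bool} {F F' F'' : FS} (h : FExt s F s' F')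
    (h' : FExt s' F' s'' F'') : FExt s F s'' F'' := by
  refine ⟨h.1.trans h'.1, h.2.1.trans h'.2.1, fun r hr m hm b hb => ?_⟩
  by_cases hlt : enc r.1 r.2 m < s'.length
  · have h1 : s'[enc r.1 r.2 m]? = some s'[enc r.1 r.2 m] := List.getElem?_eq_getElem hlt
    have h2 := pre_get h'.1 h1
    rw [hb] at h2
    rw [Option.some.inj h2]
    exact h.2.2 r hr m hm _ h1
  · exact h'.2.2 r (h.2.1 hr) m (not_lt.1 hlt) b hb

open Classical in
theorem fext_add (s : List Bool) (F F' : FS) : FExt s F s (F ∪ F') := by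
  refine ⟨List.prefix_rfl, Finset.subset_union_left, fun r _ m hm b hb => ?_⟩
  obtain ⟨h, -⟩ := List.getElem?_eq_some_iff.1 hb
  omega

theorem fext_of_prm {s : List Bool} {F F' : FS} {x : ℕ → Bool} (h : Prm s F x) {k : ℕ}
    (hk : s.length ≤ k) (hF : F ⊆ F') : FExt s F ((List.range k).map x) F' := by
  refine ⟨List.prefix_iff_getElem?.2 fun i hi => ?_, hF, fun r hr m hm b hb => ?_⟩
  · have h1 := h.1 i _ (List.getElem?_eq_getElem hi)
    exact get_range.2 ⟨by omega, h1⟩
  · obtain ⟨h1, h2⟩ := get_range.1 hb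
    rw [← h2]
    exact h.2 r hr m hm

open Classical in
theorem Prm.range {s s' : List Bool} {F F' : FS} {x : ℕ → Bool} (h : Prm s F x) (h' : Prm s' F' x)
    {k : ℕ} (hk : s.length ≤ k) (hk' : s'.length ≤ k) : Prm ((List.range k).map x) (F ∪ F') x := by
  refine ⟨fun j b hj => (get_range.1 hj).2, fun r hr m hm => ?_⟩
  rw [List.length_map, List.length_range] at hm
  rcases Finset.mem_union.1 hr with hr | hr
  · exact h.2 r hr m (hk.trans hm)
  · exact h'.2 r hr m (hk'.trans hm)

theorem decOK_mono {p p' : Seq (ℕ → Bool)} (hp : Ext p p') {x : ℕ → Bool} (h : DecOK p' x) :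
    DecOK p x := by
  intro α hα v hv
  rw [← hp.val hα]
  apply h α (hα.trans_le hp.1) v
  rwa [hp.restr hα.le]

theorem Bas.mono {p p' : Seq (ℕ → Bool)} {s s' : List Bool} {F F' : FS} (hp : Ext p p')
    (h : FExt s F s' F') : Bas p' s' F' ⊆ Bas p s F := by
  rintro x ⟨h1, h2⟩
  exact ⟨h1.mono h, decOK_mono hp h2⟩

theorem goodF_mono {p p' : Seq (ℕ → Bool)} {F : FS} (h : GoodF p F) (hp : Ext p p') :
    GoodF p' F := by
  intro r hr
  obtain ⟨α, hα, hk, hv⟩ := h r hr
  exact ⟨α, hα.trans_le hp.1, by rwa [hp.restr hα.le], by rwa [hp.val hα]⟩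

variable {G : Set Om}

theorem nx_of_decOK {p : Seq (ℕ → Bool)} (hp : Val G p) {x : ℕ → Bool} (h : DecOK p x) {μ : Om}
    (hμ : μ < p.len) : Nx x (p.restr μ) (p.val μ) := by
  refine ⟨hp.2 μ hμ.le, fun f hf => (h μ hμ _ ⟨f, hf, rfl⟩).symm, ?_⟩
  rw [p.restr_len hμ.le]
  exact (hp.1 μ hμ).2

theorem decR_of_decOK {p : Seq (ℕ → Bool)} (hp : Val G p) {x : ℕ → Bool} (h : DecOK p x) :
    DecR x p := fun _ hμ => nx_of_decOK hp h hμ

theorem sxR_of_decOK {p : Seq (ℕ → Bool)} (hp : Val G p) {x : ℕ → Bool} (h : DecOK p x) {l : Om}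
    (hl : l < p.len) : SxR x l (p.val l) :=
  ⟨p.restr l, p.restr_len hl.le,
    decR_of_decOK (hp.restr hl.le) (decOK_mono (ext_restr hl.le) h), nx_of_decOK hp h hl⟩

theorem bas_inter_aux {p p' : Seq (ℕ → Bool)} (hp : Val G p) (hp' : Val G p') {s s' : List Bool}
    {F F' : FS} (hF : GoodF p F) (hF' : GoodF p' F') {x : ℕ → Bool} (hx : x ∈ Bas p s F)
    (hx' : x ∈ Bas p' s' F') (hl : p.len ≤ p'.len) :
    ∃ p'' s'' F'', Val G p'' ∧ GoodF p'' F'' ∧ Ext p p'' ∧ Ext p' p'' ∧
      FExt s F s'' F'' ∧ FExt s' F' s'' F'' ∧ x ∈ Bas p'' s'' F'' := by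
  classical
  have hE : Ext p p' := ⟨hl, decR_unique (decR_of_decOK hp hx.2) (decR_of_decOK hp' hx'.2) hl⟩
  refine ⟨p', (List.range (max s.length s'.length)).map x, F ∪ F', hp', ?_, hE, Ext.refl p',
    fext_of_prm hx.1 (le_max_left _ _) Finset.subset_union_left,
    fext_of_prm hx'.1 (le_max_right _ _) Finset.subset_union_right,
    hx.1.range hx'.1 (le_max_left _ _) (le_max_right _ _), hx'.2⟩
  intro r hr
  rcases Finset.mem_union.1 hr with hr | hr
  · exact goodF_mono hF hE r hr
  · exact hF' r hr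

theorem bas_inter {p p' : Seq (ℕ → Bool)} (hp : Val G p) (hp' : Val G p') {s s' : List Bool}
    {F F' : FS} (hF : GoodF p F) (hF' : GoodF p' F') {x : ℕ → Bool} (hx : x ∈ Bas p s F)
    (hx' : x ∈ Bas p' s' F') : ∃ p'' s'' F'', Val G p'' ∧ GoodF p'' F'' ∧ Ext p p'' ∧ Ext p' p'' ∧
      FExt s F s'' F'' ∧ FExt s' F' s'' F'' ∧ x ∈ Bas p'' s'' F'' := by
  rcases le_total p.len p'.len with hl | hl
  · exact bas_inter_aux hp hp' hF hF' hx hx' hl
  · obtain ⟨p'', s'', F'', h1, h2, h3, h4, h5, h6, h7⟩ := bas_inter_aux hp' hp hF' hF hx' hx hl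
    exact ⟨p'', s'', F'', h1, h2, h4, h3, h6, h5, h7⟩

theorem measurableSet_imp {P : Prop} {A : Set (ℕ → Bool)} (hA : MeasurableSet A) :
    MeasurableSet {x : ℕ → Bool | P → x ∈ A} := by
  by_cases hP : P
  · simpa [hP] using hA
  · simp [hP]

theorem measurableSet_coord (j : ℕ) (b : Bool) : MeasurableSet {x : ℕ → Bool | x j = b} := by
  have h : Measurable fun x : ℕ → Bool => x j := measurable_pi_apply j
  exact h (measurableSet_singleton b)

theorem measurableSet_prm (s : List Bool) (F : FS) : MeasurableSet {x | Prm s F x} := by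
  have h : {x | Prm s F x} =
      (⋂ j : ℕ, ⋂ b : Bool, {x | s[j]? = some b → x ∈ {x : ℕ → Bool | x j = b}}) ∩
      ⋂ r ∈ (F : Set ((ℕ → Bool) × ℕ)), ⋂ m : ℕ, {x | s.length ≤ enc r.1 r.2 m →
        x ∈ {x : ℕ → Bool | x (enc r.1 r.2 m) = false}} := by
    ext x
    simp only [Prm, mem_inter_iff, mem_iInter, mem_ofPred_eq, Finset.mem_coe]
  rw [h]
  refine MeasurableSet.inter (MeasurableSet.iInter fun j => MeasurableSet.iInter fun b =>
    measurableSet_imp (measurableSet_coord j b)) ?_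
  exact MeasurableSet.biInter F.countable_toSet fun r _ => MeasurableSet.iInter fun m =>
    measurableSet_imp (measurableSet_coord _ _)

theorem measurableSet_decOK (p : Seq (ℕ → Bool)) : MeasurableSet {x | DecOK p x} := by
  have h : {x | DecOK p x} = ⋂ α ∈ {α : Om | α < p.len}, ⋂ v ∈ Keys (p.restr α),
      {x | theta x v = p.val α} := by
    ext x
    simp only [DecOK, mem_iInter, mem_ofPred_eq]
  rw [h]
  refine MeasurableSet.biInter (Om.countable_Iio p.len) fun α _ =>
    MeasurableSet.biInter (keys_countable _) fun v _ => ?_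
  have h1 : Measurable fun x : ℕ → Bool => theta x v :=
    measurable_theta.comp (measurable_id.prodMk measurable_const)
  exact h1 (measurableSet_singleton (p.val α))

theorem measurableSet_bas (p : Seq (ℕ → Bool)) (s : List Bool) (F : FS) :
    MeasurableSet (Bas p s F) :=
  (measurableSet_prm s F).inter (measurableSet_decOK p)

theorem not_promised {p : Seq (ℕ → Bool)} (hp : Val G p) {F : FS} (hF : GoodF p F) {α : Om}
    (hα : α < p.len) {v : ℕ → Bool} (hv : v ∈ Keys (p.restr α)) {n : ℕ} (hn : p.val α n = false) :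
    (v, n) ∉ F := by
  intro hmem
  obtain ⟨α', hα', hk', hv'⟩ := hF (v, n) hmem
  have h1 := key_len hp hα.le hα'.le hv hk'
  subst h1
  rw [hn] at hv'
  exact Bool.noConfusion hv'

end RMK
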