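import Pool.Agent.RMK.DecDefs

/-!
RMK CONDDEFS: the basic sets of the coding topology (definitions only).

A condition consists of a valid sequence `p`, a finite list `s` of bits (an initial segment of the real `x`
to be constructed) and a finite set `F` of promises: `(v, n) ∈ F` promises that `x` has no further element
in the coding set of `(v, n)`.
-/

namespace RMK

open MeasureTheory Set PU

/-- Finite sets of promises. -/
abbrev FS : Type := Finset ((ℕ → Bool) × ℕ)

/-- `x` extends `s` and keeps the promises `F` from the length of `s` on -/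
def Prm (s : List Bool) (F : FS) (x : ℕ → Bool) : Prop :=
  (∀ j b, s[j]? = some b → x j = b) ∧
    ∀ r ∈ F, ∀ m, s.length ≤ enc r.1 r.2 m → x (enc r.1 r.2 m) = false

/-- `x` decodes the sequence `p` at all keys -/
def DecOK (p : Seq (ℕ → Bool)) (x : ℕ → Bool) : Prop :=
  ∀ α, α < p.len → ∀ v ∈ Keys (p.restr α), theta x v = p.val α

/-- basic sets -/
def Bas (p : Seq (ℕ → Bool)) (s : List Bool) (F : FS) : Set (ℕ → Bool) :=
  {x | Prm s F x ∧ DecOK p x}

/-- the promises are justified by `p` -/
def GoodF (p : Seq (ℕ → Bool)) (F : FS) : Prop :=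
  ∀ r ∈ F, ∃ α, α < p.len ∧ r.1 ∈ Keys (p.restr α) ∧ p.val α r.2 = true

/-- extension of the finite parts -/
def FExt (s : List Bool) (F : FS) (s' : List Bool) (F' : FS) : Prop :=
  s <+: s' ∧ F ⊆ F' ∧ ∀ r ∈ F, ∀ m, s.length ≤ enc r.1 r.2 m → ∀ b, s'[enc r.1 r.2 m]? = some b →
    b = false

end RMK
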