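import Pool.Agent.RMK.Defs
import Pool.Agent.PU.Dec

/-!
RMK DECDEFS: the decoding machine (definitions only).

A sequence `u` of reals of length `δ` is decoded step by step from a real `x`: the next real is read off
at a key, a real computed from `u` by means of a sequence `f : ℕ → δ` cofinal in `δ` which is found
in a canonical countable set `{f | W u f}`.
-/

namespace RMK

open MeasureTheory Set PU

/-- Four-place relations on the countable ordinals. -/
abbrev T4 : Type 1 := Om → T3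

/-- The natural number `n` as a countable ordinal. -/
noncomputable def natO (n : ℕ) : Om :=
  ⟨(n : Ordinal.{0}), (Ordinal.nat_lt_omega0 n).trans_le (Ordinal.omega0_le_omega 1)⟩

/-- One step of the decoding of a cofinal sequence: `i` is an index of `u` restricted to `α + 1`, `θ` is
the ordinal coded in the real `u α`, and `j = T_θ (i)` is an index of a condition of length `α'`.
`T ε₁ i ξ n` says that bit `n` of the `ξ`-th real of the `i`-th condition is on, and `T ε₂ i ξ 0` that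
the length of the `i`-th condition is above `ξ`. -/
def StepAt (T : T4) (ε₁ ε₂ : Om) (u : Seq (ℕ → Bool)) (α α' : Om) : Prop :=
  ∃ i j θ : Om, IsWO (rrc (u.val α)) θ.1 ∧
    (∀ ξ, ξ < u.len → (T ε₂ i ξ (natO 0) ↔ ξ ≤ α)) ∧
    (∀ ξ, ξ ≤ α → ∀ n : ℕ, (T ε₁ i ξ (natO n) ↔ u.val ξ n = true)) ∧
    T θ i j (natO 0) ∧
    ∀ ξ, ξ < u.len → (T ε₂ j ξ (natO 0) ↔ ξ < α')

/-- `f` is the sequence obtained from `σ` by iterating `StepAt`. -/
def Rule (T : T4) (ε₁ ε₂ σ : Om) (u : Seq (ℕ → Bool)) (f : ℕ → Om) : Prop :=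
  f 0 = σ ∧ ∀ n, StepAt T ε₁ ε₂ u (f n) (f (n + 1)) ∧
    ∀ α', α' < f (n + 1) → ¬ StepAt T ε₁ ε₂ u (f n) α'

/-- `f` is a sequence of ordinals below the length of `u`, cofinal in it. -/
def Cof (u : Seq (ℕ → Bool)) (f : ℕ → Om) : Prop :=
  (∀ n, f n < u.len) ∧ ∀ η, η < u.len → ∃ n, η < f n

/-- the set of places where the bit of `u` is on -/
def bitSet (u : Seq (ℕ → Bool)) : Set Om := {ξ | ξ < u.len ∧ bitc (u.val ξ) = true}

/-- `T` is (the restriction to the length of `u` of) a relation definable over the level `β` of the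
hierarchy constructible from the bits of `u`. -/
def TR (u : Seq (ℕ → Bool)) (β : Om) (T : T4) : Prop :=
  u.len ≤ β ∧ ∃ (φ : Fml) (s : ℕ → ZFSet.{0}), (∀ i, s i ∈ LR (ords (bitSet u)) β.1) ∧
    ∀ ξ a b c, T ξ a b c ↔ ξ < u.len ∧ a < u.len ∧ b < u.len ∧ c < u.len ∧
      Sat (relE (ords (bitSet u))) (LR (ords (bitSet u)) β.1) φ (asg s ξ a b c)

/-- first kind of cofinal sequence, at the level `β` -/
def I1 (β : Om) (u : Seq (ℕ → Bool)) (f : ℕ → Om) : Prop :=
  Cof u f ∧ ∃ (T : T4) (ε₁ ε₂ σ : Om), TR u β T ∧ ε₁ < u.len ∧ ε₂ < u.len ∧ σ < u.len ∧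
    Rule T ε₁ ε₂ σ u f

/-- the natural number stored in a real -/
noncomputable def nn (w : ℕ → Bool) : ℕ :=
  open Classical in if h : ∃ n, rrc w n = true then Nat.find h else 0

/-- second kind of cofinal sequence: from some `l` on the natural numbers stored in the reals of `u` are
distinct, and `f` enumerates the places after which all these numbers are larger -/
def I2 (u : Seq (ℕ → Bool)) (f : ℕ → Om) : Prop :=
  Cof u f ∧ ∃ l : Om, l < u.len ∧
    (∀ ξ ξ', l ≤ ξ → ξ < u.len → l ≤ ξ' → ξ' < u.len → nn (u.val ξ) = nn (u.val ξ') → ξ = ξ') ∧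
    (∀ m n : ℕ, m < n → f m < f n) ∧
    ∀ ξ, (∃ n, f n = ξ) ↔ l ≤ ξ ∧ ξ < u.len ∧
      ∀ ξ', ξ < ξ' → ξ' < u.len → nn (u.val ξ) < nn (u.val ξ')

/-- the canonical sequences attached to `u` -/
def W (u : Seq (ℕ → Bool)) (f : ℕ → Om) : Prop :=
  (u.len = natO 0 ∧ ∀ n, f n = natO 0) ∨
  (∃ ξ, ξ < u.len ∧ (∀ η, η < u.len → η ≤ ξ) ∧ ∀ n, f n = ξ) ∨
  (Cof u f ∧ ∀ n, f n = natO n) ∨
  I2 u f ∨
  ∃ β, I1 β u f ∧ ∀ β', β' < β → ∀ f', ¬ I1 β' u f'

/-- the key attached to `u` and `f`: the join of the reals `u (f n)` -/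
def key (u : Seq (ℕ → Bool)) (f : ℕ → Om) : ℕ → Bool :=
  fun k => u.val (f k.unpair.1) k.unpair.2

/-- the keys of `u` -/
def Keys (u : Seq (ℕ → Bool)) : Set (ℕ → Bool) := {v | ∃ f, W u f ∧ v = key u f}

/-- `a'` is the successor of `a` -/
def Suc (a a' : Om) : Prop := a < a' ∧ ∀ b, b < a' → b ≤ a

/-- `y` is the next real decoded by `x` after `u` -/
def Nx (x : ℕ → Bool) (u : Seq (ℕ → Bool)) (y : ℕ → Bool) : Prop :=
  (∃ f, W u f) ∧ (∀ f, W u f → y = theta x (key u f)) ∧ ∃ a, Suc u.len a ∧ IsWO (qqc y) a.1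

/-- `u` is decoded by `x` -/
def DecR (x : ℕ → Bool) (u : Seq (ℕ → Bool)) : Prop :=
  ∀ μ, μ < u.len → Nx x (u.restr μ) (u.val μ)

/-- `y` is the `l`-th real decoded by `x` -/
def SxR (x : ℕ → Bool) (l : Om) (y : ℕ → Bool) : Prop :=
  ∃ u : Seq (ℕ → Bool), u.len = l ∧ DecR x u ∧ Nx x u y

/-- `p` is a valid sequence (a condition of the reshaping forcing) for the set `G` -/
def Val (G : Set Om) (p : Seq (ℕ → Bool)) : Prop :=
  (∀ ξ, ξ < p.len → (bitc (p.val ξ) = true ↔ ξ ∈ G) ∧ ∃ a, Suc ξ a ∧ IsWO (qqc (p.val ξ)) a.1) ∧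
    ∀ α, α ≤ p.len → ∃ f, W (p.restr α) f

/-- `q` extends `p` -/
def Ext (p q : Seq (ℕ → Bool)) : Prop := p.len ≤ q.len ∧ q.restr p.len = p

end RMK
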