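import Pool.Agent.PU.Om

/-!
RMK DEFS: definitions used in the statement of the dichotomy theorem: closed unbounded and
stationary families of countable sets, properness of the ideal forcing, the constructible hierarchy
relative to a set of countable ordinals, traces of countable sets of relations, transitive models
and generic filters.
-/

namespace RMK

open MeasureTheory Set PU

universe u

/-! ### Closed unbounded and stationary families of countable sets -/

/-- The set `N` is closed under the finitary function `F`. -/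
def Closed {S : Type u} (F : List S → S) (N : Set S) : Prop :=
  ∀ l : List S, (∀ z ∈ l, z ∈ N) → F l ∈ N

/-- `Q` holds for closed unboundedly many countable subsets of `S`: for all those that are closed
under some finitary function. -/
def ClubMany {S : Type u} (Q : Set S → Prop) : Prop :=
  ∃ F : List S → S, ∀ N : Set S, N.Countable → Closed F N → Q N

/-- `Q` holds for stationarily many countable subsets of `S`. -/
def StatMany {S : Type u} (Q : Set S → Prop) : Prop :=
  ∀ F : List S → S, ∃ N : Set S, N.Countable ∧ Closed F N ∧ Q N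

/-! ### Proper ideal forcings -/

section ideal

variable {X : Type} [MeasurableSpace X] (I : SigmaIdeal X)

/-- Borel `I`-positive sets, the conditions of `P_I` (ordered by inclusion). -/
def Pos (A : Set X) : Prop := MeasurableSet A ∧ ¬ I.mem A

/-- `D` is a dense set of conditions. -/
def DenseIn (D : Set (Set X)) : Prop :=
  (∀ A ∈ D, Pos I A) ∧ ∀ A, Pos I A → ∃ B ∈ D, B ⊆ A

/-- `P_I` is proper: for closed unboundedly many countable sets `N` of conditions and sets of
conditions, every condition `A` in `N` has an extension `B` which is `N`-generic, i.e. for every dense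
set `D` in `N`, the set `D ∩ N` is predense below `B`. -/
def Proper : Prop :=
  ClubMany fun N : Set (Set X ⊕ Set (Set X)) =>
    ∀ A, Sum.inl A ∈ N → Pos I A → ∃ B, B ⊆ A ∧ Pos I B ∧
      ∀ D, Sum.inr D ∈ N → DenseIn I D →
        ∀ C, C ⊆ B → Pos I C → ∃ E ∈ D, Sum.inl E ∈ N ∧ Pos I (C ∩ E)

end ideal

/-! ### Traces -/

/-- Ternary relations on the countable ordinals. -/
abbrev T3 : Type 1 := Om → Om → Om → Prop

/-- The relation coding the ordinal `α`. -/
def lev (α : Om) : T3 := fun x _ _ => x < α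

/-! ### Relative constructibility -/

/-- Membership together with a unary predicate `A`, coded on the diagonal. -/
def relE (A : Set ZFSet.{0}) (x y : ZFSet.{0}) : Prop := x ∈ y ∨ (x = y ∧ x ∈ A)

/-- The subsets of `M` definable over `(M, ∈, A ∩ M)` with parameters. -/
def DefSetsR (A M : Set ZFSet.{0}) : Set ZFSet.{0} :=
  {x | ∃ (φ : Fml) (s : ℕ → ZFSet.{0}), (M.Nonempty → ∀ i, s i ∈ M) ∧
    ∀ z, z ∈ x ↔ z ∈ M ∧ Sat (relE A) M φ (Function.update s 0 z)}

/-- The level `L_α[A]` of the hierarchy constructible from the predicate `A`. -/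
noncomputable def LR (A : Set ZFSet.{0}) (α : Ordinal.{0}) : Set ZFSet.{0} :=
  {x | ∃ β : Set.Iio α, x ∈ DefSetsR A (LR A β.1)}
termination_by α
decreasing_by exact β.2

/-- A set of countable ordinals as a class of sets. -/
def ords (S : Set Om) : Set ZFSet.{0} := {x | ∃ α ∈ S, x = α.1.toZFSet}

/-- The assignment with values `ξ, a, b, c` at `0, 1, 2, 3` and `s` elsewhere. -/
noncomputable def asg (s : ℕ → ZFSet.{0}) (ξ a b c : Om) (i : ℕ) : ZFSet.{0} :=
  if i = 0 then ξ.1.toZFSet else if i = 1 then a.1.toZFSet else if i = 2 then b.1.toZFSet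
  else if i = 3 then c.1.toZFSet else s i

/-- For closed unboundedly many countable sets `N` of ternary relations on `ω₁`, with
`δ = N ∩ ω₁`, there are `δ ≤ β < ω₁` and a relation definable over `(L_β[G ∩ δ], ∈, G ∩ δ)` such
that the restriction to `δ` of every element of `N` is a section of it at some `ξ < δ`. -/
def Captured (G : Set Om) : Prop :=
  ClubMany fun N : Set T3 => ∃ δ : Om, (∀ α, lev α ∈ N ↔ α < δ) ∧
    ∃ β : Om, δ ≤ β ∧ ∃ (φ : Fml) (s : ℕ → ZFSet.{0}),
      (∀ i, s i ∈ LR (ords {α | α ∈ G ∧ α < δ}) β.1) ∧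
      ∀ R ∈ N, ∃ ξ, ξ < δ ∧ ∀ a b c, a < δ → b < δ → c < δ → (R a b c ↔
        Sat (relE (ords {α | α ∈ G ∧ α < δ})) (LR (ords {α | α ∈ G ∧ α < δ}) β.1) φ
          (asg s ξ a b c))

/-! ### Models and generic filters -/

/-- The relation symbols of the language of set theory. -/
inductive MemSym : ℕ → Type
  | mem : MemSym 2

/-- The language of set theory. -/
def LSet : FirstOrder.Language := ⟨fun _ => Empty, MemSym⟩

/-- A class of sets as a structure for the language of set theory. -/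
instance memStr (M : Set ZFSet.{0}) : LSet.Structure M where
  funMap f _ := Empty.elim f
  RelMap r v := match r, v with
    | MemSym.mem, v => (v 0 : ZFSet.{0}) ∈ (v 1 : ZFSet.{0})

/-- `M` is a transitive class of countable sets containing `ω` and satisfying pairing, union, power
set and first-order separation. -/
structure ZModel (M : Set ZFSet.{0}) : Prop where
  trans : ∀ x ∈ M, ∀ y ∈ x, y ∈ M
  ctbl : ∀ x ∈ M, {y | y ∈ x}.Countable
  pair : ∀ x ∈ M, ∀ y ∈ M, ({x, y} : ZFSet.{0}) ∈ M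
  union : ∀ x ∈ M, ZFSet.sUnion x ∈ M
  power : ∀ x ∈ M, ∃ y ∈ M, ∀ z, z ∈ y ↔ z ∈ M ∧ z ⊆ x
  sep : ∀ S : Set M, (Set.univ : Set M).Definable₁ LSet S → ∀ a ∈ M, ∃ b ∈ M,
    ∀ z : M, (z : ZFSet.{0}) ∈ b ↔ (z : ZFSet.{0}) ∈ a ∧ z ∈ S
  om : Ordinal.omega0.toZFSet ∈ M

/-- `(Q, r)` is a forcing poset in `M`; `ZFSet.pair x y ∈ r` means that `x` is stronger than `y`. -/
structure IsPoset (M : Set ZFSet.{0}) (Q r : ZFSet.{0}) : Prop where
  memQ : Q ∈ M
  memr : r ∈ M
  ne : ∃ x, x ∈ Q
  refl : ∀ x ∈ Q, ZFSet.pair x x ∈ r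
  trans : ∀ x ∈ Q, ∀ y ∈ Q, ∀ z ∈ Q, ZFSet.pair x y ∈ r → ZFSet.pair y z ∈ r → ZFSet.pair x z ∈ r

/-- `g` is an `M`-generic filter on the poset `(Q, r)`. -/
structure IsGeneric (M : Set ZFSet.{0}) (Q r : ZFSet.{0}) (g : Set ZFSet.{0}) : Prop where
  sub : ∀ x ∈ g, x ∈ Q
  ne : g.Nonempty
  up : ∀ x ∈ g, ∀ y ∈ Q, ZFSet.pair x y ∈ r → y ∈ g
  dir : ∀ x ∈ g, ∀ y ∈ g, ∃ z ∈ g, ZFSet.pair z x ∈ r ∧ ZFSet.pair z y ∈ r
  meets : ∀ D ∈ M, D ⊆ Q → (∀ x ∈ Q, ∃ y ∈ D, ZFSet.pair y x ∈ r) → ∃ x ∈ g, x ∈ D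

/-- `M` is a model as in `ZModel`, and every subset of an element of `M` belongs to a generic
extension of `M` by a poset of `M` (through a name `n`). -/
def Ground (M : Set ZFSet.{0}) : Prop :=
  ZModel M ∧ ∀ a ∈ M, ∀ z, z ⊆ a → ∃ (Q r n : ZFSet.{0}) (g : Set ZFSet.{0}), IsPoset M Q r ∧
    IsGeneric M Q r g ∧ n ∈ M ∧ ∀ x, x ∈ z ↔ x ∈ a ∧ ∃ p ∈ g, ZFSet.pair x p ∈ n

/-- The triple `(a, b, c)` of countable ordinals as a set. -/
noncomputable def tup (a b c : Om) : ZFSet.{0} :=
  ZFSet.pair a.1.toZFSet (ZFSet.pair b.1.toZFSet c.1.toZFSet)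

/-- The relation on the countable ordinals with name `σ`, evaluated by the filter `g`. -/
def Named (g : Set ZFSet.{0}) (σ : ZFSet.{0}) (a b c : Om) : Prop :=
  ∃ p ∈ g, ZFSet.pair (tup a b c) p ∈ σ

/-- For stationarily many countable sets `N` of ternary relations on `ω₁`, with `δ = N ∩ ω₁`, there
are a model `M` as in `Ground` and a generic filter `g` over `M` on a poset of `M` such that the
restrictions to `δ` of the elements of `N` are exactly the ternary relations on `δ` which have a name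
in `M`. -/
def Reflecting : Prop :=
  StatMany fun N : Set T3 => ∃ (δ : Om) (M : Set ZFSet.{0}) (Q r : ZFSet.{0}) (g : Set ZFSet.{0}),
    (∀ α, lev α ∈ N ↔ α < δ) ∧ Ground M ∧ δ.1.toZFSet ∈ M ∧ IsPoset M Q r ∧ IsGeneric M Q r g ∧
    (∀ R ∈ N, ∃ σ ∈ M, ∀ a b c, a < δ → b < δ → c < δ → (R a b c ↔ Named g σ a b c)) ∧
    ∀ σ ∈ M, ∃ R ∈ N, ∀ a b c, a < δ → b < δ → c < δ → (R a b c ↔ Named g σ a b c)

end RMK
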