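import Pool.Agent.RMK.RepA

/-!
RMK REPP: projective sets are represented by second-order formulas with parameters.

PROOFS.  Let `joinC w z : ℕ → Bool` be `joinC w z (2 k) = w k`, `joinC w z (2 k + 1) = z k`.
`RepS.compl`: `SO.neg`.
`RepS.inter`: given `P, Par, v` and `P', Par', v'` for `A` and `B`; merged parameters `Par'' (2 i) = Par i`,
`Par'' (2 i + 1) = Par' i`, `v'' (2 i) = v i`, `v'' (2 i + 1) = v' i`.  The formula
`fun V v => P (fun i => V (f i)) (fun i => v (2 i)) ∧ P' (fun i => V (f' i)) (fun i => v (2 i + 1))` with `f 0 = 0`,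
`f (i + 1) = 2 i + 1`, `f' 0 = 0`, `f' (i + 1) = 2 i + 2` (`SO.ren`) evaluated at `scons X Par''` and `v''` is
`P (scons X Par) v ∧ P' (scons X Par') v'`.
`RepS.exJoin`: from `P, Par, v` for `B`: the new parameters are the relation `Dbl k m i :⟺ m = 2 k + i`
followed by `Par`, and the numbers `0, 1` followed by `v`.  The formula for `{w | ∃ z, joinC w z ∈ B}`:
`∃ Z W : Rel, (∀ k m, Dbl k m 0 → (W m 0 0 ↔ X k 0 0)) ∧ (∀ k m, Dbl k m 1 → (W m 0 0 ↔ Z k 0 0)) ∧
P (scons W Par) v`.  The first two conjuncts say `dec W = joinC (dec X) (dec Z)`; for `z : ℕ → Bool` use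
`Z = encR z` and `W = encR (joinC ..)` (`dec_encR`).
`RepS.to2`: the same without quantifier over `Z`: if `{joinC x y | (x, y) ∈ R}` (preimage) is represented by
`P, Par, v`, then `RepS2 R` by `∃ W, (W = joinC X Y) ∧ P (scons W Par) v`, evaluated at `scons Y (scons X Par')`.
`repS_image` by induction on `n`, for all `X`, `e`, `A`.  `n = 0`: `e '' A` is analytic
(`AnalyticSet.image_of_continuous`), use `repS_analytic`.  `n + 1`: `A = Prod.fst '' B`, `Sig n (X × (ℕ → ℕ)) Bᶜ`.
Let `code y : ℕ → Bool`, `code y m = decide (y (Nat.unpair m).1 = (Nat.unpair m).2)`, a continuous injection,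
and `e' (x, y) = joinC (e x) (code y)`, a continuous injection `X × (ℕ → ℕ) → (ℕ → Bool)`.  By induction `e' '' Bᶜ`
is represented.  `e' '' B = range e' \ e' '' Bᶜ` (injectivity), the range is analytic
(`MeasureTheory.analyticSet_range_of_polishSpace`), so `e' '' B` is represented.  Finally
`e '' A = {w | ∃ z, joinC w z ∈ e' '' B}`, use `RepS.exJoin`.
`repS2_projective`: `X = (ℕ → Bool) × (ℕ → Bool)`, `e = joinC` (continuous injection): `e '' R` is represented,
and `joinC x y ∈ e '' R ↔ (x, y) ∈ R` by injectivity; use `RepS.to2`.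
-/

namespace RMK

open MeasureTheory PU

/-- the join of two reals -/
def joinC (w z : ℕ → Bool) (n : ℕ) : Bool := if n % 2 = 0 then w (n / 2) else z (n / 2)

theorem joinC_even (w z : ℕ → Bool) (k : ℕ) : joinC w z (2 * k) = w k := by
  unfold joinC
  rw [if_pos (by omega), Nat.mul_div_cancel_left _ (by norm_num)]

theorem joinC_odd (w z : ℕ → Bool) (k : ℕ) : joinC w z (2 * k + 1) = z k := by
  unfold joinC
  rw [if_neg (by omega)]
  congr 1
  omega

theorem joinC_inj {w z w' z' : ℕ → Bool} (h : joinC w z = joinC w' z') : w = w' ∧ z = z' := by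
  constructor
  · funext k
    rw [← joinC_even w z k, h, joinC_even]
  · funext k
    rw [← joinC_odd w z k, h, joinC_odd]

theorem RepS.compl {A : Set (ℕ → Bool)} (h : RepS A) : RepS Aᶜ := by
  obtain ⟨P, hP, Par, v, h⟩ := h
  exact ⟨_, hP.neg, Par, v, fun X => not_congr (h X)⟩

/-- merging of two sequences -/
def mrg {α : Type} (a b : ℕ → α) (n : ℕ) : α := if n % 2 = 0 then a (n / 2) else b (n / 2)

theorem mrg_even {α : Type} (a b : ℕ → α) (k : ℕ) : mrg a b (2 * k) = a k := by
  unfold mrg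
  rw [if_pos (by omega), Nat.mul_div_cancel_left _ (by norm_num)]

theorem mrg_odd {α : Type} (a b : ℕ → α) (k : ℕ) : mrg a b (2 * k + 1) = b k := by
  unfold mrg
  rw [if_neg (by omega)]
  congr 1
  omega

/-- index map for the first formula -/
def fA : ℕ → ℕ
  | 0 => 0
  | i + 1 => 2 * i + 1

/-- index map for the second formula -/
def fB : ℕ → ℕ
  | 0 => 0
  | i + 1 => 2 * i + 2

theorem RepS.inter {A B : Set (ℕ → Bool)} (hA : RepS A) (hB : RepS B) : RepS (A ∩ B) := by
  obtain ⟨P, hP, Par, v, h⟩ := hA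
  obtain ⟨P', hP', Par', v', h'⟩ := hB
  refine ⟨_, (hP.ren fA (fun i => 2 * i)).and (hP'.ren fB (fun i => 2 * i + 1)),
    mrg Par Par', mrg v v', fun X => ?_⟩
  have e1 : (fun i => scons X (mrg Par Par') (fA i)) = scons X Par := by
    funext i
    cases i with
    | zero => rfl
    | succ i => exact mrg_even Par Par' i
  have e2 : (fun i => scons X (mrg Par Par') (fB i)) = scons X Par' := by
    funext i
    cases i with
    | zero => rfl
    | succ i => exact mrg_odd Par Par' i
  have e3 : (fun i => mrg v v' (2 * i)) = v := funext fun i => mrg_even v v' i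
  have e4 : (fun i => mrg v v' (2 * i + 1)) = v' := funext fun i => mrg_odd v v' i
  rw [e1, e2, e3, e4]
  exact and_congr (h X) (h' X)

/-- the relation `m = 2 k + i` -/
def Dbl : Rel := fun k m i => m = 2 * k + i

/-- index map -/
def fC : ℕ → ℕ
  | 0 => 0
  | i + 1 => i + 4

/-- `W = join X Z` and `P` at `W` -/
def FJ (P : (ℕ → Rel) → (ℕ → ℕ) → Prop) (V : ℕ → Rel) (v : ℕ → ℕ) : Prop :=
  ((∀ k, ∀ m, V 3 (scons m (scons k v) 1) (scons m (scons k v) 0) (scons m (scons k v) 2) →
      (V 0 (scons m (scons k v) 0) (scons m (scons k v) 2) (scons m (scons k v) 2) ↔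
        V 2 (scons m (scons k v) 1) (scons m (scons k v) 2) (scons m (scons k v) 2))) ∧
    (∀ k, ∀ m, V 3 (scons m (scons k v) 1) (scons m (scons k v) 0) (scons m (scons k v) 3) →
      (V 0 (scons m (scons k v) 0) (scons m (scons k v) 2) (scons m (scons k v) 2) ↔
        V 1 (scons m (scons k v) 1) (scons m (scons k v) 2) (scons m (scons k v) 2)))) ∧
    P (fun i => V (fC i)) (fun i => v (i + 2))

theorem SO.FJ {P : (ℕ → Rel) → (ℕ → ℕ) → Prop} (hP : SO P) : SO (RMK.FJ P) := by
  refine SO.and (SO.and ?_ ?_) (hP.ren fC (fun i => i + 2))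
  · exact SO.allN (P := fun V v => ∀ m, V 3 (scons m v 1) (scons m v 0) (scons m v 2) →
      (V 0 (scons m v 0) (scons m v 2) (scons m v 2) ↔
        V 2 (scons m v 1) (scons m v 2) (scons m v 2)))
      (SO.allN (P := fun V v => V 3 (v 1) (v 0) (v 2) →
        (V 0 (v 0) (v 2) (v 2) ↔ V 2 (v 1) (v 2) (v 2)))
        (SO.imp (SO.atom 3 1 0 2) (SO.iff (SO.atom 0 0 2 2) (SO.atom 2 1 2 2))))
  · exact SO.allN (P := fun V v => ∀ m, V 3 (scons m v 1) (scons m v 0) (scons m v 3) →
      (V 0 (scons m v 0) (scons m v 2) (scons m v 2) ↔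
        V 1 (scons m v 1) (scons m v 2) (scons m v 2)))
      (SO.allN (P := fun V v => V 3 (v 1) (v 0) (v 3) →
        (V 0 (v 0) (v 2) (v 2) ↔ V 1 (v 1) (v 2) (v 2)))
        (SO.imp (SO.atom 3 1 0 3) (SO.iff (SO.atom 0 0 2 2) (SO.atom 1 1 2 2))))

theorem FJ_iff {P : (ℕ → Rel) → (ℕ → ℕ) → Prop} {Par : ℕ → Rel} {v : ℕ → ℕ} {B : Set (ℕ → Bool)}
    (h : ∀ X : Rel, P (scons X Par) v ↔ dec X ∈ B) (X Z : Rel) :
    (∃ W : Rel, FJ P (scons W (scons Z (scons X (scons Dbl Par)))) (scons 0 (scons 1 v))) ↔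
      joinC (dec X) (dec Z) ∈ B := by
  have key : ∀ W : Rel, FJ P (scons W (scons Z (scons X (scons Dbl Par)))) (scons 0 (scons 1 v)) ↔
      ((∀ k m : ℕ, m = 2 * k + 0 → (W m 0 0 ↔ X k 0 0)) ∧
        (∀ k m : ℕ, m = 2 * k + 1 → (W m 0 0 ↔ Z k 0 0))) ∧ P (scons W Par) v := by
    intro W
    have e1 : (fun i => scons W (scons Z (scons X (scons Dbl Par))) (fC i)) = scons W Par := by
      funext i
      cases i with
      | zero => rfl
      | succ i => rfl
    have e2 : (fun i => scons 0 (scons 1 v) (i + 2)) = v := rfl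
    have e3 : FJ P (scons W (scons Z (scons X (scons Dbl Par)))) (scons 0 (scons 1 v)) =
        (((∀ k m : ℕ, m = 2 * k + 0 → (W m 0 0 ↔ X k 0 0)) ∧
        (∀ k m : ℕ, m = 2 * k + 1 → (W m 0 0 ↔ Z k 0 0))) ∧
        P (fun i => scons W (scons Z (scons X (scons Dbl Par))) (fC i))
          (fun i => scons 0 (scons 1 v) (i + 2))) := rfl
    rw [e3, e1, e2]
  constructor
  · rintro ⟨W, hW⟩
    obtain ⟨⟨h1, h2⟩, h3⟩ := (key W).1 hW
    have e : dec W = joinC (dec X) (dec Z) := by
      funext n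
      rcases Nat.even_or_odd' n with ⟨k, rfl | rfl⟩
      · rw [joinC_even, Bool.eq_iff_iff, dec_apply, dec_apply]
        exact h1 k _ rfl
      · rw [joinC_odd, Bool.eq_iff_iff, dec_apply, dec_apply]
        exact h2 k _ rfl
    rw [← e]
    exact (h W).1 h3
  · intro hB
    refine ⟨encR (joinC (dec X) (dec Z)), (key _).2 ⟨⟨?_, ?_⟩, ?_⟩⟩
    · rintro k m rfl
      change joinC (dec X) (dec Z) (2 * k + 0) = true ↔ _
      rw [add_zero, joinC_even, dec_apply]
    · rintro k m rfl
      change joinC (dec X) (dec Z) (2 * k + 1) = true ↔ _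
      rw [joinC_odd, dec_apply]
    · rw [h, dec_encR]
      exact hB

theorem RepS.exJoin {B : Set (ℕ → Bool)} (hB : RepS B) : RepS {w | ∃ z, joinC w z ∈ B} := by
  obtain ⟨P, hP, Par, v, h⟩ := hB
  refine ⟨_, (hP.FJ).exR.exR, scons Dbl Par, scons 0 (scons 1 v), fun X => ?_⟩
  constructor
  · rintro ⟨Z, hZ⟩
    exact ⟨dec Z, (FJ_iff h X Z).1 hZ⟩
  · rintro ⟨z, hz⟩
    refine ⟨encR z, (FJ_iff h X (encR z)).2 ?_⟩
    rw [dec_encR]
    exact hz

theorem RepS.to2 {R : Set ((ℕ → Bool) × (ℕ → Bool))} {B : Set (ℕ → Bool)} (hB : RepS B)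
    (h : ∀ x y, joinC x y ∈ B ↔ (x, y) ∈ R) : RepS2 R := by
  obtain ⟨P, hP, Par, v, hP2⟩ := hB
  refine ⟨_, (hP.FJ).exR, scons Dbl Par, scons 0 (scons 1 v), fun X Y => ?_⟩
  rw [← h]
  exact FJ_iff hP2 X Y

/-- code of a sequence of natural numbers -/
def codeN (y : ℕ → ℕ) (m : ℕ) : Bool := decide (y (Nat.unpair m).1 = (Nat.unpair m).2)

theorem codeN_inj : Function.Injective codeN := by
  intro y y' h
  funext a
  have h1 := congrFun h (Nat.pair a (y a))
  unfold codeN at h1
  rw [Nat.unpair_pair] at h1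
  simp only [decide_true] at h1
  have h2 : y' a = y a := of_decide_eq_true h1.symm
  exact h2.symm

theorem continuous_codeN : Continuous codeN := by
  refine continuous_pi fun m => ?_
  have h1 : Continuous (fun n : ℕ => decide (n = (Nat.unpair m).2)) :=
    continuous_of_discreteTopology
  exact h1.comp (continuous_apply _)

theorem continuous_joinC {X : Type} [TopologicalSpace X] {f g : X → ℕ → Bool} (hf : Continuous f)
    (hg : Continuous g) : Continuous fun x => joinC (f x) (g x) := by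
  refine continuous_pi fun n => ?_
  unfold joinC
  split_ifs
  · exact (continuous_apply _).comp hf
  · exact (continuous_apply _).comp hg

theorem repS_image (n : ℕ) {X : Type} [TopologicalSpace X] [PolishSpace X] {e : X → ℕ → Bool}
    (he : Continuous e) (hi : Function.Injective e) {A : Set X} (hA : Sig n X A) :
    RepS (e '' A) := by
  induction n generalizing X with
  | zero => exact repS_analytic (AnalyticSet.image_of_continuous hA he)
  | succ n ih =>
    obtain ⟨B, hB, rfl⟩ := hA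
    have he' : Continuous fun p : X × (ℕ → ℕ) => joinC (e p.1) (codeN p.2) :=
      continuous_joinC (he.comp continuous_fst) (continuous_codeN.comp continuous_snd)
    have hi' : Function.Injective fun p : X × (ℕ → ℕ) => joinC (e p.1) (codeN p.2) := by
      rintro ⟨x, y⟩ ⟨x', y'⟩ h
      obtain ⟨h1, h2⟩ := joinC_inj h
      exact Prod.ext (hi h1) (codeN_inj h2)
    have h1 := ih he' hi' hB
    have h2 := repS_analytic (analyticSet_range_of_polishSpace he')
    have h3 := (h2.inter h1.compl).exJoin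
    have h4 : {w | ∃ z, joinC w z ∈ Set.range (fun p : X × (ℕ → ℕ) => joinC (e p.1) (codeN p.2)) ∩
        ((fun p : X × (ℕ → ℕ) => joinC (e p.1) (codeN p.2)) '' Bᶜ)ᶜ} = e '' (Prod.fst '' B) := by
      ext w
      constructor
      · rintro ⟨z, ⟨p, hp⟩, hn⟩
        have hpB : p ∈ B := by
          by_contra hc
          exact hn ⟨p, hc, hp⟩
        exact ⟨p.1, ⟨p, hpB, rfl⟩, (joinC_inj hp).1⟩
      · rintro ⟨x, ⟨p, hp, rfl⟩, rfl⟩
        refine ⟨codeN p.2, ⟨p, rfl⟩, ?_⟩
        rintro ⟨p', hp', he⟩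
        exact hp' (by rw [hi' he]; exact hp)
    rw [← h4]
    exact h3

theorem repS2_projective {R : Set ((ℕ → Bool) × (ℕ → Bool))} (hR : Projective R) : RepS2 R := by
  obtain ⟨n, hn⟩ := hR
  have hi : Function.Injective fun p : (ℕ → Bool) × (ℕ → Bool) => joinC p.1 p.2 := by
    rintro ⟨x, y⟩ ⟨x', y'⟩ h
    obtain ⟨h1, h2⟩ := joinC_inj h
    exact Prod.ext h1 h2
  have h := repS_image n (continuous_joinC continuous_fst continuous_snd) hi hn
  refine h.to2 fun x y => ⟨?_, fun hxy => ⟨(x, y), hxy, rfl⟩⟩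
  rintro ⟨p, hp, he⟩
  have h1 : p = (x, y) := hi he
  rw [← h1]
  exact hp

end RMK
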