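import Pool.Agent.RMK.TruthA
import Pool.Agent.RMK.AbsC
import Pool.Agent.RMK.BorL

/-!
RMK TRUTHB: quantifiers over relations, the truth lemma.

PROOFS.
`lifted_eval`: for `g'` generic on `(Q', r')` with first coordinates in `g`,
`fun i => evR (scons σ₀ (lifts) i) g' = scons (evR σ₀ g') (fun i => evR (σ i) g)`: cases on `i`, `evR_lift`.
`exF_sound`: `P (scons (evR σ₀ g') (fun i => evR (σ i) g)) v` follows from the truth of `P` for `(Q', r')`, `g'`,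
the names `scons σ₀ (lifts)`: `(Q', r')` is a poset by `PP.isPoset` (nonempty since `pair x c ∈ Q'`),
the right side holds with the condition `pair x c ∈ g'`; use `lifted_eval`.
`exR_iff`.  (→) Let `P (scons Y (evR σ g)) v`.  `absorb` gives `C, s, Q', r', σ₀, g'` with `evR σ₀ g' = Y`.  By
`lifted_eval` and the truth of `P` for `(Q', r')`, `g'` there is `w ∈ g'` with `F (Q', r', w, scons σ₀ lifts, v)`;
`w = pair q c` with `q ∈ Q`, `c ∈ C` (`sub`), `q ∈ g`, and `ExF F` holds at `q` (`C, s, Q', r', c, σ₀` are in `M`).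
(←) Let `x ∈ g` with `ExF F` at `x`, so `C, s, Q', r', c, σ₀`.  `lift_generic` gives `g'` with `pair x c ∈ g'`;
use `exF_sound`.
`MD.exF`: the calculus: `MD.ex` six times, `MD.and`, `MD.pp`, `MD.pair_mem`, and `MD.comp` of `F` with the map
into `FC M` given by `DFc.mk`, `DFc.pr`, `DFc.scons`, `DFc.nat` with `DFc.lift` and `DFc.app`.
`truth_exR`: `MD.exF` and `exR_iff`.  `exists_truth`: induction on `SO P`.
-/

namespace RMK

open Set

variable {M : Set ZFSet.{0}} (hM : ZModel M) {P : (ℕ → Rel) → (ℕ → ℕ) → Prop} {F : FC M → Prop}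

private theorem lifted_eval {Q r C s Q' r' σ₀ : M} {g g' : Set ZFSet.{0}}
    (hQ : IsPoset M Q.1 r.1) (hg : IsGeneric M Q.1 r.1 g) (hP : PP M Q.1 r.1 C.1 s.1 Q'.1 r'.1)
    (hg' : IsGeneric M Q'.1 r'.1 g') (hfst : ∀ q c, ZFSet.pair q c ∈ g' → q ∈ g) (σ : ℕ → M) :
    (fun i => evR (scons σ₀ (fun i => liftM hM Q r Q' (σ i)) i).1 g') =
      scons (evR σ₀.1 g') fun i => evR (σ i).1 g := by
  funext i
  cases i with
  | zero => rfl
  | succ i => exact evR_lift hM hQ hg hP hg' hfst (σ i).2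

theorem exF_sound (h : Truth hM P F) {Q r x C s Q' r' c σ₀ : M} {g g' : Set ZFSet.{0}}
    (hQ : IsPoset M Q.1 r.1) (hg : IsGeneric M Q.1 r.1 g) (hP : PP M Q.1 r.1 C.1 s.1 Q'.1 r'.1)
    (hg' : IsGeneric M Q'.1 r'.1 g') (hfst : ∀ q c, ZFSet.pair q c ∈ g' → q ∈ g)
    (hx : ZFSet.pair x.1 c.1 ∈ g') (σ : ℕ → M) (v : ℕ → ℕ)
    (hF : F (Q', r', prM hM x c, scons σ₀ (fun i => liftM hM Q r Q' (σ i)),
      fun i => natM hM (v i))) :
    P (scons (evR σ₀.1 g') fun i => evR (σ i).1 g) v := by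
  rw [← lifted_eval hM hQ hg hP hg' hfst σ]
  exact (h.2 Q' r' g' (hP.isPoset hQ ⟨_, hg'.sub _ hx⟩) hg' _ v).2 ⟨prM hM x c, hx, hF⟩

theorem exR_iff (hG : Ground M) (h : Truth hM P F) {Q r : M} {g : Set ZFSet.{0}}
    (hQ : IsPoset M Q.1 r.1) (hg : IsGeneric M Q.1 r.1 g) (σ : ℕ → M) (v : ℕ → ℕ) :
    (∃ Y : Rel, P (scons Y fun i => evR (σ i).1 g) v) ↔
      ∃ x : M, x.1 ∈ g ∧ ExF hM F (Q, r, x, σ, fun i => natM hM (v i)) := by
  constructor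
  · rintro ⟨Y, hY⟩
    obtain ⟨C, s, Q', r', σ₀, g', hP, hσ₀, hg', hfst, hev⟩ := absorb hG hQ hg Y
    obtain ⟨w₀, hw₀⟩ := hg'.ne
    have hQ' : IsPoset M Q' r' := hP.isPoset hQ ⟨w₀, hg'.sub _ hw₀⟩
    have hev' := lifted_eval hM (C := ⟨C, hP.memC⟩) (s := ⟨s, hP.mems⟩) (Q' := ⟨Q', hP.memQ'⟩)
      (r' := ⟨r', hP.memr'⟩) (σ₀ := ⟨σ₀, hσ₀⟩) hQ hg hP hg' hfst σ
    have h1 := (h.2 ⟨Q', hP.memQ'⟩ ⟨r', hP.memr'⟩ g' hQ' hg'
      (scons ⟨σ₀, hσ₀⟩ (fun i => liftM hM Q r ⟨Q', hP.memQ'⟩ (σ i))) v).1 (by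
        rw [hev']
        show P (scons (evR σ₀ g') fun i => evR (σ i).1 g) v
        rw [hev]
        exact hY)
    obtain ⟨w, hw, hF⟩ := h1
    obtain ⟨q, hq, c, hc, hwqc⟩ := hP.sub w.1 (hg'.sub _ hw)
    have hqM : q ∈ M := hM.trans Q.1 Q.2 q hq
    have hcM : c ∈ M := hM.trans C hP.memC c hc
    have hwe : w = prM hM ⟨q, hqM⟩ ⟨c, hcM⟩ := Subtype.ext hwqc
    have hw' : ZFSet.pair q c ∈ g' := by
      rw [← hwqc]
      exact hw
    refine ⟨⟨q, hqM⟩, hfst q c hw', ⟨C, hP.memC⟩, ⟨s, hP.mems⟩, ⟨Q', hP.memQ'⟩, ⟨r', hP.memr'⟩,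
      ⟨c, hcM⟩, ⟨σ₀, hσ₀⟩, hP, hg'.sub _ hw', ?_⟩
    rw [hwe] at hF
    exact hF
  · rintro ⟨x, hx, C, s, Q', r', c, σ₀, hP, hxc, hF⟩
    obtain ⟨g', hg', hxg', hfst⟩ := lift_generic hM hQ hP hg hxc hx
    exact ⟨evR σ₀.1 g', exF_sound hM h hQ hg hP hg' hfst hxg' σ v hF⟩

theorem MD.exF (hF : MD M F) : MD M (ExF hM F) := by
  have hcomp : ∀ {X : Type 1} [Ctx M X] {a b c d e : X → M} {σ n : X → ℕ → M} {σ₀ : X → M},
      DFc M a → DFc M b → DFc M c → DFc M d → DFc M e → DFc M σ → DFc M n → DFc M σ₀ →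
      ∀ {Qf rf : X → M}, DFc M Qf → DFc M rf →
      MD M fun p : X => F (a p, b p, prM hM (c p) (d p),
        scons (σ₀ p) (fun i => liftM hM (Qf p) (rf p) (e p) (σ p i)), n p) := by
    intro X _ a b c d e σ n σ₀ ha hb hc hd he hσ hn hσ₀ Qf rf hQf hrf
    refine MD.comp hF (f := fun p : X => ((a p, b p, prM hM (c p) (d p),
        scons (σ₀ p) (fun i => liftM hM (Qf p) (rf p) (e p) (σ p i)), n p) : FC M)) ?_
    refine DFc.mk ha (DFc.mk hb (DFc.mk (DFc.pr hM hc hd) (DFc.mk ?_ hn)))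
    exact DFc.scons hσ₀ (DFc.nat fun j => DFc.lift hM hQf hrf he (DFc.app hσ j))
  unfold ExF
  refine MD.ex (MD.ex (MD.ex (MD.ex (MD.ex (MD.ex ?_)))))
  refine MD.and (MD.pp hM ?_ ?_ ?_ ?_ ?_ ?_) (MD.and (MD.pair_mem hM ?_ ?_ ?_)
    (hcomp ?_ ?_ ?_ ?_ ?_ ?_ ?_ ?_ ?_ ?_))
  all_goals
    repeat' first
      | exact DFc.id
      | apply DFc.fst
      | apply DFc.snd

theorem truth_exR (hG : Ground M) (h : Truth hM P F) :
    Truth hM (fun V v => ∃ R, P (scons R V) v) (ExF hM F) :=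
  ⟨MD.exF hM h.1, fun _ _ _ hQ hg σ v => exR_iff hM hG h hQ hg σ v⟩

theorem exists_truth (hG : Ground M) (hP : SO P) : ∃ F : FC M → Prop, Truth hM P F := by
  induction hP with
  | atom i a b c => exact truth_atom hM i a b c
  | neg _ ih =>
    obtain ⟨F, hF⟩ := ih
    exact truth_neg hM hF
  | and _ _ ih ih' =>
    obtain ⟨F, hF⟩ := ih
    obtain ⟨F', hF'⟩ := ih'
    exact truth_and hM hF hF'
  | exN _ ih =>
    obtain ⟨F, hF⟩ := ih
    exact truth_exN hM hF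
  | exR _ ih =>
    obtain ⟨F, hF⟩ := ih
    exact ⟨_, truth_exR hM hG hF⟩

end RMK
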