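import Pool.Agent.RMK.GXB
import Pool.Agent.RMK.TruthB
import Pool.Agent.RMK.RepP

/-!
RMK FINC: projective uniformization for proper ideals on Cantor space, from CH and `Reflecting`.

PROOF.  Let `R ⊆ 𝒞 × 𝒞` be projective and `A` a positive Borel set.  `repS2_projective` gives `P, Par, v` with
`P (scons Y (scons X Par)) v ↔ (dec X, dec Y) ∈ R`.  `exists_ground` for `A` and `Par` gives `M, Q, r, σx, σ, C, G`.
Let `σ' = scons σx σ` and `F` from `exists_truth` for `P`.  For `x ∈ C`: `fun i => evR (σ' i).1 (G x) =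
scons (evR σx.1 (G x)) Par` (cases on `i`).  Let `n i = natM hM (v i)`.
Let `E = {η ∈ Q | ExF hM F (Q, r, η, σ', n)}` (a set of elements of `M`, countable since `Q` is countable).
Case 1: for some `η ∈ E` the Borel set `B = C ∩ {x | η ∈ G x}` is positive.  Let `C₁, s, Q', r', c, σ₀` be
given by `ExF`.  `borel_lift` gives `G' x` (`x ∈ B`).  Put `f x = dec (evR σ₀ (G' x))` for `x ∈ B` and `f x = x`
otherwise.  `f` is measurable: it suffices that for every `n` the set `{x ∈ B | f x n = true}` is Borel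
(`measurable_pi_iff`, `measurable_to_bool`-like; piecewise); it is the union of the sets `{x ∈ B | w ∈ G' x}`
over the `w ∈ Q'` with `pair (nat3 n 0 0) w ∈ σ₀` (`Q'` is countable; elements of `G' x` are in `Q'`).  By
`exF_sound`, `P (scons (evR σ₀ (G' x)) (scons (evR σx (G x)) Par)) v`, that is `(x, f x) ∈ R` (as `dec (evR σx
(G x)) = x`).
Case 2: `C ∩ {x | η ∈ G x}` is in the ideal for all `η ∈ E`.  Then `B = C \ ⋃_{η ∈ E} {x | η ∈ G x}` is Borel
and positive (`I.iUnion`, countable).  If `x ∈ B` and `(x, y) ∈ R`, then with `Y = encR y` (`dec_encR`)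
`P (scons Y (fun i => evR (σ' i).1 (G x))) v`, so by `exR_iff` there is `η ∈ G x` with `ExF` at `η`; `η ∈ Q`, so
`η ∈ E`, contradiction.
-/

namespace RMK

open MeasureTheory Set PU

private theorem mem_biUnion_ctbl {I : SigmaIdeal (ℕ → Bool)} {ι : Type*} {S : Set ι}
    (hS : S.Countable) {f : ι → Set (ℕ → Bool)} (h : ∀ i ∈ S, I.mem (f i)) :
    I.mem (⋃ i ∈ S, f i) := by
  rcases S.eq_empty_or_nonempty with rfl | hne
  · rw [biUnion_empty]
    exact I.mono {fun _ => true} ∅ (I.singleton _) MeasurableSet.empty (empty_subset _)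
  · obtain ⟨g, rfl⟩ := hS.exists_eq_range hne
    rw [biUnion_range]
    exact I.iUnion _ fun n => h _ ⟨n, rfl⟩

theorem projUnif_cantor (hCH : Cardinal.continuum.{0} = Cardinal.aleph 1) (hR : Reflecting)
    (I : SigmaIdeal (ℕ → Bool)) (hI : Proper I) : ProjUnif I := by
  intro R hRp A hAm hAI
  obtain ⟨P, hP, Par, v, hrep⟩ := repS2_projective hRp
  obtain ⟨M, Q, r, σx, σ, C, G, hG, hQ, hCA, hC, hGm, hgen⟩ :=
    exists_ground hCH hR hI (A := A) ⟨hAm, hAI⟩ Par
  have hM : ZModel M := hG.1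
  obtain ⟨F, hF⟩ := exists_truth hM hG hP
  have hev : ∀ x ∈ C, (fun i => evR ((scons σx σ : ℕ → M) i).1 (G x)) =
      scons (evR σx.1 (G x)) Par := by
    intro x hx
    funext i
    cases i with
    | zero => rfl
    | succ i => exact (hgen x hx).2.2 i
  by_cases h1 : ∃ η : M, ExF hM F (Q, r, η, scons σx σ, fun i => natM hM (v i)) ∧
      ¬ I.mem (C ∩ {x | η.1 ∈ G x})
  · obtain ⟨η, ⟨C₁, s, Q', r', c, σ₀, hPP, hpc, hFF⟩, hpos⟩ := h1
    have hBm : MeasurableSet (C ∩ {x | η.1 ∈ G x}) := hC.1.inter (hGm _)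
    obtain ⟨G', hG'm, hG'⟩ := borel_lift hM hQ hPP hBm hGm
      (fun x hx => (hgen x hx.1).1) hpc (fun x hx => hx.2)
    classical
    refine ⟨C ∩ {x | η.1 ∈ G x}, fun x hx => hCA hx.1, hBm, hpos, Or.inr
      ⟨fun x => if x ∈ C ∩ {x | η.1 ∈ G x} then dec (evR σ₀.1 (G' x)) else x, ?_, ?_⟩⟩
    · rw [measurable_pi_iff]
      intro n
      refine measurable_to_bool ?_
      have hU : MeasurableSet (⋃ w ∈ {w : ZFSet.{0} | w ∈ Q'.1 ∧
          ZFSet.pair (nat3 n 0 0) w ∈ σ₀.1},
          {x | x ∈ C ∩ {x | η.1 ∈ G x} ∧ w ∈ G' x}) := by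
        refine MeasurableSet.biUnion ?_ fun w _ => hG'm w
        exact (hM.ctbl Q'.1 Q'.2).mono fun w hw => hw.1
      have hV : MeasurableSet {x : ℕ → Bool | x n = true} :=
        (measurable_pi_apply (X := fun _ : ℕ => Bool) n) (measurableSet_singleton true)
      have hW := hU.union (hBm.compl.inter hV)
      convert hW using 1
      ext x
      by_cases hx : x ∈ C ∩ {x | η.1 ∈ G x}
      · have hxe : (if x ∈ C ∩ {x | η.1 ∈ G x} then dec (evR σ₀.1 (G' x)) else x) =
            dec (evR σ₀.1 (G' x)) := if_pos hx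
        constructor
        · intro h
          have h2 : (if x ∈ C ∩ {x | η.1 ∈ G x} then dec (evR σ₀.1 (G' x)) else x) n = true := h
          rw [hxe] at h2
          obtain ⟨w, hw, hw2⟩ : evR σ₀.1 (G' x) n 0 0 := of_decide_eq_true h2
          refine Or.inl (mem_biUnion (x := w) ⟨(hG' x hx).1.sub w hw, hw2⟩ ⟨hx, hw⟩)
        · rintro (h | h)
          · obtain ⟨w, hw, hw2⟩ := mem_iUnion₂.1 h
            show (if x ∈ C ∩ {x | η.1 ∈ G x} then dec (evR σ₀.1 (G' x)) else x) n = true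
            rw [hxe]
            exact decide_eq_true (p := evR σ₀.1 (G' x) n 0 0) ⟨w, hw2.2, hw.2⟩
          · exact absurd hx h.1
      · have hxe : (if x ∈ C ∩ {x | η.1 ∈ G x} then dec (evR σ₀.1 (G' x)) else x) = x :=
          if_neg hx
        constructor
        · intro h
          have h2 : (if x ∈ C ∩ {x | η.1 ∈ G x} then dec (evR σ₀.1 (G' x)) else x) n = true := h
          rw [hxe] at h2
          exact Or.inr ⟨hx, h2⟩
        · rintro (h | h)
          · obtain ⟨w, hw, hw2⟩ := mem_iUnion₂.1 h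
            exact absurd hw2.1 hx
          · show (if x ∈ C ∩ {x | η.1 ∈ G x} then dec (evR σ₀.1 (G' x)) else x) n = true
            rw [hxe]
            exact h.2
    · intro x hx
      have hxe : (if x ∈ C ∩ {x | η.1 ∈ G x} then dec (evR σ₀.1 (G' x)) else x) =
          dec (evR σ₀.1 (G' x)) := if_pos hx
      show (x, (if x ∈ C ∩ {x | η.1 ∈ G x} then dec (evR σ₀.1 (G' x)) else x)) ∈ R
      rw [hxe]
      have h3 := exF_sound hM hF (x := η) hQ (hgen x hx.1).1 hPP (hG' x hx).1 (hG' x hx).2.2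
        (hG' x hx).2.1 (scons σx σ) v hFF
      rw [hev x hx.1] at h3
      have h4 := (hrep (evR σx.1 (G x)) (evR σ₀.1 (G' x))).1 h3
      rw [(hgen x hx.1).2.1] at h4
      exact h4
  · push Not at h1
    have hEc : {η : M | η.1 ∈ Q.1 ∧
        ExF hM F (Q, r, η, scons σx σ, fun i => natM hM (v i))}.Countable := by
      refine ((hM.ctbl Q.1 Q.2).preimage (f := (Subtype.val : M → ZFSet.{0}))
        Subtype.val_injective).mono fun η hη => hη.1
    have hDm : MeasurableSet (⋃ η ∈ {η : M | η.1 ∈ Q.1 ∧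
        ExF hM F (Q, r, η, scons σx σ, fun i => natM hM (v i))}, C ∩ {x | η.1 ∈ G x}) :=
      MeasurableSet.biUnion hEc fun η _ => hC.1.inter (hGm _)
    have hDI : I.mem (⋃ η ∈ {η : M | η.1 ∈ Q.1 ∧
        ExF hM F (Q, r, η, scons σx σ, fun i => natM hM (v i))}, C ∩ {x | η.1 ∈ G x}) :=
      mem_biUnion_ctbl hEc fun η hη => h1 η hη.2
    refine ⟨C \ ⋃ η ∈ {η : M | η.1 ∈ Q.1 ∧
        ExF hM F (Q, r, η, scons σx σ, fun i => natM hM (v i))}, C ∩ {x | η.1 ∈ G x},
      fun x hx => hCA hx.1, hC.1.diff hDm, ?_, Or.inl ?_⟩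
    · intro hbad
      refine hC.2 ?_
      have hun := I.iUnion (fun n : ℕ => if n = 0 then
        C \ ⋃ η ∈ {η : M | η.1 ∈ Q.1 ∧
          ExF hM F (Q, r, η, scons σx σ, fun i => natM hM (v i))}, C ∩ {x | η.1 ∈ G x}
        else ⋃ η ∈ {η : M | η.1 ∈ Q.1 ∧
          ExF hM F (Q, r, η, scons σx σ, fun i => natM hM (v i))}, C ∩ {x | η.1 ∈ G x})
        (fun n => by
          by_cases hn : n = 0
          · rw [if_pos hn]
            exact hbad
          · rw [if_neg hn]
            exact hDI)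
      refine I.mono _ _ hun hC.1 fun x hx => ?_
      by_cases hx2 : x ∈ ⋃ η ∈ {η : M | η.1 ∈ Q.1 ∧
          ExF hM F (Q, r, η, scons σx σ, fun i => natM hM (v i))}, C ∩ {x | η.1 ∈ G x}
      · refine mem_iUnion.2 ⟨1, ?_⟩
        rw [if_neg one_ne_zero]
        exact hx2
      · refine mem_iUnion.2 ⟨0, ?_⟩
        rw [if_pos rfl]
        exact ⟨hx, hx2⟩
    · intro x hx y hy
      have hY : P (scons (encR y) fun i => evR ((scons σx σ : ℕ → M) i).1 (G x)) v := by
        rw [hev x hx.1, hrep, (hgen x hx.1).2.1, dec_encR]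
        exact hy
      obtain ⟨η, hη, hE⟩ := (exR_iff hM hG hF hQ (hgen x hx.1).1 (scons σx σ) v).1 ⟨_, hY⟩
      exact hx.2 (mem_biUnion (x := η) ⟨(hgen x hx.1).1.sub _ hη, hE⟩ ⟨hx.1, hη⟩)

end RMK
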