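import Pool.Agent.RMK.Defs

/-!
RMK PDEFS: definitions for the positive half (complete file, nothing to prove).

Conventions.  `M` is a transitive model as in `ZModel`; names are arbitrary elements `σ` of `M`, and
`evR σ g` is the ternary relation on the natural numbers with name `σ` read along the filter `g`.
Second-order formulas are given semantically by the inductive predicate `SO` on properties of a
sequence `V` of ternary relations on `ℕ` and a sequence `v` of natural numbers.
Definability over `M` with parameters is expressed by `MD M P` for predicates `P : X → Prop` on a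
context `X` (instance `Ctx M X`: `X` is `↥M`, `ℕ → ↥M`, or a product of contexts), by `DF M f` for
functions `f : X → ↥M` and by `DFc M f` for functions `f : X → Y` between contexts.
-/

namespace RMK

open MeasureTheory Set PU

/-! ### Relations on the natural numbers, codes of reals -/

/-- Ternary relations on the natural numbers. -/
abbrev Rel : Type := ℕ → ℕ → ℕ → Prop

open Classical in
/-- The real coded by a relation. -/
noncomputable def dec (X : Rel) : ℕ → Bool := fun a => decide (X a 0 0)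

/-- The standard code of a real. -/
def encR (x : ℕ → Bool) : Rel := fun a _ _ => x a = true

/-- `a` followed by the sequence `s` -/
def scons {α : Type*} (a : α) (s : ℕ → α) : ℕ → α
  | 0 => a
  | n + 1 => s n

/-- Second-order definable properties of relations on `ℕ` and natural numbers. -/
inductive SO : ((ℕ → Rel) → (ℕ → ℕ) → Prop) → Prop
  | atom (i a b c : ℕ) : SO fun V v => V i (v a) (v b) (v c)
  | neg {P : (ℕ → Rel) → (ℕ → ℕ) → Prop} : SO P → SO fun V v => ¬ P V v
  | and {P Q : (ℕ → Rel) → (ℕ → ℕ) → Prop} : SO P → SO Q → SO fun V v => P V v ∧ Q V v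
  | exN {P : (ℕ → Rel) → (ℕ → ℕ) → Prop} : SO P → SO fun V v => ∃ n, P V (scons n v)
  | exR {P : (ℕ → Rel) → (ℕ → ℕ) → Prop} : SO P → SO fun V v => ∃ R, P (scons R V) v

/-- `A` is represented by a second-order formula with parameters. -/
def RepS (A : Set (ℕ → Bool)) : Prop :=
  ∃ P, SO P ∧ ∃ (Par : ℕ → Rel) (v : ℕ → ℕ), ∀ X : Rel, P (scons X Par) v ↔ dec X ∈ A

/-- `A ⊆ 2^ω × 2^ω` is represented by a second-order formula with parameters. -/
def RepS2 (A : Set ((ℕ → Bool) × (ℕ → Bool))) : Prop :=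
  ∃ P, SO P ∧ ∃ (Par : ℕ → Rel) (v : ℕ → ℕ), ∀ X Y : Rel,
    P (scons Y (scons X Par)) v ↔ (dec X, dec Y) ∈ A

/-! ### Sets -/

/-- the natural number `k` as a set -/
noncomputable def natZ (k : ℕ) : ZFSet.{0} := (k : Ordinal.{0}).toZFSet

/-- the set `ω` -/
noncomputable def omZ : ZFSet.{0} := Ordinal.omega0.toZFSet

/-- triples -/
def trip (a b c : ZFSet.{0}) : ZFSet.{0} := ZFSet.pair a (ZFSet.pair b c)

/-- triples of natural numbers -/
noncomputable def nat3 (a b c : ℕ) : ZFSet.{0} := trip (natZ a) (natZ b) (natZ c)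

/-- the set of all triples of natural numbers -/
noncomputable def om3 : ZFSet.{0} := omZ.prod (omZ.prod omZ)

/-- The relation on `ℕ` with name `σ`, read along `g`. -/
def evR (σ : ZFSet.{0}) (g : Set ZFSet.{0}) : Rel :=
  fun a b c => ∃ q ∈ g, ZFSet.pair (nat3 a b c) q ∈ σ

/-- `(Q', r')` is a poset of pairs `(q, c)` with `q ∈ Q` and `c ∈ C`, where `(C, s)` is a preorder,
closed under strengthening the first coordinate, with the product order. -/
structure PP (M : Set ZFSet.{0}) (Q r C s Q' r' : ZFSet.{0}) : Prop where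
  memC : C ∈ M
  mems : s ∈ M
  memQ' : Q' ∈ M
  memr' : r' ∈ M
  refl : ∀ c ∈ C, ZFSet.pair c c ∈ s
  trans : ∀ a ∈ C, ∀ b ∈ C, ∀ c ∈ C, ZFSet.pair a b ∈ s → ZFSet.pair b c ∈ s → ZFSet.pair a c ∈ s
  sub : ∀ w ∈ Q', ∃ q ∈ Q, ∃ c ∈ C, w = ZFSet.pair q c
  down : ∀ q c q', ZFSet.pair q c ∈ Q' → q' ∈ Q → ZFSet.pair q' q ∈ r → ZFSet.pair q' c ∈ Q'
  relsub : ∀ z ∈ r', ∃ w' ∈ Q', ∃ w ∈ Q', z = ZFSet.pair w' w
  rel : ∀ q' c' q c, ZFSet.pair q' c' ∈ Q' → ZFSet.pair q c ∈ Q' →
    (ZFSet.pair (ZFSet.pair q' c') (ZFSet.pair q c) ∈ r' ↔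
      ZFSet.pair q' q ∈ r ∧ ZFSet.pair c' c ∈ s)

/-- The name of a relation for the poset `(Q', r')` obtained from the name `σ` for `(Q, r)`. -/
noncomputable def liftZ (Q r Q' σ : ZFSet.{0}) : ZFSet.{0} :=
  ZFSet.sep (fun z => ∃ t q c q1, z = ZFSet.pair t (ZFSet.pair q c) ∧ q1 ∈ Q ∧ ZFSet.pair q q1 ∈ r ∧
    ZFSet.pair t q1 ∈ σ) (om3.prod Q')

/-! ### Definability over a model -/

/-- Contexts: types of assignments of elements of `M` to variables. -/
class Ctx (M : Set ZFSet.{0}) (X : Type 1) where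
  /-- the type of variables -/
  ι : Type
  /-- the coordinates -/
  e : X ≃ (ι → M)

instance ctxM (M : Set ZFSet.{0}) : Ctx M M where
  ι := Unit
  e := (Equiv.funUnique Unit M).symm

instance ctxProd (M : Set ZFSet.{0}) (X Y : Type 1) [Ctx M X] [Ctx M Y] : Ctx M (X × Y) where
  ι := Ctx.ι M X ⊕ Ctx.ι M Y
  e := (Equiv.prodCongr (Ctx.e (M := M) (X := X)) (Ctx.e (M := M) (X := Y))).trans
    (Equiv.sumArrowEquivProdArrow _ _ _).symm

instance ctxNat (M : Set ZFSet.{0}) : Ctx M (ℕ → M) where
  ι := ℕ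
  e := Equiv.refl _

variable (M : Set ZFSet.{0}) {X Y : Type 1} [Ctx M X] [Ctx M Y]

/-- `P` is definable over `M` with parameters. -/
def MD (P : X → Prop) : Prop :=
  (Set.univ : Set M).Definable LSet {v : Ctx.ι M X → M | P (Ctx.e.symm v)}

/-- The graph of `f` is definable over `M` with parameters. -/
def DF (f : X → M) : Prop := MD M fun p : X × M => p.2 = f p.1

/-- All coordinates of `f` are definable over `M` with parameters. -/
def DFc (f : X → Y) : Prop := ∀ j : Ctx.ι M Y, DF M fun x => Ctx.e (M := M) (f x) j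

end RMK
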