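import Pool.Agent.RMK.NGen
import Pool.Agent.RMK.PDefs

/-!
RMK GXA: closure properties of `N` and the generic filter given by a point, on the level of
countable ordinals.

Let `b` enumerate the positive Borel sets (not necessarily injectively).  `o = default : Om` is the ordinal
`0`.  Natural numbers as countable ordinals: `nOm k`.

PROOFS.
`club_ngood`: each clause holds for club many `N`: `club_mem`, `club_forall` for the clauses with a
fixed relation (countably many), `club_map2` for `meet` (the function `R, R' ↦ meetT b η ξ` if `R = lev η`, `R'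
= lev ξ`, chosen with `Classical`; `lev` is injective), `club_map` for `wit` (`R ↦ lev ξ` for some `ξ` witnessing
the failure of the second alternative, if it fails).
For the rest let `hC` be the property of `C` in `exists_nGen`, `x ∈ C`.  `DenseIn I (Ds b R)` holds iff for all
positive `B` there is `ζ` with `R ζ o o` and `b ζ ⊆ B`, equivalently (as `b` is onto) for all `ξ` there is `ζ` with
`R ζ o o`, `b ζ ⊆ b ξ` (`denseIn_iff`).
`gx_ne`: `R = topT`: dense.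
`gx_dir`: `meetT b η ξ ζ _ _ :⟺ b ζ ⊆ b η ∩ b ξ ∨ Disjoint (b ζ) (b η ∩ b ξ)` is dense: for positive `B`, either
`B ∩ b η ∩ b ξ` is positive, so it is some `b ζ`, or `B \ (b η ∩ b ξ)` is positive (otherwise `B` is in the
ideal: union of two sets in the ideal, `I.iUnion` with a sequence).  The `ζ` given by `hC` has `x ∈ b ζ`, so
the first alternative holds as `x ∈ b η ∩ b ξ`.
`gx_meets`: let `R ∈ N` be dense below `δ`: for every `ξ < δ` there is `ζ < δ` with `R ζ o o` and `b ζ ⊆ b ξ`.  By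
`wit`: the first alternative is impossible (`lev ξ ∈ N` gives `ξ < δ`), so the second holds and `Ds b R` is
dense; use `hC`.
`gx_bit`: `bitT b n ζ _ _ :⟺ (∀ y ∈ b ζ, y n = true) ∨ (∀ y ∈ b ζ, y n = false)` is dense (same argument as in
`gx_dir` with the clopen set `{y | y n = true}`).  If `x n = true`, the `ζ` given by `hC` must satisfy the first
alternative.
-/

namespace RMK

open MeasureTheory Set PU

/-- the natural number `k` as a countable ordinal -/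
noncomputable def nOm (k : ℕ) : Om :=
  ⟨(k : Ordinal.{0}), (Ordinal.natCast_lt_omega0 k).trans Ordinal.omega0_lt_omega_one⟩

variable (b : Om → Set (ℕ → Bool))

/-- inclusion -/
def inclT : T3 := fun ζ ξ _ => b ζ ⊆ b ξ

/-- everything -/
def topT : T3 := fun _ _ _ => True

/-- the name of the generic real -/
def nameT : T3 := fun n ζ _ => ∃ k, n = nOm k ∧ ∀ y ∈ b ζ, y k = true

/-- trace of a relation on `ℕ` -/
def parT (R : Rel) : T3 := fun x y z => ∃ k l m, x = nOm k ∧ y = nOm l ∧ z = nOm m ∧ R k l m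

/-- deciding whether `b η ∩ b ξ` contains the generic point -/
def meetT (η ξ : Om) : T3 := fun ζ _ _ => b ζ ⊆ b η ∩ b ξ ∨ Disjoint (b ζ) (b η ∩ b ξ)

/-- deciding the bit `n` -/
def bitT (n : ℕ) : T3 := fun ζ _ _ => (∀ y ∈ b ζ, y n = true) ∨ ∀ y ∈ b ζ, y n = false

/-- closure properties of `N` -/
structure NGood (Par : ℕ → Rel) (N : Set T3) : Prop where
  incl : inclT b ∈ N
  top : topT ∈ N
  name : nameT b ∈ N
  par : ∀ i, parT (Par i) ∈ N
  bit : ∀ n, bitT b n ∈ N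
  nat : ∀ k, lev (nOm k) ∈ N
  meet : ∀ η ξ, lev η ∈ N → lev ξ ∈ N → meetT b η ξ ∈ N
  wit : ∀ R ∈ N, (∃ ξ, lev ξ ∈ N ∧ ∀ ζ, R ζ default default → ¬ b ζ ⊆ b ξ) ∨
    ∀ ξ, ∃ ζ, R ζ default default ∧ b ζ ⊆ b ξ

theorem lev_injective : Function.Injective lev := by
  intro α β h
  have h1 : ∀ x : Om, x < α ↔ x < β := fun x => by
    have h2 := congrFun (congrFun (congrFun h x) default) default
    exact iff_of_eq h2
  rcases lt_trichotomy α β with h2 | h2 | h2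
  · exact absurd ((h1 α).2 h2) (lt_irrefl _)
  · exact h2
  · exact absurd ((h1 β).1 h2) (lt_irrefl _)

private theorem club_meet : ClubMany fun N : Set T3 =>
    ∀ η ξ, lev η ∈ N → lev ξ ∈ N → meetT b η ξ ∈ N := by
  classical
  haveI : Nonempty T3 := ⟨topT⟩
  have h := club_map2 (S := T3) fun R R' =>
    if h : (∃ η, R = lev η) ∧ ∃ ξ, R' = lev ξ then meetT b h.1.choose h.2.choose else R
  refine h.mono fun N _ hN η ξ hη hξ => ?_
  have h1 := hN _ hη _ hξ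
  have h2 : (∃ η', lev η = lev η') ∧ ∃ ξ', lev ξ = lev ξ' := ⟨⟨η, rfl⟩, ⟨ξ, rfl⟩⟩
  rw [dif_pos h2] at h1
  have h3 : h2.1.choose = η := (lev_injective h2.1.choose_spec).symm
  have h4 : h2.2.choose = ξ := (lev_injective h2.2.choose_spec).symm
  rw [h3, h4] at h1
  exact h1

private theorem club_wit : ClubMany fun N : Set T3 =>
    ∀ R ∈ N, (∃ ξ, lev ξ ∈ N ∧ ∀ ζ, R ζ default default → ¬ b ζ ⊆ b ξ) ∨
    ∀ ξ, ∃ ζ, R ζ default default ∧ b ζ ⊆ b ξ := by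
  classical
  haveI : Nonempty T3 := ⟨topT⟩
  have h := club_map (S := T3) fun R =>
    if h : ∃ ξ, ∀ ζ, R ζ default default → ¬ b ζ ⊆ b ξ then lev h.choose else R
  refine h.mono fun N _ hN R hR => ?_
  by_cases h2 : ∃ ξ, ∀ ζ, R ζ default default → ¬ b ζ ⊆ b ξ
  · left
    have h1 := hN _ hR
    rw [dif_pos h2] at h1
    exact ⟨h2.choose, h1, h2.choose_spec⟩
  · right
    intro ξ
    by_contra h3
    exact h2 ⟨ξ, fun ζ h4 h5 => h3 ⟨ζ, h4, h5⟩⟩

theorem club_ngood (Par : ℕ → Rel) : ClubMany (NGood b Par) := by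
  have h := (club_mem (inclT b)).and ((club_mem topT).and ((club_mem (nameT b)).and
    ((club_forall fun i => club_mem (parT (Par i))).and ((club_forall fun n => club_mem (bitT b n)).and
    ((club_forall fun k => club_mem (lev (nOm k))).and ((club_meet b).and (club_wit b)))))))
  exact h.mono fun N _ hN => ⟨hN.1, hN.2.1, hN.2.2.1, hN.2.2.2.1, hN.2.2.2.2.1, hN.2.2.2.2.2.1,
    hN.2.2.2.2.2.2.1, hN.2.2.2.2.2.2.2⟩

variable {b} {I : SigmaIdeal (ℕ → Bool)} {Par : ℕ → Rel} {N : Set T3} {δ : Om}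
  {C : Set (ℕ → Bool)} {x : ℕ → Bool}

theorem denseIn_iff (hb : ∀ ζ, Pos I (b ζ)) (hb' : ∀ B, Pos I B → ∃ ζ, b ζ = B) {R : T3} :
    DenseIn I (Ds b R) ↔ ∀ ξ, ∃ ζ, R ζ default default ∧ b ζ ⊆ b ξ := by
  constructor
  · rintro ⟨-, h⟩ ξ
    obtain ⟨B, ⟨ζ, h1, rfl⟩, h2⟩ := h (b ξ) (hb ξ)
    exact ⟨ζ, h1, h2⟩
  · intro h
    refine ⟨?_, ?_⟩
    · rintro A ⟨ζ, -, rfl⟩
      exact hb ζ
    · intro A hA
      obtain ⟨ξ, rfl⟩ := hb' A hA
      obtain ⟨ζ, h1, h2⟩ := h ξ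
      exact ⟨b ζ, ⟨ζ, h1, rfl⟩, h2⟩

/-- a positive set is split by every Borel set -/
private theorem pos_split {B T : Set (ℕ → Bool)} (hB : Pos I B) (hT : MeasurableSet T) :
    Pos I (B ∩ T) ∨ Pos I (B \ T) := by
  by_contra h
  rw [not_or] at h
  have h1 : I.mem (B ∩ T) := by
    by_contra h3
    exact h.1 ⟨hB.1.inter hT, h3⟩
  have h2 : I.mem (B \ T) := by
    by_contra h3
    exact h.2 ⟨hB.1.diff hT, h3⟩
  have h3 := I.iUnion (fun n => if n = 0 then B ∩ T else B \ T) (fun n => by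
    by_cases hn : n = 0
    · rw [if_pos hn]
      exact h1
    · rw [if_neg hn]
      exact h2)
  refine hB.2 (I.mono _ _ h3 hB.1 fun y hy => ?_)
  rw [Set.mem_iUnion]
  by_cases hyT : y ∈ T
  · exact ⟨0, by rw [if_pos rfl]; exact ⟨hy, hyT⟩⟩
  · exact ⟨1, by rw [if_neg one_ne_zero]; exact ⟨hy, hyT⟩⟩

theorem gx_ne (hb : ∀ ζ, Pos I (b ζ)) (hb' : ∀ B, Pos I B → ∃ ζ, b ζ = B) (hN : NGood b Par N)
    (hC : ∀ R ∈ N, DenseIn I (Ds b R) → ∀ x ∈ C, ∃ ζ, ζ < δ ∧ R ζ default default ∧ x ∈ b ζ)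
    (hx : x ∈ C) : ∃ η, η < δ ∧ x ∈ b η := by
  obtain ⟨ζ, h1, -, h2⟩ := hC topT hN.top ((denseIn_iff hb hb').2 fun ξ => ⟨ξ, trivial, subset_rfl⟩) x hx
  exact ⟨ζ, h1, h2⟩

theorem gx_dir (hb : ∀ ζ, Pos I (b ζ)) (hb' : ∀ B, Pos I B → ∃ ζ, b ζ = B) (hN : NGood b Par N)
    (hδ : ∀ α, lev α ∈ N ↔ α < δ)
    (hC : ∀ R ∈ N, DenseIn I (Ds b R) → ∀ x ∈ C, ∃ ζ, ζ < δ ∧ R ζ default default ∧ x ∈ b ζ)
    (hx : x ∈ C) {η ξ : Om} (hη : η < δ) (hξ : ξ < δ) (h1 : x ∈ b η) (h2 : x ∈ b ξ) :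
    ∃ ζ, ζ < δ ∧ x ∈ b ζ ∧ b ζ ⊆ b η ∧ b ζ ⊆ b ξ := by
  have hd : DenseIn I (Ds b (meetT b η ξ)) := by
    rw [denseIn_iff hb hb']
    intro θ
    rcases pos_split (hb θ) ((hb η).1.inter (hb ξ).1) with h | h
    · obtain ⟨ζ, hζ⟩ := hb' _ h
      refine ⟨ζ, Or.inl ?_, ?_⟩
      · rw [hζ]
        exact Set.inter_subset_right
      · rw [hζ]
        exact Set.inter_subset_left
    · obtain ⟨ζ, hζ⟩ := hb' _ h
      refine ⟨ζ, Or.inr ?_, ?_⟩
      · rw [hζ]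
        exact Set.disjoint_sdiff_left
      · rw [hζ]
        exact Set.diff_subset
  obtain ⟨ζ, h3, h4, h5⟩ := hC _ (hN.meet η ξ ((hδ η).2 hη) ((hδ ξ).2 hξ)) hd x hx
  rcases h4 with h4 | h4
  · exact ⟨ζ, h3, h5, h4.trans Set.inter_subset_left, h4.trans Set.inter_subset_right⟩
  · exact absurd ⟨h1, h2⟩ (Set.disjoint_left.1 h4 h5)

theorem gx_meets (hb : ∀ ζ, Pos I (b ζ)) (hb' : ∀ B, Pos I B → ∃ ζ, b ζ = B)
    (hN : NGood b Par N) (hδ : ∀ α, lev α ∈ N ↔ α < δ)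
    (hC : ∀ R ∈ N, DenseIn I (Ds b R) → ∀ x ∈ C, ∃ ζ, ζ < δ ∧ R ζ default default ∧ x ∈ b ζ)
    (hx : x ∈ C) {R : T3} (hR : R ∈ N)
    (hd : ∀ ξ, ξ < δ → ∃ ζ, ζ < δ ∧ R ζ default default ∧ b ζ ⊆ b ξ) :
    ∃ ζ, ζ < δ ∧ R ζ default default ∧ x ∈ b ζ := by
  rcases hN.wit R hR with ⟨ξ, h1, h2⟩ | h
  · obtain ⟨ζ, -, h3, h4⟩ := hd ξ ((hδ ξ).1 h1)
    exact absurd h4 (h2 ζ h3)
  · exact hC R hR ((denseIn_iff hb hb').2 h) x hx

theorem gx_bit (hb : ∀ ζ, Pos I (b ζ)) (hb' : ∀ B, Pos I B → ∃ ζ, b ζ = B)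
    (hN : NGood b Par N)
    (hC : ∀ R ∈ N, DenseIn I (Ds b R) → ∀ x ∈ C, ∃ ζ, ζ < δ ∧ R ζ default default ∧ x ∈ b ζ)
    (hx : x ∈ C) (n : ℕ) :
    x n = true ↔ ∃ ζ, ζ < δ ∧ x ∈ b ζ ∧ ∀ y ∈ b ζ, y n = true := by
  constructor
  · intro hxn
    have hm : Measurable fun y : ℕ → Bool => y n := measurable_pi_apply n
    have hT : MeasurableSet {y : ℕ → Bool | y n = true} := hm (MeasurableSet.singleton true)
    have hd : DenseIn I (Ds b (bitT b n)) := by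
      rw [denseIn_iff hb hb']
      intro θ
      rcases pos_split (hb θ) hT with h | h
      · obtain ⟨ζ, hζ⟩ := hb' _ h
        refine ⟨ζ, Or.inl fun y hy => ?_, ?_⟩
        · rw [hζ] at hy
          exact hy.2
        · rw [hζ]
          exact Set.inter_subset_left
      · obtain ⟨ζ, hζ⟩ := hb' _ h
        refine ⟨ζ, Or.inr fun y hy => ?_, ?_⟩
        · rw [hζ] at hy
          exact Bool.eq_false_iff.2 hy.2
        · rw [hζ]
          exact Set.diff_subset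
    obtain ⟨ζ, h3, h4, h5⟩ := hC _ (hN.bit n) hd x hx
    rcases h4 with h4 | h4
    · exact ⟨ζ, h3, h5, h4⟩
    · have h6 := h4 x h5
      rw [hxn] at h6
      exact absurd h6 (by decide)
  · rintro ⟨ζ, -, h1, h2⟩
    exact h2 x h1

end RMK
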