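import Pool.Agent.RMK.PPo
import Pool.Agent.RMK.GXA

/-!
RMK GDEFS: definitions for the iteration of a poset of `M` with a named preorder (complete file).
-/

namespace RMK

open Set PU

/-- the ordinal as a set -/
noncomputable def toZ (α : Om) : ZFSet.{0} := α.1.toZFSet

/-- `p` explicitly puts `t` into the relation named by `σ` -/
def Exq (Q r σ t p : ZFSet.{0}) : Prop := ∃ q ∈ Q, ZFSet.pair p q ∈ r ∧ ZFSet.pair t q ∈ σ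

/-- `p` forces `t` into the relation named by `σ` -/
def Fq (Q r σ t p : ZFSet.{0}) : Prop :=
  ∀ p1 ∈ Q, ZFSet.pair p1 p ∈ r → ∃ p2 ∈ Q, ZFSet.pair p2 p1 ∈ r ∧ Exq Q r σ t p2

/-- code of the pair `(ζ, ξ)` in the named relation -/
noncomputable def tz (ζ ξ : ZFSet.{0}) : ZFSet.{0} := trip ζ ξ (natZ 0)

/-- `p` forces that the relation named by `σ` is a preorder on `d` -/
structure PreF (Q r σ d p : ZFSet.{0}) : Prop where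
  mem : p ∈ Q
  refl : ∀ ζ ∈ d, ∀ p1 ∈ Q, ZFSet.pair p1 p ∈ r → ∃ p2 ∈ Q, ZFSet.pair p2 p1 ∈ r ∧
    Exq Q r σ (tz ζ ζ) p2
  trans : ∀ a ∈ d, ∀ b ∈ d, ∀ c ∈ d, ∀ p1 ∈ Q, ZFSet.pair p1 p ∈ r → Exq Q r σ (tz a b) p1 →
    Exq Q r σ (tz b c) p1 → ∃ p2 ∈ Q, ZFSet.pair p2 p1 ∈ r ∧ Exq Q r σ (tz a c) p2

/-- `(Qs, rs)` is the iteration below `p₀` of `(Q, r)` with the preorder on `d` named by `σ` -/
structure Iter (M : Set ZFSet.{0}) (Q r σ d p₀ Qs rs : ZFSet.{0}) : Prop where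
  memQ : Qs ∈ M
  memr : rs ∈ M
  sub : ∀ w ∈ Qs, ∃ p ζ, w = ZFSet.pair p ζ
  mem : ∀ p ζ, ZFSet.pair p ζ ∈ Qs ↔ p ∈ Q ∧ ZFSet.pair p p₀ ∈ r ∧ ζ ∈ d
  rsub : ∀ z ∈ rs, ∃ w' ∈ Qs, ∃ w ∈ Qs, z = ZFSet.pair w' w
  rel : ∀ p' ζ' p ζ, ZFSet.pair p' ζ' ∈ Qs → ZFSet.pair p ζ ∈ Qs →
    (ZFSet.pair (ZFSet.pair p' ζ') (ZFSet.pair p ζ) ∈ rs ↔
      ZFSet.pair p' p ∈ r ∧ Fq Q r σ (tz ζ' ζ) p')

/-- the filter on the iteration given by a set `S` of ordinals -/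
def Gst (Q r p₀ : ZFSet.{0}) (g : Set ZFSet.{0}) (S : Set Om) : Set ZFSet.{0} :=
  {w | ∃ p ∈ g, ZFSet.pair p p₀ ∈ r ∧ ∃ ζ ∈ S, w = ZFSet.pair p (toZ ζ)}

end RMK
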