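import Pool.Agent.RMK.PPo

/-!
RMK LIFTB: one step of the lifting of a generic filter along a poset of pairs, and evaluation of
lifted names.

PROOFS.
Notation: `(q, c) = ZFSet.pair q c`; in `Q`, `q1 ≤ q` means `pair q1 q ∈ r`; `q ⊥ q'` means there is no
`z ∈ Q` with `z ≤ q`, `z ≤ q'`.  Elements of a generic filter are pairwise compatible (`dir`).
`exists_dense_mem`: for a definable predicate `P` such that every `x ∈ Q` has an extension `y ∈ Q`,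
`y ≤ x` with `P y`, the generic filter contains an element with `P`: `exists_sep` gives the set
`D = {y ∈ Q | P y}` in `M`, use `meets`.  (Useful tool, also in other modules.)
`lift_step`: `P q1 := (∃ c1 : M, (q1, c1) ∈ D ∧ c1 ≤ c ∧ q1 ≤ q) ∨ ¬ ∃ z : M, z ∈ Q ∧ z ≤ q1 ∧ z ≤ q`.
Density: given `p ∈ Q`; if `p ⊥ q`, `P p`.  Otherwise let `p' ∈ Q`, `p' ≤ p, q`.  Then `(p', c) ∈ Q'` by
`down`; let `(q1, c1) ∈ D` with `(q1, c1) ≤ (p', c)` (elements of `D` are pairs by `sub`; use `rel`).  So `q1 ≤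
p' ≤ p`, `q1 ≤ p' ≤ q`, `c1 ≤ c` and `P q1`.  The element `q1 ∈ g` with `P q1` is compatible with `q`, so the
first alternative holds, and `(q1, c1) ≤ (q, c)` by `rel`.
`evR_lift`: both directions, for a triple `t = nat3 a b d`, by `mem_liftZ`.  If `(q, c) ∈ g'`, `q1 ∈ Q`,
`q ≤ q1`, `(t, q1) ∈ σ`, then `q ∈ g`, so `q1 ∈ g`.  Conversely let `q1 ∈ g`, `(t, q1) ∈ σ`.  Let `D` be the set
of `(q, c) ∈ Q'` such that `q ≤ q1` or `q ⊥ q1`.  It is in `M` and dense in `Q'`: for `(q, c) ∈ Q'` not in `D` take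
`q' ≤ q, q1`, `(q', c) ∈ Q'` by `down`, and `(q', c) ≤ (q, c)` since `c ≤ c`.  So there is `(q, c) ∈ g' ∩ D`
(`exists_dense_mem` for `Q'`, which is a poset by `PP.isPoset`; only `memQ` and `memr` are needed);
`q ∈ g` and `q1 ∈ g` are compatible, so `q ≤ q1`.
-/

namespace RMK

open Set

variable {M : Set ZFSet.{0}} {Q r C s Q' r' : ZFSet.{0}} {g g' : Set ZFSet.{0}}

private theorem wkb {X Y : Type 1} [Ctx M X] [Ctx M Y] {f : X → Y} (h : DFc M f) :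
    DFc M fun p : X × M => f p.1 := h.comp (DFc.fst DFc.id)

private theorem lvb {X : Type 1} [Ctx M X] : DFc M fun p : X × M => p.2 := DFc.snd DFc.id

private theorem tr2 (hM : ZModel M) {a b : ZFSet.{0}} (ha : a ∈ M) (hb : b ∈ a) : b ∈ M :=
  hM.trans a ha b hb

theorem exists_dense_mem (hM : ZModel M) (hQM : Q ∈ M) (hg : IsGeneric M Q r g)
    {P : M → Prop} (hP : MD M P)
    (hd : ∀ x : M, x.1 ∈ Q → ∃ y : M, y.1 ∈ Q ∧ ZFSet.pair y.1 x.1 ∈ r ∧ P y) :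
    ∃ y : M, y.1 ∈ g ∧ P y := by
  obtain ⟨D, hD⟩ := exists_sep hM hP ⟨Q, hQM⟩
  have hDQ : D.1 ⊆ Q := fun z hz => ((hD ⟨z, tr2 hM D.2 hz⟩).1 hz).1
  obtain ⟨x, hxg, hxD⟩ := hg.meets D.1 D.2 hDQ (by
    intro x hx
    obtain ⟨y, hyQ, hyx, hPy⟩ := hd ⟨x, tr2 hM hQM hx⟩ hx
    exact ⟨y.1, (hD y).2 ⟨hyQ, hPy⟩, hyx⟩)
  exact ⟨⟨x, tr2 hM D.2 hxD⟩, hxg, ((hD ⟨x, tr2 hM D.2 hxD⟩).1 hxD).2⟩

theorem lift_step (hM : ZModel M) (hQ : IsPoset M Q r) (hg : IsGeneric M Q r g)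
    (hP : PP M Q r C s Q' r') {D : ZFSet.{0}} (hD : D ∈ M) (hDQ : D ⊆ Q')
    (hDd : ∀ w ∈ Q', ∃ w' ∈ D, ZFSet.pair w' w ∈ r') {q c : ZFSet.{0}}
    (hw : ZFSet.pair q c ∈ Q') (hq : q ∈ g) :
    ∃ q' c', ZFSet.pair q' c' ∈ D ∧ ZFSet.pair (ZFSet.pair q' c') (ZFSet.pair q c) ∈ r' ∧
      q' ∈ g := by
  have hqQ : q ∈ Q := hg.sub q hq
  have hwM := tr2 hM hP.memQ' hw
  have hqM : q ∈ M := hM.pair_left hwM
  have hcM : c ∈ M := hM.pair_right hwM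
  obtain ⟨y, hyg, hy⟩ := exists_dense_mem hM hQ.memQ hg
    (P := fun y => (∃ c1 : M, ZFSet.pair y.1 c1.1 ∈ (⟨D, hD⟩ : M).1 ∧
      ZFSet.pair c1.1 (⟨c, hcM⟩ : M).1 ∈ (⟨s, hP.mems⟩ : M).1 ∧
      ZFSet.pair y.1 (⟨q, hqM⟩ : M).1 ∈ (⟨r, hQ.memr⟩ : M).1) ∨
      ¬ ∃ z : M, z.1 ∈ (⟨Q, hQ.memQ⟩ : M).1 ∧ ZFSet.pair z.1 y.1 ∈ (⟨r, hQ.memr⟩ : M).1 ∧
        ZFSet.pair z.1 (⟨q, hqM⟩ : M).1 ∈ (⟨r, hQ.memr⟩ : M).1)
    (MD.or (MD.ex (MD.and (MD.pair_mem hM (wkb DFc.id) lvb (DFc.const _))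
        (MD.and (MD.pair_mem hM lvb (DFc.const _) (DFc.const _))
          (MD.pair_mem hM (wkb DFc.id) (DFc.const _) (DFc.const _)))))
      (MD.not (MD.ex (MD.and (MD.mem lvb (DFc.const _))
        (MD.and (MD.pair_mem hM lvb (wkb DFc.id) (DFc.const _))
          (MD.pair_mem hM lvb (DFc.const _) (DFc.const _))))))) (by
      intro x hx
      by_cases hc : ∃ z : M, z.1 ∈ Q ∧ ZFSet.pair z.1 x.1 ∈ r ∧ ZFSet.pair z.1 q ∈ r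
      · obtain ⟨z, hzQ, hzx, hzq⟩ := hc
        have h1 := hP.down q c z.1 hw hzQ hzq
        obtain ⟨w', hw'D, hw'⟩ := hDd _ h1
        obtain ⟨q1, hq1, c1, hc1, rfl⟩ := hP.sub w' (hDQ hw'D)
        obtain ⟨h2, h3⟩ := (hP.rel q1 c1 z.1 c (hDQ hw'D) h1).1 hw'
        refine ⟨⟨q1, tr2 hM hQ.memQ hq1⟩, hq1, hQ.trans q1 hq1 z.1 hzQ x.1 hx h2 hzx, Or.inl ?_⟩
        exact ⟨⟨c1, tr2 hM hP.memC hc1⟩, hw'D, h3, hQ.trans q1 hq1 z.1 hzQ q hqQ h2 hzq⟩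
      · exact ⟨x, hx, hQ.refl x.1 hx, Or.inr hc⟩)
  rcases hy with ⟨c1, h1, h2, h3⟩ | hy
  · exact ⟨y.1, c1.1, h1, (hP.rel y.1 c1.1 q c (hDQ h1) hw).2 ⟨h3, h2⟩, hyg⟩
  · obtain ⟨z, hzg, h1, h2⟩ := hg.dir y.1 hyg q hq
    exact absurd ⟨⟨z, tr2 hM hQ.memQ (hg.sub z hzg)⟩, hg.sub z hzg, h1, h2⟩ hy

theorem evR_lift (hM : ZModel M) (hQ : IsPoset M Q r) (hg : IsGeneric M Q r g)
    (hP : PP M Q r C s Q' r') (hg' : IsGeneric M Q' r' g')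
    (hfst : ∀ q c, ZFSet.pair q c ∈ g' → q ∈ g) {σ : ZFSet.{0}} (hσ : σ ∈ M) :
    evR (liftZ Q r Q' σ) g' = evR σ g := by
  funext a b c
  apply propext
  constructor
  · rintro ⟨w, hwg, hw⟩
    obtain ⟨q, hq, c', hc', rfl⟩ := hP.sub w (hg'.sub w hwg)
    obtain ⟨h1, q1, hq1, h2, h3⟩ := mem_liftZ.1 hw
    exact ⟨q1, hg.up q (hfst q c' hwg) q1 hq1 h2, h3⟩
  · rintro ⟨q1, hq1g, hq1⟩
    have hq1Q := hg.sub q1 hq1g
    have hq1M : q1 ∈ M := tr2 hM hQ.memQ hq1Q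
    obtain ⟨w, hwg, q, c', e, hw⟩ := exists_dense_mem hM hP.memQ' hg'
      (P := fun w => ∃ q c : M, w.1 = ZFSet.pair q.1 c.1 ∧
        (ZFSet.pair q.1 (⟨q1, hq1M⟩ : M).1 ∈ (⟨r, hQ.memr⟩ : M).1 ∨
        ¬ ∃ z : M, z.1 ∈ (⟨Q, hQ.memQ⟩ : M).1 ∧ ZFSet.pair z.1 q.1 ∈ (⟨r, hQ.memr⟩ : M).1 ∧
          ZFSet.pair z.1 (⟨q1, hq1M⟩ : M).1 ∈ (⟨r, hQ.memr⟩ : M).1))
      (MD.ex (MD.ex (MD.and (MD.eq_pair hM (wkb (wkb DFc.id)) (wkb lvb) lvb)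
        (MD.or (MD.pair_mem hM (wkb lvb) (DFc.const _) (DFc.const _))
          (MD.not (MD.ex (MD.and (MD.mem lvb (DFc.const _))
            (MD.and (MD.pair_mem hM lvb (wkb (wkb lvb)) (DFc.const _))
              (MD.pair_mem hM lvb (DFc.const _) (DFc.const _)))))))))) (by
        intro x hx
        obtain ⟨q, hq, c0, hc0, e⟩ := hP.sub x.1 hx
        have hqM : q ∈ M := tr2 hM hQ.memQ hq
        have hc0M : c0 ∈ M := tr2 hM hP.memC hc0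
        have hx' : ZFSet.pair q c0 ∈ Q' := by rw [← e]; exact hx
        have hxx : ZFSet.pair x.1 x.1 ∈ r' := by
          rw [e]
          exact (hP.rel q c0 q c0 hx' hx').2 ⟨hQ.refl q hq, hP.refl c0 hc0⟩
        by_cases h1 : ZFSet.pair q q1 ∈ r
        · exact ⟨x, hx, hxx, ⟨q, hqM⟩, ⟨c0, hc0M⟩, e, Or.inl h1⟩
        · by_cases h2 : ∃ z : M, z.1 ∈ Q ∧ ZFSet.pair z.1 q ∈ r ∧ ZFSet.pair z.1 q1 ∈ r
          · obtain ⟨z, hzQ, hzq, hzq1⟩ := h2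
            have h3 := hP.down q c0 z.1 hx' hzQ hzq
            refine ⟨⟨ZFSet.pair z.1 c0, tr2 hM hP.memQ' h3⟩, h3, ?_, z, ⟨c0, hc0M⟩, rfl,
              Or.inl hzq1⟩
            rw [e]
            exact (hP.rel z.1 c0 q c0 h3 hx').2 ⟨hzq, hP.refl c0 hc0⟩
          · exact ⟨x, hx, hxx, ⟨q, hqM⟩, ⟨c0, hc0M⟩, e, Or.inr h2⟩)
    have hwQ : ZFSet.pair q.1 c'.1 ∈ Q' := by
      rw [← e]
      exact hg'.sub _ hwg
    have hqg : q.1 ∈ g := by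
      refine hfst q.1 c'.1 ?_
      rw [← e]
      exact hwg
    have h4 : ZFSet.pair q.1 q1 ∈ r := by
      rcases hw with hw | hw
      · exact hw
      · obtain ⟨z, hzg, h1, h2⟩ := hg.dir q.1 hqg q1 hq1g
        exact absurd ⟨⟨z, tr2 hM hQ.memQ (hg.sub z hzg)⟩, hg.sub z hzg, h1, h2⟩ hw
    refine ⟨w.1, hwg, ?_⟩
    rw [e]
    exact mem_liftZ.2 ⟨hwQ, q1, hq1Q, h4, hq1⟩

end RMK
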