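import Pool.Agent.RMK.GDefs
import Pool.Agent.RMK.LiftB

/-!
RMK GITA: basic facts on the forcing relations `Exq`, `Fq`, and the condition forcing a preorder.

`tup a b c = trip (toZ a) (toZ b) (toZ c)` by `rfl`; `toZ default = natZ 0`, so `tup ζ ξ default = tz (toZ ζ)
(toZ ξ)`; `Named g σ a b c ↔ ∃ p ∈ g, pair (tup a b c) p ∈ σ` by definition.

PROOFS.
`Exq.down`: transitivity.  `Exq.fq`: for `p1 ≤ p` take `p2 = p1`.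
`Fq.true`: `p ∈ g` and `Fq p`: the predicate `Exq p2 ∨ (p2 incompatible with p)` is dense, so some `p2 ∈ g` has
`Exq p2` (`exists_dense_mem`; elements of `g` are compatible); the `q` of `Exq` is in `g` by `up`.
`Exq.true`: `up`.  `exists_exq`: directedness: a common extension in `g` of `p` and `q`.
`exists_preF`: the predicate on `p ∈ Q`: `PreF p`, or there is `ζ ∈ d` such that no `p2 ≤ p` has `Exq (tz ζ ζ) p2`,
or there are `a, b, c ∈ d` with `Exq (tz a b) p`, `Exq (tz b c) p` and no `p2 ≤ p` with `Exq (tz a c) p2`.  It is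
definable (`MD`, all quantifiers over `↥M`) and dense: if `p` is not `PreF` then some `p1 ≤ p` satisfies one of the
other alternatives.  Let `p ∈ g` satisfy it (`exists_dense_mem`).  Second alternative: `ζ = toZ α`, `le α α`, so
`Named g σ α α default`, so there is `q ∈ g` with `pair (tz ζ ζ) q ∈ σ`, and a common extension of `p` and `q`
contradicts.  Third: `Exq (tz a b) p` with `p ∈ g` gives `Named`, hence `le a b`, `le b c`, so `le a c`, so there is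
`q ∈ g` with `pair (tz a c) q ∈ σ`, contradiction as before.
`exists_iter`: `exists_sep` twice (`prodM Q d` and `prodM Qs Qs`).  `Iter.isPoset`: reflexive by `refl` of `PreF`
(`p ≤ p₀`); transitive: `(p'', ζ'') ≤ (p', ζ') ≤ (p, ζ)`; for `p1 ≤ p''` take `p2 ≤ p1` with `Exq (tz ζ'' ζ') p2`, then
`p3 ≤ p2` with `Exq (tz ζ' ζ) p3` (as `p2 ≤ p'`), then `PreF.trans` for `p3` gives `p4` with `Exq (tz ζ'' ζ) p4`.
Nonempty: `(p₀, ζ)` for `ζ ∈ d`.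
-/

namespace RMK

open Set PU

variable {M : Set ZFSet.{0}} {Q r σ : ZFSet.{0}} {g : Set ZFSet.{0}}

theorem toZ_inj {α β : Om} : toZ α = toZ β ↔ α = β := by
  constructor
  · intro h
    exact Subtype.ext (Ordinal.toZFSet_injective h)
  · rintro rfl
    rfl

theorem mem_toZ {δ : Om} {x : ZFSet.{0}} : x ∈ toZ δ ↔ ∃ α, α < δ ∧ x = toZ α := by
  unfold toZ
  rw [Ordinal.mem_toZFSet_iff]
  constructor
  · rintro ⟨a, ha, rfl⟩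
    exact ⟨⟨a, ha.trans δ.2⟩, ha, rfl⟩
  · rintro ⟨α, hα, rfl⟩
    exact ⟨α.1, hα, rfl⟩

theorem toZ_nOm (k : ℕ) : toZ (nOm k) = natZ k := rfl

theorem toZ_default : toZ default = natZ 0 := by
  unfold toZ natZ
  rw [Nat.cast_zero]
  rfl

theorem Exq.down (hQ : IsPoset M Q r) {t p p' : ZFSet.{0}} (h : Exq Q r σ t p) (hp : p ∈ Q)
    (hp' : p' ∈ Q) (hpp : ZFSet.pair p' p ∈ r) : Exq Q r σ t p' := by
  obtain ⟨q, hq, hpq, ht⟩ := h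
  exact ⟨q, hq, hQ.trans p' hp' p hp q hq hpp hpq, ht⟩

theorem Exq.fq (hQ : IsPoset M Q r) {t p : ZFSet.{0}} (h : Exq Q r σ t p) (hp : p ∈ Q) :
    Fq Q r σ t p := by
  intro p1 hp1 h1
  exact ⟨p1, hp1, hQ.refl p1 hp1, Exq.down hQ h hp hp1 h1⟩

theorem Exq.true (hg : IsGeneric M Q r g) {t p : ZFSet.{0}} (h : Exq Q r σ t p) (hp : p ∈ g) :
    ∃ q ∈ g, ZFSet.pair t q ∈ σ := by
  obtain ⟨q, hq, hpq, ht⟩ := h
  exact ⟨q, hg.up p hp q hq hpq, ht⟩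

private theorem md_exq (hM : ZModel M) (hQ : Q ∈ M) (hr : r ∈ M) (hσ : σ ∈ M) {X : Type 1}
    [Ctx M X] {t p : X → M} (ht : DFc M t) (hp : DFc M p) :
    MD M fun x => Exq Q r σ (t x).1 (p x).1 := by
  refine MD.congr (P := fun x => ∃ q : M, q.1 ∈ Q ∧ ZFSet.pair (p x).1 q.1 ∈ r ∧
    ZFSet.pair (t x).1 q.1 ∈ σ) (fun x => (hM.bex hQ (P := fun q =>
      ZFSet.pair (p x).1 q ∈ r ∧ ZFSet.pair (t x).1 q ∈ σ)).symm) ?_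
  refine MD.ex (MD.and ?_ (MD.and ?_ ?_))
  · exact MD.mem (g := fun _ => (⟨Q, hQ⟩ : M)) (DFc.snd DFc.id) (DFc.const _)
  · exact MD.pair_mem (h := fun _ => (⟨r, hr⟩ : M)) hM (DFc.comp hp (DFc.fst DFc.id))
      (DFc.snd DFc.id) (DFc.const _)
  · exact MD.pair_mem (h := fun _ => (⟨σ, hσ⟩ : M)) hM (DFc.comp ht (DFc.fst DFc.id))
      (DFc.snd DFc.id) (DFc.const _)

private theorem fq_iff (hM : ZModel M) (hQ : Q ∈ M) (t p : ZFSet.{0}) :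
    Fq Q r σ t p ↔ ∀ p1 : M, p1.1 ∈ Q → ZFSet.pair p1.1 p ∈ r →
      ∃ p2 : M, p2.1 ∈ Q ∧ ZFSet.pair p2.1 p1.1 ∈ r ∧ Exq Q r σ t p2.1 := by
  constructor
  · intro h p1 hp1 h1
    obtain ⟨p2, hp2, h2, h3⟩ := h p1.1 hp1 h1
    exact ⟨⟨p2, hM.trans Q hQ p2 hp2⟩, hp2, h2, h3⟩
  · intro h p1 hp1 h1
    obtain ⟨p2, hp2, h2, h3⟩ := h ⟨p1, hM.trans Q hQ p1 hp1⟩ hp1 h1
    exact ⟨p2.1, hp2, h2, h3⟩

private theorem md_fq (hM : ZModel M) (hQ : Q ∈ M) (hr : r ∈ M) (hσ : σ ∈ M) {X : Type 1}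
    [Ctx M X] {t p : X → M} (ht : DFc M t) (hp : DFc M p) :
    MD M fun x => Fq Q r σ (t x).1 (p x).1 := by
  refine MD.congr (P := fun x => ∀ p1 : M, p1.1 ∈ Q → ZFSet.pair p1.1 (p x).1 ∈ r →
      ∃ p2 : M, p2.1 ∈ Q ∧ ZFSet.pair p2.1 p1.1 ∈ r ∧ Exq Q r σ (t x).1 p2.1)
      (fun x => (fq_iff hM hQ _ _).symm) ?_
  refine MD.all (MD.imp ?_ (MD.imp ?_ (MD.ex (MD.and ?_ (MD.and ?_ ?_)))))
  · exact MD.mem (g := fun _ => (⟨Q, hQ⟩ : M)) (DFc.snd DFc.id) (DFc.const _)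
  · exact MD.pair_mem (h := fun _ => (⟨r, hr⟩ : M)) hM (DFc.snd DFc.id)
      (DFc.comp hp (DFc.fst DFc.id)) (DFc.const _)
  · exact MD.mem (g := fun _ => (⟨Q, hQ⟩ : M)) (DFc.snd DFc.id) (DFc.const _)
  · exact MD.pair_mem (h := fun _ => (⟨r, hr⟩ : M)) hM (DFc.snd DFc.id)
      (DFc.snd (DFc.fst DFc.id)) (DFc.const _)
  · exact md_exq hM hQ hr hσ (DFc.comp ht (DFc.fst (DFc.fst DFc.id))) (DFc.snd DFc.id)

theorem Fq.true (hM : ZModel M) (hQ : IsPoset M Q r) (hg : IsGeneric M Q r g) (hσ : σ ∈ M)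
    {t p : ZFSet.{0}} (ht : t ∈ M) (h : Fq Q r σ t p) (hp : p ∈ g) :
    ∃ q ∈ g, ZFSet.pair t q ∈ σ := by
  have hpQ := hg.sub p hp
  have hpM := hM.trans Q hQ.memQ p hpQ
  have hMD : MD M fun p2 : M => Exq Q r σ t p2.1 ∨
      ¬ ∃ z : M, z.1 ∈ Q ∧ ZFSet.pair z.1 p2.1 ∈ r ∧ ZFSet.pair z.1 p ∈ r := by
    refine MD.or ?_ (MD.not (MD.ex (MD.and ?_ (MD.and ?_ ?_))))
    · exact md_exq (t := fun _ => (⟨t, ht⟩ : M)) hM hQ.memQ hQ.memr hσ (DFc.const _) DFc.id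
    · exact MD.mem (g := fun _ => (⟨Q, hQ.memQ⟩ : M)) (DFc.snd DFc.id) (DFc.const _)
    · exact MD.pair_mem (h := fun _ => (⟨r, hQ.memr⟩ : M)) hM (DFc.snd DFc.id)
        (DFc.fst DFc.id) (DFc.const _)
    · exact MD.pair_mem (g := fun _ => (⟨p, hpM⟩ : M)) (h := fun _ => (⟨r, hQ.memr⟩ : M)) hM
        (DFc.snd DFc.id) (DFc.const _) (DFc.const _)
  obtain ⟨y, hyg, hy⟩ := exists_dense_mem hM hQ.memQ hg hMD (by
    intro x hx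
    by_cases hc : ∃ z : M, z.1 ∈ Q ∧ ZFSet.pair z.1 x.1 ∈ r ∧ ZFSet.pair z.1 p ∈ r
    · obtain ⟨z, hz, hzx, hzp⟩ := hc
      obtain ⟨p2, hp2, h2, h3⟩ := h z.1 hz hzp
      exact ⟨⟨p2, hM.trans Q hQ.memQ p2 hp2⟩, hp2,
        hQ.trans p2 hp2 z.1 hz x.1 hx h2 hzx, Or.inl h3⟩
    · exact ⟨x, hx, hQ.refl x.1 hx, Or.inr hc⟩)
  rcases hy with hy | hy
  · exact Exq.true hg hy hyg
  · exfalso
    obtain ⟨z, hz, hz1, hz2⟩ := hg.dir y.1 hyg p hp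
    exact hy ⟨⟨z, hM.trans Q hQ.memQ z (hg.sub z hz)⟩, hg.sub z hz, hz1, hz2⟩

theorem exists_exq (hg : IsGeneric M Q r g) {t p q : ZFSet.{0}} (hp : p ∈ g) (hq : q ∈ g)
    (h : ZFSet.pair t q ∈ σ) : ∃ p' ∈ g, ZFSet.pair p' p ∈ r ∧ Exq Q r σ t p' := by
  obtain ⟨z, hz, hz1, hz2⟩ := hg.dir p hp q hq
  exact ⟨z, hz, hz1, q, hg.sub q hq, hz2, h⟩

/-- failure of reflexivity or transitivity at `p` -/
private def Bad (Q r σ d : ZFSet.{0}) (M : Set ZFSet.{0}) (p : M) : Prop :=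
  (∃ ζ : M, ζ.1 ∈ d ∧ ¬ ∃ p2 : M, p2.1 ∈ Q ∧ ZFSet.pair p2.1 p.1 ∈ r ∧
    Exq Q r σ (tz ζ.1 ζ.1) p2.1) ∨
  ∃ a : M, a.1 ∈ d ∧ ∃ b : M, b.1 ∈ d ∧ ∃ c : M, c.1 ∈ d ∧ Exq Q r σ (tz a.1 b.1) p.1 ∧
    Exq Q r σ (tz b.1 c.1) p.1 ∧ ¬ ∃ p2 : M, p2.1 ∈ Q ∧ ZFSet.pair p2.1 p.1 ∈ r ∧
      Exq Q r σ (tz a.1 c.1) p2.1

private theorem dfc_tz (hM : ZModel M) {X : Type 1} [Ctx M X] {a b : X → M} (ha : DFc M a)
    (hb : DFc M b) : DFc M fun x => prM hM (a x) (prM hM (b x) (natM hM 0)) :=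
  DFc.pr hM ha (DFc.pr (g := fun _ => natM hM 0) hM hb (DFc.const _))

private theorem md_bad (hM : ZModel M) (hQ : Q ∈ M) (hr : r ∈ M) (hσ : σ ∈ M) {d : ZFSet.{0}}
    (hd : d ∈ M) : MD M fun p : M => Bad Q r σ d M p := by
  have key : ∀ {X : Type 1} [Ctx M X] {a b p : X → M}, DFc M a → DFc M b → DFc M p →
      MD M fun x => Exq Q r σ (tz (a x).1 (b x).1) (p x).1 := by
    intro X _ a b p ha hb hp
    exact md_exq (t := fun x => prM hM (a x) (prM hM (b x) (natM hM 0))) hM hQ hr hσ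
      (dfc_tz hM ha hb) hp
  have key2 : ∀ {X : Type 1} [Ctx M X] {a b p : X → M}, DFc M a → DFc M b → DFc M p →
      MD M fun x => ¬ ∃ p2 : M, p2.1 ∈ Q ∧ ZFSet.pair p2.1 (p x).1 ∈ r ∧
        Exq Q r σ (tz (a x).1 (b x).1) p2.1 := by
    intro X _ a b p ha hb hp
    refine MD.not (MD.ex (MD.and ?_ (MD.and ?_ ?_)))
    · exact MD.mem (g := fun _ => (⟨Q, hQ⟩ : M)) (DFc.snd DFc.id) (DFc.const _)
    · exact MD.pair_mem (h := fun _ => (⟨r, hr⟩ : M)) hM (DFc.snd DFc.id)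
        (DFc.comp hp (DFc.fst DFc.id)) (DFc.const _)
    · exact key (DFc.comp ha (DFc.fst DFc.id)) (DFc.comp hb (DFc.fst DFc.id))
        (DFc.snd DFc.id)
  have hdm : ∀ {X : Type 1} [Ctx M X] {a : X → M}, DFc M a → MD M fun x => (a x).1 ∈ d := by
    intro X _ a ha
    exact MD.mem (g := fun _ => (⟨d, hd⟩ : M)) ha (DFc.const _)
  unfold Bad
  refine MD.or (MD.ex (MD.and (hdm ?_) (key2 ?_ ?_ ?_)))
    (MD.ex (MD.and (hdm ?_) (MD.ex (MD.and (hdm ?_) (MD.ex (MD.and (hdm ?_)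
      (MD.and (key ?_ ?_ ?_) (MD.and (key ?_ ?_ ?_) (key2 ?_ ?_ ?_)))))))))
  all_goals
    repeat' first
      | exact DFc.id
      | apply DFc.fst
      | apply DFc.snd

theorem exists_preF (hM : ZModel M) (hQ : IsPoset M Q r) (hg : IsGeneric M Q r g) (hσ : σ ∈ M)
    {δ : Om} (hδ : toZ δ ∈ M) {le : Om → Om → Prop} (hr : ∀ a, le a a)
    (ht : ∀ a b c, le a b → le b c → le a c)
    (hle : ∀ a b, a < δ → b < δ → (le a b ↔ Named g σ a b default)) :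
    ∃ p ∈ g, PreF Q r σ (toZ δ) p := by
  have hbad := md_bad hM hQ.memQ hQ.memr hσ hδ
  have hMD : MD M fun p : M => Bad Q r σ (toZ δ) M p ∨
      ¬ ∃ z : M, z.1 ∈ Q ∧ ZFSet.pair z.1 p.1 ∈ r ∧ Bad Q r σ (toZ δ) M z := by
    refine MD.or hbad (MD.not (MD.ex (MD.and ?_ (MD.and ?_ ?_))))
    · exact MD.mem (g := fun _ => (⟨Q, hQ.memQ⟩ : M)) (DFc.snd DFc.id) (DFc.const _)
    · exact MD.pair_mem (h := fun _ => (⟨r, hQ.memr⟩ : M)) hM (DFc.snd DFc.id)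
        (DFc.fst DFc.id) (DFc.const _)
    · exact MD.comp (f := fun p : M × M => p.2) hbad (DFc.snd DFc.id)
  obtain ⟨p, hpg, hp⟩ := exists_dense_mem hM hQ.memQ hg hMD (by
    intro x hx
    by_cases hc : ∃ z : M, z.1 ∈ Q ∧ ZFSet.pair z.1 x.1 ∈ r ∧ Bad Q r σ (toZ δ) M z
    · obtain ⟨z, hz, hzx, hzb⟩ := hc
      exact ⟨z, hz, hzx, Or.inl hzb⟩
    · exact ⟨x, hx, hQ.refl x.1 hx, Or.inr hc⟩)
  have hpQ := hg.sub p.1 hpg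
  have hnb : ¬ Bad Q r σ (toZ δ) M p := by
    rintro (⟨ζ, hζ, hno⟩ | ⟨a, ha, b, hb, c, hc, hab, hbc, hno⟩)
    · obtain ⟨α, hα, hζα⟩ := mem_toZ.1 hζ
      obtain ⟨q, hq, hqσ⟩ := (hle α α hα hα).1 (hr α)
      obtain ⟨p', hp', hp'p, hex⟩ := exists_exq (σ := σ) hg hpg hq hqσ
      refine hno ⟨⟨p', hM.trans Q hQ.memQ p' (hg.sub p' hp')⟩, hg.sub p' hp', hp'p, ?_⟩
      rw [hζα]
      exact hex
    · obtain ⟨α, hα, haα⟩ := mem_toZ.1 ha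
      obtain ⟨β, hβ, hbβ⟩ := mem_toZ.1 hb
      obtain ⟨γ, hγ, hcγ⟩ := mem_toZ.1 hc
      rw [haα, hbβ] at hab
      rw [hbβ, hcγ] at hbc
      have h1 : le α β := (hle α β hα hβ).2 (Exq.true hg hab hpg)
      have h2 : le β γ := (hle β γ hβ hγ).2 (Exq.true hg hbc hpg)
      obtain ⟨q, hq, hqσ⟩ := (hle α γ hα hγ).1 (ht α β γ h1 h2)
      obtain ⟨p', hp', hp'p, hex⟩ := exists_exq (σ := σ) hg hpg hq hqσ
      refine hno ⟨⟨p', hM.trans Q hQ.memQ p' (hg.sub p' hp')⟩, hg.sub p' hp', hp'p, ?_⟩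
      rw [haα, hcγ]
      exact hex
  have hp2 := hp.resolve_left hnb
  refine ⟨p.1, hpg, hpQ, ?_, ?_⟩
  · intro ζ hζ p1 hp1 h1
    by_contra hno
    refine hp2 ⟨⟨p1, hM.trans Q hQ.memQ p1 hp1⟩, hp1, h1, Or.inl
      ⟨⟨ζ, hM.trans _ hδ ζ hζ⟩, hζ, ?_⟩⟩
    rintro ⟨p2, h2⟩
    exact hno ⟨p2.1, h2⟩
  · intro a ha b hb c hc p1 hp1 h1 hab hbc
    by_contra hno
    refine hp2 ⟨⟨p1, hM.trans Q hQ.memQ p1 hp1⟩, hp1, h1, Or.inr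
      ⟨⟨a, hM.trans _ hδ a ha⟩, ha, ⟨b, hM.trans _ hδ b hb⟩, hb,
        ⟨c, hM.trans _ hδ c hc⟩, hc, hab, hbc, ?_⟩⟩
    rintro ⟨p2, h2⟩
    exact hno ⟨p2.1, h2⟩

theorem exists_iter (hM : ZModel M) (hQ : IsPoset M Q r) (hσ : σ ∈ M) {d p₀ : ZFSet.{0}}
    (hd : d ∈ M) (hp : p₀ ∈ Q) : ∃ Qs rs, Iter M Q r σ d p₀ Qs rs := by
  have hpM := hM.trans Q hQ.memQ p₀ hp
  have hmem : ∀ {p ζ : ZFSet.{0}}, p ∈ Q → ζ ∈ d → p ∈ M ∧ ζ ∈ M := fun h1 h2 =>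
    ⟨hM.trans Q hQ.memQ _ h1, hM.trans d hd _ h2⟩
  obtain ⟨Qs, hQs⟩ := exists_sep hM (P := fun z : M => ∃ p ζ : M, z.1 = ZFSet.pair p.1 ζ.1 ∧
      ZFSet.pair p.1 p₀ ∈ r) (by
    refine MD.ex (MD.ex (MD.and ?_ ?_))
    · refine MD.eq_pair hM ?_ ?_ ?_
      all_goals
        repeat' first
          | exact DFc.id
          | apply DFc.fst
          | apply DFc.snd
    · exact MD.pair_mem (g := fun _ => (⟨p₀, hpM⟩ : M)) (h := fun _ => (⟨r, hQ.memr⟩ : M)) hM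
        (DFc.snd (DFc.fst DFc.id)) (DFc.const _) (DFc.const _))
    (prodM hM ⟨Q, hQ.memQ⟩ ⟨d, hd⟩)
  have hQs' : ∀ z : ZFSet.{0}, z ∈ Qs.1 ↔ ∃ p ζ, z = ZFSet.pair p ζ ∧ p ∈ Q ∧
      ZFSet.pair p p₀ ∈ r ∧ ζ ∈ d := by
    intro z
    constructor
    · intro hz
      have hzM := hM.trans _ Qs.2 z hz
      obtain ⟨h1, p, ζ, h2, h3⟩ := (hQs ⟨z, hzM⟩).1 hz
      have h4 : z ∈ Q.prod d := h1
      have h5 : z = ZFSet.pair p.1 ζ.1 := h2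
      rw [h5, ZFSet.pair_mem_prod] at h4
      exact ⟨p.1, ζ.1, h5, h4.1, h3, h4.2⟩
    · rintro ⟨p, ζ, rfl, hpQ, hpp, hζ⟩
      obtain ⟨h1, h2⟩ := hmem hpQ hζ
      refine (hQs ⟨ZFSet.pair p ζ, hM.pairZ h1 h2⟩).2 ⟨?_, ⟨p, h1⟩, ⟨ζ, h2⟩, rfl, hpp⟩
      show ZFSet.pair p ζ ∈ Q.prod d
      rw [ZFSet.pair_mem_prod]
      exact ⟨hpQ, hζ⟩
  obtain ⟨rs, hrs⟩ := exists_sep hM (P := fun z : M => ∃ p' ζ' p ζ : M,
      z.1 = ZFSet.pair (prM hM p' ζ').1 (prM hM p ζ).1 ∧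
      ZFSet.pair p'.1 p.1 ∈ r ∧
      Fq Q r σ (prM hM ζ' (prM hM ζ (natM hM 0))).1 p'.1) (by
    refine MD.ex (MD.ex (MD.ex (MD.ex (MD.and ?_ (MD.and ?_ ?_)))))
    · refine MD.eq_pair hM ?_ (DFc.pr hM ?_ ?_) (DFc.pr hM ?_ ?_)
      all_goals
        repeat' first
          | exact DFc.id
          | apply DFc.fst
          | apply DFc.snd
    · refine MD.pair_mem (h := fun _ => (⟨r, hQ.memr⟩ : M)) hM ?_ ?_ (DFc.const _)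
      all_goals
        repeat' first
          | exact DFc.id
          | apply DFc.fst
          | apply DFc.snd
    · refine md_fq hM hQ.memQ hQ.memr hσ (dfc_tz hM ?_ ?_) ?_
      all_goals
        repeat' first
          | exact DFc.id
          | apply DFc.fst
          | apply DFc.snd)
    (prodM hM Qs Qs)
  refine ⟨Qs.1, rs.1, Qs.2, rs.2, ?_, ?_, ?_, ?_⟩
  · intro w hw
    obtain ⟨p, ζ, h, -⟩ := (hQs' w).1 hw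
    exact ⟨p, ζ, h⟩
  · intro p ζ
    rw [hQs']
    constructor
    · rintro ⟨p1, ζ1, h, h1, h2, h3⟩
      obtain ⟨rfl, rfl⟩ := ZFSet.pair_inj.1 h
      exact ⟨h1, h2, h3⟩
    · rintro ⟨h1, h2, h3⟩
      exact ⟨p, ζ, rfl, h1, h2, h3⟩
  · intro z hz
    have hzM := hM.trans _ rs.2 z hz
    have h1 : z ∈ Qs.1.prod Qs.1 := ((hrs ⟨z, hzM⟩).1 hz).1
    obtain ⟨w', hw', w, hw, rfl⟩ := ZFSet.mem_prod.1 h1
    exact ⟨w', hw', w, hw, rfl⟩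
  · intro p' ζ' p ζ hw' hw
    obtain ⟨a, b, h, ha, -, hb⟩ := (hQs' _).1 hw'
    obtain ⟨rfl, rfl⟩ := ZFSet.pair_inj.1 h
    obtain ⟨a, b, h, ha', -, hb'⟩ := (hQs' _).1 hw
    obtain ⟨rfl, rfl⟩ := ZFSet.pair_inj.1 h
    obtain ⟨m1, m2⟩ := hmem ha hb
    obtain ⟨m3, m4⟩ := hmem ha' hb'
    constructor
    · intro hz
      have hzM := hM.trans _ rs.2 _ hz
      obtain ⟨-, a1, b1, a2, b2, h1, h2, h3⟩ := (hrs ⟨_, hzM⟩).1 hz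
      have h4 : ZFSet.pair (ZFSet.pair p' ζ') (ZFSet.pair p ζ) =
        ZFSet.pair (ZFSet.pair a1.1 b1.1) (ZFSet.pair a2.1 b2.1) := h1
      obtain ⟨h5, h6⟩ := ZFSet.pair_inj.1 h4
      obtain ⟨e1, e2⟩ := ZFSet.pair_inj.1 h5
      obtain ⟨e3, e4⟩ := ZFSet.pair_inj.1 h6
      rw [e1, e2, e3, e4]
      exact ⟨h2, h3⟩
    · rintro ⟨h1, h2⟩
      refine (hrs ⟨ZFSet.pair (ZFSet.pair p' ζ') (ZFSet.pair p ζ),
        hM.pairZ (hM.pairZ m1 m2) (hM.pairZ m3 m4)⟩).2 ⟨?_, ⟨p', m1⟩, ⟨ζ', m2⟩, ⟨p, m3⟩,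
          ⟨ζ, m4⟩, rfl, h1, h2⟩
      show ZFSet.pair (ZFSet.pair p' ζ') (ZFSet.pair p ζ) ∈ Qs.1.prod Qs.1
      rw [ZFSet.pair_mem_prod]
      exact ⟨hw', hw⟩

theorem Iter.isPoset (hQ : IsPoset M Q r) {d p₀ Qs rs : ZFSet.{0}} (hp : PreF Q r σ d p₀)
    (hd : ∃ ζ, ζ ∈ d) (h : Iter M Q r σ d p₀ Qs rs) : IsPoset M Qs rs := by
  refine ⟨h.memQ, h.memr, ?_, ?_, ?_⟩
  · obtain ⟨ζ, hζ⟩ := hd
    exact ⟨ZFSet.pair p₀ ζ, (h.mem p₀ ζ).2 ⟨hp.mem, hQ.refl p₀ hp.mem, hζ⟩⟩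
  · intro x hx
    obtain ⟨p, ζ, rfl⟩ := h.sub x hx
    obtain ⟨h1, h2, h3⟩ := (h.mem p ζ).1 hx
    refine (h.rel p ζ p ζ hx hx).2 ⟨hQ.refl p h1, ?_⟩
    intro p1 hp1 h4
    exact hp.refl ζ h3 p1 hp1 (hQ.trans p1 hp1 p h1 p₀ hp.mem h4 h2)
  · intro x hx y hy z hz hxy hyz
    obtain ⟨p'', ζ'', rfl⟩ := h.sub x hx
    obtain ⟨p', ζ', rfl⟩ := h.sub y hy
    obtain ⟨p, ζ, rfl⟩ := h.sub z hz
    obtain ⟨a1, a2, a3⟩ := (h.mem p'' ζ'').1 hx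
    obtain ⟨b1, b2, b3⟩ := (h.mem p' ζ').1 hy
    obtain ⟨c1, c2, c3⟩ := (h.mem p ζ).1 hz
    obtain ⟨h1, h2⟩ := (h.rel _ _ _ _ hx hy).1 hxy
    obtain ⟨h3, h4⟩ := (h.rel _ _ _ _ hy hz).1 hyz
    refine (h.rel _ _ _ _ hx hz).2 ⟨hQ.trans _ a1 _ b1 _ c1 h1 h3, ?_⟩
    intro p1 hp1 h5
    obtain ⟨p2, hp2, h6, h7⟩ := h2 p1 hp1 h5
    have h8 : ZFSet.pair p2 p'' ∈ r := hQ.trans _ hp2 _ hp1 _ a1 h6 h5
    have h9 : ZFSet.pair p2 p' ∈ r := hQ.trans _ hp2 _ a1 _ b1 h8 h1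
    obtain ⟨p3, hp3, h10, h11⟩ := h4 p2 hp2 h9
    have h12 := Exq.down hQ h7 hp2 hp3 h10
    have h13 : ZFSet.pair p3 p₀ ∈ r :=
      hQ.trans _ hp3 _ a1 _ hp.mem (hQ.trans _ hp3 _ hp2 _ a1 h10 h8) a2
    obtain ⟨p4, hp4, h14, h15⟩ := hp.trans ζ'' a3 ζ' b3 ζ c3 p3 hp3 h13 h12 h11
    exact ⟨p4, hp4, hQ.trans _ hp4 _ hp2 _ hp1 (hQ.trans _ hp4 _ hp3 _ hp2 h14 h10) h6, h15⟩

end RMK
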