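import Pool.Agent.RMK.GItA

/-!
RMK GITB: generic filters on the iteration, and names.

Setting: `M`, `(Q, r)`, `g`, `σ`, `δ`, `le` as in `exists_preF` (`GItA`), `p₀ ∈ g` with `PreF`, `Iter` data `Qs, rs`
for `d = toZ δ`.  `S` is a set of ordinals `< δ` which is nonempty, upward closed and directed for `le` below
`δ`, and meets all named sets that are dense (hypothesis `hm`).

PROOFS.
`iter_generic`: `G = Gst Q r p₀ g S`.  `sub`: `g ⊆ Q` and `mem`.  `ne`: `p₀ ∈ g` (reflexivity).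
`up`: let `(p, ζ) ∈ G`, `(p, ζ) ≤ (p', ζ')` in `Qs`: `p ≤ p'`, so `p' ∈ g`; `p' ≤ p₀`; `ζ' = toZ ξ`, `Fq (tz ζ ζ') p` and `p ∈
g` give `Named g σ ζ ξ default` (`Fq.true`), so `le ζ ξ` and `ξ ∈ S`.
`dir`: given `(p, ζ), (p', ζ') ∈ G`, directedness of `S` gives `ξ ∈ S` with `le ξ ζ`, `le ξ ζ'`; so there are `q, q' ∈ g`
with `pair (tz ξ ζ) q ∈ σ`, `pair (tz ξ ζ') q' ∈ σ`; by `exists_exq` twice (and directedness of `g`, `Exq.down`) there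
is `p'' ∈ g` below `p`, `p'` with both `Exq`, hence `Fq` (`Exq.fq`).
`meets`: let `D ∈ M`, `D ⊆ Qs` be dense.  `τ = {(trip ζ 0 0, p) | (p, ζ) ∈ D}` is in `M` (`exists_sep` in
`prodM (prodM d (prodM ω ω)) Q`, predicate `∃ ζ p : M, z = pair (trip ζ 0 0) p ∧ pair p ζ ∈ D`); so
`Named g τ ζ default default ↔ ∃ p ∈ g, (p, ζ) ∈ D`.  The hypothesis of `hm` holds: for `ξ < δ` the predicate on
`p`: `(∃ ζ ∈ d, (p, ζ) ∈ D ∧ Fq (tz ζ ξ) p)` or `p` incompatible with `p₀` is dense: given `p ∈ Q` compatible with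
`p₀`, let `p1 ≤ p, p₀`, `(p1, ξ) ∈ Qs`, and `(p2, ζ) ∈ D` below it.  So some `p ∈ g` satisfies it, and it is compatible
with `p₀`, which gives `ζ` with `Named g τ ζ default default` and `le ζ ξ` (`Fq.true`).  So there is `ζ ∈ S` with
`(p, ζ) ∈ D` for some `p ∈ g`; as `D ⊆ Qs`, `p ≤ p₀`.
`iter_name1`: `σ' = {(t, (p, ζ)) ∈ om3 × Qs | ∃ n : M, t = trip n 0 0 ∧ Exq Q r τ (tz n ζ) p}`.  If `(p, ζ) ∈ G` and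
`Exq (tz k ζ) p` then `Named g τ (nOm k) ζ default` (`Exq.true`); conversely use `exists_exq` for `p₀`.
`iter_name3`: `σ' = {(t, (p, ζ)) ∈ om3 × Qs | Exq Q r τ t p}`.
-/

namespace RMK

open Set PU

variable {M : Set ZFSet.{0}} {Q r σ p₀ Qs rs : ZFSet.{0}} {g : Set ZFSet.{0}} {δ : Om}
  {le : Om → Om → Prop} {S : Set Om}

private theorem wkg {X Y : Type 1} [Ctx M X] [Ctx M Y] {f : X → Y} (h : DFc M f) :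
    DFc M fun p : X × M => f p.1 := h.comp (DFc.fst DFc.id)

private theorem lvg {X : Type 1} [Ctx M X] : DFc M fun p : X × M => p.2 := DFc.snd DFc.id

private theorem trg (hM : ZModel M) {a b : ZFSet.{0}} (ha : a ∈ M) (hb : b ∈ a) : b ∈ M :=
  hM.trans a ha b hb

private theorem md_exq (hM : ZModel M) {X : Type 1} [Ctx M X] {t p : X → M} (ht : DFc M t)
    (hp : DFc M p) (Q r σ : M) : MD M fun x => Exq Q.1 r.1 σ.1 (t x).1 (p x).1 := by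
  refine MD.congr (P := fun x => ∃ q : M, q.1 ∈ Q.1 ∧ ZFSet.pair (p x).1 q.1 ∈ r.1 ∧
    ZFSet.pair (t x).1 q.1 ∈ σ.1) ?_ ?_
  · intro x
    constructor
    · rintro ⟨q, h1, h2, h3⟩
      exact ⟨q.1, h1, h2, h3⟩
    · rintro ⟨q, h1, h2, h3⟩
      exact ⟨⟨q, trg hM Q.2 h1⟩, h1, h2, h3⟩
  · exact MD.ex (MD.and (MD.mem lvg (DFc.const _)) (MD.and (MD.pair_mem hM (wkg hp) lvg (DFc.const _))
      (MD.pair_mem hM (wkg ht) lvg (DFc.const _))))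

private theorem md_fq (hM : ZModel M) {X : Type 1} [Ctx M X] {t p : X → M} (ht : DFc M t)
    (hp : DFc M p) (Q r σ : M) : MD M fun x => Fq Q.1 r.1 σ.1 (t x).1 (p x).1 := by
  refine MD.congr (P := fun x => ∀ p1 : M, p1.1 ∈ Q.1 → ZFSet.pair p1.1 (p x).1 ∈ r.1 →
    ∃ p2 : M, p2.1 ∈ Q.1 ∧ ZFSet.pair p2.1 p1.1 ∈ r.1 ∧ Exq Q.1 r.1 σ.1 (t x).1 p2.1) ?_ ?_
  · intro x
    constructor
    · intro h p1 h1 h2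
      obtain ⟨p2, h3, h4, h5⟩ := h ⟨p1, trg hM Q.2 h1⟩ h1 h2
      exact ⟨p2.1, h3, h4, h5⟩
    · intro h p1 h1 h2
      obtain ⟨p2, h3, h4, h5⟩ := h p1.1 h1 h2
      exact ⟨⟨p2, trg hM Q.2 h3⟩, h3, h4, h5⟩
  · exact MD.all (MD.imp (MD.mem lvg (DFc.const _)) (MD.imp
      (MD.pair_mem hM lvg (wkg hp) (DFc.const _)) (MD.ex (MD.and (MD.mem lvg (DFc.const _))
      (MD.and (MD.pair_mem hM lvg (wkg lvg) (DFc.const _)) (md_exq hM (wkg (wkg ht)) lvg Q r σ))))))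

/-- the code of a pair in `M` -/
private noncomputable def tzM (hM : ZModel M) (a b : M) : M :=
  prM hM a (prM hM b (natM hM 0))

private theorem dfc_tz (hM : ZModel M) {X : Type 1} [Ctx M X] {a b : X → M} (ha : DFc M a)
    (hb : DFc M b) : DFc M fun x => tzM hM (a x) (b x) :=
  DFc.pr hM ha (DFc.pr hM hb (DFc.const _))

private theorem tup_tz (ζ ξ : Om) : tup ζ ξ default = tz (toZ ζ) (toZ ξ) := by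
  unfold tz trip
  rw [← toZ_default]
  rfl

private theorem toZ_mem (hM : ZModel M) (hδ : toZ δ ∈ M) {ζ : Om} (h : ζ < δ) : toZ ζ ∈ M :=
  trg hM hδ (mem_toZ.2 ⟨ζ, h, rfl⟩)

theorem iter_generic (hM : ZModel M) (hQ : IsPoset M Q r) (hg : IsGeneric M Q r g)
    (hσ : σ ∈ M) (hδ : toZ δ ∈ M)
    (hle : ∀ a b, a < δ → b < δ → (le a b ↔ Named g σ a b default)) (hp₀ : p₀ ∈ g)
    (hI : Iter M Q r σ (toZ δ) p₀ Qs rs) (hS : ∀ ζ ∈ S, ζ < δ) (hne : S.Nonempty)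
    (hup : ∀ ζ ∈ S, ∀ ξ, ξ < δ → le ζ ξ → ξ ∈ S)
    (hdir : ∀ ζ ∈ S, ∀ ξ ∈ S, ∃ η ∈ S, le η ζ ∧ le η ξ)
    (hm : ∀ τ ∈ M, (∀ ξ, ξ < δ → ∃ ζ, ζ < δ ∧ Named g τ ζ default default ∧ le ζ ξ) →
      ∃ ζ ∈ S, Named g τ ζ default default) :
    IsGeneric M Qs rs (Gst Q r p₀ g S) := by
  have hp₀Q : p₀ ∈ Q := hg.sub _ hp₀
  have htz : ∀ ζ ξ, ζ < δ → ξ < δ → tz (toZ ζ) (toZ ξ) ∈ M := fun ζ ξ h1 h2 =>
    (tzM hM ⟨toZ ζ, toZ_mem hM hδ h1⟩ ⟨toZ ξ, toZ_mem hM hδ h2⟩).2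
  have hmem : ∀ p ∈ g, ZFSet.pair p p₀ ∈ r → ∀ ζ ∈ S, ZFSet.pair p (toZ ζ) ∈ Qs :=
    fun p hp h1 ζ hζ => (hI.mem _ _).2 ⟨hg.sub p hp, h1, mem_toZ.2 ⟨ζ, hS ζ hζ, rfl⟩⟩
  refine ⟨?_, ?_, ?_, ?_, ?_⟩
  · rintro x ⟨p, hp, h1, ζ, hζ, rfl⟩
    exact hmem p hp h1 ζ hζ
  · obtain ⟨ζ, hζ⟩ := hne
    exact ⟨_, p₀, hp₀, hQ.refl p₀ hp₀Q, ζ, hζ, rfl⟩
  · rintro x ⟨p, hp, h1, ζ, hζ, rfl⟩ y hy hxy
    obtain ⟨p', z', rfl⟩ := hI.sub y hy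
    obtain ⟨h2, h3, h4⟩ := (hI.mem _ _).1 hy
    obtain ⟨ξ, hξ, rfl⟩ := mem_toZ.1 h4
    obtain ⟨h5, h6⟩ := (hI.rel _ _ _ _ (hmem p hp h1 ζ hζ) hy).1 hxy
    obtain ⟨q, hq, h7⟩ := h6.true hM hQ hg hσ (htz ζ ξ (hS ζ hζ) hξ) hp
    rw [← tup_tz] at h7
    have h8 : le ζ ξ := (hle ζ ξ (hS ζ hζ) hξ).2 ⟨q, hq, h7⟩
    exact ⟨p', hg.up p hp p' h2 h5, h3, ξ, hup ζ hζ ξ hξ h8, rfl⟩
  · rintro x ⟨p, hp, h1, ζ, hζ, rfl⟩ y ⟨p', hp', h1', ζ', hζ', rfl⟩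
    obtain ⟨η, hη, h2, h2'⟩ := hdir ζ hζ ζ' hζ'
    obtain ⟨q, hq, h3⟩ := (hle η ζ (hS η hη) (hS ζ hζ)).1 h2
    obtain ⟨q', hq', h3'⟩ := (hle η ζ' (hS η hη) (hS ζ' hζ')).1 h2'
    rw [tup_tz] at h3 h3'
    obtain ⟨a, ha, h4, h5⟩ := exists_exq hg hp hq h3
    obtain ⟨a', ha', h4', h5'⟩ := exists_exq hg hp' hq' h3'
    obtain ⟨c, hc, h6, h6'⟩ := hg.dir a ha a' ha'
    have hcQ := hg.sub c hc
    have hcp : ZFSet.pair c p ∈ r := hQ.trans c hcQ a (hg.sub a ha) p (hg.sub p hp) h6 h4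
    have hcp' : ZFSet.pair c p' ∈ r := hQ.trans c hcQ a' (hg.sub a' ha') p' (hg.sub p' hp') h6' h4'
    have hcp₀ : ZFSet.pair c p₀ ∈ r := hQ.trans c hcQ p (hg.sub p hp) p₀ hp₀Q hcp h1
    have h7 : Fq Q r σ (tz (toZ η) (toZ ζ)) c :=
      (h5.down hQ (hg.sub a ha) hcQ h6).fq hQ hcQ
    have h7' : Fq Q r σ (tz (toZ η) (toZ ζ')) c :=
      (h5'.down hQ (hg.sub a' ha') hcQ h6').fq hQ hcQ
    refine ⟨ZFSet.pair c (toZ η), ⟨c, hc, hcp₀, η, hη, rfl⟩, ?_, ?_⟩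
    · exact (hI.rel _ _ _ _ (hmem c hc hcp₀ η hη) (hmem p hp h1 ζ hζ)).2 ⟨hcp, h7⟩
    · exact (hI.rel _ _ _ _ (hmem c hc hcp₀ η hη) (hmem p' hp' h1' ζ' hζ')).2 ⟨hcp', h7'⟩
  · intro D hD hDQ hDd
    obtain ⟨τ, hτ⟩ := exists_sep hM (P := fun z : M => ∃ ζ p : M,
        z.1 = ZFSet.pair (prM hM ζ (prM hM (natM hM 0) (natM hM 0))).1 p.1 ∧
          ZFSet.pair p.1 ζ.1 ∈ (⟨D, hD⟩ : M).1)
      (MD.ex (MD.ex (MD.and (MD.eq_pair hM (wkg (wkg DFc.id))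
        (DFc.pr hM (wkg lvg) (DFc.const _)) lvg) (MD.pair_mem hM lvg (wkg lvg) (DFc.const _)))))
      (prodM hM (prodM hM ⟨toZ δ, hδ⟩ (prodM hM ⟨omZ, hM.om⟩ ⟨omZ, hM.om⟩)) ⟨Q, hQ.memQ⟩)
    have hτ' : ∀ ζ, ζ < δ → (Named g τ.1 ζ default default ↔ ∃ p ∈ g, ZFSet.pair p (toZ ζ) ∈ D) := by
      intro ζ hζ
      have e0 : tup ζ default default = ZFSet.pair (toZ ζ) (ZFSet.pair (natZ 0) (natZ 0)) := by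
        rw [← toZ_default]
        rfl
      constructor
      · rintro ⟨p, hp, h1⟩
        rw [e0] at h1
        obtain ⟨h2, ζ1, p1, e, h3⟩ := (hτ ⟨_, trg hM τ.2 h1⟩).1 h1
        obtain ⟨e1, e2⟩ := ZFSet.pair_inj.1 e
        obtain ⟨e3, -⟩ := ZFSet.pair_inj.1 e1
        refine ⟨p, hp, ?_⟩
        have e2' : p = p1.1 := e2
        have e3' : toZ ζ = ζ1.1 := e3
        rw [e2', e3']
        exact h3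
      · rintro ⟨p, hp, h1⟩
        have hpM : p ∈ M := trg hM hQ.memQ (hg.sub p hp)
        have hζM : toZ ζ ∈ M := toZ_mem hM hδ hζ
        refine ⟨p, hp, ?_⟩
        rw [e0]
        refine (hτ (prM hM (prM hM ⟨toZ ζ, hζM⟩ (prM hM (natM hM 0) (natM hM 0))) ⟨p, hpM⟩)).2
          ⟨?_, ⟨toZ ζ, hζM⟩, ⟨p, hpM⟩, rfl, h1⟩
        exact ZFSet.pair_mem_prod.2 ⟨ZFSet.pair_mem_prod.2 ⟨mem_toZ.2 ⟨ζ, hζ, rfl⟩,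
          ZFSet.pair_mem_prod.2 ⟨natZ_mem_omZ 0, natZ_mem_omZ 0⟩⟩, hg.sub p hp⟩
    have hprem : ∀ ξ, ξ < δ → ∃ ζ, ζ < δ ∧ Named g τ.1 ζ default default ∧ le ζ ξ := by
      intro ξ hξ
      have hξM : toZ ξ ∈ M := toZ_mem hM hδ hξ
      have hp₀M : p₀ ∈ M := trg hM hQ.memQ hp₀Q
      obtain ⟨y, hyg, hy⟩ := exists_dense_mem hM hQ.memQ hg
        (P := fun y : M => (∃ ζ : M, ζ.1 ∈ (⟨toZ δ, hδ⟩ : M).1 ∧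
            ZFSet.pair y.1 ζ.1 ∈ (⟨D, hD⟩ : M).1 ∧
            Fq (⟨Q, hQ.memQ⟩ : M).1 (⟨r, hQ.memr⟩ : M).1 (⟨σ, hσ⟩ : M).1
              (tzM hM ζ ⟨toZ ξ, hξM⟩).1 y.1) ∨
          ¬ ∃ z : M, z.1 ∈ (⟨Q, hQ.memQ⟩ : M).1 ∧ ZFSet.pair z.1 y.1 ∈ (⟨r, hQ.memr⟩ : M).1 ∧
            ZFSet.pair z.1 (⟨p₀, hp₀M⟩ : M).1 ∈ (⟨r, hQ.memr⟩ : M).1)
        (MD.or (MD.ex (MD.and (MD.mem lvg (DFc.const _))
            (MD.and (MD.pair_mem hM (wkg DFc.id) lvg (DFc.const _))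
              (md_fq hM (dfc_tz hM lvg (DFc.const _)) (wkg DFc.id) _ _ _))))
          (MD.not (MD.ex (MD.and (MD.mem lvg (DFc.const _))
            (MD.and (MD.pair_mem hM lvg (wkg DFc.id) (DFc.const _))
              (MD.pair_mem hM lvg (DFc.const _) (DFc.const _))))))) (by
          intro x hx
          by_cases hc : ∃ z : M, z.1 ∈ Q ∧ ZFSet.pair z.1 x.1 ∈ r ∧ ZFSet.pair z.1 p₀ ∈ r
          · obtain ⟨z, hzQ, hzx, hzp⟩ := hc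
            have h1 : ZFSet.pair z.1 (toZ ξ) ∈ Qs := (hI.mem _ _).2 ⟨hzQ, hzp, mem_toZ.2 ⟨ξ, hξ, rfl⟩⟩
            obtain ⟨w', hw'D, hw'⟩ := hDd _ h1
            obtain ⟨p2, ζ, rfl⟩ := hI.sub w' (hDQ hw'D)
            obtain ⟨h2, h3, h4⟩ := (hI.mem _ _).1 (hDQ hw'D)
            obtain ⟨h5, h6⟩ := (hI.rel _ _ _ _ (hDQ hw'D) h1).1 hw'
            refine ⟨⟨p2, trg hM hQ.memQ h2⟩, h2, hQ.trans p2 h2 z.1 hzQ x.1 hx h5 hzx, Or.inl ?_⟩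
            exact ⟨⟨ζ, trg hM hδ h4⟩, h4, hw'D, h6⟩
          · exact ⟨x, hx, hQ.refl x.1 hx, Or.inr hc⟩)
      rcases hy with ⟨ζ, h1, h2, h3⟩ | hy
      · obtain ⟨α, hα, e⟩ := mem_toZ.1 h1
        have h2' : ZFSet.pair y.1 (toZ α) ∈ D := by rw [← e]; exact h2
        have h3' : Fq Q r σ (tz (toZ α) (toZ ξ)) y.1 := by rw [← e]; exact h3
        obtain ⟨q, hq, h4⟩ := h3'.true hM hQ hg hσ (htz α ξ hα hξ) hyg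
        rw [← tup_tz] at h4
        exact ⟨α, hα, (hτ' α hα).2 ⟨y.1, hyg, h2'⟩, (hle α ξ hα hξ).2 ⟨q, hq, h4⟩⟩
      · obtain ⟨z, hzg, h1, h2⟩ := hg.dir y.1 hyg p₀ hp₀
        exact absurd ⟨⟨z, trg hM hQ.memQ (hg.sub z hzg)⟩, hg.sub z hzg, h1, h2⟩ hy
    obtain ⟨ζ, hζ, h1⟩ := hm τ.1 τ.2 hprem
    obtain ⟨p, hp, h2⟩ := (hτ' ζ (hS ζ hζ)).1 h1
    exact ⟨ZFSet.pair p (toZ ζ), ⟨p, hp, ((hI.mem _ _).1 (hDQ h2)).2.1, ζ, hζ, rfl⟩, h2⟩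

private theorem exists_nm (hM : ZModel M) (Qs : M) {E : M → M → M → Prop}
    (hE : MD M fun x : (M × M) × M => E x.1.1 x.1.2 x.2) :
    ∃ σ' : M, ∀ t p ζ : M, t.1 ∈ om3 → ZFSet.pair p.1 ζ.1 ∈ Qs.1 →
      (ZFSet.pair t.1 (ZFSet.pair p.1 ζ.1) ∈ σ'.1 ↔ E t p ζ) := by
  obtain ⟨σ', hσ'⟩ := exists_sep hM (P := fun z : M => ∃ t p ζ : M,
      z.1 = ZFSet.pair t.1 (prM hM p ζ).1 ∧ E t p ζ)
    (MD.ex (MD.ex (MD.ex (MD.and (MD.eq_pair hM (wkg (wkg (wkg DFc.id))) (wkg (wkg lvg))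
      (DFc.pr hM (wkg lvg) lvg)) (MD.comp hE (DFc.mk (DFc.mk (wkg (wkg lvg)) (wkg lvg)) lvg))))))
    (prodM hM ⟨om3, hM.om3_mem⟩ Qs)
  refine ⟨σ', fun t p ζ h1 h2 => ?_⟩
  have h3 := hσ' (prM hM t (prM hM p ζ))
  constructor
  · intro h
    obtain ⟨-, t1, p1, ζ1, e, h4⟩ := h3.1 h
    obtain ⟨e1, e2⟩ := ZFSet.pair_inj.1 e
    obtain ⟨e3, e4⟩ := ZFSet.pair_inj.1 e2
    have e1' : t = t1 := Subtype.ext e1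
    have e3' : p = p1 := Subtype.ext e3
    have e4' : ζ = ζ1 := Subtype.ext e4
    rw [e1', e3', e4']
    exact h4
  · intro h
    exact h3.2 ⟨ZFSet.pair_mem_prod.2 ⟨h1, h2⟩, t, p, ζ, rfl, h⟩

theorem iter_name1 (hM : ZModel M) (hQ : IsPoset M Q r) (hg : IsGeneric M Q r g)
    (hδ : toZ δ ∈ M) (hp₀ : p₀ ∈ g) (hI : Iter M Q r σ (toZ δ) p₀ Qs rs) {τ : ZFSet.{0}}
    (hτ : τ ∈ M) :
    ∃ σ' ∈ M, ∀ S : Set Om, (∀ ζ ∈ S, ζ < δ) → ∀ k, (evR σ' (Gst Q r p₀ g S) k 0 0 ↔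
      ∃ ζ ∈ S, Named g τ (nOm k) ζ default) := by
  obtain ⟨σ', hσ'⟩ := exists_nm hM ⟨Qs, hI.memQ⟩
    (E := fun t p ζ => ∃ n : M, t.1 = ZFSet.pair n.1 (prM hM (natM hM 0) (natM hM 0)).1 ∧
      Exq (⟨Q, hQ.memQ⟩ : M).1 (⟨r, hQ.memr⟩ : M).1 (⟨τ, hτ⟩ : M).1 (tzM hM n ζ).1 p.1)
    (MD.ex (MD.and (MD.eq_pair hM (wkg (DFc.fst (DFc.fst DFc.id))) lvg (DFc.const _))
      (md_exq hM (dfc_tz hM lvg (wkg (DFc.snd DFc.id))) (wkg (DFc.snd (DFc.fst DFc.id))) _ _ _)))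
  refine ⟨σ'.1, σ'.2, fun S hS k => ?_⟩
  have key : ∀ p ∈ g, ZFSet.pair p p₀ ∈ r → ∀ ζ ∈ S,
      (ZFSet.pair (nat3 k 0 0) (ZFSet.pair p (toZ ζ)) ∈ σ'.1 ↔
        Exq Q r τ (tz (natZ k) (toZ ζ)) p) := by
    intro p hp h1 ζ hζ
    have hpM : p ∈ M := trg hM hQ.memQ (hg.sub p hp)
    have hζM : toZ ζ ∈ M := toZ_mem hM hδ (hS ζ hζ)
    have h2 := hσ' ⟨nat3 k 0 0, hM.nat3_mem k 0 0⟩ ⟨p, hpM⟩ ⟨toZ ζ, hζM⟩ (mem_om3.2 ⟨k, 0, 0, rfl⟩)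
      ((hI.mem _ _).2 ⟨hg.sub p hp, h1, mem_toZ.2 ⟨ζ, hS ζ hζ, rfl⟩⟩)
    refine h2.trans ?_
    constructor
    · rintro ⟨n, e, h3⟩
      obtain ⟨e1, -⟩ := ZFSet.pair_inj.1 e
      have e1' : natZ k = n.1 := e1
      rw [e1']
      exact h3
    · intro h3
      exact ⟨natM hM k, rfl, h3⟩
  constructor
  · rintro ⟨w, ⟨p, hp, h1, ζ, hζ, rfl⟩, h2⟩
    obtain ⟨q, hq, h3⟩ := ((key p hp h1 ζ hζ).1 h2).true hg hp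
    refine ⟨ζ, hζ, q, hq, ?_⟩
    rw [tup_tz]
    exact h3
  · rintro ⟨ζ, hζ, q, hq, h3⟩
    rw [tup_tz] at h3
    obtain ⟨p, hp, h1, h4⟩ := exists_exq hg hp₀ hq h3
    exact ⟨_, ⟨p, hp, h1, ζ, hζ, rfl⟩, (key p hp h1 ζ hζ).2 h4⟩

theorem iter_name3 (hM : ZModel M) (hQ : IsPoset M Q r) (hg : IsGeneric M Q r g)
    (hδ : toZ δ ∈ M) (hp₀ : p₀ ∈ g) (hI : Iter M Q r σ (toZ δ) p₀ Qs rs) {τ : ZFSet.{0}}
    (hτ : τ ∈ M) :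
    ∃ σ' ∈ M, ∀ S : Set Om, (∀ ζ ∈ S, ζ < δ) → S.Nonempty → ∀ k l m,
      (evR σ' (Gst Q r p₀ g S) k l m ↔ Named g τ (nOm k) (nOm l) (nOm m)) := by
  obtain ⟨σ', hσ'⟩ := exists_nm hM ⟨Qs, hI.memQ⟩
    (E := fun t p ζ => Exq (⟨Q, hQ.memQ⟩ : M).1 (⟨r, hQ.memr⟩ : M).1 (⟨τ, hτ⟩ : M).1 t.1 p.1)
    (md_exq hM (DFc.fst (DFc.fst DFc.id)) (DFc.snd (DFc.fst DFc.id)) _ _ _)
  refine ⟨σ'.1, σ'.2, fun S hS hne k l m => ?_⟩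
  have key : ∀ p ∈ g, ZFSet.pair p p₀ ∈ r → ∀ ζ ∈ S,
      (ZFSet.pair (nat3 k l m) (ZFSet.pair p (toZ ζ)) ∈ σ'.1 ↔ Exq Q r τ (nat3 k l m) p) := by
    intro p hp h1 ζ hζ
    have hpM : p ∈ M := trg hM hQ.memQ (hg.sub p hp)
    have hζM : toZ ζ ∈ M := toZ_mem hM hδ (hS ζ hζ)
    exact hσ' ⟨nat3 k l m, hM.nat3_mem k l m⟩ ⟨p, hpM⟩ ⟨toZ ζ, hζM⟩ (mem_om3.2 ⟨k, l, m, rfl⟩)
      ((hI.mem _ _).2 ⟨hg.sub p hp, h1, mem_toZ.2 ⟨ζ, hS ζ hζ, rfl⟩⟩)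
  constructor
  · rintro ⟨w, ⟨p, hp, h1, ζ, hζ, rfl⟩, h2⟩
    obtain ⟨q, hq, h3⟩ := ((key p hp h1 ζ hζ).1 h2).true hg hp
    exact ⟨q, hq, h3⟩
  · rintro ⟨q, hq, h3⟩
    obtain ⟨ζ, hζ⟩ := hne
    have h3' : ZFSet.pair (nat3 k l m) q ∈ τ := h3
    obtain ⟨p, hp, h1, h4⟩ := exists_exq hg hp₀ hq h3'
    exact ⟨_, ⟨p, hp, h1, ζ, hζ, rfl⟩, (key p hp h1 ζ hζ).2 h4⟩

end RMK
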