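import Pool.Agent.RMK.GItB
import Pool.Agent.RMK.BorEnum

/-!
RMK GXB: the reflecting model with its poset and names (version for the general `Reflecting`).

PROOF of `exists_ground`: take `b` from `exists_enum`, `N, δ, M, Q₀, r₀, g, C` from `exists_nGen` with `P =
NGood b Par` (`club_ngood`); `hC` is the last clause.  Let `le ζ ξ :⟺ b ζ ⊆ b ξ` (`inclT b ζ ξ _`), `σ ∈ M` a name for
`inclT b` (first trace clause), `p₀ ∈ g` from `exists_preF`, `Qs, rs` from `exists_iter`, `IsPoset` by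
`Iter.isPoset`.  For `x` let `S x = {η | η < δ ∧ x ∈ b η}` and `G x = Gst Q₀ r₀ p₀ g (S x)`.  For every `q` the set
`{x | q ∈ G x}` is Borel: if `q = pair p (toZ η)` with `p ∈ g`, `pair p p₀ ∈ r₀` and `η < δ`, it is `b η`
(injectivity), otherwise empty.  For `x ∈ C`: `iter_generic`: nonempty `gx_ne`; `hup` clear; `hdir`: `gx_dir`; `hm`: let
`τ ∈ M` with the density hypothesis; the second trace clause gives `R ∈ N` with `R ζ a c ↔ Named g τ ζ a c` below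
`δ`; apply `gx_meets` (`default < δ` by clause `nat` of `NGood` with `k = 0` and `hδ`; `nOm 0 = default`).
`σx` from `iter_name1` for a name `τ` of `nameT b`: bit `k` of `dec (evR σx (G x))` is true iff there is `ζ < δ` with
`x ∈ b ζ` and `nameT b (nOm k) ζ default`, iff there is `ζ < δ`, `x ∈ b ζ`, `∀ y ∈ b ζ, y k = true` (`nOm` is
injective), iff `x k = true` (`gx_bit`).  `σ i` from `iter_name3` for a name of `parT (Par i)`:
`parT (Par i) (nOm k) (nOm l) (nOm m) ↔ Par i k l m`.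
-/

namespace RMK

open MeasureTheory Set PU

private theorem gxb_def : (default : Om) = nOm 0 := by
  apply Subtype.ext
  change (0 : Ordinal.{0}) = ((0 : ℕ) : Ordinal.{0})
  exact Nat.cast_zero.symm

private theorem gxb_nOm_inj {k l : ℕ} (h : nOm k = nOm l) : k = l := by
  have h1 : ((k : ℕ) : Ordinal.{0}) = ((l : ℕ) : Ordinal.{0}) := congrArg Subtype.val h
  exact Nat.cast_injective h1

theorem exists_ground (hCH : Cardinal.continuum.{0} = Cardinal.aleph 1) (hR : Reflecting)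
    {I : SigmaIdeal (ℕ → Bool)} (hI : Proper I) {A : Set (ℕ → Bool)} (hA : Pos I A)
    (Par : ℕ → Rel) :
    ∃ (M : Set ZFSet.{0}) (Q r σx : M) (σ : ℕ → M) (C : Set (ℕ → Bool))
      (G : (ℕ → Bool) → Set ZFSet.{0}), Ground M ∧ IsPoset M Q.1 r.1 ∧ C ⊆ A ∧ Pos I C ∧
      (∀ q, MeasurableSet {x | q ∈ G x}) ∧
      ∀ x ∈ C, IsGeneric M Q.1 r.1 (G x) ∧ dec (evR σx.1 (G x)) = x ∧
        ∀ i, evR (σ i).1 (G x) = Par i := by
  obtain ⟨b, hb, hb'⟩ := exists_enum hCH hA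
  obtain ⟨N, δ, M, Q0, r0, g, hN, hδ, hG, hδM, hQ0, hg, ht1, ht2, C, hCA, hCP, hC⟩ :=
    exists_nGen hR hI b (club_ngood b Par) hA
  have hM := hG.1
  have hδM' : toZ δ ∈ M := hδM
  have hnat : ∀ k, nOm k < δ := fun k => (hδ _).1 (hN.nat k)
  have h0 : (default : Om) < δ := gxb_def ▸ hnat 0
  obtain ⟨σ0, hσ0, hs⟩ := ht1 _ hN.incl
  have hle : ∀ a c, a < δ → c < δ → (b a ⊆ b c ↔ Named g σ0 a c default) :=
    fun a c ha hc => hs a c default ha hc h0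
  obtain ⟨p₀, hp₀, hpre⟩ := exists_preF hM hQ0 hg hσ0 hδM' (le := fun a c => b a ⊆ b c)
    (fun _ => subset_rfl) (fun _ _ _ h1 h2 => h1.trans h2) hle
  obtain ⟨Qs, rs, hI'⟩ := exists_iter hM hQ0 hσ0 hδM' (hg.sub p₀ hp₀)
  obtain ⟨τ1, hτ1, hτ1'⟩ := ht1 _ hN.name
  obtain ⟨σx, hσx, hσx'⟩ := iter_name1 hM hQ0 hg hδM' hp₀ hI' hτ1
  have hpar : ∀ i, ∃ σ' ∈ M, ∀ S : Set Om, (∀ ζ ∈ S, ζ < δ) → S.Nonempty → ∀ k l m,
      (evR σ' (Gst Q0 r0 p₀ g S) k l m ↔ parT (Par i) (nOm k) (nOm l) (nOm m)) := by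
    intro i
    obtain ⟨τ2, hτ2, hτ2'⟩ := ht1 _ (hN.par i)
    obtain ⟨σ', hσ', h1⟩ := iter_name3 hM hQ0 hg hδM' hp₀ hI' hτ2
    refine ⟨σ', hσ', fun S hS hSn k l m => ?_⟩
    rw [h1 S hS hSn k l m, hτ2' _ _ _ (hnat k) (hnat l) (hnat m)]
  choose σ hσM hσ using hpar
  have hS : ∀ x : ℕ → Bool, ∀ ζ ∈ {η | η < δ ∧ x ∈ b η}, ζ < δ := fun x ζ hζ => hζ.1
  refine ⟨M, ⟨Qs, hI'.memQ⟩, ⟨rs, hI'.memr⟩, ⟨σx, hσx⟩, fun i => ⟨σ i, hσM i⟩, C,
    fun x => Gst Q0 r0 p₀ g {η | η < δ ∧ x ∈ b η}, hG, ?_, hCA, hCP, ?_, ?_⟩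
  · exact Iter.isPoset hQ0 hpre ⟨toZ default, mem_toZ.2 ⟨_, h0, rfl⟩⟩ hI'
  · intro q
    by_cases h : ∃ p ∈ g, ZFSet.pair p p₀ ∈ r0 ∧ ∃ η, η < δ ∧ q = ZFSet.pair p (toZ η)
    · obtain ⟨p, hp, hpp, η, hη, rfl⟩ := h
      have h1 : {x : ℕ → Bool | ZFSet.pair p (toZ η) ∈
          Gst Q0 r0 p₀ g {η | η < δ ∧ x ∈ b η}} = b η := by
        ext x
        constructor
        · rintro ⟨p', -, -, ζ, hζ, h2⟩
          have h3 := toZ_inj.1 (ZFSet.pair_inj.1 h2).2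
          rw [h3]
          exact hζ.2
        · intro hx
          exact ⟨p, hp, hpp, η, ⟨hη, hx⟩, rfl⟩
      rw [h1]
      exact (hb η).1
    · have h1 : {x : ℕ → Bool | q ∈ Gst Q0 r0 p₀ g {η | η < δ ∧ x ∈ b η}} = ∅ := by
        ext x
        constructor
        · rintro ⟨p', hp', hpp', ζ, hζ, h2⟩
          exact (h ⟨p', hp', hpp', ζ, hζ.1, h2⟩).elim
        · intro hx
          exact hx.elim
      rw [h1]
      exact MeasurableSet.empty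
  · intro x hx
    have hne : {η | η < δ ∧ x ∈ b η}.Nonempty := by
      obtain ⟨η, hη, hxη⟩ := gx_ne hb hb' hN hC hx
      exact ⟨η, hη, hxη⟩
    refine ⟨?_, ?_, ?_⟩
    · refine iter_generic hM hQ0 hg hσ0 hδM' hle hp₀ hI' (hS x) hne ?_ ?_ ?_
      · rintro ζ ⟨-, hxζ⟩ ξ hξ hζξ
        exact ⟨hξ, hζξ hxζ⟩
      · rintro ζ ⟨hζ, hxζ⟩ ξ ⟨hξ, hxξ⟩
        obtain ⟨η, hη, hxη, h1, h2⟩ := gx_dir hb hb' hN hδ hC hx hζ hξ hxζ hxξ
        exact ⟨η, ⟨hη, hxη⟩, h1, h2⟩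
      · intro τ hτ hd
        obtain ⟨R, hRN, hRX⟩ := ht2 τ hτ
        obtain ⟨ζ, hζ, h1, h2⟩ := gx_meets hb hb' hN hδ hC hx hRN (by
          intro ξ hξ
          obtain ⟨ζ, hζ, h3, h4⟩ := hd ξ hξ
          exact ⟨ζ, hζ, (hRX ζ default default hζ h0 h0).2 h3, h4⟩)
        exact ⟨ζ, ⟨hζ, h2⟩, (hRX ζ default default hζ h0 h0).1 h1⟩
    · funext n
      have h1 : evR σx (Gst Q0 r0 p₀ g {η | η < δ ∧ x ∈ b η}) n 0 0 ↔ x n = true := by
        rw [hσx' _ (hS x) n, gx_bit hb hb' hN hC hx n]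
        constructor
        · rintro ⟨ζ, ⟨hζ, hxζ⟩, h2⟩
          obtain ⟨k, hk, h3⟩ := (hτ1' (nOm n) ζ default (hnat n) hζ h0).2 h2
          rw [gxb_nOm_inj hk]
          exact ⟨ζ, hζ, hxζ, h3⟩
        · rintro ⟨ζ, hζ, hxζ, h3⟩
          exact ⟨ζ, ⟨hζ, hxζ⟩, (hτ1' (nOm n) ζ default (hnat n) hζ h0).1 ⟨n, rfl, h3⟩⟩
      have h2 : dec (evR σx (Gst Q0 r0 p₀ g {η | η < δ ∧ x ∈ b η})) n = true ↔ x n = true := by
        unfold dec
        exact (@decide_eq_true_iff _ (Classical.propDecidable _)).trans h1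
      exact Bool.eq_iff_iff.2 h2
    · intro i
      funext k l m
      apply propext
      rw [hσ i _ (hS x) hne k l m]
      constructor
      · rintro ⟨k', l', m', h3, h4, h5, h6⟩
        rw [gxb_nOm_inj h3, gxb_nOm_inj h4, gxb_nOm_inj h5]
        exact h6
      · intro h
        exact ⟨k, l, m, rfl, rfl, rfl, h⟩

end RMK
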