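import Pool.Agent.RMK.DecDefs

/-!
RMK GENDEFS: open dense sets of valid sequences and their extension relations (definitions only).
-/

namespace RMK

open MeasureTheory Set PU

/-- `D` is an open dense set of valid sequences. -/
def OD (G : Set Om) (D : Set (Seq (ℕ → Bool))) : Prop :=
  (∀ p ∈ D, Val G p) ∧ (∀ p ∈ D, ∀ p', Val G p' → Ext p p' → p' ∈ D) ∧
    ∀ p, Val G p → ∃ p' ∈ D, Ext p p'

/-- a chosen index of `p` in the enumeration `e` -/
noncomputable def idx (e : Om → Seq (ℕ → Bool)) (p : Seq (ℕ → Bool)) : Om :=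
  Classical.epsilon fun i => e i = p

/-- a chosen extension of `p` in `D` -/
noncomputable def extD (D : Set (Seq (ℕ → Bool))) (p : Seq (ℕ → Bool)) : Seq (ℕ → Bool) :=
  Classical.epsilon fun p' => p' ∈ D ∧ Ext p p'

/-- the relation on indices given by the extension function of `D` -/
noncomputable def RD (e : Om → Seq (ℕ → Bool)) (D : Set (Seq (ℕ → Bool))) : T3 :=
  fun i j _ => j = idx e (extD D (e i))

end RMK
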