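import Pool.Agent.RMK.Topo
import Pool.Agent.PU.Cond

/-!
RMK IDEALN: the ideal of the coding topology is proper.

PROOF of `proper_adN`.  Write `adN hG` for the ideal; a Borel `B` is positive iff it is not `Mgr G`.
Let `e` be as in `enum_val`, `S = Set (ℕ → Bool) ⊕ Set (Set (ℕ → Bool))`.
An injection `j : T3 → S`: let `g : Om → (ℕ → Bool)` be injective (`exists_om_inj`), `g₃ (a, b, c)` the join
of `g a, g b, g c` (an injective map to `ℕ → Bool`), and `j R = inl {g₃ (a, b, c) | R a b c}`.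
For a positive Borel set `A` choose `(p_A, s_A, F_A)`, valid, good, with `Mgr G (Bas p_A s_A F_A \ A)`
(`exists_bas_of_not_mgr`), and an index `i_A` with `e i_A = p_A`.
For a dense set `D` of conditions of `P_I` and a list `t` let `D̂ D t` be the set of valid `p` such that
either there are `F` with `GoodF p F` and `E ∈ D` with `Mgr G (Bas p t F \ E)`, or for all valid `p'`
extending `p` and all `F` with `GoodF p' F` and all `E ∈ D`, not `Mgr G (Bas p' t F \ E)`.  `OD G (D̂ D t)` (openness of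
the first alternative by `Bas.mono`, `FExt.refl`, `goodF_mono`).  If the first alternative holds at `p = e i`, choose
`F_{D,t,i}` and `E_{D,t,i} ∈ D` accordingly.
Consider the club of countable `N ⊆ S` such that
(i) `j ⁻¹' N` has the property of `gen` (`club_comap`), with `δ`;
(ii) if `inl A ∈ N` is positive, then `lev a ∈ j ⁻¹' N` for the successor `a` of `i_A` (so `i_A < δ`);
(iii) if `inr D ∈ N` is dense then `j (RD e (D̂ D t)) ∈ N` for all `t : List Bool`;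
(iv) if `inr D ∈ N`, `i < δ`, `t`, and the first alternative holds at `e i`, then
`inl E_{D,t,i} ∈ N`
(closure under countably many unary and binary functions: `club_map`, `club_map2`, `club_forall` over an
enumeration of `List Bool`; in (iv) the binary function takes `(inr D, j (lev i))` to
`inl E_{D,t,i}`).
Let `inl A ∈ N` be positive.  By (i), (ii) let `q` be as in `gen` for `i = i_A`, `B = Bas q s_A F_A ∩ A`.
`B` is Borel (`measurableSet_bas`) and positive: `Bas q s_A F_A` is not meager (`not_mgr_bas`) and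
`Bas q s_A F_A \ A ⊆ Bas p_A s_A F_A \ A` is meager.
Let `inr D ∈ N` be dense, `C ⊆ B` positive.  There is `(p₁, s₁, F₁)` with `Mgr G (Bas p₁ s₁ F₁ \ C)`.
`Bas p₁ s₁ F₁ ∩ Bas q s_A F_A` is nonempty, otherwise `C ∩ Bas p₁ s₁ F₁ = ∅` and `Bas p₁ s₁ F₁` would be
meager.  By `bas_inter` there is `(p₂, s₂, F₂)` extending both (`Ext q p₂`), and `Mgr G (Bas p₂ s₂ F₂ \ C)`
(`Bas.mono`).  The set `C ∩ Bas p₂ s₂ F₂` is positive, so it contains some `E₀ ∈ D`, positive; there is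
`(p₃, s₃, F₃)` with `Mgr G (Bas p₃ s₃ F₃ \ E₀)`, and it is compatible with `(p₂, s₂, F₂)` (same argument), so
there is `(p₄, s₄, F₄)` extending both, with `Ext q p₄` and `Mgr G (Bas p₄ s₄ F₄ \ E₀)`.  By `gen` applied to
`D̂ D s₄` there is `i < δ` with `e i ∈ D̂ D s₄` and `Ext (e i) q`, so `Ext (e i) p₄`: the second alternative
fails, so by (iv) `E = E_{D,s₄,i} ∈ D`, `inl E ∈ N` and `Mgr G (Bas (e i) s₄ F₅ \ E)` with `GoodF (e i) F₅`.
Now `Bas p₄ s₄ (F₄ ∪ F₅)` is not meager, is contained in `Bas p₄ s₄ F₄ ⊆ Bas p₂ s₂ F₂` (so it is contained in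
`C` up to a meager set) and in `Bas (e i) s₄ F₅` (so in `E` up to a meager set); hence `C ∩ E` is not meager.
-/

namespace RMK

open MeasureTheory Set PU

/-- The ideal of Borel sets which are meager in the coding topology. -/
def adN {G : Set Om} (hG : Captured G) : SigmaIdeal (ℕ → Bool) where
  mem B := MeasurableSet B ∧ Mgr G B
  meas _ h := h.1
  singleton x := ⟨measurableSet_singleton x, mgr_singleton hG x⟩
  mono _ _ hA hB hBA := ⟨hB, hA.2.mono hBA⟩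
  iUnion _ hA := ⟨MeasurableSet.iUnion fun n => (hA n).1, Mgr.iUnion fun n => (hA n).2⟩

theorem pos_adN {G : Set Om} (hG : Captured G) (B : Set (ℕ → Bool)) :
    Pos (adN hG) B ↔ MeasurableSet B ∧ ¬ Mgr G B := by
  constructor
  · rintro ⟨h1, h2⟩
    exact ⟨h1, fun h => h2 ⟨h1, h⟩⟩
  · rintro ⟨h1, h2⟩
    exact ⟨h1, fun h => h2 h.2⟩

private theorem idn_levInj : Function.Injective lev := by
  intro α β h
  rcases lt_trichotomy α β with h1 | h1 | h1
  · have h2 : lev β α α α := h1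
    rw [← h] at h2
    exact absurd h2 (lt_irrefl α)
  · exact h1
  · have h2 : lev α β β β := h1
    rw [h] at h2
    exact absurd h2 (lt_irrefl β)

private theorem idn_exists_j : ∃ j : T3 → Set (ℕ → Bool) ⊕ Set (Set (ℕ → Bool)),
    Function.Injective j := by
  obtain ⟨g, hg⟩ := exists_om_inj
  let g3 : Om × Om × Om → (ℕ → Bool) := fun r k =>
    if k % 3 = 0 then g r.1 (k / 3) else if k % 3 = 1 then g r.2.1 (k / 3) else g r.2.2 (k / 3)
  have hg3 : Function.Injective g3 := by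
    rintro ⟨a, b, c⟩ ⟨a', b', c'⟩ h
    have h1 : a = a' := hg (by
      funext k
      have h2 := congrFun h (3 * k)
      have h3 : (3 * k) % 3 = 0 := by omega
      have h4 : (3 * k) / 3 = k := by omega
      simp only [g3, h3, h4, if_true] at h2
      exact h2)
    have h2 : b = b' := hg (by
      funext k
      have h2 := congrFun h (3 * k + 1)
      have h3 : (3 * k + 1) % 3 = 1 := by omega
      have h4 : (3 * k + 1) / 3 = k := by omega
      simp only [g3, h3, h4, if_true] at h2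
      simpa using h2)
    have h3 : c = c' := hg (by
      funext k
      have h2 := congrFun h (3 * k + 2)
      have h3 : (3 * k + 2) % 3 = 2 := by omega
      have h4 : (3 * k + 2) / 3 = k := by omega
      simp only [g3, h3, h4] at h2
      simpa using h2)
    rw [h1, h2, h3]
  refine ⟨fun R => Sum.inl {v | ∃ a b c, R a b c ∧ g3 (a, b, c) = v}, ?_⟩
  intro R R' h
  have h1 := Sum.inl_injective h
  have key : ∀ R : T3, ∀ a b c, R a b c ↔ g3 (a, b, c) ∈ {v | ∃ a b c, R a b c ∧ g3 (a, b, c) = v} := by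
    intro R a b c
    constructor
    · intro hR
      exact ⟨a, b, c, hR, rfl⟩
    · rintro ⟨a', b', c', hR, he⟩
      have h2 := hg3 he
      have h3 : a' = a := congrArg Prod.fst h2
      have h4 : b' = b := congrArg (fun z => z.2.1) h2
      have h5 : c' = c := congrArg (fun z => z.2.2) h2
      rw [h3, h4, h5] at hR
      exact hR
  funext a b c
  apply propext
  rw [key R, key R', h1]

/-- the auxiliary dense sets of sequences -/
private def idnD (G : Set Om) (D : Set (Set (ℕ → Bool))) (t : List Bool) :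
    Set (Seq (ℕ → Bool)) :=
  {p | Val G p ∧ ((∃ F E, GoodF p F ∧ E ∈ D ∧ Mgr G (Bas p t F \ E)) ∨
    ∀ p' F E, Val G p' → Ext p p' → GoodF p' F → E ∈ D → ¬ Mgr G (Bas p' t F \ E))}

private theorem idnD_od (G : Set Om) (D : Set (Set (ℕ → Bool))) (t : List Bool) :
    OD G (idnD G D t) := by
  refine ⟨fun r hr => hr.1, ?_, ?_⟩
  · rintro r ⟨hr, hr2⟩ r' hr' hext
    refine ⟨hr', ?_⟩
    rcases hr2 with ⟨F, E, hF, hE, hm⟩ | h
    · exact Or.inl ⟨F, E, goodF_mono hF hext, hE,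
        hm.mono fun x hx => ⟨Bas.mono hext (FExt.refl t F) hx.1, hx.2⟩⟩
    · exact Or.inr fun r'' F E h1 h2 h3 => h r'' F E h1 (hext.trans h2) h3
  · intro r hr
    by_cases h : ∀ p' F E, Val G p' → Ext r p' → GoodF p' F → E ∈ D → ¬ Mgr G (Bas p' t F \ E)
    · exact ⟨r, ⟨hr, Or.inr h⟩, Ext.refl r⟩
    · push Not at h
      obtain ⟨r', F, E, h1, h2, h3, h4, h5⟩ := h
      exact ⟨r', ⟨h1, Or.inl ⟨F, E, h3, h4, h5⟩⟩, h2⟩

private theorem idn_meet {G : Set Om} (hG : Captured G) {p p₁ : Seq (ℕ → Bool)} (hp : Val G p)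
    (hp₁ : Val G p₁) {s s₁ : List Bool} {F F₁ : FS} (hF : GoodF p F) (hF₁ : GoodF p₁ F₁)
    {C : Set (ℕ → Bool)} (hC : C ⊆ Bas p s F) (hm : Mgr G (Bas p₁ s₁ F₁ \ C)) :
    ∃ p₂ s₂ F₂, Val G p₂ ∧ GoodF p₂ F₂ ∧ Ext p p₂ ∧ Bas p₂ s₂ F₂ ⊆ Bas p s F ∧
      Mgr G (Bas p₂ s₂ F₂ \ C) := by
  have h1 : ∃ x ∈ Bas p₁ s₁ F₁, x ∈ C := by
    by_contra hcon
    push Not at hcon
    exact not_mgr_bas hG hp₁ s₁ hF₁ (hm.mono fun x hx => ⟨hx, hcon x hx⟩)
  obtain ⟨x, hx, hxC⟩ := h1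
  obtain ⟨p₂, s₂, F₂, g1, g2, g3, g4, g5, g6, g7⟩ := bas_inter hp hp₁ hF hF₁ (hC hxC) hx
  exact ⟨p₂, s₂, F₂, g1, g2, g3, Bas.mono g3 g5,
    hm.mono fun y hy => ⟨Bas.mono g4 g6 hy.1, hy.2⟩⟩

theorem proper_adN {G : Set Om} (hG : Captured G) : Proper (adN hG) := by
  classical
  obtain ⟨e, he, hs⟩ := enum_val hG
  obtain ⟨j, hj⟩ := idn_exists_j
  -- the choices for positive sets
  have hA : ∀ A : Set (ℕ → Bool), ∃ r : Seq (ℕ → Bool) × List Bool × FS × Om × Om,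
      (MeasurableSet A ∧ ¬ Mgr G A) → Val G r.1 ∧ GoodF r.1 r.2.2.1 ∧
        Mgr G (Bas r.1 r.2.1 r.2.2.1 \ A) ∧ e r.2.2.2.1 = r.1 ∧ r.2.2.2.1 < r.2.2.2.2 := by
    intro A
    by_cases h : MeasurableSet A ∧ ¬ Mgr G A
    · obtain ⟨p, s, F, h1, h2, h3⟩ := exists_bas_of_not_mgr hG h.1 h.2
      obtain ⟨i, hi⟩ := hs p h1
      obtain ⟨a, ha⟩ := Om.bdd (S := {i}) (countable_singleton i)
      exact ⟨(p, s, F, i, a), fun _ => ⟨h1, h2, h3, hi, ha i rfl⟩⟩
    · obtain ⟨a, -⟩ := Om.bdd (S := ∅) countable_empty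
      exact ⟨(e a, [], ∅, a, a), fun h' => absurd h' h⟩
  choose rA hrA using hA
  -- the choices for dense sets
  have hE : ∀ (D : Set (Set (ℕ → Bool))) (t : List Bool) (i : Om), ∃ E : Set (ℕ → Bool),
      (∃ F E, GoodF (e i) F ∧ E ∈ D ∧ Mgr G (Bas (e i) t F \ E)) →
      ∃ F, GoodF (e i) F ∧ E ∈ D ∧ Mgr G (Bas (e i) t F \ E) := by
    intro D t i
    by_cases h : ∃ F E, GoodF (e i) F ∧ E ∈ D ∧ Mgr G (Bas (e i) t F \ E)
    · obtain ⟨F, E, h1⟩ := h
      exact ⟨E, fun _ => ⟨F, h1⟩⟩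
    · exact ⟨∅, fun h' => absurd h' h⟩
  choose Ec hEc using hE
  obtain ⟨tn, htn⟩ := exists_surjective_nat (List Bool)
  have hjl : Function.Injective (fun i : Om => j (lev i)) := hj.comp idn_levInj
  obtain ⟨o0, -⟩ := Om.bdd (S := ∅) countable_empty
  have : Nonempty Om := ⟨o0⟩
  let li : Set (ℕ → Bool) ⊕ Set (Set (ℕ → Bool)) → Om := Function.invFun fun i : Om => j (lev i)
  have hli : ∀ i, li (j (lev i)) = i := Function.leftInverse_invFun hjl
  have : Nonempty (Set (ℕ → Bool) ⊕ Set (Set (ℕ → Bool))) := ⟨Sum.inl ∅⟩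
  have c1 := club_comap hj (gen hG e he hs)
  have c2 := club_map (S := Set (ℕ → Bool) ⊕ Set (Set (ℕ → Bool)))
    (Sum.elim (fun A => j (lev (rA A).2.2.2.2)) fun D => Sum.inr D)
  have c3 := club_forall fun n : ℕ => club_map (S := Set (ℕ → Bool) ⊕ Set (Set (ℕ → Bool)))
    (Sum.elim (fun A => Sum.inl A) fun D => j (RD e (idnD G D (tn n))))
  have c4 := club_forall fun n : ℕ => club_map2 (S := Set (ℕ → Bool) ⊕ Set (Set (ℕ → Bool)))
    (fun x y => Sum.elim (fun A => Sum.inl A) (fun D => Sum.inl (Ec D (tn n) (li y))) x)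
  refine (c1.and (c2.and (c3.and c4))).mono ?_
  rintro N - ⟨⟨δ, hδ, hgen⟩, h2, h3, h4⟩ A hAN hApos
  rw [pos_adN] at hApos
  obtain ⟨hv, hF, hm, hei, hlt⟩ := hrA A hApos
  have hia : (rA A).2.2.2.2 < δ := (hδ _).1 (h2 (Sum.inl A) hAN)
  obtain ⟨q, hqv, hql, hqe, hqD⟩ := hgen _ (hlt.trans hia)
  rw [hei] at hqe
  set pA := (rA A).1 with hpA
  set sA := (rA A).2.1 with hsA
  set FA := (rA A).2.2.1 with hFA
  have hqF : GoodF q FA := goodF_mono hF hqe
  have hqA : Bas q sA FA ⊆ Bas pA sA FA := Bas.mono hqe (FExt.refl sA FA)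
  refine ⟨Bas q sA FA ∩ A, inter_subset_right, ?_, ?_⟩
  · rw [pos_adN]
    refine ⟨(measurableSet_bas q sA FA).inter hApos.1, fun hcon => ?_⟩
    refine not_mgr_bas hG hqv sA hqF ((hcon.union hm).mono ?_)
    intro x hx
    by_cases hxA : x ∈ A
    · exact Or.inl ⟨hx, hxA⟩
    · exact Or.inr ⟨hqA hx, hxA⟩
  · intro D hDN hD C hCB hC
    rw [pos_adN] at hC
    obtain ⟨p₁, s₁, F₁, hp₁, hF₁, hm₁⟩ := exists_bas_of_not_mgr hG hC.1 hC.2
    obtain ⟨p₂, s₂, F₂, hp₂, hF₂, hqp₂, -, hm₂⟩ := idn_meet hG hqv hp₁ hqF hF₁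
      (hCB.trans inter_subset_left) hm₁
    have hCpos : Pos (adN hG) (C ∩ Bas p₂ s₂ F₂) := by
      rw [pos_adN]
      refine ⟨hC.1.inter (measurableSet_bas _ _ _), fun hcon => ?_⟩
      refine not_mgr_bas hG hp₂ s₂ hF₂ ((hcon.union hm₂).mono ?_)
      intro x hx
      by_cases hxC : x ∈ C
      · exact Or.inl ⟨hxC, hx⟩
      · exact Or.inr ⟨hx, hxC⟩
    obtain ⟨E₀, hE₀D, hE₀⟩ := hD.2 _ hCpos
    have hE₀pos := hD.1 E₀ hE₀D
    rw [pos_adN] at hE₀pos
    obtain ⟨p₃, s₃, F₃, hp₃, hF₃, hm₃⟩ := exists_bas_of_not_mgr hG hE₀pos.1 hE₀pos.2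
    obtain ⟨p₄, s₄, F₄, hp₄, hF₄, hp₂₄, -, hm₄⟩ := idn_meet hG hp₂ hp₃ hF₂ hF₃
      (hE₀.trans inter_subset_right) hm₃
    obtain ⟨n, hn⟩ := htn s₄
    have hRD : RD e (idnD G D s₄) ∈ j ⁻¹' N := by
      have := h3 n (Sum.inr D) hDN
      rw [Sum.elim_inr, hn] at this
      exact this
    obtain ⟨i, hi, hiD, hiq⟩ := hqD _ (idnD_od G D s₄) hRD
    have hi4 : Ext (e i) p₄ := hiq.trans (hqp₂.trans hp₂₄)
    have hfirst : ∃ F E, GoodF (e i) F ∧ E ∈ D ∧ Mgr G (Bas (e i) s₄ F \ E) := by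
      rcases hiD.2 with h | h
      · exact h
      · exact absurd hm₄ (h p₄ F₄ E₀ hp₄ hi4 hF₄ hE₀D)
    obtain ⟨F₅, hF₅, hED, hm₅⟩ := hEc D s₄ i hfirst
    have hEN : Sum.inl (Ec D s₄ i) ∈ N := by
      have := h4 n (Sum.inr D) hDN (j (lev i)) ((hδ i).2 hi)
      rw [Sum.elim_inr, hn, hli] at this
      exact this
    refine ⟨Ec D s₄ i, hED, hEN, ?_⟩
    have hEpos := hD.1 _ hED
    rw [pos_adN] at hEpos ⊢
    refine ⟨hC.1.inter hEpos.1, fun hcon => ?_⟩
    have hF₄₅ : GoodF p₄ (F₄ ∪ F₅) := by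
      intro r hr
      rcases Finset.mem_union.1 hr with hr | hr
      · exact hF₄ r hr
      · exact goodF_mono hF₅ hi4 r hr
    have hb4 : Bas p₄ s₄ (F₄ ∪ F₅) ⊆ Bas p₄ s₄ F₄ := Bas.mono (Ext.refl p₄) (fext_add s₄ F₄ F₅)
    have hb5 : Bas p₄ s₄ (F₄ ∪ F₅) ⊆ Bas (e i) s₄ F₅ := by
      refine Bas.mono hi4 ?_
      rw [Finset.union_comm]
      exact fext_add s₄ F₅ F₄
    refine not_mgr_bas hG hp₄ s₄ hF₄₅ (((hcon.union hm₅).union hm₄).mono ?_)
    intro x hx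
    by_cases hxE₀ : x ∈ E₀
    · refine Or.inl ?_
      by_cases hxE : x ∈ Ec D s₄ i
      · exact Or.inl ⟨(hE₀ hxE₀).1, hxE⟩
      · exact Or.inr ⟨hb5 hx, hxE⟩
    · exact Or.inr ⟨hb4 hx, hxE₀⟩

end RMK
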