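import Pool.Agent.RMK.LevDefs

/-!
RMK LEVCOL: the collapse of a coded relative level.  (Adapt `PU/LCol.lean` and the proof of `vn_iff` in
`PU/LVn.lean`.)

PROOF.  Let `h : LCodeR β E E' ρ`, and call `a` an element if `¬ cd E a a`.  If `a` is an element and
`cd E b a` then `b` is an element and `ρ b < ρ a` (clause 2).  Define `π` by well-founded recursion on
`ρ a` exactly as in `LCode.collapse`: `π a` is the ZFSet whose elements are the `π b` with `cd E b a`
for an element `a`, and `∅` otherwise.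
(i) `π` is injective on the elements and `π a ∈ π b ↔ cd E a b` for elements: by induction on
`max (ρ a) (ρ b)` from clause 4, as in `LCode.collapse` (a).
(ii) For an element `a` (or for any `b` with `VN E b α`): `VN E b α ↔ ¬ cd E b b ∧ π b = α.1.toZFSet`.
(→): strong induction on `ξ ≤ α`: `π (h.val ξ) = ξ.1.toZFSet`, because the elements of `π (h.val ξ)`
are the `π b'` with `cd E b' (h.val ξ)`.  (←): the elements of `π b` are `π b'` with `cd E b' b`, so by
descending choose for every `ξ ≤ α` an element `h ξ` with `π (h ξ) = ξ.1.toZFSet` (`ξ < α`: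
`ξ.1.toZFSet ∈ π b`), `h α = b`, and use injectivity.
(iii) For elements `a`, `b`: `relE (ords S) (π a) (π b) ↔ cd E' a b`: if `a ≠ b` then `π a ≠ π b` and
this is (i) and clause 5; if `a = b` then `π a ∉ π a` (`ZFSet.mem_irrefl`) and
`π a ∈ ords S ↔ ∃ α ∈ S, π a = α.1.toZFSet ↔ ∃ α ∈ S, VN E a α ↔ cd E' a a` by (ii) and the `Link`.
(iv) By induction on `γ ≤ β`: `z ∈ LR (ords S) γ ↔ ∃ a ∈ lset E ρ γ, π a = z`, as in
`LCode.collapse` (b), with `sat_iso` applied to the relations `cd E'` and `relE (ords S)` (iii).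
Every element lies in `lset E ρ β` (clause 1).
-/

namespace RMK

open MeasureTheory Set PU

private theorem lvc_ord (ξ : Om) (z : ZFSet.{0}) :
    z ∈ ξ.1.toZFSet ↔ ∃ ξ' : Om, ξ' < ξ ∧ ξ'.1.toZFSet = z := by
  rw [Ordinal.mem_toZFSet_iff]
  constructor
  · rintro ⟨a, ha, rfl⟩
    exact ⟨⟨a, ha.trans ξ.2⟩, ha, rfl⟩
  · rintro ⟨ξ', h1, rfl⟩
    exact ⟨ξ'.1, h1, rfl⟩

private theorem lvc_mem_om {A : Set ZFSet.{0}} {γ : Om} {z : ZFSet.{0}} :
    z ∈ LR A γ.1 ↔ ∃ δ : Om, δ < γ ∧ z ∈ DefSetsR A (LR A δ.1) := by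
  rw [mem_LR_iff]
  constructor
  · rintro ⟨δ, hδ, h⟩
    exact ⟨⟨δ, hδ.trans γ.2⟩, hδ, h⟩
  · rintro ⟨δ, hδ, h⟩
    exact ⟨δ.1, hδ, h⟩

theorem LCodeR.collapse {β : Om} {E E' : ℕ → Bool} {ρ : ℕ → Om} (h : LCodeR β E E' ρ) {S : Set Om}
    (hl : Link E E' S) : ∃ π : ℕ → ZFSet.{0}, IsCollapseR (ords S) β E π ∧
      (∀ b α, VN E b α ↔ ¬ cd E b b ∧ π b = α.1.toZFSet) ∧
      ∀ a b, ¬ cd E a a → ¬ cd E b b → (relE (ords S) (π a) (π b) ↔ cd E' a b) := by
  classical
  obtain ⟨c1, c2, c3, c4, c5⟩ := h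
  have helt : ∀ a b, ¬ cd E a a → cd E b a → b ∈ lset E ρ (ρ a) := by
    intro a b ha hb
    obtain ⟨φ, s, -, h2⟩ := c2 a ha
    exact ((h2 b).1 hb).1
  have hwf : WellFounded (fun b a : ℕ => ¬ cd E a a ∧ cd E b a) := by
    refine Subrelation.wf (r := fun b a : ℕ => ρ b < ρ a) ?_ (InvImage.wf ρ wellFounded_lt)
    rintro b a ⟨ha, hb⟩
    exact (helt a b ha hb).2
  let π : ℕ → ZFSet.{0} := hwf.fix (fun a ih =>
    ZFSet.range (fun b : {b : ℕ // ¬ cd E a a ∧ cd E b a} => ih b.1 b.2))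
  have hπ : ∀ a, ¬ cd E a a → ∀ z, z ∈ π a ↔ ∃ b, cd E b a ∧ π b = z := by
    intro a ha z
    have h1 : π a = ZFSet.range (fun b : {b : ℕ // ¬ cd E a a ∧ cd E b a} => π b.1) :=
      hwf.fix_eq _ a
    rw [h1, ZFSet.mem_range]
    constructor
    · rintro ⟨b, hb⟩
      exact ⟨b.1, b.2.2, hb⟩
    · rintro ⟨b, hb, hz⟩
      exact ⟨⟨b, ha, hb⟩, hz⟩
  have hsub : ∀ {γ δ : Om}, γ ≤ δ → lset E ρ γ ⊆ lset E ρ δ := by
    intro γ δ hle b hb
    exact ⟨hb.1, lt_of_lt_of_le hb.2 hle⟩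
  -- injectivity
  have hinj0 : ∀ γ : Om, ∀ a ∈ lset E ρ γ, ∀ b ∈ lset E ρ γ, π a = π b → a = b := by
    intro γ
    induction γ using WellFoundedLT.induction with
    | ind γ ih =>
      intro a ha b hb hab
      have hδ : max (ρ a) (ρ b) < γ := max_lt ha.2 hb.2
      have i1 := ih _ hδ
      apply c4 a b ha.1 hb.1
      intro c
      constructor
      · intro hc
        have h1 : π c ∈ π b := by
          rw [← hab, hπ a ha.1]
          exact ⟨c, hc, rfl⟩
        obtain ⟨c', hc', hcc⟩ := (hπ b hb.1 _).1 h1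
        have h2 := hsub (le_max_left (ρ a) (ρ b)) (helt a c ha.1 hc)
        have h3 := hsub (le_max_right (ρ a) (ρ b)) (helt b c' hb.1 hc')
        rwa [← i1 c' h3 c h2 hcc]
      · intro hc
        have h1 : π c ∈ π a := by
          rw [hab, hπ b hb.1]
          exact ⟨c, hc, rfl⟩
        obtain ⟨c', hc', hcc⟩ := (hπ a ha.1 _).1 h1
        have h2 := hsub (le_max_right (ρ a) (ρ b)) (helt b c hb.1 hc)
        have h3 := hsub (le_max_left (ρ a) (ρ b)) (helt a c' ha.1 hc')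
        rwa [← i1 c' h3 c h2 hcc]
  have hdom : ∀ a, ¬ cd E a a → a ∈ lset E ρ β := fun a ha => ⟨ha, c1 a ha⟩
  have hinj : ∀ a b, ¬ cd E a a → ¬ cd E b b → π a = π b → a = b := fun a b ha hb =>
    hinj0 β a (hdom a ha) b (hdom b hb)
  have hmem : ∀ a b, ¬ cd E a a → ¬ cd E b b → (π a ∈ π b ↔ cd E a b) := by
    intro a b ha hb
    rw [hπ b hb]
    constructor
    · rintro ⟨c, hc, hca⟩
      rwa [← hinj c a (helt b c hb hc).1 ha hca]
    · intro hab
      exact ⟨a, hab, rfl⟩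
  -- ordinals
  have hvn : ∀ b α, VN E b α ↔ ¬ cd E b b ∧ π b = α.1.toZFSet := by
    intro b α
    constructor
    · rintro ⟨f, -, hf, hb⟩
      have key : ∀ ξ : Om, ξ ≤ α → π (f.val ξ) = ξ.1.toZFSet := by
        intro ξ
        induction ξ using WellFoundedLT.induction with
        | ind ξ ih =>
          intro hξ
          ext z
          rw [hπ _ (hf ξ hξ).1, lvc_ord]
          constructor
          · rintro ⟨b', hb', rfl⟩
            obtain ⟨ξ', h1, rfl⟩ := ((hf ξ hξ).2 b').1 hb'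
            exact ⟨ξ', h1, (ih ξ' h1 (h1.le.trans hξ)).symm⟩
          · rintro ⟨ξ', h1, rfl⟩
            exact ⟨f.val ξ', ((hf ξ hξ).2 _).2 ⟨ξ', h1, rfl⟩, ih ξ' h1 (h1.le.trans hξ)⟩
      rw [← hb]
      exact ⟨(hf α le_rfl).1, key α le_rfl⟩
    · rintro ⟨hb, hbα⟩
      have hL : ∀ ξ : Om, ∃ c, ξ ≤ α → ¬ cd E c c ∧ π c = ξ.1.toZFSet := by
        intro ξ
        by_cases hξ : ξ ≤ α
        · rcases eq_or_lt_of_le hξ with h1 | h1
          · exact ⟨b, fun _ => ⟨hb, by rw [h1]; exact hbα⟩⟩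
          · have h2 : ξ.1.toZFSet ∈ π b := by
              rw [hbα, lvc_ord]
              exact ⟨ξ, h1, rfl⟩
            obtain ⟨c, hc, hc2⟩ := (hπ b hb _).1 h2
            exact ⟨c, fun _ => ⟨(helt b c hb hc).1, hc2⟩⟩
        · exact ⟨0, fun h1 => absurd h1 hξ⟩
      choose g hg using hL
      obtain ⟨α', hα'⟩ := Om.bdd (S := {α}) (countable_singleton α)
      have hαα : α < α' := hα' α rfl
      have hval : ∀ ξ, ξ ≤ α → (Seq.mk' g α').val ξ = g ξ := by
        intro ξ hξ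
        have h1 : ξ < α' := lt_of_le_of_lt hξ hαα
        show (if ξ < α' then g ξ else default) = g ξ
        rw [if_pos h1]
      refine ⟨Seq.mk' g α', hαα, fun ξ hξ => ?_, ?_⟩
      · rw [hval ξ hξ]
        refine ⟨(hg ξ hξ).1, fun b' => ?_⟩
        constructor
        · intro hb'
          have h1 := (helt _ _ (hg ξ hξ).1 hb').1
          have h2 := (hmem b' (g ξ) h1 (hg ξ hξ).1).2 hb'
          rw [(hg ξ hξ).2, lvc_ord] at h2
          obtain ⟨ξ', h3, h4⟩ := h2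
          have h5 := h3.le.trans hξ
          refine ⟨ξ', h3, ?_⟩
          rw [hval ξ' h5]
          exact hinj _ _ (hg ξ' h5).1 h1 ((hg ξ' h5).2.trans h4)
        · rintro ⟨ξ', h3, rfl⟩
          have h5 := h3.le.trans hξ
          rw [hval ξ' h5]
          refine (hmem _ _ (hg ξ' h5).1 (hg ξ hξ).1).1 ?_
          rw [(hg ξ hξ).2, (hg ξ' h5).2, lvc_ord]
          exact ⟨ξ', h3, rfl⟩
      · rw [hval α le_rfl]
        exact hinj _ _ (hg α le_rfl).1 hb ((hg α le_rfl).2.trans hbα.symm)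
  -- the relation with the predicate
  have hrel : ∀ a b, ¬ cd E a a → ¬ cd E b b → (relE (ords S) (π a) (π b) ↔ cd E' a b) := by
    intro a b ha hb
    by_cases hab : a = b
    · subst hab
      rw [hl a ha]
      constructor
      · rintro (h1 | ⟨-, α, hα, h2⟩)
        · exact absurd h1 (ZFSet.mem_irrefl _)
        · exact ⟨α, hα, (hvn a α).2 ⟨ha, h2⟩⟩
      · rintro ⟨α, hα, h2⟩
        exact Or.inr ⟨rfl, α, hα, ((hvn a α).1 h2).2⟩
    · rw [c5 a b ha hb hab, ← hmem a b ha hb]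
      constructor
      · rintro (h1 | ⟨h1, -⟩)
        · exact h1
        · exact absurd (hinj a b ha hb h1) hab
      · intro h1
        exact Or.inl h1
  have main : ∀ γ : Om, γ ≤ β → ∀ z, z ∈ LR (ords S) γ.1 ↔ ∃ a ∈ lset E ρ γ, π a = z := by
    intro γ
    induction γ using WellFoundedLT.induction with
    | ind γ ih =>
      intro hγ
      have hiso : ∀ δ : Om, δ < γ → ∀ (φ : Fml) (s : ℕ → ℕ), (∀ i, s i ∈ lset E ρ δ) →
          (Sat (relE (ords S)) (LR (ords S) δ.1) φ (fun i => π (s i)) ↔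
            Sat (cd E') (lset E ρ δ) φ s) := by
        intro δ hδ φ s hs
        have i2 := ih δ hδ (hδ.le.trans hγ)
        refine sat_iso π (fun a ha => (i2 _).2 ⟨a, ha, rfl⟩) (fun b hb => ?_)
          (fun a ha b hb => hrel a b ha.1 hb.1) (fun a ha b hb => hinj a b ha.1 hb.1) φ s hs
        obtain ⟨a, ha, hab⟩ := (i2 b).1 hb
        exact ⟨a, ha, hab⟩
      intro z
      rw [lvc_mem_om]
      constructor
      · rintro ⟨δ, hδ, φ, t, ht, hz⟩
        have i2 := ih δ hδ (hδ.le.trans hγ)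
        obtain ⟨s, hs1, hs2⟩ : ∃ s : ℕ → ℕ, ((lset E ρ δ).Nonempty → ∀ i, s i ∈ lset E ρ δ) ∧
            ((lset E ρ δ).Nonempty → ∀ i, π (s i) = t i) := by
          by_cases hne : (LR (ords S) δ.1).Nonempty
          · have h1 : ∀ i, ∃ a ∈ lset E ρ δ, π a = t i := fun i => (i2 (t i)).1 (ht hne i)
            choose s hs1 hs2 using h1
            exact ⟨s, fun _ => hs1, fun _ => hs2⟩
          · refine ⟨fun _ => 0, fun h => absurd ?_ hne, fun h => absurd ?_ hne⟩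
            · obtain ⟨a, ha⟩ := h
              exact ⟨π a, (i2 _).2 ⟨a, ha, rfl⟩⟩
            · obtain ⟨a, ha⟩ := h
              exact ⟨π a, (i2 _).2 ⟨a, ha, rfl⟩⟩
        obtain ⟨a, ha1, ha2, ha3⟩ := c3 δ (lt_of_lt_of_le hδ hγ) φ s hs1
        refine ⟨a, ⟨ha1, lt_of_le_of_lt ha2 hδ⟩, ?_⟩
        apply ZFSet.ext
        intro w
        rw [hπ a ha1, hz]
        constructor
        · rintro ⟨b, hb, rfl⟩
          obtain ⟨hb1, hb2⟩ := (ha3 b).1 hb
          have hne : (lset E ρ δ).Nonempty := ⟨b, hb1⟩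
          refine ⟨(i2 _).2 ⟨b, hb1, rfl⟩, ?_⟩
          have h2 := (hiso δ hδ φ _ (update_mem (hs1 hne) hb1 0)).2 hb2
          rw [comp_update'] at h2
          have h3 : (fun i => π (s i)) = t := funext (hs2 hne)
          rwa [h3] at h2
        · rintro ⟨hw1, hw2⟩
          obtain ⟨b, hb1, rfl⟩ := (i2 w).1 hw1
          have hne : (lset E ρ δ).Nonempty := ⟨b, hb1⟩
          refine ⟨b, (ha3 b).2 ⟨hb1, ?_⟩, rfl⟩
          refine (hiso δ hδ φ _ (update_mem (hs1 hne) hb1 0)).1 ?_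
          rw [comp_update']
          have h3 : (fun i => π (s i)) = t := funext (hs2 hne)
          rwa [h3]
      · rintro ⟨a, ha, rfl⟩
        obtain ⟨φ, s, hs1, hs2⟩ := c2 a ha.1
        have i2 := ih (ρ a) ha.2 (ha.2.le.trans hγ)
        refine ⟨ρ a, ha.2, φ, fun i => π (s i), ?_, ?_⟩
        · rintro ⟨y, hy⟩ i
          obtain ⟨b, hb, -⟩ := (i2 y).1 hy
          exact (i2 _).2 ⟨s i, hs1 ⟨b, hb⟩ i, rfl⟩
        · intro w
          rw [hπ a ha.1]
          constructor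
          · rintro ⟨b, hb, rfl⟩
            obtain ⟨hb1, hb2⟩ := (hs2 b).1 hb
            have hne : (lset E ρ (ρ a)).Nonempty := ⟨b, hb1⟩
            refine ⟨(i2 _).2 ⟨b, hb1, rfl⟩, ?_⟩
            have h2 := (hiso (ρ a) ha.2 φ _ (update_mem (hs1 hne) hb1 0)).2 hb2
            rwa [comp_update'] at h2
          · rintro ⟨hw1, hw2⟩
            obtain ⟨b, hb1, rfl⟩ := (i2 w).1 hw1
            have hne : (lset E ρ (ρ a)).Nonempty := ⟨b, hb1⟩
            refine ⟨b, (hs2 b).2 ⟨hb1, ?_⟩, rfl⟩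
            refine (hiso (ρ a) ha.2 φ _ (update_mem (hs1 hne) hb1 0)).1 ?_
            rw [comp_update']
            exact hw2
  refine ⟨π, ⟨hmem, hinj, fun z => ?_⟩, hvn, hrel⟩
  rw [main β le_rfl z]
  constructor
  · rintro ⟨a, ha, hz⟩
    exact ⟨a, ha.1, hz⟩
  · rintro ⟨a, ha, hz⟩
    exact ⟨a, hdom a ha, hz⟩

end RMK
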