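import Pool.Agent.RMK.DecDefs
import Pool.Agent.PU.LVn

/-!
RMK LEVDEFS: coded levels of the relative constructible hierarchy (definitions, small facts).
-/

namespace RMK

open MeasureTheory Set PU

theorem mem_LR_iff {A : Set ZFSet.{0}} {α : Ordinal.{0}} {z : ZFSet.{0}} :
    z ∈ LR A α ↔ ∃ γ, γ < α ∧ z ∈ DefSetsR A (LR A γ) := by
  rw [LR]
  constructor
  · rintro ⟨β, h⟩
    exact ⟨β.1, β.2, h⟩
  · rintro ⟨γ, hγ, h⟩
    exact ⟨⟨γ, hγ⟩, h⟩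

theorem LR_mono {A : Set ZFSet.{0}} {α β : Ordinal.{0}} (h : α ≤ β) : LR A α ⊆ LR A β := by
  intro z hz
  rw [mem_LR_iff] at hz ⊢
  obtain ⟨γ, hγ, h1⟩ := hz
  exact ⟨γ, lt_of_lt_of_le hγ h, h1⟩

theorem LR_transitive {A : Set ZFSet.{0}} {α : Ordinal.{0}} {x y : ZFSet.{0}} (hx : x ∈ LR A α)
    (hy : y ∈ x) : y ∈ LR A α := by
  obtain ⟨γ, hγ, φ, s, -, h2⟩ := mem_LR_iff.1 hx
  exact LR_mono hγ.le ((h2 y).1 hy).1

/-- `(E, E', ρ)` codes the level `β` of a relative constructible hierarchy: the domain is the set of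
`a` with `¬ cd E a a`, the relation `cd E` is membership, `cd E'` is membership together with the
predicate on the diagonal, and `ρ a` is an index `γ < β` such that the set coded by `a` is definable
over the level `γ`. -/
def LCodeR (β : Om) (E E' : ℕ → Bool) (ρ : ℕ → Om) : Prop :=
  (∀ a, ¬ cd E a a → ρ a < β) ∧
  (∀ a, ¬ cd E a a → ∃ (φ : Fml) (s : ℕ → ℕ),
    ((lset E ρ (ρ a)).Nonempty → ∀ i, s i ∈ lset E ρ (ρ a)) ∧
    ∀ b, cd E b a ↔ b ∈ lset E ρ (ρ a) ∧ Sat (cd E') (lset E ρ (ρ a)) φ (Function.update s 0 b)) ∧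
  (∀ γ, γ < β → ∀ (φ : Fml) (s : ℕ → ℕ),
    ((lset E ρ γ).Nonempty → ∀ i, s i ∈ lset E ρ γ) → ∃ a, ¬ cd E a a ∧ ρ a ≤ γ ∧
    ∀ b, cd E b a ↔ b ∈ lset E ρ γ ∧ Sat (cd E') (lset E ρ γ) φ (Function.update s 0 b)) ∧
  (∀ a a', ¬ cd E a a → ¬ cd E a' a' → (∀ b, cd E b a ↔ cd E b a') → a = a') ∧
  (∀ a b, ¬ cd E a a → ¬ cd E b b → a ≠ b → (cd E' a b ↔ cd E a b))

/-- the predicate of the coded structure is the set `S` of ordinals -/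
def Link (E E' : ℕ → Bool) (S : Set Om) : Prop :=
  ∀ a, ¬ cd E a a → (cd E' a a ↔ ∃ α ∈ S, VN E a α)

/-- the collapse map of a coded level -/
def IsCollapseR (A : Set ZFSet.{0}) (β : Om) (E : ℕ → Bool) (π : ℕ → ZFSet.{0}) : Prop :=
  (∀ a b, ¬ cd E a a → ¬ cd E b b → (π a ∈ π b ↔ cd E a b)) ∧
  (∀ a b, ¬ cd E a a → ¬ cd E b b → π a = π b → a = b) ∧
  (∀ z, z ∈ LR A β.1 ↔ ∃ a, ¬ cd E a a ∧ π a = z)

/-- the assignment with values `b₀, ..., b₃` at `0, 1, 2, 3` and `s` elsewhere -/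
def asgN (s : ℕ → ℕ) (b₀ b₁ b₂ b₃ : ℕ) (i : ℕ) : ℕ :=
  if i = 0 then b₀ else if i = 1 then b₁ else if i = 2 then b₂ else if i = 3 then b₃ else s i

/-- the relation on the ordinals below `l` defined by `φ` over a coded level with domain `M` -/
def TC (E E' M : ℕ → Bool) (φ : Fml) (s : ℕ → ℕ) (l : Om) : T4 := fun ξ a b c =>
  ξ < l ∧ a < l ∧ b < l ∧ c < l ∧ ∃ b₀ b₁ b₂ b₃ : ℕ, VN E b₀ ξ ∧ VN E b₁ a ∧ VN E b₂ b ∧ VN E b₃ c ∧
    Sat (cd E') {x | M x = true} φ (asgN s b₀ b₁ b₂ b₃)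

end RMK
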