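import Pool.Agent.RMK.LevDefs

/-!
RMK LEVORD: the ordinals below `β` are elements of `L_β[A]`.

PROOF.  By strong induction on `β` show: for all `α < β`, `α.toZFSet ∈ LR A β`.  Let `α < β`; it is
enough to show `α.toZFSet ∈ DefSetsR A (LR A α)` (`mem_LR_iff`).  If `LR A α` is empty then `α = 0`
(otherwise `0.toZFSet ∈ LR A α` by induction) and `∅` is in `DefSetsR A ∅`.  In general `α.toZFSet` is
the set of `z ∈ LR A α` which are transitive sets of transitive sets.  Formula: with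
`ε i j := and (mem i j) (neg (eq i j))`, which is satisfied under `s` iff `s i ∈ s j` (for
`relE A x y = (x ∈ y ∨ (x = y ∧ x ∈ A))` and `x ≠ y` this is `x ∈ y`; and `x ∈ y` implies `x ≠ y`),
let `φ` say: `∀ x₁, x₁ ∈ x₀ → ∀ x₂, x₂ ∈ x₁ → x₂ ∈ x₀`, and
`∀ x₁, x₁ ∈ x₀ → ∀ x₂, x₂ ∈ x₁ → ∀ x₃, x₃ ∈ x₂ → x₃ ∈ x₁` (implication `a → b` is
`neg (and a (neg b))`).  As `LR A α` is transitive (`LR_transitive`), for `z ∈ LR A α` this says that
`z` is a transitive set of transitive sets, i.e. `z.IsOrdinal` (or: `z = γ.toZFSet` for an ordinal `γ`,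
`ZFSet.isOrdinal_iff...`/`ZFSet.IsOrdinal.toZFSet_rank`...; look at `Mathlib/SetTheory/ZFC/Ordinal.lean`
and `VonNeumann.lean`).  So the defined set consists of the `γ.toZFSet` in `LR A α`.  If `γ < α` then
`γ.toZFSet ∈ LR A α` by induction.  If `γ ≥ α` and `γ.toZFSet ∈ LR A α`, then `α.toZFSet ∈ LR A α`
(it is `γ.toZFSet` or an element of it), so `α.toZFSet ∈ DefSetsR A (LR A δ)` for some `δ < α`, whence
`δ.toZFSet ∈ LR A δ` (`δ.toZFSet ∈ α.toZFSet`); so it is convenient to prove at the same time, by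
induction on `β`, that `β.toZFSet ∉ LR A β` (if `β.toZFSet ∈ LR A β`, it is in `DefSetsR A (LR A δ)`
with `δ < β`, so all its elements, in particular `δ.toZFSet`, are in `LR A δ`, contradiction).
-/

namespace RMK

open MeasureTheory Set PU

private def eps (i j : ℕ) : Fml := .and (.mem i j) (.neg (.eq i j))

private def imp (a b : Fml) : Fml := .neg (.and a (.neg b))

private def phiO : Fml :=
  .and (.all 1 (imp (eps 1 0) (.all 2 (imp (eps 2 1) (eps 2 0)))))
    (.all 1 (imp (eps 1 0) (.all 2 (imp (eps 2 1) (.all 3 (imp (eps 3 2) (eps 3 1)))))))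

private theorem sat_eps (A M : Set ZFSet.{0}) (i j : ℕ) (s : ℕ → ZFSet.{0}) :
    Sat (relE A) M (eps i j) s ↔ s i ∈ s j := by
  constructor
  · rintro ⟨h1, h2⟩
    rcases h1 with h1 | h1
    · exact h1
    · exact absurd h1.1 h2
  · intro h
    refine ⟨Or.inl h, fun h2 => ?_⟩
    have h3 : s i = s j := h2
    rw [h3] at h
    exact ZFSet.mem_irrefl _ h

private theorem sat_imp (A M : Set ZFSet.{0}) (a b : Fml) (s : ℕ → ZFSet.{0}) :
    Sat (relE A) M (imp a b) s ↔ (Sat (relE A) M a s → Sat (relE A) M b s) := by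
  constructor
  · intro h h1
    by_contra h2
    exact h ⟨h1, h2⟩
  · rintro h ⟨h1, h2⟩
    exact h2 (h h1)

private theorem sat_all (A M : Set ZFSet.{0}) (i : ℕ) (a : Fml) (s : ℕ → ZFSet.{0}) :
    Sat (relE A) M (.all i a) s ↔ ∀ x ∈ M, Sat (relE A) M a (Function.update s i x) := Iff.rfl

private theorem sat_and (A M : Set ZFSet.{0}) (a b : Fml) (s : ℕ → ZFSet.{0}) :
    Sat (relE A) M (.and a b) s ↔ Sat (relE A) M a s ∧ Sat (relE A) M b s := Iff.rfl

private theorem sat_phiO (A M : Set ZFSet.{0}) (hM : ∀ x ∈ M, ∀ y ∈ x, y ∈ M) (s : ℕ → ZFSet.{0})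
    (z : ZFSet.{0}) (hz : z ∈ M) :
    Sat (relE A) M phiO (Function.update s 0 z) ↔ z.IsOrdinal := by
  unfold phiO
  simp only [sat_and, sat_all, sat_imp, sat_eps, Function.update_apply]
  norm_num
  constructor
  · rintro ⟨h1, h2⟩
    refine ⟨fun y hy x hx => ?_, fun {y w v} hy hw hv => ?_⟩
    · have hyM := hM z hz y hy
      exact h1 y hyM hy x (hM y hyM x hx) hx
    · have hvM := hM z hz v hv
      have hwM := hM v hvM w hw
      exact h2 v hvM hv w hwM hw y (hM w hwM y hy) hy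
  · intro h
    refine ⟨fun y _ hy x _ hx => h.isTransitive y hy hx, fun v _ hv w _ hw y _ hy =>
      h.mem_trans' hy hw hv⟩

private theorem LR_main (A : Set ZFSet.{0}) (β : Ordinal.{0}) :
    (∀ α, α < β → α.toZFSet ∈ LR A β) ∧ β.toZFSet ∉ LR A β := by
  induction β using WellFoundedLT.induction with
  | ind β ih =>
    constructor
    · intro α hα
      rw [mem_LR_iff]
      refine ⟨α, hα, ?_⟩
      obtain ⟨c, hc⟩ : ∃ c : ZFSet.{0}, (LR A α).Nonempty → c ∈ LR A α := by
        by_cases h : (LR A α).Nonempty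
        · obtain ⟨c, hc⟩ := h
          exact ⟨c, fun _ => hc⟩
        · exact ⟨∅, fun h' => absurd h' h⟩
      refine ⟨phiO, fun _ => c, fun h _ => hc h, fun z => ?_⟩
      have hT : ∀ x ∈ LR A α, ∀ y ∈ x, y ∈ LR A α := fun x hx y hy => LR_transitive hx hy
      constructor
      · intro hz
        obtain ⟨γ, hγ, rfl⟩ := Ordinal.mem_toZFSet_iff.1 hz
        have h1 := (ih α hα).1 γ hγ
        exact ⟨h1, (sat_phiO A _ hT _ _ h1).2 (ZFSet.isOrdinal_toZFSet γ)⟩
      · rintro ⟨hz, hs⟩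
        have h1 := (sat_phiO A _ hT _ _ hz).1 hs
        obtain ⟨γ, rfl⟩ : ∃ γ : Ordinal.{0}, γ.toZFSet = z := ⟨z.rank, h1.toZFSet_rank_eq⟩
        by_contra hn
        have h2 : α ≤ γ := by
          by_contra h3
          exact hn (Ordinal.toZFSet_mem_toZFSet_iff.2 (not_le.1 h3))
        apply (ih α hα).2
        rcases eq_or_lt_of_le h2 with h3 | h3
        · rw [h3]
          exact h3 ▸ hz
        · exact LR_transitive hz (Ordinal.toZFSet_mem_toZFSet_iff.2 h3)
    · intro h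
      obtain ⟨δ, hδ, φ, s, -, h2⟩ := mem_LR_iff.1 h
      exact (ih δ hδ).2 ((h2 _).1 (Ordinal.toZFSet_mem_toZFSet_iff.2 hδ)).1

theorem toZFSet_mem_LR (A : Set ZFSet.{0}) {α β : Ordinal.{0}} (h : α < β) :
    α.toZFSet ∈ LR A β := by
  exact (LR_main A β).1 α h

end RMK
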