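import Pool.Agent.RMK.LevDefs
import Pool.Agent.PU.LPc

/-!
RMK LEVSAT: being a code of a relative level is projective in the codes.  (Adapt `PU/LSat.lean` and
`PC.vn` from `PU/LPc.lean`.)

PROOF.  `PC.sat` holds for any relation code, so apply it to `E'`.  `LCodeR` is rewritten as in
`lcode_iff` (quantifiers over formulas become quantifiers over `k : ℕ` through an enumeration `d` of the
formulas (`fml_enum`), `lset E ρ γ` is replaced by a set coded by `M : ℕ → Bool` with `LM E ρ γ M`), and then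
the calculus applies.  `Link` with the set `bitSet u` is
`∀ a, ¬ cd E a a → (cd E' a a ↔ ∃ α, (α < u.len ∧ bitc (u.val α) = true) ∧ VN E a α)`.
`TC`: `asgN` is continuous in all arguments (`PCF.of_continuous` for the map
`(s, b₀, b₁, b₂, b₃) ↦ asgN s b₀ b₁ b₂ b₃` from `(ℕ → ℕ) × ℕ × ℕ × ℕ × ℕ` to `ℕ → ℕ`:
`continuous_pi`, every coordinate is one of the projections).
-/

namespace RMK

open MeasureTheory Set PU

universe u

variable {X : Type u} [Rep X]

/-- the clause relating the elements of `a` to a formula over the structure with the predicate -/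
def LClR (E E' M : ℕ → Bool) (a : ℕ) (φ : Fml) (s : ℕ → ℕ) : Prop :=
  ∀ b, cd E b a ↔ M b = true ∧ Sat (cd E') {b | M b = true} φ (Function.update s 0 b)

theorem PC.lclR (d : ℕ → Fml) {E E' M : X → ℕ → Bool} {a k : X → ℕ} {s : X → ℕ → ℕ} (hE : PCF E)
    (hE' : PCF E') (hM : PCF M) (ha : PCF a) (hk : PCF k) (hs : PCF s) :
    PC (fun x => LClR (E x) (E' x) (M x) (a x) (d (k x)) (s x)) := by
  have h : PC (fun p : (ℕ → Bool) × (ℕ → Bool) × (ℕ → Bool) × ℕ × ℕ × (ℕ → ℕ) =>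
      LClR p.1 p.2.1 p.2.2.1 p.2.2.2.1 (d p.2.2.2.2.1) p.2.2.2.2.2) := by
    unfold LClR
    repeat' with_reducible first
      | assumption
      | apply PC.and
      | apply PC.iff
      | apply PC.all
      | apply PC.cd
      | apply PC.bool
      | apply PC.sat
      | apply PCF.update
      | apply PCF.eval
      | apply PCF.fst
      | apply PCF.snd
      | apply PCF.id
  exact PC.comp h (PCF.mk hE (PCF.mk hE' (PCF.mk hM (PCF.mk ha (PCF.mk hk hs)))))

theorem lcodeR_iff (d : ℕ → Fml) (hd : Function.Surjective d) (β : Om) (E E' : ℕ → Bool)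
    (ρ : ℕ → Om) :
    LCodeR β E E' ρ ↔
    (∀ a, ¬ cd E a a → ρ a < β) ∧
    (∀ a, ¬ cd E a a → ∃ (M : ℕ → Bool) (k : ℕ) (s : ℕ → ℕ), LM E ρ (ρ a) M ∧
      ((∃ b, M b = true) → ∀ i, M (s i) = true) ∧ LClR E E' M a (d k) s) ∧
    (∀ γ, γ < β → ∀ (M : ℕ → Bool) (k : ℕ) (s : ℕ → ℕ), LM E ρ γ M →
      ((∃ b, M b = true) → ∀ i, M (s i) = true) → ∃ a, ¬ cd E a a ∧ ρ a ≤ γ ∧
      LClR E E' M a (d k) s) ∧
    (∀ a a', ¬ cd E a a → ¬ cd E a' a' → (∀ b, cd E b a ↔ cd E b a') → a = a') ∧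
    (∀ a b, ¬ cd E a a → ¬ cd E b b → a ≠ b → (cd E' a b ↔ cd E a b)) := by
  have hcl : ∀ (γ : Om) (M : ℕ → Bool), LM E ρ γ M → ∀ (a : ℕ) (φ : Fml) (s : ℕ → ℕ),
      LClR E E' M a φ s ↔ ∀ b, cd E b a ↔ b ∈ lset E ρ γ ∧
        Sat (cd E') (lset E ρ γ) φ (Function.update s 0 b) := by
    intro γ M hM a φ s
    unfold LClR
    rw [hM.eq]
    have : ∀ b, (M b = true ↔ b ∈ lset E ρ γ) := fun b => hM b
    simp only [this]
  have hne : ∀ (γ : Om) (M : ℕ → Bool), LM E ρ γ M → ∀ s : ℕ → ℕ,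
      (((∃ b, M b = true) → ∀ i, M (s i) = true) ↔
        ((lset E ρ γ).Nonempty → ∀ i, s i ∈ lset E ρ γ)) := by
    intro γ M hM s
    have h1 : ∀ b, (M b = true ↔ b ∈ lset E ρ γ) := fun b => hM b
    simp only [h1]
    exact Iff.rfl
  unfold LCodeR
  refine and_congr Iff.rfl (and_congr ?_ (and_congr ?_ Iff.rfl))
  · refine forall_congr' fun a => imp_congr Iff.rfl ?_
    constructor
    · rintro ⟨φ, s, h1, h2⟩
      obtain ⟨k, rfl⟩ := hd φ
      obtain ⟨M, hM⟩ := exists_LM E ρ (ρ a)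
      exact ⟨M, k, s, hM, (hne _ M hM s).2 h1, (hcl _ M hM a _ s).2 h2⟩
    · rintro ⟨M, k, s, hM, h1, h2⟩
      exact ⟨d k, s, (hne _ M hM s).1 h1, (hcl _ M hM a _ s).1 h2⟩
  · refine forall_congr' fun γ => imp_congr Iff.rfl ?_
    constructor
    · intro h M k s hM h1
      obtain ⟨a, ha1, ha2, ha3⟩ := h (d k) s ((hne _ M hM s).1 h1)
      exact ⟨a, ha1, ha2, (hcl _ M hM a _ s).2 ha3⟩
    · intro h φ s h1
      obtain ⟨k, rfl⟩ := hd φ
      obtain ⟨M, hM⟩ := exists_LM E ρ γ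
      obtain ⟨a, ha1, ha2, ha3⟩ := h M k s hM ((hne _ M hM s).2 h1)
      exact ⟨a, ha1, ha2, (hcl _ M hM a _ s).1 ha3⟩

theorem PC.lcodeR {β : X → Om} {E E' : X → ℕ → Bool} {ρ : X → ℕ → Om} (hβ : PCF β) (hE : PCF E)
    (hE' : PCF E') (hρ : PCF ρ) : PC (fun x => LCodeR (β x) (E x) (E' x) (ρ x)) := by
  obtain ⟨d, hd⟩ := fml_enum
  have h : PC (fun p : Om × (ℕ → Bool) × (ℕ → Bool) × (ℕ → Om) =>
      LCodeR p.1 p.2.1 p.2.2.1 p.2.2.2) := by
    refine PC.congr (fun p => (lcodeR_iff d hd p.1 p.2.1 p.2.2.1 p.2.2.2).symm) ?_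
    unfold LM
    simp only [ne_eq]
    repeat' with_reducible first
      | assumption
      | apply PC.and
      | apply PC.iff
      | apply PC.not
      | apply PC.ex
      | apply PC.all
      | apply PC.imp
      | apply PC.eq
      | apply PC.olt
      | apply PC.ole
      | apply PC.cd
      | apply PC.bool
      | apply PC.lclR
      | apply PCF.eval
      | apply PCF.fst
      | apply PCF.snd
      | apply PCF.id
      | apply PCF.const
  exact PC.comp h (PCF.mk hβ (PCF.mk hE (PCF.mk hE' hρ)))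

theorem PC.link {E E' : X → ℕ → Bool} {u : X → Seq (ℕ → Bool)} (hE : PCF E)
    (hE' : PCF E') (hu : PCF u) : PC (fun x => Link (E x) (E' x) (bitSet (u x))) := by
  have h : PC (fun p : (ℕ → Bool) × (ℕ → Bool) × Seq (ℕ → Bool) =>
      ∀ a, ¬ cd p.1 a a → (cd p.2.1 a a ↔ ∃ α : Om, (α < p.2.2.len ∧ bitc (p.2.2.val α) = true) ∧
        VN p.1 a α)) := by
    repeat' with_reducible first
      | assumption
      | apply PC.and
      | apply PC.iff
      | apply PC.not
      | apply PC.ex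
      | apply PC.all
      | apply PC.imp
      | apply PC.eq
      | apply PC.olt
      | apply PC.ole
      | apply PC.cd
      | apply PC.bool
      | apply PC.vn
      | apply PCF.bitc
      | apply PCF.val
      | apply PCF.len
      | apply PCF.fst
      | apply PCF.snd
      | apply PCF.id
      | apply PCF.const
  exact PC.comp h (PCF.mk hE (PCF.mk hE' hu))

theorem PCF.asgN {s : X → ℕ → ℕ} {b₀ b₁ b₂ b₃ : X → ℕ} (hs : PCF s) (h0 : PCF b₀) (h1 : PCF b₁)
    (h2 : PCF b₂) (h3 : PCF b₃) :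
    PCF (fun x => RMK.asgN (s x) (b₀ x) (b₁ x) (b₂ x) (b₃ x)) := by
  have h : Continuous (fun p : (ℕ → ℕ) × ℕ × ℕ × ℕ × ℕ =>
      RMK.asgN p.1 p.2.1 p.2.2.1 p.2.2.2.1 p.2.2.2.2) := by
    refine continuous_pi fun i => ?_
    unfold RMK.asgN
    split_ifs
    · exact continuous_fst.comp continuous_snd
    · exact continuous_fst.comp (continuous_snd.comp continuous_snd)
    · exact continuous_fst.comp (continuous_snd.comp (continuous_snd.comp continuous_snd))
    · exact continuous_snd.comp (continuous_snd.comp (continuous_snd.comp continuous_snd))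
    · exact (continuous_apply i).comp continuous_fst
  exact PCF.comp (g := fun p : (ℕ → ℕ) × ℕ × ℕ × ℕ × ℕ =>
    RMK.asgN p.1 p.2.1 p.2.2.1 p.2.2.2.1 p.2.2.2.2)
    (PCF.of_continuous h) (PCF.mk hs (PCF.mk h0 (PCF.mk h1 (PCF.mk h2 h3))))

theorem PC.tc (d : ℕ → Fml) {E E' M : X → ℕ → Bool} {k : X → ℕ} {s : X → ℕ → ℕ}
    {l ξ a b c : X → Om} (hE : PCF E) (hE' : PCF E') (hM : PCF M) (hk : PCF k) (hs : PCF s)
    (hl : PCF l) (hξ : PCF ξ) (ha : PCF a) (hb : PCF b) (hc : PCF c) :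
    PC (fun x => TC (E x) (E' x) (M x) (d (k x)) (s x) (l x) (ξ x) (a x) (b x) (c x)) := by
  have h : PC (fun p : (ℕ → Bool) × (ℕ → Bool) × (ℕ → Bool) × ℕ × (ℕ → ℕ) × Om × Om × Om × Om × Om =>
      TC p.1 p.2.1 p.2.2.1 (d p.2.2.2.1) p.2.2.2.2.1 p.2.2.2.2.2.1 p.2.2.2.2.2.2.1
        p.2.2.2.2.2.2.2.1 p.2.2.2.2.2.2.2.2.1 p.2.2.2.2.2.2.2.2.2) := by
    unfold TC
    repeat' with_reducible first
      | assumption
      | apply PC.and
      | apply PC.iff
      | apply PC.not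
      | apply PC.ex
      | apply PC.all
      | apply PC.imp
      | apply PC.eq
      | apply PC.olt
      | apply PC.ole
      | apply PC.cd
      | apply PC.bool
      | apply PC.vn
      | apply PC.sat
      | apply PCF.asgN
      | apply PCF.fst
      | apply PCF.snd
      | apply PCF.id
  exact PC.comp h (PCF.mk hE (PCF.mk hE' (PCF.mk hM (PCF.mk hk (PCF.mk hs (PCF.mk hl
    (PCF.mk hξ (PCF.mk ha (PCF.mk hb hc)))))))))

end RMK
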