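import Pool.Agent.RMK.LevTR
import Pool.Agent.RMK.LevSat

/-!
RMK LEVPC: the decoding relations are projective in the codes.

PROOFS.
`PCF.natO`: `natO n = α` iff `∃ h : ℕ → Om, (∀ b, h 0 ≤ b) ∧ (∀ k, Suc (h k) (h (k+1))) ∧ h n = α`
(`PC.ex`, `PC.all`, `PC.ole`, `PC.olt`, `PCF.eval`, `PCF.nat` for `k + 1`); prove
`Suc (natO k) (natO (k+1))` and the uniqueness by induction on `k`.
`PCF.nn`: `nn` is measurable `(ℕ → Bool) → ℕ` (the preimage of `k` is defined by finitely many
coordinates, and for `0` also the set where all are off): `PCF.of_measurable`.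
`pc_W`: `Cof`, `I2` and the first clauses are directly in the calculus (`PC.nat2` for `m < n` in `ℕ`).
`I1 β u f` is by `tr_iff` equivalent to
`Cof u f ∧ ∃ E E' ρ M k s ε₁ ε₂ σ, u.len ≤ β ∧ LCodeR β E E' ρ ∧ Link E E' (bitSet u) ∧ (∀ b, M b = true ↔
¬ cd E b b) ∧ (∀ i, M (s i) = true) ∧ ε₁ < u.len ∧ ε₂ < u.len ∧ σ < u.len ∧
Rule (TC E E' M (d k) s u.len) ε₁ ε₂ σ u f` for an enumeration `d` of the formulas (`fml_enum`); unfold
`Rule`, `StepAt` and use the calculus with `PC.tc`, `PC.isWO`, `PCF.rrc`, `PCF.val`, ...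
It is convenient to prove `PC` of each notion as a separate lemma of the form
`PC (fun p : A × B × .. => Notion p.1 p.2.1 ..)` and to transport it with `PC.comp` and `PCF.mk`, as in
`PU/Dec.lean`.
`PC.key`: graph of `key`: `∀ k, v k = u.val (f k.unpair.1) k.unpair.2` (`PCF.of_graph`, `PCF.unpair1`).
`PC.nx`, `PC.sxR`: as `PC.next`, `PC.sx`.
-/

namespace RMK

open MeasureTheory Set PU

universe u

variable {X : Type u} [Rep X]

private theorem suc_unique {a b c : Om} (h : Suc a b) (h' : Suc a c) : b = c := by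
  refine le_antisymm ?_ ?_
  · by_contra h1
    exact absurd (h.2 c (not_le.1 h1)) (not_le.2 h'.1)
  · by_contra h1
    exact absurd (h'.2 b (not_le.1 h1)) (not_le.2 h.1)

private theorem suc_natO (k : ℕ) : Suc (natO k) (natO (k + 1)) := by
  constructor
  · show ((k : ℕ) : Ordinal.{0}) < ((k + 1 : ℕ) : Ordinal.{0})
    exact_mod_cast Nat.lt_succ_self k
  · intro b hb
    have h1 : b.1 < ((k + 1 : ℕ) : Ordinal.{0}) := hb
    have h2 : ((k + 1 : ℕ) : Ordinal.{0}) = Order.succ ((k : ℕ) : Ordinal.{0}) := by
      rw [Nat.cast_succ, Order.succ_eq_add_one]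
    rw [h2, Order.lt_succ_iff] at h1
    exact h1

private theorem natO_zero_le (b : Om) : natO 0 ≤ b := by
  show ((0 : ℕ) : Ordinal.{0}) ≤ b.1
  rw [Nat.cast_zero]
  exact zero_le

private theorem pcsuc {a b : X → Om} (ha : PCF a) (hb : PCF b) : PC (fun x => Suc (a x) (b x)) := by
  have h : PC (fun p : Om × Om => Suc p.1 p.2) := by
    unfold Suc
    repeat' with_reducible first
      | assumption
      | apply PC.and
      | apply PC.all
      | apply PC.imp
      | apply PC.olt
      | apply PC.ole
      | apply PCF.fst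
      | apply PCF.snd
      | apply PCF.id
  exact PC.comp h (PCF.mk ha hb)

theorem PCF.natO {n : X → ℕ} (hn : PCF n) : PCF (fun x => natO (n x)) := by
  have h : PCF (fun n : ℕ => RMK.natO n) := by
    refine PCF.of_graph (T := fun n α => ∃ h : ℕ → Om, (∀ b, h 0 ≤ b) ∧
      (∀ k, Suc (h k) (h (k + 1))) ∧ h n = α) ?_ ?_
    · repeat' with_reducible first
        | assumption
        | apply PC.and
        | apply PC.ex
        | apply PC.all
        | apply PC.imp
        | apply PC.ole
        | apply pcsuc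
        | apply PC.eq
        | apply PCF.eval
        | apply PCF.fst
        | apply PCF.snd
        | apply PCF.id
        | apply PCF.const
    · intro n α
      constructor
      · rintro ⟨h, h1, h2, h3⟩
        have h4 : ∀ k, h k = RMK.natO k := by
          intro k
          induction k with
          | zero => exact le_antisymm (h1 _) (natO_zero_le _)
          | succ k ih =>
            have h5 := h2 k
            rw [ih] at h5
            exact suc_unique h5 (suc_natO k)
        rw [← h4 n, h3]
      · intro h1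
        exact ⟨RMK.natO, natO_zero_le, suc_natO, h1⟩
  exact PCF.comp h hn

theorem PCF.nn {f : X → ℕ → Bool} (hf : PCF f) : PCF (fun x => nn (f x)) := by
  have h : PCF (fun w : ℕ → Bool => RMK.nn w) := by
    refine PCF.of_graph (T := fun w k => (rrc w k = true ∧ ∀ j : ℕ, j < k → ¬ rrc w j = true) ∨
      (k = 0 ∧ ∀ j : ℕ, ¬ rrc w j = true)) ?_ ?_
    · repeat' with_reducible first
        | assumption
        | apply PC.and
        | apply PC.or
        | apply PC.not
        | apply PC.all
        | apply PC.imp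
        | apply PC.bool
        | apply PC.eq
        | apply PC.nat2 (S := fun a b => a < b)
        | apply PCF.eval
        | apply PCF.rrc
        | apply PCF.fst
        | apply PCF.snd
        | apply PCF.id
        | apply PCF.const
    · intro w k
      classical
      by_cases hw : ∃ n, rrc w n = true
      · have e : RMK.nn w = Nat.find hw := by
          unfold RMK.nn
          rw [dif_pos hw]
        rw [e]
        constructor
        · rintro (⟨h1, h2⟩ | ⟨-, h2⟩)
          · exact (Nat.find_eq_iff hw).2 ⟨h1, h2⟩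
          · obtain ⟨n, hn⟩ := hw
            exact absurd hn (h2 n)
        · intro h1
          exact Or.inl ((Nat.find_eq_iff hw).1 h1)
      · have e : RMK.nn w = 0 := by
          unfold RMK.nn
          rw [dif_neg hw]
        rw [e]
        push Not at hw
        constructor
        · rintro (⟨h1, -⟩ | ⟨h1, -⟩)
          · exact absurd h1 (hw k)
          · exact h1.symm
        · intro h1
          exact Or.inr ⟨h1.symm, hw⟩
  exact PCF.comp h hf

private theorem pccof {u : X → Seq (ℕ → Bool)} {f : X → ℕ → Om} (hu : PCF u) (hf : PCF f) :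
    PC (fun x => Cof (u x) (f x)) := by
  have h : PC (fun p : Seq (ℕ → Bool) × (ℕ → Om) => Cof p.1 p.2) := by
    unfold Cof
    repeat' with_reducible first
      | assumption
      | apply PC.and
      | apply PC.ex
      | apply PC.all
      | apply PC.imp
      | apply PC.olt
      | apply PCF.eval
      | apply PCF.len
      | apply PCF.fst
      | apply PCF.snd
      | apply PCF.id
  exact PC.comp h (PCF.mk hu hf)

/-- the parameters of a coded relation -/
private abbrev Par : Type 1 :=
  (ℕ → Bool) × (ℕ → Bool) × (ℕ → Bool) × ℕ × (ℕ → ℕ) × Om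

/-- the coded relation -/
private def TP (d : ℕ → Fml) (p : Par) : T4 :=
  TC p.1 p.2.1 p.2.2.1 (d p.2.2.2.1) p.2.2.2.2.1 p.2.2.2.2.2

private theorem pctp (d : ℕ → Fml) {p : X → Par} {ξ a b c : X → Om} (hp : PCF p)
    (hξ : PCF ξ) (ha : PCF a) (hb : PCF b) (hc : PCF c) :
    PC (fun x => TP d (p x) (ξ x) (a x) (b x) (c x)) :=
  PC.tc d hp.fst hp.snd.fst hp.snd.snd.fst hp.snd.snd.snd.fst hp.snd.snd.snd.snd.fst
    hp.snd.snd.snd.snd.snd hξ ha hb hc

private theorem pcstep (d : ℕ → Fml) {p : X → Par} {ε₁ ε₂ : X → Om} {u : X → Seq (ℕ → Bool)}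
    {α α' : X → Om} (hp : PCF p) (h1 : PCF ε₁) (h2 : PCF ε₂) (hu : PCF u) (hα : PCF α)
    (hα' : PCF α') : PC (fun x => StepAt (TP d (p x)) (ε₁ x) (ε₂ x) (u x) (α x) (α' x)) := by
  have h : PC (fun q : Par × Om × Om × Seq (ℕ → Bool) × Om × Om =>
      StepAt (TP d q.1) q.2.1 q.2.2.1 q.2.2.2.1 q.2.2.2.2.1 q.2.2.2.2.2) := by
    unfold StepAt
    repeat' with_reducible first
      | assumption
      | apply PC.and
      | apply PC.iff
      | apply PC.ex
      | apply PC.all
      | apply PC.imp
      | apply PC.olt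
      | apply PC.ole
      | apply PC.isWO
      | apply PC.bool
      | apply pctp
      | apply PCF.rrc
      | apply PCF.natO
      | apply PCF.eval
      | apply PCF.val
      | apply PCF.len
      | apply PCF.fst
      | apply PCF.snd
      | apply PCF.id
      | apply PCF.const
  exact PC.comp h (PCF.mk hp (PCF.mk h1 (PCF.mk h2 (PCF.mk hu (PCF.mk hα hα')))))

private theorem pcrule (d : ℕ → Fml) {p : X → Par} {ε₁ ε₂ σ : X → Om} {u : X → Seq (ℕ → Bool)}
    {f : X → ℕ → Om} (hp : PCF p) (h1 : PCF ε₁) (h2 : PCF ε₂) (hσ : PCF σ) (hu : PCF u)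
    (hf : PCF f) : PC (fun x => Rule (TP d (p x)) (ε₁ x) (ε₂ x) (σ x) (u x) (f x)) := by
  have h : PC (fun q : Par × Om × Om × Om × Seq (ℕ → Bool) × (ℕ → Om) =>
      Rule (TP d q.1) q.2.1 q.2.2.1 q.2.2.2.1 q.2.2.2.2.1 q.2.2.2.2.2) := by
    unfold Rule
    repeat' with_reducible first
      | assumption
      | apply PC.and
      | apply PC.iff
      | apply PC.not
      | apply PC.ex
      | apply PC.all
      | apply PC.imp
      | apply PC.olt
      | apply PC.ole
      | apply pcstep
      | apply PC.eq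
      | apply PCF.eval
      | apply PCF.fst
      | apply PCF.snd
      | apply PCF.id
      | apply PCF.const
  exact PC.comp h (PCF.mk hp (PCF.mk h1 (PCF.mk h2 (PCF.mk hσ (PCF.mk hu hf)))))

private theorem i1_iff {d : ℕ → Fml} (hd : Function.Surjective d) (β : Om)
    (u : Seq (ℕ → Bool)) (f : ℕ → Om) : I1 β u f ↔ Cof u f ∧ u.len ≤ β ∧
      ∃ (E E' : ℕ → Bool) (ρ : ℕ → Om) (M : ℕ → Bool) (k : ℕ) (s : ℕ → ℕ) (ε₁ ε₂ σ : Om),
        LCodeR β E E' ρ ∧ Link E E' (bitSet u) ∧ (∀ b, M b = true ↔ ¬ cd E b b) ∧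
        (∀ i, M (s i) = true) ∧ ε₁ < u.len ∧ ε₂ < u.len ∧ σ < u.len ∧
        Rule (TP d (E, E', M, k, s, u.len)) ε₁ ε₂ σ u f := by
  unfold I1
  refine and_congr Iff.rfl ?_
  constructor
  · rintro ⟨T, ε₁, ε₂, σ, hT, h1, h2, h3, h4⟩
    obtain ⟨h5, E, E', ρ, M, k, s, h6, h7, h8, h9, h10⟩ := (tr_iff hd u β T).1 hT
    subst h10
    exact ⟨h5, E, E', ρ, M, k, s, ε₁, ε₂, σ, h6, h7, h8, h9, h1, h2, h3, h4⟩
  · rintro ⟨h5, E, E', ρ, M, k, s, ε₁, ε₂, σ, h6, h7, h8, h9, h1, h2, h3, h4⟩
    exact ⟨_, ε₁, ε₂, σ, (tr_iff hd u β _).2 ⟨h5, E, E', ρ, M, k, s, h6, h7, h8, h9, rfl⟩,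
      h1, h2, h3, h4⟩

theorem pc_I1 : PC (fun p : Om × Seq (ℕ → Bool) × (ℕ → Om) => I1 p.1 p.2.1 p.2.2) := by
  obtain ⟨d, hd⟩ := fml_enum
  refine PC.congr (fun p => (i1_iff hd p.1 p.2.1 p.2.2).symm) ?_
  repeat' with_reducible first
    | assumption
    | apply PC.and
    | apply PC.iff
    | apply PC.not
    | apply PC.ex
    | apply PC.all
    | apply PC.imp
    | apply PC.olt
    | apply PC.ole
    | apply PC.lcodeR
    | apply PC.link
    | apply pccof
    | refine pcrule d (PCF.mk ?_ (PCF.mk ?_ (PCF.mk ?_ (PCF.mk ?_ (PCF.mk ?_ ?_))))) ?_ ?_ ?_ ?_ ?_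
    | apply PC.cd
    | apply PC.bool
    | apply PCF.eval
    | apply PCF.len
    | apply PCF.fst
    | apply PCF.snd
    | apply PCF.id

private theorem pci1 {β : X → Om} {u : X → Seq (ℕ → Bool)} {f : X → ℕ → Om} (hβ : PCF β)
    (hu : PCF u) (hf : PCF f) : PC (fun x => I1 (β x) (u x) (f x)) :=
  PC.comp pc_I1 (PCF.mk hβ (PCF.mk hu hf))

private theorem pci2 {u : X → Seq (ℕ → Bool)} {f : X → ℕ → Om} (hu : PCF u) (hf : PCF f) :
    PC (fun x => I2 (u x) (f x)) := by
  have h : PC (fun p : Seq (ℕ → Bool) × (ℕ → Om) => I2 p.1 p.2) := by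
    unfold I2
    repeat' with_reducible first
      | assumption
      | apply PC.and
      | apply PC.iff
      | apply PC.ex
      | apply PC.all
      | apply PC.imp
      | apply PC.olt
      | apply PC.ole
      | apply pccof
      | apply PC.eq
      | apply PC.nat2 (S := fun a b => a < b)
      | apply PCF.nn
      | apply PCF.eval
      | apply PCF.val
      | apply PCF.len
      | apply PCF.fst
      | apply PCF.snd
      | apply PCF.id
  exact PC.comp h (PCF.mk hu hf)

theorem pc_W : PC (fun p : Seq (ℕ → Bool) × (ℕ → Om) => W p.1 p.2) := by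
  unfold W
  repeat' with_reducible first
    | assumption
    | apply PC.and
    | apply PC.or
    | apply PC.iff
    | apply PC.not
    | apply PC.ex
    | apply PC.all
    | apply PC.imp
    | apply PC.olt
    | apply PC.ole
    | apply pccof
    | apply pci1
    | apply pci2
    | apply PC.eq
    | apply PCF.natO
    | apply PCF.eval
    | apply PCF.len
    | apply PCF.fst
    | apply PCF.snd
    | apply PCF.id
    | apply PCF.const

private theorem pcw {u : X → Seq (ℕ → Bool)} {f : X → ℕ → Om} (hu : PCF u) (hf : PCF f) :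
    PC (fun x => W (u x) (f x)) := PC.comp pc_W (PCF.mk hu hf)

private theorem pckey {u : X → Seq (ℕ → Bool)} {f : X → ℕ → Om} (hu : PCF u) (hf : PCF f) :
    PCF (fun x => key (u x) (f x)) := by
  have h : PCF (fun p : Seq (ℕ → Bool) × (ℕ → Om) => key p.1 p.2) := by
    refine PCF.of_graph (T := fun p v => ∀ k : ℕ, p.1.val (p.2 k.unpair.1) k.unpair.2 = v k) ?_ ?_
    · repeat' with_reducible first
        | assumption
        | apply PC.all
        | apply PC.eq
        | apply PCF.eval
        | apply PCF.unpair1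
        | apply PCF.unpair2
        | apply PCF.val
        | apply PCF.fst
        | apply PCF.snd
        | apply PCF.id
    · intro p v
      constructor
      · intro h1
        exact funext h1
      · rintro rfl k
        rfl
  exact PCF.comp h (PCF.mk hu hf)

theorem PC.nx {x : X → ℕ → Bool} {u : X → Seq (ℕ → Bool)} {y : X → ℕ → Bool} (hx : PCF x)
    (hu : PCF u) (hy : PCF y) : PC (fun p => Nx (x p) (u p) (y p)) := by
  have h : PC (fun p : (ℕ → Bool) × Seq (ℕ → Bool) × (ℕ → Bool) => Nx p.1 p.2.1 p.2.2) := by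
    unfold Nx
    repeat' with_reducible first
      | assumption
      | apply PC.and
      | apply PC.ex
      | apply PC.all
      | apply PC.imp
      | apply PC.eq
      | apply PC.isWO
      | apply pcsuc
      | apply pcw
      | apply PCF.theta
      | apply pckey
      | apply PCF.qqc
      | apply PCF.len
      | apply PCF.fst
      | apply PCF.snd
      | apply PCF.id
  exact PC.comp h (PCF.mk hx (PCF.mk hu hy))

theorem PC.sxR {x : X → ℕ → Bool} {l : X → Om} {y : X → ℕ → Bool} (hx : PCF x)
    (hl : PCF l) (hy : PCF y) : PC (fun p => SxR (x p) (l p) (y p)) := by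
  have h : PC (fun p : (ℕ → Bool) × Om × (ℕ → Bool) => SxR p.1 p.2.1 p.2.2) := by
    unfold SxR DecR
    repeat' with_reducible first
      | assumption
      | apply PC.and
      | apply PC.ex
      | apply PC.all
      | apply PC.imp
      | apply PC.eq
      | apply PC.olt
      | apply PC.nx
      | apply PCF.val
      | apply PCF.len
      | apply PCF.restr
      | apply PCF.fst
      | apply PCF.snd
      | apply PCF.id
  exact PC.comp h (PCF.mk hx (PCF.mk hl hy))

end RMK
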