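import Pool.Agent.RMK.LevEx
import Pool.Agent.RMK.LevOrd

/-!
RMK LEVTR: the relations definable over a relative level, in terms of codes.

PROOF.  (→) Let `TR u β T` by `φ`, `s`.  Take codes `E, E', ρ` of the level `β` for `S = bitSet u`
(`exists_lcodeR`), their collapse `π` (`LCodeR.collapse`), `M b = decide (¬ cd E b b)`, `k` with
`d k = φ`, and `s' i` in the domain with `π (s' i) = s i`.  For `ξ, a, b, c < u.len ≤ β` the ordinals
`ξ.1.toZFSet`, ... are in the level (`toZFSet_mem_LR`), so there are `b₀, ..., b₃` in the domain with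
`π b₀ = ξ.1.toZFSet` etc., i.e. `VN E b₀ ξ` etc. (and conversely, and they are unique), and
`Sat (relE (ords S)) (LR ..) φ (asg s ξ a b c) ↔ Sat (cd E') {x | M x = true} φ (asgN s' b₀ b₁ b₂ b₃)`
by `sat_iso` (the assignment `fun i => π (asgN s' b₀ b₁ b₂ b₃ i)` is `asg s ξ a b c`).
(←) The same computation read backwards, with `s i = π (s' i)`.
-/

namespace RMK

open MeasureTheory Set PU

private theorem tr_key {E E' : ℕ → Bool} {ρ : ℕ → Om} {β : Om} {S : Set Om}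
    (hE : LCodeR β E E' ρ) (hl : Link E E' S) {M : ℕ → Bool}
    (hM : ∀ b, M b = true ↔ ¬ cd E b b) {π : ℕ → ZFSet.{0}} (hc : IsCollapseR (ords S) β E π)
    (hVN : ∀ b α, VN E b α ↔ ¬ cd E b b ∧ π b = α.1.toZFSet)
    (hrel : ∀ a b, ¬ cd E a a → ¬ cd E b b → (relE (ords S) (π a) (π b) ↔ cd E' a b))
    (φ : Fml) (s : ℕ → ℕ) (hs : ∀ i, M (s i) = true) {l : Om} (hlβ : l ≤ β) (ξ a b c : Om) :
    TC E E' M φ s l ξ a b c ↔ ξ < l ∧ a < l ∧ b < l ∧ c < l ∧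
      Sat (relE (ords S)) (LR (ords S) β.1) φ (asg (fun i => π (s i)) ξ a b c) := by
  obtain ⟨c1, c2, c3⟩ := hc
  have hiso : ∀ t : ℕ → ℕ, (∀ i, M (t i) = true) →
      (Sat (relE (ords S)) (LR (ords S) β.1) φ (fun i => π (t i)) ↔
        Sat (cd E') {x | M x = true} φ t) := by
    intro t ht
    refine sat_iso π ?_ ?_ ?_ ?_ φ t ht
    · intro x hx
      exact (c3 _).2 ⟨x, (hM x).1 hx, rfl⟩
    · intro z hz
      obtain ⟨x, hx, rfl⟩ := (c3 z).1 hz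
      exact ⟨x, (hM x).2 hx, rfl⟩
    · intro x hx y hy
      exact hrel x y ((hM x).1 hx) ((hM y).1 hy)
    · intro x hx y hy
      exact c2 x y ((hM x).1 hx) ((hM y).1 hy)
  have hasg : ∀ b₀ b₁ b₂ b₃ : ℕ, VN E b₀ ξ → VN E b₁ a → VN E b₂ b → VN E b₃ c →
      (Sat (relE (ords S)) (LR (ords S) β.1) φ (asg (fun i => π (s i)) ξ a b c) ↔
        Sat (cd E') {x | M x = true} φ (asgN s b₀ b₁ b₂ b₃)) := by
    intro b₀ b₁ b₂ b₃ h0 h1 h2 h3
    have e0 := (hVN _ _).1 h0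
    have e1 := (hVN _ _).1 h1
    have e2 := (hVN _ _).1 h2
    have e3 := (hVN _ _).1 h3
    have h4 := hiso (asgN s b₀ b₁ b₂ b₃) (by
      intro i
      unfold asgN
      split_ifs
      · exact (hM _).2 e0.1
      · exact (hM _).2 e1.1
      · exact (hM _).2 e2.1
      · exact (hM _).2 e3.1
      · exact hs i)
    rw [← h4]
    have h5 : (fun i => π (asgN s b₀ b₁ b₂ b₃ i)) = asg (fun i => π (s i)) ξ a b c := by
      funext i
      unfold asgN asg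
      split_ifs
      · exact e0.2
      · exact e1.2
      · exact e2.2
      · exact e3.2
      · rfl
    rw [h5]
  have hex : ∀ α : Om, α < l → ∃ x, VN E x α := by
    intro α hα
    have h1 : α.1 < β.1 := lt_of_lt_of_le hα hlβ
    obtain ⟨x, hx, hx2⟩ := (c3 _).1 (toZFSet_mem_LR (ords S) h1)
    exact ⟨x, (hVN _ _).2 ⟨hx, hx2⟩⟩
  constructor
  · rintro ⟨h1, h2, h3, h4, b₀, b₁, b₂, b₃, h5, h6, h7, h8, h9⟩
    exact ⟨h1, h2, h3, h4, (hasg _ _ _ _ h5 h6 h7 h8).2 h9⟩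
  · rintro ⟨h1, h2, h3, h4, h5⟩
    obtain ⟨b₀, h6⟩ := hex ξ h1
    obtain ⟨b₁, h7⟩ := hex a h2
    obtain ⟨b₂, h8⟩ := hex b h3
    obtain ⟨b₃, h9⟩ := hex c h4
    exact ⟨h1, h2, h3, h4, b₀, b₁, b₂, b₃, h6, h7, h8, h9, (hasg _ _ _ _ h6 h7 h8 h9).1 h5⟩

theorem tr_iff {d : ℕ → Fml} (hd : Function.Surjective d) (u : Seq (ℕ → Bool)) (β : Om) (T : T4) :
    TR u β T ↔ u.len ≤ β ∧ ∃ (E E' : ℕ → Bool) (ρ : ℕ → Om) (M : ℕ → Bool) (k : ℕ) (s : ℕ → ℕ),
      LCodeR β E E' ρ ∧ Link E E' (bitSet u) ∧ (∀ b, M b = true ↔ ¬ cd E b b) ∧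
      (∀ i, M (s i) = true) ∧ T = TC E E' M (d k) s u.len := by
  classical
  constructor
  · rintro ⟨hlen, φ, s, hs, hT⟩
    obtain ⟨E, E', ρ, hE, hl⟩ := exists_lcodeR (bitSet u) β
    obtain ⟨π, hc, hVN, hrel⟩ := hE.collapse hl
    obtain ⟨k, rfl⟩ := hd φ
    have h1 : ∀ i, ∃ a, ¬ cd E a a ∧ π a = s i := fun i => (hc.2.2 _).1 (hs i)
    choose s' hs1 hs2 using h1
    have hM : ∀ b, (fun b => decide (¬ cd E b b)) b = true ↔ ¬ cd E b b := by
      intro b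
      simp
    refine ⟨hlen, E, E', ρ, fun b => decide (¬ cd E b b), k, s', hE, hl, hM,
      fun i => (hM _).2 (hs1 i), ?_⟩
    funext ξ a b c
    apply propext
    rw [hT, tr_key hE hl hM hc hVN hrel (d k) s' (fun i => (hM _).2 (hs1 i)) hlen]
    have h2 : (fun i => π (s' i)) = s := funext hs2
    rw [h2]
  · rintro ⟨hlen, E, E', ρ, M, k, s, hE, hl, hM, hs, rfl⟩
    obtain ⟨π, hc, hVN, hrel⟩ := hE.collapse hl
    refine ⟨hlen, d k, fun i => π (s i), fun i => (hc.2.2 _).2 ⟨s i, (hM _).1 (hs i), rfl⟩, ?_⟩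
    intro ξ a b c
    exact tr_key hE hl hM hc hVN hrel (d k) s hs hlen ξ a b c

end RMK
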