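import Pool.Agent.RMK.PDefs

/-!
RMK MDC: calculus of definable predicates and functions over a model (definitions in `PDefs.lean`;
Mathlib: `Mathlib/ModelTheory/Definability.lean`).  Nothing here uses `ZModel`; `M` is any class of
sets, `LSet`/`memStr` are in `Defs.lean`.

PROOFS.
`congr`: the sets are equal.  `const`: `definable_univ`, `definable_empty`.  `not`, `and`, `or`, ...:
`Set.Definable.compl`, `.inter`, `.union`, ....
`MD.ex`: `Set.Definable.exists_of_finite` with `β = Ctx.ι M ↥M = Unit` (finite): the variables of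
`X × M` are `Ctx.ι M X ⊕ Unit` and `Ctx.e (x, y) = Sum.elim (Ctx.e x) (fun _ => y)`, so `Ctx.e.symm
(Sum.elim v u) = (Ctx.e.symm v, u ())`.  (All the equivalences reduce by `rfl` or `simp` after
`obtain ⟨x, rfl⟩ := Ctx.e.surjective v`.)  `MD.all`: negation.
`MD.mem`, `MD.eq` for coordinates: for variables `i j` of a context the set `{v | (v i).1 ∈ (v j).1}` is
defined by the formula `(Relations) MemSym.mem` applied to the two variables (`Relations.formula₂`,
`memStr`), and `{v | v i = v j}` by `Term.equal`.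
`MD.comp` (the main point; the index types are arbitrary, `Ctx.ι M Y` may be infinite).  Let `φ` be a
formula over `LSet[[univ]]` in variables `Ctx.ι M Y` defining `P`.  Let `ψ = φ.restrictFreeVar ..` be
the same formula with variables in the finite set `F = φ.freeVarFinset`
(`BoundedFormula.realize_restrictFreeVar`; see the proof of `Set.definable_iff_finitely_definable`
for a use): `ψ.Realize (fun j : F => v j) ↔ φ.Realize v`.  Then
`P (f x) ↔ ∃ u : F → M, (∀ j : F, u j = Ctx.e (f x) j) ∧ ψ.Realize u`.  Apply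
`Set.Definable.exists_of_finite` with `α = Ctx.ι M X`, `β = F`: the set of `w : Ctx.ι M X ⊕ F → M` with
`∀ j, w (inr j) = Ctx.e (f (Ctx.e.symm (w ∘ inl))) j` is a finite intersection
(`Set.definable_iInter_of_finite`) of preimages (`Set.Definable.preimage_comp` along the map
`Ctx.ι M X ⊕ Unit → Ctx.ι M X ⊕ F`, `inl i ↦ inl i`, `inr () ↦ inr j`) of the graphs given by `hf j`, and
the set of `w` with `ψ.Realize (w ∘ inr)` is `Set.Definable.preimage_comp` of the set defined by `ψ`.
`MD.eq`, `MD.mem` for functions: compose (`MD.comp`) the coordinate statements on `M × M` with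
`x ↦ (f x, g x)`.  `DFc.of_graph`, `DFc.graph`: the only coordinate of `M` is `()`, up to `rfl`.
`DFc.const`: the graph is `{(x, z) | z = a}`, defined by a formula with the constant `a`.
`DFc.id`, `fst`, `snd`: coordinates are coordinates.  For `fst` and `snd` of a composite: coordinate `j`
of `(f x).1` is coordinate `inl j` of `f x`.  `DFc.mk`: cases on the coordinate `inl j`/`inr j`.
`DFc.comp`: the graph of `x ↦ Ctx.e (g (f x)) j` is `{(x, z) | (f x, z) ∈ graph of y ↦ Ctx.e (g y) j}`;
use `MD.comp` with the map `(x, z) ↦ (f x, z)` (`DFc.mk` of `DFc` of `(x, z) ↦ f x` and `snd`).  First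
prove `MD.comp` and the weakening `DFc M f → DFc M (fun p : X × Z => f p.1)` by
`Set.Definable.preimage_comp`.
`DFc.nat`, `DFc.app`, `DFc.scons`: coordinates of `ℕ → M` are natural numbers and `Ctx.e = id`.
-/

namespace RMK

open Set FirstOrder FirstOrder.Language

variable {M : Set ZFSet.{0}} {X Y Z : Type 1} [Ctx M X] [Ctx M Y] [Ctx M Z]

section raw

variable {α β : Type}

private theorem eq_raw (i j : α) :
    (Set.univ : Set M).Definable LSet {v : α → M | v i = v j} :=
  ⟨(Term.var i).equal (Term.var j), by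
    ext v
    simp⟩

private theorem mem_raw (i j : α) :
    (Set.univ : Set M).Definable LSet {v : α → M | (v i).1 ∈ (v j).1} := by
  have h : (∅ : Set M).Definable LSet {v : α → M | (v i).1 ∈ (v j).1} := by
    rw [empty_definable_iff]
    refine ⟨Relations.formula₂ (L := LSet) (MemSym.mem : LSet.Relations 2) (Term.var i)
      (Term.var j), ?_⟩
    ext v
    rw [Set.mem_ofPred_eq, Set.mem_ofPred_eq, Formula.realize_rel₂]
    exact Iff.rfl
  exact h.mono (Set.empty_subset _)

private theorem const_raw (i : α) (a : M) :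
    (Set.univ : Set M).Definable LSet {v : α → M | v i = a} := by
  have h : (Set.univ : Set M).Definable₁ LSet {a} :=
    Definable.singleton_of_mem LSet (Set.mem_univ a)
  exact Definable.preimage_comp (fun _ : Fin 1 => i) h

open Classical in
private theorem comp_raw {S : Set (β → M)} (hS : (Set.univ : Set M).Definable LSet S)
    {F : (α → M) → (β → M)}
    (hF : ∀ j : β, (Set.univ : Set M).Definable LSet
      {w : α ⊕ Unit → M | w (Sum.inr ()) = F (w ∘ Sum.inl) j}) :
    (Set.univ : Set M).Definable LSet {v : α → M | F v ∈ S} := by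
  obtain ⟨φ, rfl⟩ := hS
  have h1 : ∀ j : φ.freeVarFinset, (Set.univ : Set M).Definable LSet
      {w : α ⊕ φ.freeVarFinset → M | w (Sum.inr j) = F (w ∘ Sum.inl) j} := fun j =>
    (hF j).preimage_comp (Sum.map id (fun _ : Unit => j))
  have h2 : (Set.univ : Set M).Definable LSet
      {u : φ.freeVarFinset → M | Formula.Realize (BoundedFormula.restrictFreeVar φ id) u} := ⟨_, rfl⟩
  have h3 := h2.preimage_comp (Sum.inr : φ.freeVarFinset → α ⊕ φ.freeVarFinset)
  have h4 := (definable_iInter_of_finite h1).inter h3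
  have h5 := h4.exists_of_finite
  have h6 : {v : α → M | F v ∈ (Set.ofPred φ.Realize : Set (β → M))} =
      {v : α → M | ∃ u : φ.freeVarFinset → M, Sum.elim v u ∈
        (⋂ j : φ.freeVarFinset,
          {w : α ⊕ φ.freeVarFinset → M | w (Sum.inr j) = F (w ∘ Sum.inl) j}) ∩
        ((fun g : α ⊕ φ.freeVarFinset → M => g ∘ Sum.inr) ⁻¹'
          {u : φ.freeVarFinset → M | Formula.Realize (BoundedFormula.restrictFreeVar φ id) u})} := by
    ext v
    have key : ∀ u : φ.freeVarFinset → M, (∀ j : φ.freeVarFinset, u j = F v j) →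
        (Formula.Realize (BoundedFormula.restrictFreeVar φ id) u ↔ φ.Realize (F v)) := by
      intro u hu
      exact BoundedFormula.realize_restrictFreeVar _ (fun a => hu a)
    constructor
    · intro hv
      refine ⟨fun j => F v j, Set.mem_iInter.2 fun j => rfl, ?_⟩
      exact (key _ fun _ => rfl).2 hv
    · rintro ⟨u, hu1, hu2⟩
      exact (key u fun j => Set.mem_iInter.1 hu1 j).1 hu2
  rw [h6]
  exact h5

end raw

private theorem congr' {P Q : X → Prop} (h : ∀ x, P x ↔ Q x) (hP : MD M P) : MD M Q := by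
  have e : P = Q := funext fun x => propext (h x)
  rwa [← e]

private theorem comp' {P : Y → Prop} (hP : MD M P) {f : X → Y} (hf : DFc M f) :
    MD M fun x => P (f x) := by
  unfold MD at hP ⊢
  have h := comp_raw (α := Ctx.ι M X) (F := fun v => Ctx.e (M := M) (f (Ctx.e.symm v))) hP
    (fun j => hf j)
  have e : {v : Ctx.ι M X → M | P (f (Ctx.e.symm v))} =
      {v | Ctx.e (M := M) (f (Ctx.e.symm v)) ∈ {v : Ctx.ι M Y → M | P (Ctx.e.symm v)}} := by
    ext v
    rw [Set.mem_ofPred_eq, Set.mem_ofPred_eq, Set.mem_ofPred_eq, Equiv.symm_apply_apply]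
  rw [e]
  exact h

private theorem mk' {f : X → Y} {g : X → Z} (hf : DFc M f) (hg : DFc M g) :
    DFc M fun x => (f x, g x) := by
  rintro (j | j)
  · exact hf j
  · exact hg j

private theorem eqM : MD M fun p : M × M => p.1 = p.2 := eq_raw (Sum.inl ()) (Sum.inr ())

private theorem memM : MD M fun p : M × M => (p.1).1 ∈ (p.2).1 :=
  mem_raw (Sum.inl ()) (Sum.inr ())

private theorem weak {f : X → Y} (hf : DFc M f) : DFc M fun p : X × Z => f p.1 := fun j =>
  (hf j).preimage_comp (Sum.elim (fun i : Ctx.ι M X => Sum.inl (Sum.inl i)) fun _ => Sum.inr ())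

private theorem graph' {f : X → M} (h : DFc M f) : MD M fun p : X × M => p.2 = f p.1 := h ()

private theorem of_graph' {f : X → M} (h : MD M fun p : X × M => p.2 = f p.1) : DFc M f :=
  fun _ => h

theorem MD.congr {P Q : X → Prop} (h : ∀ x, P x ↔ Q x) (hP : MD M P) : MD M Q := by
  exact congr' h hP

theorem MD.const (p : Prop) : MD M fun _ : X => p := by
  by_cases h : p
  · refine congr' (P := fun _ => True) (fun _ => ⟨fun _ => h, fun _ => trivial⟩) ?_
    exact definable_univ
  · refine congr' (P := fun _ => False) (fun _ => ⟨fun h' => h'.elim, fun h' => h h'⟩) ?_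
    exact definable_empty

theorem MD.not {P : X → Prop} (hP : MD M P) : MD M fun x => ¬ P x := by
  exact Definable.compl hP

theorem MD.and {P Q : X → Prop} (hP : MD M P) (hQ : MD M Q) : MD M fun x => P x ∧ Q x := by
  exact Definable.inter hP hQ

theorem MD.or {P Q : X → Prop} (hP : MD M P) (hQ : MD M Q) : MD M fun x => P x ∨ Q x := by
  exact Definable.union hP hQ

theorem MD.imp {P Q : X → Prop} (hP : MD M P) (hQ : MD M Q) : MD M fun x => P x → Q x := by
  exact congr' (fun x => imp_iff_not_or.symm) (MD.or (MD.not hP) hQ)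

theorem MD.iff {P Q : X → Prop} (hP : MD M P) (hQ : MD M Q) : MD M fun x => P x ↔ Q x := by
  exact congr' (fun x => iff_iff_implies_and_implies.symm) (MD.and (MD.imp hP hQ) (MD.imp hQ hP))

theorem MD.ex {P : X → M → Prop} (h : MD M fun p : X × M => P p.1 p.2) :
    MD M fun x => ∃ y, P x y := by
  unfold MD at h ⊢
  have h1 := Definable.exists_of_finite (α := Ctx.ι M X) (β := Unit) h
  have e : {v : Ctx.ι M X → M | ∃ y, P (Ctx.e.symm v) y} = {v : Ctx.ι M X → M |
      ∃ u : Unit → M, P (Ctx.e.symm v) (u ())} := by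
    ext v
    exact ⟨fun ⟨y, hy⟩ => ⟨fun _ => y, hy⟩, fun ⟨u, hu⟩ => ⟨u (), hu⟩⟩
  rw [e]
  exact h1

theorem MD.all {P : X → M → Prop} (h : MD M fun p : X × M => P p.1 p.2) :
    MD M fun x => ∀ y, P x y := by
  refine congr' (P := fun x => ¬ ∃ y, ¬ P x y) (fun x => not_exists_not) ?_
  exact MD.not (MD.ex (P := fun x y => ¬ P x y) (MD.not h))

theorem MD.comp {P : Y → Prop} (hP : MD M P) {f : X → Y} (hf : DFc M f) :
    MD M fun x => P (f x) := by
  exact comp' hP hf

theorem MD.eq {f g : X → M} (hf : DFc M f) (hg : DFc M g) : MD M fun x => f x = g x := by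
  exact comp' eqM (mk' hf hg)

theorem MD.mem {f g : X → M} (hf : DFc M f) (hg : DFc M g) :
    MD M fun x => (f x).1 ∈ (g x).1 := by
  exact comp' memM (mk' hf hg)

/-- the link with Mathlib's notion -/
theorem MD.definable₁ {P : M → Prop} (h : MD M P) :
    (Set.univ : Set M).Definable₁ LSet {x | P x} := by
  exact Definable.preimage_comp (fun _ : Unit => (0 : Fin 1)) h

theorem DFc.of_graph {f : X → M} (h : MD M fun p : X × M => p.2 = f p.1) : DFc M f := by
  exact of_graph' h

theorem DFc.graph {f : X → M} (h : DFc M f) : MD M fun p : X × M => p.2 = f p.1 := by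
  exact graph' h

theorem DFc.const (y : Y) : DFc M fun _ : X => y := by
  intro j
  exact const_raw (Sum.inr ()) (Ctx.e (M := M) y j)

theorem DFc.id : DFc M fun x : X => x := by
  intro j
  have h := eq_raw (M := M) (α := Ctx.ι M X ⊕ Unit) (Sum.inr ()) (Sum.inl j)
  have e : {v : Ctx.ι M X ⊕ Unit → M | v (Sum.inr ()) = v (Sum.inl j)} =
      {v : Ctx.ι M X ⊕ Unit → M | v (Sum.inr ()) =
        Ctx.e (M := M) ((Ctx.e (M := M) (X := X)).symm (v ∘ Sum.inl)) j} := by
    ext v
    rw [Set.mem_ofPred_eq, Set.mem_ofPred_eq, Equiv.apply_symm_apply]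
    rfl
  rw [e] at h
  exact h

theorem DFc.fst {f : X → Y × Z} (hf : DFc M f) : DFc M fun x => (f x).1 := by
  intro j
  exact hf (Sum.inl j)

theorem DFc.snd {f : X → Y × Z} (hf : DFc M f) : DFc M fun x => (f x).2 := by
  intro j
  exact hf (Sum.inr j)

theorem DFc.mk {f : X → Y} {g : X → Z} (hf : DFc M f) (hg : DFc M g) :
    DFc M fun x => (f x, g x) := by
  exact mk' hf hg

theorem DFc.comp {g : Y → Z} (hg : DFc M g) {f : X → Y} (hf : DFc M f) :
    DFc M fun x => g (f x) := by
  intro j
  exact comp' (P := fun q : Y × M => q.2 = Ctx.e (M := M) (g q.1) j) (hg j)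
    (f := fun p : X × M => (f p.1, p.2)) (mk' (weak hf) (DFc.snd DFc.id))

theorem DFc.nat {f : X → ℕ → M} (h : ∀ j, DFc M fun x => f x j) : DFc M f := by
  intro j
  exact graph' (h j)

theorem DFc.app {f : X → ℕ → M} (hf : DFc M f) (j : ℕ) : DFc M fun x => f x j := by
  exact of_graph' (hf j)

theorem DFc.scons {f : X → M} {g : X → ℕ → M} (hf : DFc M f) (hg : DFc M g) :
    DFc M fun x => RMK.scons (f x) (g x) := by
  apply DFc.nat
  intro j
  cases j with
  | zero => exact hf
  | succ n => exact DFc.app hg n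

end RMK
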