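import Pool.Agent.RMK.MDc

/-!
RMK MSET: closure of a model `M` (`ZModel M`) under basic operations, and their definability.

PROOFS.
`pairZ`: `ZFSet.pair x y = {{x}, {x, y}}`, use `hM.pair` twice (`{x} = {x, x}`).  `pair_left`, `pair_right`:
`{x} ∈ pair x y`, `{x, y} ∈ pair x y` and transitivity.  `unionZ`: `x ∪ y = ⋃₀ {x, y}`.
`exists_sep`: `hM.sep` applied to `MD.definable₁`.
`prodZ`: let `P` be the power set in `M` of `x ∪ y` and `P'` the power set in `M` of `P`; all pairs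
`pair a b` (`a ∈ x`, `b ∈ y`) are elements of `P'`: `{a}, {a, b} ∈ M` are subsets of `x ∪ y`, and
`pair a b ∈ M` is a subset of `P`.  Cut down by `exists_sep` with the predicate `∃ a b : M, a ∈ x ∧ b ∈ y ∧
z = pair a b` (`MD.eq_pair`, to be proved first); the resulting set equals `x.prod y` by extensionality
(its elements are in `M`).
`mem_omZ`: `Ordinal.mem_toZFSet_iff` and `Ordinal.lt_omega0`.  `natZ_inj`: `Ordinal.toZFSet_injective`.
`mem_om3`: `ZFSet.mem_prod`.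
`countable_subsets`: they are elements of the power set of `a` in `M`, use `hM.ctbl`.
`MD.eq_pair`: `(f x).1 = pair (g x).1 (h x).1` iff for all `z : M`, `z ∈ f x ↔ (z = {g x} ∨ z = {g x, h x})`,
and `z = {a, b}` iff for all `w : M`, `w ∈ z ↔ w = a ∨ w = b` (transitivity of `M`, extensionality).
`DFc.pr`: by `DFc.of_graph` and `MD.eq_pair`.  `DFc.trip`: compose.  `DFc.prodM`: `y = a × b` iff for all
`z : M`, `z ∈ y ↔ ∃ u v : M, u ∈ a ∧ v ∈ b ∧ z = pair u v`.  `DFc.const` gives the constants.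
`MD.pair_mem` etc.: `MD.mem` with `DFc.pr` (the underlying set of `prM` is `rfl`).
`exists_sepF`: for each `x` the predicate `P x` is `MD` (compose with `z ↦ (x, z)`, `DFc.const`), so choose
`f x` by `exists_sep`; the graph of `f` is `{(x, y) | ∀ z : M, z ∈ y ↔ z ∈ a x ∧ P x z}` by extensionality.
-/

namespace RMK

open Set

variable {M : Set ZFSet.{0}} {X Y Z : Type 1} [Ctx M X] [Ctx M Y] [Ctx M Z]

theorem ZModel.ext (hM : ZModel M) {a b : M} (h : ∀ z : M, z.1 ∈ a.1 ↔ z.1 ∈ b.1) : a = b := by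
  apply Subtype.ext
  apply ZFSet.ext
  intro z
  constructor
  · intro hz
    exact (h ⟨z, hM.trans _ a.2 _ hz⟩).1 hz
  · intro hz
    exact (h ⟨z, hM.trans _ b.2 _ hz⟩).2 hz

theorem ZModel.ball (hM : ZModel M) {a : ZFSet.{0}} (ha : a ∈ M) {P : ZFSet.{0} → Prop} :
    (∀ z ∈ a, P z) ↔ ∀ z : M, z.1 ∈ a → P z.1 := by
  constructor
  · intro h z hz
    exact h _ hz
  · intro h z hz
    exact h ⟨z, hM.trans _ ha _ hz⟩ hz

theorem ZModel.bex (hM : ZModel M) {a : ZFSet.{0}} (ha : a ∈ M) {P : ZFSet.{0} → Prop} :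
    (∃ z ∈ a, P z) ↔ ∃ z : M, z.1 ∈ a ∧ P z.1 := by
  constructor
  · rintro ⟨z, hz, hp⟩
    exact ⟨⟨z, hM.trans _ ha _ hz⟩, hz, hp⟩
  · rintro ⟨z, hz, hp⟩
    exact ⟨z.1, hz, hp⟩

theorem ZModel.pairZ (hM : ZModel M) {x y : ZFSet.{0}} (hx : x ∈ M) (hy : y ∈ M) :
    ZFSet.pair x y ∈ M := by
  have h1 : ({x, x} : ZFSet.{0}) ∈ M := hM.pair x hx x hx
  have h2 : ({x, y} : ZFSet.{0}) ∈ M := hM.pair x hx y hy
  have h3 : ({x, x} : ZFSet.{0}) = {x} := by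
    ext z
    simp
  rw [h3] at h1
  exact hM.pair _ h1 _ h2

theorem ZModel.pair_left (hM : ZModel M) {x y : ZFSet.{0}} (h : ZFSet.pair x y ∈ M) : x ∈ M := by
  have h1 : ({x} : ZFSet.{0}) ∈ ZFSet.pair x y := by
    simp [ZFSet.pair]
  have h2 : ({x} : ZFSet.{0}) ∈ M := hM.trans _ h _ h1
  exact hM.trans _ h2 _ (by simp)

theorem ZModel.pair_right (hM : ZModel M) {x y : ZFSet.{0}} (h : ZFSet.pair x y ∈ M) : y ∈ M := by
  have h1 : ({x, y} : ZFSet.{0}) ∈ ZFSet.pair x y := by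
    simp [ZFSet.pair]
  have h2 : ({x, y} : ZFSet.{0}) ∈ M := hM.trans _ h _ h1
  exact hM.trans _ h2 _ (by simp)

theorem ZModel.unionZ (hM : ZModel M) {x y : ZFSet.{0}} (hx : x ∈ M) (hy : y ∈ M) :
    x ∪ y ∈ M := by
  have h1 : ({x, y} : ZFSet.{0}) ∈ M := hM.pair x hx y hy
  have h2 := hM.union _ h1
  have h3 : ZFSet.sUnion ({x, y} : ZFSet.{0}) = x ∪ y := by
    ext z
    simp [ZFSet.mem_union]
  rw [h3] at h2
  exact h2

theorem mem_omZ {x : ZFSet.{0}} : x ∈ omZ ↔ ∃ k, x = natZ k := by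
  unfold omZ natZ
  rw [Ordinal.mem_toZFSet_iff]
  constructor
  · rintro ⟨a, ha, rfl⟩
    obtain ⟨n, rfl⟩ := Ordinal.lt_omega0.1 ha
    exact ⟨n, rfl⟩
  · rintro ⟨k, rfl⟩
    exact ⟨k, Ordinal.natCast_lt_omega0 k, rfl⟩

theorem natZ_inj {k l : ℕ} : natZ k = natZ l ↔ k = l := by
  unfold natZ
  constructor
  · intro h
    exact_mod_cast Ordinal.toZFSet_injective h
  · rintro rfl
    rfl

theorem natZ_mem_omZ (k : ℕ) : natZ k ∈ omZ := by
  exact mem_omZ.2 ⟨k, rfl⟩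

theorem nat3_inj {a b c a' b' c' : ℕ} : nat3 a b c = nat3 a' b' c' ↔ a = a' ∧ b = b' ∧ c = c' := by
  unfold nat3 trip
  rw [ZFSet.pair_inj, ZFSet.pair_inj, natZ_inj, natZ_inj, natZ_inj]

theorem mem_om3 {x : ZFSet.{0}} : x ∈ om3 ↔ ∃ a b c, x = nat3 a b c := by
  unfold om3 nat3 trip
  rw [ZFSet.mem_prod]
  constructor
  · rintro ⟨a, ha, b, hb, rfl⟩
    rw [ZFSet.mem_prod] at hb
    obtain ⟨c, hc, d, hd, rfl⟩ := hb
    obtain ⟨i, rfl⟩ := mem_omZ.1 ha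
    obtain ⟨j, rfl⟩ := mem_omZ.1 hc
    obtain ⟨k, rfl⟩ := mem_omZ.1 hd
    exact ⟨i, j, k, rfl⟩
  · rintro ⟨a, b, c, rfl⟩
    exact ⟨_, natZ_mem_omZ a, _, ZFSet.mem_prod.2 ⟨_, natZ_mem_omZ b, _, natZ_mem_omZ c, rfl⟩, rfl⟩

theorem ZModel.omZ_mem (hM : ZModel M) : omZ ∈ M := hM.om

theorem ZModel.natZ_mem (hM : ZModel M) (k : ℕ) : natZ k ∈ M := by
  exact hM.trans _ hM.om _ (natZ_mem_omZ k)

theorem ZModel.nat3_mem (hM : ZModel M) (a b c : ℕ) : nat3 a b c ∈ M := by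
  exact hM.pairZ (hM.natZ_mem a) (hM.pairZ (hM.natZ_mem b) (hM.natZ_mem c))

/-- the pair in `M` -/
def prM (hM : ZModel M) (x y : M) : M := ⟨ZFSet.pair x.1 y.1, hM.pairZ x.2 y.2⟩

/-- the natural number `k` in `M` -/
noncomputable def natM (hM : ZModel M) (k : ℕ) : M := ⟨natZ k, hM.natZ_mem k⟩

theorem MD.eq_pair {f g h : X → M} (hM : ZModel M) (hf : DFc M f) (hg : DFc M g)
    (hh : DFc M h) : MD M fun x => (f x).1 = ZFSet.pair (g x).1 (h x).1 := by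
  -- `z = {u, v}`
  have hupair : ∀ {W : Type 1} [Ctx M W] {a b c : W → M}, DFc M a → DFc M b → DFc M c →
      MD M fun x => (a x).1 = ({(b x).1, (c x).1} : ZFSet.{0}) := by
    intro W _ a b c ha hb hc
    have h1 : MD M fun x : W => ∀ w : M, w.1 ∈ (a x).1 ↔ (w = b x ∨ w = c x) := by
      apply MD.all (P := fun (x : W) (w : M) => (w.1 ∈ (a x).1 ↔ (w = b x ∨ w = c x)))
      have e1 : DFc M fun p : W × M => p.1 := DFc.fst DFc.id
      have e2 : DFc M fun p : W × M => p.2 := DFc.snd DFc.id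
      exact MD.iff (MD.mem e2 (DFc.comp ha e1))
        (MD.or (MD.eq e2 (DFc.comp hb e1)) (MD.eq e2 (DFc.comp hc e1)))
    refine MD.congr ?_ h1
    intro x
    constructor
    · intro h
      have : a x = ⟨({(b x).1, (c x).1} : ZFSet.{0}), hM.pair _ (b x).2 _ (c x).2⟩ := by
        apply hM.ext
        intro z
        rw [h z]
        simp only [ZFSet.mem_pair]
        rw [Subtype.ext_iff, Subtype.ext_iff]
      rw [this]
    · intro h w
      rw [h]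
      simp only [ZFSet.mem_pair]
      rw [Subtype.ext_iff, Subtype.ext_iff]
  have h1 : MD M fun x : X => ∀ w : M, w.1 ∈ (f x).1 ↔
      (w.1 = ({(g x).1, (g x).1} : ZFSet.{0}) ∨ w.1 = ({(g x).1, (h x).1} : ZFSet.{0})) := by
    apply MD.all (P := fun (x : X) (w : M) => (w.1 ∈ (f x).1 ↔
      (w.1 = ({(g x).1, (g x).1} : ZFSet.{0}) ∨ w.1 = ({(g x).1, (h x).1} : ZFSet.{0}))))
    have e1 : DFc M fun p : X × M => p.1 := DFc.fst DFc.id
    have e2 : DFc M fun p : X × M => p.2 := DFc.snd DFc.id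
    exact MD.iff (MD.mem e2 (DFc.comp hf e1))
      (MD.or (hupair e2 (DFc.comp hg e1) (DFc.comp hg e1))
        (hupair e2 (DFc.comp hg e1) (DFc.comp hh e1)))
  refine MD.congr ?_ h1
  intro x
  have hs : ({(g x).1, (g x).1} : ZFSet.{0}) = {(g x).1} := by
    ext z
    simp
  constructor
  · intro h'
    have : f x = ⟨ZFSet.pair (g x).1 (h x).1, hM.pairZ (g x).2 (h x).2⟩ := by
      apply hM.ext
      intro z
      rw [h' z, hs]
      simp only [ZFSet.pair, ZFSet.mem_pair]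
    rw [this]
  · intro h' w
    rw [h', hs]
    simp only [ZFSet.pair, ZFSet.mem_pair]

theorem DFc.pr {f g : X → M} (hM : ZModel M) (hf : DFc M f) (hg : DFc M g) :
    DFc M fun x => prM hM (f x) (g x) := by
  apply DFc.of_graph
  have e1 : DFc M fun p : X × M => p.1 := DFc.fst DFc.id
  have e2 : DFc M fun p : X × M => p.2 := DFc.snd DFc.id
  refine MD.congr ?_ (MD.eq_pair hM e2 (DFc.comp hf e1) (DFc.comp hg e1))
  intro p
  rw [Subtype.ext_iff]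
  rfl

theorem MD.pair_mem {f g h : X → M} (hM : ZModel M) (hf : DFc M f) (hg : DFc M g)
    (hh : DFc M h) : MD M fun x => ZFSet.pair (f x).1 (g x).1 ∈ (h x).1 := by
  exact MD.mem (DFc.pr hM hf hg) hh

theorem MD.pair2_mem {f g h k : X → M} (hM : ZModel M) (hf : DFc M f) (hg : DFc M g)
    (hh : DFc M h) (hk : DFc M k) :
    MD M fun x => ZFSet.pair (ZFSet.pair (f x).1 (g x).1) (h x).1 ∈ (k x).1 := by
  exact MD.mem (DFc.pr hM (DFc.pr hM hf hg) hh) hk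

theorem MD.pair3_mem {f g h k l : X → M} (hM : ZModel M) (hf : DFc M f) (hg : DFc M g)
    (hh : DFc M h) (hk : DFc M k) (hl : DFc M l) :
    MD M fun x => ZFSet.pair (ZFSet.pair (f x).1 (g x).1) (ZFSet.pair (h x).1 (k x).1) ∈
      (l x).1 := by
  exact MD.mem (DFc.pr hM (DFc.pr hM hf hg) (DFc.pr hM hh hk)) hl

theorem MD.trip_mem {f g h k l : X → M} (hM : ZModel M) (hf : DFc M f) (hg : DFc M g)
    (hh : DFc M h) (hk : DFc M k) (hl : DFc M l) :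
    MD M fun x => ZFSet.pair (trip (f x).1 (g x).1 (h x).1) (k x).1 ∈ (l x).1 := by
  exact MD.mem (DFc.pr hM (DFc.pr hM hf (DFc.pr hM hg hh)) hk) hl

/-- separation -/
theorem exists_sep (hM : ZModel M) {P : M → Prop} (hP : MD M P) (a : M) :
    ∃ b : M, ∀ z : M, z.1 ∈ b.1 ↔ z.1 ∈ a.1 ∧ P z := by
  obtain ⟨b, hb, h⟩ := hM.sep _ (MD.definable₁ hP) a.1 a.2
  exact ⟨⟨b, hb⟩, fun z => h z⟩

/-- separation, definably in the parameters -/
theorem exists_sepF (hM : ZModel M) {a : X → M} (ha : DFc M a) {P : X → M → Prop}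
    (hP : MD M fun p : X × M => P p.1 p.2) :
    ∃ f : X → M, DFc M f ∧ ∀ x (z : M), z.1 ∈ (f x).1 ↔ z.1 ∈ (a x).1 ∧ P x z := by
  have hPx : ∀ x, MD M (P x) := by
    intro x
    exact MD.comp (P := fun p : X × M => P p.1 p.2) hP
      (DFc.mk (DFc.const (X := M) x) DFc.id)
  have hex : ∀ x, ∃ b : M, ∀ z : M, z.1 ∈ b.1 ↔ z.1 ∈ (a x).1 ∧ P x z := fun x =>
    exists_sep hM (hPx x) (a x)
  choose f hf using hex
  refine ⟨f, ?_, hf⟩
  apply DFc.of_graph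
  have h1 : MD M fun p : X × M => ∀ z : M, z.1 ∈ p.2.1 ↔ (z.1 ∈ (a p.1).1 ∧ P p.1 z) := by
    apply MD.all (P := fun (p : X × M) (z : M) => (z.1 ∈ p.2.1 ↔ (z.1 ∈ (a p.1).1 ∧ P p.1 z)))
    have e1 : DFc M fun q : (X × M) × M => q.1.1 := DFc.fst (DFc.fst DFc.id)
    have e2 : DFc M fun q : (X × M) × M => q.1.2 := DFc.snd (DFc.fst DFc.id)
    have e3 : DFc M fun q : (X × M) × M => q.2 := DFc.snd DFc.id
    exact MD.iff (MD.mem e3 e2) (MD.and (MD.mem e3 (DFc.comp ha e1))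
      (MD.comp (P := fun p : X × M => P p.1 p.2) hP (DFc.mk e1 e3)))
  refine MD.congr ?_ h1
  intro p
  constructor
  · intro h
    apply hM.ext
    intro z
    rw [h z, hf]
  · intro h z
    rw [h, hf]

theorem ZModel.prodZ (hM : ZModel M) {x y : ZFSet.{0}} (hx : x ∈ M) (hy : y ∈ M) :
    x.prod y ∈ M := by
  obtain ⟨P, hPM, hP⟩ := hM.power _ (hM.unionZ hx hy)
  obtain ⟨P', hPM', hP'⟩ := hM.power _ hPM
  have hd : MD M fun z : M => ∃ a b : M, a.1 ∈ x ∧ b.1 ∈ y ∧ z.1 = ZFSet.pair a.1 b.1 := by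
    apply MD.ex (P := fun (z a : M) => ∃ b : M, a.1 ∈ x ∧ b.1 ∈ y ∧ z.1 = ZFSet.pair a.1 b.1)
    apply MD.ex (P := fun (q : M × M) (b : M) => q.2.1 ∈ x ∧ b.1 ∈ y ∧
      q.1.1 = ZFSet.pair q.2.1 b.1)
    have e1 : DFc M fun q : (M × M) × M => q.1.1 := DFc.fst (DFc.fst DFc.id)
    have e2 : DFc M fun q : (M × M) × M => q.1.2 := DFc.snd (DFc.fst DFc.id)
    have e3 : DFc M fun q : (M × M) × M => q.2 := DFc.snd DFc.id
    exact MD.and (MD.mem e2 (DFc.const (X := (M × M) × M) (⟨x, hx⟩ : M)))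
      (MD.and (MD.mem e3 (DFc.const (X := (M × M) × M) (⟨y, hy⟩ : M))) (MD.eq_pair hM e1 e2 e3))
  obtain ⟨c, hc⟩ := exists_sep hM hd ⟨P', hPM'⟩
  have hcx : c.1 = x.prod y := by
    ext z
    rw [ZFSet.mem_prod]
    constructor
    · intro hz
      obtain ⟨-, a, b, ha, hb, hzz⟩ := (hc ⟨z, hM.trans _ c.2 _ hz⟩).1 hz
      exact ⟨a.1, ha, b.1, hb, hzz⟩
    · rintro ⟨a, ha, b, hb, rfl⟩
      have haM : a ∈ M := hM.trans _ hx _ ha
      have hbM : b ∈ M := hM.trans _ hy _ hb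
      have hpM : ZFSet.pair a b ∈ M := hM.pairZ haM hbM
      refine (hc ⟨ZFSet.pair a b, hpM⟩).2 ⟨?_, ⟨a, haM⟩, ⟨b, hbM⟩, ha, hb, rfl⟩
      refine (hP' _).2 ⟨hpM, ?_⟩
      intro w hw
      refine (hP _).2 ⟨hM.trans _ hpM _ hw, ?_⟩
      intro v hv
      rw [ZFSet.mem_union]
      simp only [ZFSet.pair, ZFSet.mem_pair] at hw
      rcases hw with rfl | rfl
      · rw [ZFSet.mem_singleton] at hv
        subst hv
        exact Or.inl ha
      · rw [ZFSet.mem_pair] at hv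
        rcases hv with rfl | rfl
        · exact Or.inl ha
        · exact Or.inr hb
  rw [← hcx]
  exact c.2

/-- the product in `M` -/
noncomputable def prodM (hM : ZModel M) (x y : M) : M := ⟨x.1.prod y.1, hM.prodZ x.2 y.2⟩

theorem DFc.prodM {f g : X → M} (hM : ZModel M) (hf : DFc M f) (hg : DFc M g) :
    DFc M fun x => RMK.prodM hM (f x) (g x) := by
  apply DFc.of_graph
  have h1 : MD M fun p : X × M => ∀ z : M, z.1 ∈ p.2.1 ↔
      ∃ u v : M, u.1 ∈ (f p.1).1 ∧ v.1 ∈ (g p.1).1 ∧ z.1 = ZFSet.pair u.1 v.1 := by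
    apply MD.all (P := fun (p : X × M) (z : M) => (z.1 ∈ p.2.1 ↔
      ∃ u v : M, u.1 ∈ (f p.1).1 ∧ v.1 ∈ (g p.1).1 ∧ z.1 = ZFSet.pair u.1 v.1))
    refine MD.iff (MD.mem (DFc.snd DFc.id) (DFc.snd (DFc.fst DFc.id))) ?_
    apply MD.ex (P := fun (q : (X × M) × M) (u : M) =>
      ∃ v : M, u.1 ∈ (f q.1.1).1 ∧ v.1 ∈ (g q.1.1).1 ∧ q.2.1 = ZFSet.pair u.1 v.1)
    apply MD.ex (P := fun (q : ((X × M) × M) × M) (v : M) =>
      q.2.1 ∈ (f q.1.1.1).1 ∧ v.1 ∈ (g q.1.1.1).1 ∧ q.1.2.1 = ZFSet.pair q.2.1 v.1)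
    have e1 : DFc M fun q : (((X × M) × M) × M) × M => q.1.1.1.1 :=
      DFc.fst (DFc.fst (DFc.fst (DFc.fst DFc.id)))
    have e2 : DFc M fun q : (((X × M) × M) × M) × M => q.1.1.2 :=
      DFc.snd (DFc.fst (DFc.fst DFc.id))
    have e3 : DFc M fun q : (((X × M) × M) × M) × M => q.1.2 := DFc.snd (DFc.fst DFc.id)
    have e4 : DFc M fun q : (((X × M) × M) × M) × M => q.2 := DFc.snd DFc.id
    exact MD.and (MD.mem e3 (DFc.comp hf e1)) (MD.and (MD.mem e4 (DFc.comp hg e1))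
      (MD.eq_pair hM e2 e3 e4))
  refine MD.congr ?_ h1
  intro p
  have hmem : ∀ z : M, z.1 ∈ (RMK.prodM hM (f p.1) (g p.1)).1 ↔
      ∃ u v : M, u.1 ∈ (f p.1).1 ∧ v.1 ∈ (g p.1).1 ∧ z.1 = ZFSet.pair u.1 v.1 := by
    intro z
    change z.1 ∈ (f p.1).1.prod (g p.1).1 ↔ _
    rw [ZFSet.mem_prod]
    constructor
    · rintro ⟨a, ha, b, hb, hz⟩
      exact ⟨⟨a, hM.trans _ (f p.1).2 _ ha⟩, ⟨b, hM.trans _ (g p.1).2 _ hb⟩, ha, hb, hz⟩
    · rintro ⟨a, b, ha, hb, hz⟩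
      exact ⟨a.1, ha, b.1, hb, hz⟩
  constructor
  · intro h
    apply hM.ext
    intro z
    rw [h z, hmem z]
  · intro h z
    rw [h, hmem z]

theorem ZModel.om3_mem (hM : ZModel M) : om3 ∈ M := by
  exact hM.prodZ hM.om (hM.prodZ hM.om hM.om)

theorem ZModel.countable_subsets (hM : ZModel M) {a : ZFSet.{0}} (ha : a ∈ M) :
    {D : ZFSet.{0} | D ∈ M ∧ D ⊆ a}.Countable := by
  obtain ⟨P, hPM, hP⟩ := hM.power _ ha
  refine (hM.ctbl P hPM).mono ?_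
  rintro D ⟨hD, hDa⟩
  exact (hP D).2 ⟨hD, hDa⟩

theorem ZModel.countable_mem (hM : ZModel M) {a : ZFSet.{0}} (ha : a ∈ M) :
    {z : ZFSet.{0} | z ∈ a}.Countable := hM.ctbl a ha

end RMK
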