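import Pool.Agent.PU.Cond
import Pool.Agent.PU.Small
import Pool.Agent.PU.Dec

/-!
RMK NOSEQ: if projective uniformization holds up to all ccc ideals of Cantor space, there is no projective
injection of the countable ordinals into the reals.

PROOF (compare `abstract_main` in `PU/Abs.lean`, parts (2), (3), (4)).  Let `z l` be the real with
`H l (z l)`; `z` is injective.  Let `κ : (ℕ → Bool) → ℕ → Bool ⊕ (Om × ℕ)` be `κ v n = inr (l, n)` if `v = z l`, and
`inl false` if `v` is not in the range of `z`.  By `isMeagre_theta_ne`, for every `l` the set of `p : Pt κ`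
with `theta p.x (z l) ≠ fun n => p.c (l, n)` is meager (countable union over `n`).
Let `R = {(x, y) | GoodC y ∧ ∀ l v, H l v → theta x v ∈ MM y}`; it is projective (`projective_of_pc`,
`PC.goodC`, `PC.mm`, `PCF.theta`, `PC.comp hH`).  For every `x` there is `y` with `(x, y) ∈ R`: apply
`small_of_unif (hall _ meagIdeal_ccc)` to the relation `fun l w => ∃ v, H l v ∧ theta x v = w` (functional by
`hf`), and `cover_of_meagre`.  Apply uniformization up to `adIdeal κ` (`adIdeal_ccc κ g hg`, `g` from
`exists_bit_inj`; positivity of `univ`: `not_mem_adIdeal_univ`) to `R` and `univ`: there is a Borel `B` not in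
the ideal; the first alternative gives `B = ∅`, impossible; so there is a measurable `f` with
`(x, f x) ∈ R` for `x ∈ B`.  `generic_not_small κ B` gives `l` such that
`{p | p.x ∈ B ∧ (fun m => p.c (l, m)) ∉ MM (f p.x)}` is not meager; but it is contained in the meager set
`{p | theta p.x (z l) ≠ fun n => p.c (l, n)}`, because `theta p.x (z l) ∈ MM (f p.x)` for `p.x ∈ B`.
-/

namespace RMK

open MeasureTheory Set PU

theorem no_seq (hall : ∀ I : SigmaIdeal (ℕ → Bool), CCC I → ProjUnif I)
    (H : Om → (ℕ → Bool) → Prop) (hH : PC (fun p : Om × (ℕ → Bool) => H p.1 p.2))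
    (hf : ∀ l z z', H l z → H l z' → z = z') (ht : ∀ l, ∃ z, H l z)
    (hi : ∀ l l' z, H l z → H l' z → l = l') : False := by
  classical
  choose z hz using ht
  have hzinj : ∀ l l', z l = z l' → l = l' := by
    intro l l' h
    refine hi l l' (z l) (hz l) ?_
    rw [h]
    exact hz l'
  let κ : (ℕ → Bool) → ℕ → Bool ⊕ (Om × ℕ) := fun v n =>
    if h : ∃ l : Om, z l = v then Sum.inr (h.choose, n) else Sum.inl false
  have hκ : ∀ (l : Om) (c : Om × ℕ → Bool) (n : ℕ), bitv c (κ (z l) n) = c (l, n) := by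
    intro l c n
    have h : ∃ l' : Om, z l' = z l := ⟨l, rfl⟩
    have hch : h.choose = l := hzinj _ _ h.choose_spec
    simp only [κ, dif_pos h, hch]
    rfl
  -- (1) decoding is correct at generic points
  have h1 : ∀ a : Om, IsMeagre {p : Pt κ | theta p.x (z a) ≠ fun n => p.c (a, n)} := by
    intro a
    have hm : IsMeagre (⋃ n : ℕ, {p : Pt κ | theta p.x (z a) n ≠ bitv p.c (κ (z a) n)}) :=
      isMeagre_iUnion fun n => isMeagre_theta_ne (z a) n
    refine hm.mono fun p hp => ?_
    by_contra hnot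
    apply hp
    funext n
    by_contra hne
    apply hnot
    refine mem_iUnion.2 ⟨n, ?_⟩
    change theta p.x (z a) n ≠ bitv p.c (κ (z a) n)
    rw [hκ]
    exact hne
  -- (2) the relation to be uniformized
  let R : Set ((ℕ → Bool) × (ℕ → Bool)) :=
    {q | GoodC q.2 ∧ ∀ (a : Om) (v : ℕ → Bool), H a v → theta q.1 v ∈ MM q.2}
  have hR : Projective R := by
    have h : PC (fun q : (ℕ → Bool) × (ℕ → Bool) =>
        GoodC q.2 ∧ ∀ (a : Om) (v : ℕ → Bool), H a v → theta q.1 v ∈ MM q.2) := by
      refine PC.and (PC.goodC (PCF.snd PCF.id)) (PC.all (PC.all (PC.imp ?_ ?_)))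
      · refine PC.comp (S := fun p : Om × (ℕ → Bool) => H p.1 p.2) hH (PCF.mk ?_ ?_)
        · exact PCF.snd (PCF.fst PCF.id)
        · exact PCF.snd PCF.id
      · refine PC.mm (PCF.theta ?_ ?_) ?_
        · exact PCF.fst (PCF.fst (PCF.fst PCF.id))
        · exact PCF.snd PCF.id
        · exact PCF.snd (PCF.fst (PCF.fst PCF.id))
    exact projective_of_pc h
  have h2 : ∀ x, ∃ y, (x, y) ∈ R := by
    intro x
    have hs := small_of_unif (hall _ meagIdeal_ccc) (fun a w => ∃ v, H a v ∧ theta x v = w)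
      (by
        refine PC.ex (PC.and ?_ ?_)
        · exact PC.comp (S := fun p : Om × (ℕ → Bool) => H p.1 p.2) hH
            (f := fun q : (Om × (ℕ → Bool)) × (ℕ → Bool) => (q.1.1, q.2))
            (PCF.mk (PCF.fst (PCF.fst PCF.id)) (PCF.snd PCF.id))
        · refine PC.eq (PCF.theta ?_ ?_) ?_
          · exact PCF.const _
          · exact PCF.snd PCF.id
          · exact PCF.snd (PCF.fst PCF.id))
      (by
        rintro a w w' ⟨v, hv, rfl⟩ ⟨v', hv', rfl⟩
        rw [hf a v v' hv hv'])
    obtain ⟨y, hy, hcov⟩ := cover_of_meagre hs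
    exact ⟨y, hy, fun a v hv => hcov ⟨a, v, hv, rfl⟩⟩
  -- (3) uniformize
  obtain ⟨g, hg⟩ := exists_bit_inj
  obtain ⟨B, -, hB, hBpos, hor⟩ := hall (adIdeal κ) (adIdeal_ccc κ g hg) R hR Set.univ
    MeasurableSet.univ (not_mem_adIdeal_univ κ)
  have hBpos' : ¬ IsMeagre {p : Pt κ | p.x ∈ B} := fun h => hBpos ⟨hB, h⟩
  rcases hor with hor | ⟨f, hfm, hfR⟩
  · apply hBpos'
    have : {p : Pt κ | p.x ∈ B} = ∅ := by
      ext p
      simp only [mem_ofPred_eq, mem_empty_iff_false, iff_false]
      intro hp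
      obtain ⟨y, hy⟩ := h2 p.x
      exact hor _ hp y hy
    rw [this]
    exact IsMeagre.empty
  -- (4) contradiction with genericity
  · obtain ⟨a, ha⟩ := generic_not_small κ B hB hBpos' f hfm fun x hx => (hfR x hx).1
    apply ha
    refine (h1 a).mono ?_
    rintro p ⟨hpB, hp⟩ hS
    apply hp
    have := (hfR p.x hpB).2 a _ (hz a)
    rwa [hS] at this

end RMK
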