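import Pool.Agent.RMK.IdealN
import Pool.Agent.RMK.CccProper
import Pool.Agent.RMK.NoSeq
import Pool.Agent.RMK.LevPc

/-!
RMK MAINN: the negative half.

PROOF.  Suppose `ProjUnif I` for all `I : SigmaIdeal (ℕ → Bool)` with `Proper I`.  By `proper_of_ccc` and
`no_seq`: for every `x` there is `l` such that no `y` satisfies `SxR x l y` (otherwise `H l y := SxR x l y` is
projective (`PC.sxR`, `PCF.const`), functional (`sxR_unique`), total and injective (`sxR_inj`)).
Let `R = {(x, y) | ∃ l : Om, IsWO y l.1 ∧ ∀ y', ¬ SxR x l y'}` (projective by the calculus); for every `x` there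
is `y` with `(x, y) ∈ R` (`exists_isWO`).  Apply uniformization up to `adN hG` (`proper_adN`) to `R` and `univ`,
which is positive (`not_mgr_bas` for the empty sequence, `Mgr.mono`).  The first alternative gives
`B = ∅`, but `∅` is in the ideal (`Mgr.mono (mgr_singleton ..) (empty_subset _)`).  So there are a Borel
positive `B` and a measurable `f` with `(x, f x) ∈ R` on `B`.  `f '' B` is analytic
(`MeasurableSet.analyticSet_image`) and consists of codes of ordinals, so by `bounding` there is `α : Om` with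
`l ≤ α` whenever `IsWO (f x) l.1`, `x ∈ B`.  Let `(p, s, F)` be valid, good, with
`Mgr G (Bas p s F \ B)` (`exists_bas_of_not_mgr`), and let `p'` be a valid extension of `p` of length
`> α` (`ext_long`).  `Bas p' s F` is not meager, so it meets `B`; let `x` be in both.  There is `l ≤ α` such that
no `y'` satisfies `SxR x l y'`, but `SxR x l (p'.val l)` by `sxR_of_decOK`, a contradiction.
-/

namespace RMK

open MeasureTheory Set PU

theorem goodF_empty (p : Seq (ℕ → Bool)) : GoodF p ∅ := by
  intro r hr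
  simp at hr

theorem negative {G : Set Om} (hG : Captured G) :
    ∃ I : SigmaIdeal (ℕ → Bool), Proper I ∧ ¬ ProjUnif I := by
  classical
  by_contra hcon
  have hall : ∀ I : SigmaIdeal (ℕ → Bool), Proper I → ProjUnif I := by
    intro I hI
    by_contra h
    exact hcon ⟨I, hI, h⟩
  have h1 : ∀ x : ℕ → Bool, ∃ l : Om, ∀ y, ¬ SxR x l y := by
    intro x
    by_contra h
    push Not at h
    refine no_seq (fun I hI => hall I (proper_of_ccc hI)) (fun l y => SxR x l y) ?_ ?_ h ?_
    · exact PC.sxR (PCF.const x) PCF.fst' PCF.snd'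
    · intro l z z' hz hz'
      exact sxR_unique hz hz'
    · intro l l' z hz hz'
      exact sxR_inj hz hz'
  let R : Set ((ℕ → Bool) × (ℕ → Bool)) :=
    {z | ∃ l : Om, IsWO z.2 l.1 ∧ ∀ y' : ℕ → Bool, ¬ SxR z.1 l y'}
  have hR : Projective R := by
    have h : PC (fun z : (ℕ → Bool) × (ℕ → Bool) =>
        ∃ l : Om, IsWO z.2 l.1 ∧ ∀ y' : ℕ → Bool, ¬ SxR z.1 l y') := by
      repeat' with_reducible first
        | assumption
        | apply PC.and
        | apply PC.all
        | apply PC.ex
        | apply PC.not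
        | apply PC.isWO
        | apply PC.sxR
        | apply PCF.fst
        | apply PCF.snd
        | apply PCF.id
    exact projective_of_pc h
  have h2 : ∀ x, ∃ y, (x, y) ∈ R := by
    intro x
    obtain ⟨l, hl⟩ := h1 x
    obtain ⟨v, hv⟩ := exists_isWO l.2
    exact ⟨v, l, hv, hl⟩
  have hpos : ¬ (adN hG).mem Set.univ := by
    intro h
    obtain ⟨p, hp, -⟩ := val_nil (G := G)
    exact not_mgr_bas hG hp [] (goodF_empty p) (h.2.mono (subset_univ _))
  obtain ⟨B, -, hB, hBpos, hor⟩ := hall (adN hG) (proper_adN hG) R hR Set.univ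
    MeasurableSet.univ hpos
  have hBpos' : ¬ Mgr G B := fun h => hBpos ⟨hB, h⟩
  rcases hor with hor | ⟨f, hf, hfR⟩
  · apply hBpos'
    refine (mgr_singleton hG (fun _ => false)).mono fun x hx => ?_
    obtain ⟨y, hy⟩ := h2 x
    exact absurd hy (hor x hx y)
  · have hA : AnalyticSet (f '' B) := hB.analyticSet_image hf
    obtain ⟨α, hα⟩ := bounding hA (by
      rintro _ ⟨x, hx, rfl⟩
      obtain ⟨l, hl, -⟩ := hfR x hx
      exact ⟨l.1, hl⟩)
    obtain ⟨p, s, F, hp, hF, hm⟩ := exists_bas_of_not_mgr hG hB hBpos'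
    obtain ⟨α', hα'⟩ := exists_suc (max α p.len)
    have h3 : max α p.len < α' := hα'.1
    obtain ⟨p', hp', hlen, hE⟩ := ext_long hp ((le_max_right _ _).trans h3.le)
    have h4 : (Bas p' s F ∩ B).Nonempty := by
      by_contra h
      rw [not_nonempty_iff_eq_empty] at h
      refine not_mgr_bas hG hp' s (goodF_mono hF hE) (hm.mono fun x hx => ?_)
      refine ⟨Bas.mono hE (FExt.refl s F) hx, fun hxB => ?_⟩
      have : x ∈ Bas p' s F ∩ B := ⟨hx, hxB⟩
      rw [h] at this
      exact this
    obtain ⟨x, hx, hxB⟩ := h4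
    obtain ⟨l, hl, hno⟩ := hfR x hxB
    have h5 : l ≤ α := hα (f x) ⟨x, hxB, rfl⟩ l.1 hl
    have h6 : l < p'.len := by
      rw [hlen]
      exact (h5.trans (le_max_left _ _)).trans_lt h3
    exact hno _ (sxR_of_decOK hp' hx.2 h6)

end RMK
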