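import Pool.Agent.RMK.Club
import Pool.Agent.PU.Rep

/-!
RMK TRANS: transfer of projective uniformization from Cantor space to all Polish spaces.

PROOFS.
`mapI φ I` is the image ideal under a Borel isomorphism `φ : X ≃ᵐ Y`: `A` is in it iff `φ ⁻¹' A ∈ I`.
`mapI_proper`: for `Proper (mapI φ I)`: the bijection `Φ : Set Y ⊕ Set (Set Y) → Set X ⊕ Set (Set X)`, `inl A ↦
inl (φ ⁻¹' A)`, `inr D ↦ inr ((fun A => φ ⁻¹' A) '' D)` is injective; `Proper I` holds for club many `N ⊆
Set X ⊕ Set (Set X)`.  Apply `club_comap` to the inverse injection `Ψ : Set X ⊕ Set (Set X) → Set Y ⊕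
Set (Set Y)`, `inl A ↦ inl (φ.symm ⁻¹' A)`, ...: club many `N ⊆ Set Y ⊕ Set (Set Y)` have the property for
`Ψ ⁻¹' N`.  Translate: `A` with `inl A ∈ N` positive; `A' = φ ⁻¹' A` satisfies `Ψ (inl A') = inl A ∈ N` and is
positive; the `N`-generic `B' ⊆ A'` gives `B = φ.symm ⁻¹' B'`, and so on (`Pos`, `DenseIn` transfer).
`projUnif_polish`: if `X` is countable, every Borel set is a countable union of singletons, so in the
ideal, and the statement is vacuous.  Otherwise let `φ : X ≃ᵐ (ℕ → Bool)`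
(`PolishSpace.measurableEquivNatBoolOfNotCountable`).  Let `R ⊆ X × X` be projective.  `R' = {p | (φ.symm p.1,
φ.symm p.2) ∈ R}` is projective: by the calculus of `PU/Rep.lean` (`pc_of_projective`, `PC.comp` with
`PCF` of the measurable map, `projective_of_pc`; a measurable map has a Borel graph,
`projective_of_measurable`, so it is `PCF` by `PCF.of_graph` or directly from the definition of `PCF`).
Apply the hypothesis to `mapI φ I`, `R'`, `A' = φ.symm ⁻¹' A`; transport `B'` and `f'`: `B = φ ⁻¹' B'`, `f = φ.symm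
∘ f' ∘ φ`.
-/

namespace RMK

open MeasureTheory Set PU

/-- the image of an ideal under a Borel isomorphism -/
def mapI {X Y : Type} [MeasurableSpace X] [MeasurableSpace Y] (φ : X ≃ᵐ Y) (I : SigmaIdeal X) :
    SigmaIdeal Y where
  mem A := MeasurableSet A ∧ I.mem (φ ⁻¹' A)
  meas A h := h.1
  singleton y := by
    have h1 : φ ⁻¹' {y} = {φ.symm y} := by
      ext x
      simp only [mem_preimage, mem_singleton_iff]
      exact ⟨fun h => by rw [← h, φ.symm_apply_apply], fun h => by rw [h, φ.apply_symm_apply]⟩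
    have h2 : MeasurableSet (φ ⁻¹' {y}) := by
      rw [h1]
      exact I.meas _ (I.singleton _)
    refine ⟨?_, ?_⟩
    · rwa [φ.measurableSet_preimage] at h2
    · rw [h1]
      exact I.singleton _
  mono A B hA hB h := ⟨hB, I.mono _ _ hA.2 (φ.measurable hB) (preimage_mono h)⟩
  iUnion A h := by
    refine ⟨MeasurableSet.iUnion fun n => (h n).1, ?_⟩
    rw [preimage_iUnion]
    exact I.iUnion _ fun n => (h n).2

private theorem pos_mapI {X Y : Type} [MeasurableSpace X] [MeasurableSpace Y] (φ : X ≃ᵐ Y)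
    {I : SigmaIdeal X} {A : Set Y} : Pos (mapI φ I) A ↔ Pos I (φ ⁻¹' A) := by
  constructor
  · rintro ⟨h1, h2⟩
    exact ⟨φ.measurable h1, fun h => h2 ⟨h1, h⟩⟩
  · rintro ⟨h1, h2⟩
    exact ⟨φ.measurableSet_preimage.1 h1, fun h => h2 h.2⟩

private theorem pre_pre {X Y : Type} [MeasurableSpace X] [MeasurableSpace Y] (φ : X ≃ᵐ Y)
    (A : Set Y) : φ.symm ⁻¹' (φ ⁻¹' A) = A := by
  ext x
  rw [mem_preimage, mem_preimage, φ.apply_symm_apply]

private theorem pre_pre' {X Y : Type} [MeasurableSpace X] [MeasurableSpace Y] (φ : X ≃ᵐ Y)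
    (A : Set X) : φ ⁻¹' (φ.symm ⁻¹' A) = A := by
  ext x
  rw [mem_preimage, mem_preimage, φ.symm_apply_apply]

/-- the injection of the conditions -/
private def psi {X Y : Type} [MeasurableSpace X] [MeasurableSpace Y] (φ : X ≃ᵐ Y) :
    Set X ⊕ Set (Set X) → Set Y ⊕ Set (Set Y)
  | .inl A => .inl (φ.symm ⁻¹' A)
  | .inr D => .inr ((fun A => φ.symm ⁻¹' A) '' D)

private theorem psi_inj {X Y : Type} [MeasurableSpace X] [MeasurableSpace Y] (φ : X ≃ᵐ Y) :
    Function.Injective (psi φ) := by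
  have h1 : Function.Injective (fun A : Set X => φ.symm ⁻¹' A) := by
    intro A B h
    have h2 : φ ⁻¹' (φ.symm ⁻¹' A) = φ ⁻¹' (φ.symm ⁻¹' B) := congrArg (fun S => φ ⁻¹' S) h
    rwa [pre_pre', pre_pre'] at h2
  rintro (A | D) (B | E) h
  · exact congrArg _ (h1 (Sum.inl.inj h))
  · cases h
  · cases h
  · exact congrArg _ (image_injective.2 h1 (Sum.inr.inj h))

theorem mapI_proper {X Y : Type} [MeasurableSpace X] [MeasurableSpace Y] (φ : X ≃ᵐ Y)
    {I : SigmaIdeal X} (hI : Proper I) : Proper (mapI φ I) := by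
  refine (club_comap (psi_inj φ) hI).mono fun N _ hN A hA hpA => ?_
  have hA' : psi φ (Sum.inl (φ ⁻¹' A)) ∈ N := by
    show Sum.inl (φ.symm ⁻¹' (φ ⁻¹' A)) ∈ N
    rw [pre_pre]
    exact hA
  obtain ⟨B', hB', hpB', hgen⟩ := hN (φ ⁻¹' A) hA' ((pos_mapI φ).1 hpA)
  refine ⟨φ.symm ⁻¹' B', ?_, ?_, ?_⟩
  · have h1 := preimage_mono (f := φ.symm) hB'
    rwa [pre_pre] at h1
  · rw [pos_mapI, pre_pre']
    exact hpB'
  · intro D hD hDd C hC hpC
    have hD' : psi φ (Sum.inr ((fun A => φ ⁻¹' A) '' D)) ∈ N := by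
      show Sum.inr ((fun A => φ.symm ⁻¹' A) '' ((fun A => φ ⁻¹' A) '' D)) ∈ N
      have h1 : (fun A : Set X => φ.symm ⁻¹' A) '' ((fun A => φ ⁻¹' A) '' D) = D := by
        rw [image_image]
        have h2 : (fun A : Set Y => φ.symm ⁻¹' (φ ⁻¹' A)) = id := funext fun A => pre_pre φ A
        rw [h2, image_id]
      rw [h1]
      exact hD
    have hdense : DenseIn I ((fun A => φ ⁻¹' A) '' D) := by
      refine ⟨?_, fun A hA => ?_⟩
      · rintro _ ⟨A, hA, rfl⟩
        exact (pos_mapI φ).1 (hDd.1 A hA)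
      · obtain ⟨B, hB, hBA⟩ := hDd.2 (φ.symm ⁻¹' A) (by
          rw [pos_mapI, pre_pre']
          exact hA)
        refine ⟨φ ⁻¹' B, ⟨B, hB, rfl⟩, ?_⟩
        have h1 := preimage_mono (f := φ) hBA
        rwa [pre_pre'] at h1
    have hCB : φ ⁻¹' C ⊆ B' := by
      have h1 := preimage_mono (f := φ) hC
      rwa [pre_pre'] at h1
    obtain ⟨E', ⟨E, hE, rfl⟩, hEN, hpE⟩ := hgen _ hD' hdense (φ ⁻¹' C) hCB ((pos_mapI φ).1 hpC)
    refine ⟨E, hE, ?_, ?_⟩
    · have h1 : psi φ (Sum.inl (φ ⁻¹' E)) ∈ N := hEN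
      have h2 : psi φ (Sum.inl (φ ⁻¹' E)) = Sum.inl E := by
        show Sum.inl (φ.symm ⁻¹' (φ ⁻¹' E)) = Sum.inl E
        rw [pre_pre]
      rwa [h2] at h1
    · rw [pos_mapI]
      exact hpE

private theorem projective_map {X Y : Type} [TopologicalSpace X] [PolishSpace X]
    [MeasurableSpace X] [BorelSpace X] [TopologicalSpace Y] [PolishSpace Y] [MeasurableSpace Y]
    [BorelSpace Y] [Rep X] [Std X] [Rep Y] [Std Y] (φ : X ≃ᵐ Y) {R : Set (X × X)}
    (hR : Projective R) : Projective {p : Y × Y | (φ.symm p.1, φ.symm p.2) ∈ R} := by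
  have h0 : PCF (fun y : Y => φ.symm y) := PCF.of_measurable φ.symm.measurable
  have h1 : PCF (fun p : Y × Y => (φ.symm p.1, φ.symm p.2)) :=
    PCF.mk (PCF.comp (g := fun y : Y => φ.symm y) h0 PCF.fst')
      (PCF.comp (g := fun y : Y => φ.symm y) h0 PCF.snd')
  have h2 : PC (fun x : X × X => x ∈ R) := pc_of_projective hR
  exact projective_of_pc (PC.comp (S := fun x : X × X => x ∈ R) h2 h1)

theorem projUnif_polish (h : ∀ I : SigmaIdeal (ℕ → Bool), Proper I → ProjUnif I) (X : Type)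
    [TopologicalSpace X] [PolishSpace X] [MeasurableSpace X] [BorelSpace X] (I : SigmaIdeal X)
    (hI : Proper I) : ProjUnif I := by
  by_cases hX : Countable X
  · intro R hR A hA hAI
    rcases isEmpty_or_nonempty X with hE | hE
    · exact ⟨A, Subset.refl A, hA, hAI, Or.inl fun x _ => (hE.false x).elim⟩
    · exfalso
      apply hAI
      obtain ⟨e, he⟩ := exists_surjective_nat X
      have h1 : A = ⋃ n, A ∩ {e n} := by
        ext x
        rw [mem_iUnion]
        constructor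
        · intro hx
          obtain ⟨n, hn⟩ := he x
          exact ⟨n, hx, hn.symm⟩
        · rintro ⟨n, hx⟩
          exact hx.1
      rw [h1]
      exact I.iUnion _ fun n => I.mono {e n} _ (I.singleton _)
        (hA.inter (I.meas _ (I.singleton _))) inter_subset_right
  · let φ : X ≃ᵐ (ℕ → Bool) := PolishSpace.measurableEquivNatBoolOfNotCountable hX
    letI : Rep X := Rep.ofPolish X
    haveI : Std X := ⟨⟨Homeomorph.refl X, fun _ _ => Iff.rfl⟩⟩
    intro R hR A hA hAI
    have hA' : ¬ (mapI φ I).mem (φ.symm ⁻¹' A) := by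
      rintro ⟨_, h2⟩
      rw [pre_pre'] at h2
      exact hAI h2
    obtain ⟨B', hB', hmB, hBI, halt⟩ := h (mapI φ I) (mapI_proper φ hI) _ (projective_map φ hR)
      (φ.symm ⁻¹' A) (φ.symm.measurable hA) hA'
    refine ⟨φ ⁻¹' B', ?_, φ.measurable hmB, fun h => hBI ⟨hmB, h⟩, ?_⟩
    · have h1 := preimage_mono (f := φ) hB'
      rwa [pre_pre'] at h1
    · rcases halt with h1 | ⟨f', hf', h1⟩
      · refine Or.inl fun x hx y hxy => h1 (φ x) hx (φ y) ?_
        show (φ.symm (φ x), φ.symm (φ y)) ∈ R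
        rw [φ.symm_apply_apply, φ.symm_apply_apply]
        exact hxy
      · refine Or.inr ⟨fun x => φ.symm (f' (φ x)), φ.symm.measurable.comp (hf'.comp φ.measurable),
          fun x hx => ?_⟩
        have h2 : (φ.symm (φ x), φ.symm (f' (φ x))) ∈ R := h1 (φ x) hx
        rw [φ.symm_apply_apply] at h2
        exact h2

end RMK
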