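import Pool.Agent.RMK.FinC
import Pool.Agent.RMK.Trans

/-!
RMK MAINP: the positive half.
-/

namespace RMK

open MeasureTheory Set PU

theorem positive (hCH : Cardinal.continuum.{0} = Cardinal.aleph 1) (hR : Reflecting) (X : Type)
    [TopologicalSpace X] [PolishSpace X] [MeasurableSpace X] [BorelSpace X] (I : SigmaIdeal X)
    (hI : Proper I) : ProjUnif I :=
  projUnif_polish (projUnif_cantor hCH hR) X I hI

end RMK
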