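import Pool.Agent.RMK.Club

/-!
RMK NGEN: reflection combined with properness: there are stationarily many countable sets `N` of
relations reflecting to a model as in `Reflecting` such that below `A` there is a positive Borel set all
of whose elements meet the dense sets coded in `N` inside `N`.

PROOF.  Let `S = T3 ⊕ (Set 𝒞 ⊕ Set (Set 𝒞))` (`𝒞 = ℕ → Bool`; universe 1), `j₁ = Sum.inl : T3 → S`,
`j₂ = Sum.inr`.  `StatMany.lift` (for `j₁`) applied to `hR` and `hQ` (first combine them: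
`StatMany.and_club`) gives stationarily many `N ⊆ S` such that `j₁⁻¹ N` has the properties in `Reflecting`
and `Q`.  `club_comap` (for `j₂`) applied to `hI` gives club many `N` with the property in `Proper I` for
`j₂⁻¹ N`.  Further club many `N` satisfy (`club_mem`, `club_map`, `club_map2`, `ClubMany.and`):
(a) `inr (inl A) ∈ N`;
(b) `inl R ∈ N → inr (inr (Ds b R)) ∈ N` where `Ds b R = {B | ∃ ζ, R ζ 0 0 ∧ b ζ = B}`;
(c) `inl R ∈ N` and `inr (inl E) ∈ N` imply `inl (lev ζ) ∈ N` for some `ζ` with `R ζ 0 0` and `b ζ = E`,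
provided that there is such a `ζ` (choose one such `ζ` for every `R` and `E`).
Take one `N` with all this (`StatMany.and_club`, and `StatMany` of the constant function gives an `N`).
Let `N₁ = j₁⁻¹ N`, `N₂ = j₂⁻¹ N`.  By properness there is a positive `B ⊆ A` such that for `D ∈ N₂`
(`Sum.inr D`) with `DenseIn I D`, and positive `C ⊆ B`, some `E ∈ D` with `inl E ∈ N₂` has `Pos I (C ∩ E)`.  For
`R ∈ N₁` with `DenseIn I (Ds b R)` let `Z R = B \ ⋃ {E | E ∈ Ds b R, inl E ∈ N₂}`; the union is over a countable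
set of Borel sets, so `Z R` is Borel, and it is not positive (else take `C = Z R`: `C ∩ E = ∅`, and `∅` is in
the ideal).  Let `C = B \ ⋃ {Z R | R ∈ N₁, DenseIn I (Ds b R)}` (`N₁` is countable), a Borel set which is
positive because the ideal is closed under countable unions (`I.iUnion`, with an enumeration; and
`I.mono`).  For `x ∈ C` and `R ∈ N₁` with `DenseIn I (Ds b R)` there is `E ∈ Ds b R` with `inl E ∈ N₂`, `x ∈ E`; by
(c) there is `ζ` with `lev ζ ∈ N₁`, so `ζ < δ`, `R ζ 0 0` and `b ζ = E`.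
(`0 : Om` is `default`; see the statement: `R ζ o o` with `o = default`.)
-/

namespace RMK

open MeasureTheory Set PU

/-- the set of conditions coded by `R` -/
def Ds (b : Om → Set (ℕ → Bool)) (R : T3) : Set (Set (ℕ → Bool)) :=
  {B | ∃ ζ, R ζ default default ∧ b ζ = B}

private theorem mem_empty' (I : SigmaIdeal (ℕ → Bool)) : I.mem ∅ :=
  I.mono _ _ (I.singleton fun _ => false) MeasurableSet.empty (Set.empty_subset _)

private theorem mem_union' (I : SigmaIdeal (ℕ → Bool)) {A B : Set (ℕ → Bool)} (hA : I.mem A)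
    (hB : I.mem B) : I.mem (A ∪ B) := by
  have h := I.iUnion (fun n : ℕ => if n = 0 then A else B) (by
    intro n
    by_cases hn : n = 0
    · rw [if_pos hn]; exact hA
    · rw [if_neg hn]; exact hB)
  refine I.mono _ _ h ((I.meas A hA).union (I.meas B hB)) ?_
  rintro x (hx | hx)
  · exact Set.mem_iUnion.2 ⟨0, by rw [if_pos rfl]; exact hx⟩
  · exact Set.mem_iUnion.2 ⟨1, by rw [if_neg one_ne_zero]; exact hx⟩

private theorem mem_biUnion' (I : SigmaIdeal (ℕ → Bool)) {J : Type 1} {T : Set J}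
    (hT : T.Countable) {Z : J → Set (ℕ → Bool)} (hZ : ∀ R ∈ T, I.mem (Z R)) :
    I.mem (⋃ R ∈ T, Z R) := by
  rcases T.eq_empty_or_nonempty with h0 | h0
  · rw [h0, Set.biUnion_empty]
    exact mem_empty' I
  · obtain ⟨e, he⟩ := hT.exists_eq_range h0
    have h1 : ∀ n, I.mem (Z (e n)) := fun n => hZ _ (by rw [he]; exact Set.mem_range_self n)
    have h2 : (⋃ R ∈ T, Z R) = ⋃ n, Z (e n) := by
      rw [he]
      exact Set.biUnion_range
    rw [h2]
    exact I.iUnion _ h1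

/-- the type of all codes -/
private abbrev Sx : Type 1 := T3 ⊕ (Set (ℕ → Bool) ⊕ Set (Set (ℕ → Bool)))

private def fx (b : Om → Set (ℕ → Bool)) : Sx → Sx
  | Sum.inl R => Sum.inr (Sum.inr (Ds b R))
  | z => z

open Classical in
private noncomputable def gx (b : Om → Set (ℕ → Bool)) : Sx → Sx → Sx
  | Sum.inl R, Sum.inr (Sum.inl E) =>
    if h : ∃ ζ, R ζ default default ∧ b ζ = E then Sum.inl (lev h.choose) else Sum.inl R
  | z, _ => z

theorem exists_nGen (hR : Reflecting) {I : SigmaIdeal (ℕ → Bool)} (hI : Proper I)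
    (b : Om → Set (ℕ → Bool)) {P : Set T3 → Prop} (hP : ClubMany P) {A : Set (ℕ → Bool)}
    (hA : Pos I A) :
    ∃ (N : Set T3) (δ : Om) (M : Set ZFSet.{0}) (Q r : ZFSet.{0}) (g : Set ZFSet.{0}), P N ∧
      (∀ α, lev α ∈ N ↔ α < δ) ∧ Ground M ∧ δ.1.toZFSet ∈ M ∧ IsPoset M Q r ∧
      IsGeneric M Q r g ∧
      (∀ R ∈ N, ∃ σ ∈ M, ∀ a b c, a < δ → b < δ → c < δ → (R a b c ↔ Named g σ a b c)) ∧
      (∀ σ ∈ M, ∃ R ∈ N, ∀ a b c, a < δ → b < δ → c < δ → (R a b c ↔ Named g σ a b c)) ∧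
      ∃ C, C ⊆ A ∧ Pos I C ∧ ∀ R ∈ N, DenseIn I (Ds b R) → ∀ x ∈ C,
        ∃ ζ, ζ < δ ∧ R ζ default default ∧ x ∈ b ζ := by
  classical
  haveI : Nonempty T3 := ⟨fun _ _ _ => True⟩
  haveI : Nonempty Sx := ⟨Sum.inl fun _ _ _ => True⟩
  have hS1 := (StatMany.and_club hR hP).lift (S := Sx) Sum.inl_injective
  have hS2 := club_comap (S := Sx) Sum.inr_injective hI
  have hS3 := club_mem (S := Sx) (Sum.inr (Sum.inl A))
  have hS4 := club_map (S := Sx) (fx b)
  have hS5 := club_map2 (S := Sx) (gx b)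
  obtain ⟨N, hcN, -, ⟨hRe, hPN⟩, hProp, hAm, hf, hg⟩ :=
    (hS1.and_club (hS2.and (hS3.and (hS4.and hS5)))) fun _ => Sum.inr (Sum.inl A)
  obtain ⟨δ, M, Q0, r0, g0, hlev, hG, hδ, hQ0, hg0, h4, h5⟩ := hRe
  refine ⟨Sum.inl ⁻¹' N, δ, M, Q0, r0, g0, hPN, hlev, hG, hδ, hQ0, hg0, h4, h5, ?_⟩
  obtain ⟨B, hBA, hB, hgen⟩ := hProp A hAm hA
  obtain ⟨Z, hZ⟩ : ∃ Z : T3 → Set (ℕ → Bool), Z = fun R =>
    B \ ⋃ E ∈ {E | E ∈ Ds b R ∧ (Sum.inr (Sum.inl E) : Sx) ∈ N}, E := ⟨_, rfl⟩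
  have hN2 : {E | (Sum.inr (Sum.inl E) : Sx) ∈ N}.Countable :=
    hcN.preimage (f := fun E => (Sum.inr (Sum.inl E) : Sx))
      (Sum.inr_injective.comp Sum.inl_injective)
  have hZm : ∀ R, DenseIn I (Ds b R) → MeasurableSet (Z R) := by
    intro R hD
    rw [hZ]
    refine hB.1.diff (MeasurableSet.biUnion (hN2.mono fun E hE => hE.2) ?_)
    exact fun E hE => (hD.1 E hE.1).1
  have hZI : ∀ R, (Sum.inl R : Sx) ∈ N → DenseIn I (Ds b R) → I.mem (Z R) := by
    intro R hRN hD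
    by_contra hne
    have h6 : (Sum.inr (Sum.inr (Ds b R)) : Sx) ∈ N := hf _ hRN
    have hsub : Z R ⊆ B := by
      rw [hZ]
      exact Set.diff_subset
    obtain ⟨E, hE1, hE2, hE3⟩ := hgen (Ds b R) h6 hD (Z R) hsub ⟨hZm R hD, hne⟩
    have h7 : Z R ∩ E = ∅ := by
      rw [hZ]
      refine Set.eq_empty_of_forall_notMem ?_
      rintro x ⟨⟨-, hx⟩, hxE⟩
      exact hx (Set.mem_biUnion (show E ∈ {E | E ∈ Ds b R ∧ (Sum.inr (Sum.inl E) : Sx) ∈ N} from
        ⟨hE1, hE2⟩) hxE)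
    rw [h7] at hE3
    exact hE3.2 (mem_empty' I)
  have hN1 : {R : T3 | (Sum.inl R : Sx) ∈ N}.Countable := hcN.preimage Sum.inl_injective
  have hU : I.mem (⋃ R ∈ {R : T3 | (Sum.inl R : Sx) ∈ N ∧ DenseIn I (Ds b R)}, Z R) :=
    mem_biUnion' I (hN1.mono fun R hR => hR.1) fun R hR => hZI R hR.1 hR.2
  refine ⟨B \ ⋃ R ∈ {R : T3 | (Sum.inl R : Sx) ∈ N ∧ DenseIn I (Ds b R)}, Z R,
    Set.diff_subset.trans hBA, ⟨hB.1.diff (I.meas _ hU), fun hC => ?_⟩, ?_⟩
  · refine hB.2 (I.mono _ _ (mem_union' I hC hU) hB.1 ?_)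
    intro x hx
    by_cases hxU : x ∈ ⋃ R ∈ {R : T3 | (Sum.inl R : Sx) ∈ N ∧ DenseIn I (Ds b R)}, Z R
    · exact Or.inr hxU
    · exact Or.inl ⟨hx, hxU⟩
  · intro R hRN hD x hx
    have h8 : x ∉ Z R := fun hxZ => hx.2 (Set.mem_biUnion
      (show R ∈ {R : T3 | (Sum.inl R : Sx) ∈ N ∧ DenseIn I (Ds b R)} from ⟨hRN, hD⟩) hxZ)
    rw [hZ] at h8
    have h9 : x ∈ ⋃ E ∈ {E | E ∈ Ds b R ∧ (Sum.inr (Sum.inl E) : Sx) ∈ N}, E := by
      by_contra hne
      exact h8 ⟨hx.1, hne⟩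
    obtain ⟨E, hE, hxE⟩ := Set.mem_iUnion₂.1 h9
    have h10 : ∃ ζ, R ζ default default ∧ b ζ = E := hE.1
    have h11 := hg (Sum.inl R) hRN (Sum.inr (Sum.inl E)) hE.2
    have h12 : gx b (Sum.inl R) (Sum.inr (Sum.inl E)) = Sum.inl (lev h10.choose) := by
      unfold gx
      exact dif_pos h10
    rw [h12] at h11
    refine ⟨h10.choose, (hlev _).1 h11, h10.choose_spec.1, ?_⟩
    rw [h10.choose_spec.2]
    exact hxE

end RMK
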