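import Pool.Agent.RMK.Cond
import Pool.Agent.PU.TopB

/-!
RMK OVERQ: construction of a real over a fixed valid sequence.

PROOF.  Fix `q`.  Call `(s, F)` with `GoodF q F` a finite condition over `q`, ordered by `FExt`.  Any such
condition can be extended (by `FExt`) as follows.
(t1) for given `n`: to one satisfying `P n` (hypothesis).
(t2) for given `α < q.len`, `v ∈ Keys (q.restr α)`, `n` with `q.val α n = true`: add `(v, n)` to `F`
(`fext_add`; `GoodF` is preserved).
(t3) for given `α < q.len`, `v ∈ Keys (q.restr α)`, `n` with `q.val α n = false` and `M : ℕ`: to `(s', F)` such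
that `s'[enc v n m]? = some true` for some `m ≥ M`.  Indeed `(v, n) ∉ F` (`not_promised`), so by
`infinite_enc F v n _ k` (see `PU/TopB.lean`: it gives `m ≥ k` with `k ≤ enc v n m` and
`enc v n m ≠ enc r.1 r.2 m'` for all `r ∈ F`, `m'`) applied with `k = max M s.length` take
`e = enc v n m` and let `s' = s ++ (zeros) ++ [true]` of length `e + 1`; all new bits are `false` except
bit `e`, which is not in a coding set of `F`.
(t4) for given `k`: to `s'` with `k ≤ s'.length` (append zeros).
There are countably many tasks (`Om.countable_Iio`, `keys_countable`; enumerate them, each infinitely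
often is not needed as `FExt` preserves everything achieved: `P n` must be preserved, see the
hypothesis `hmono`).  So there is a sequence `(s k, F k)`, increasing for `FExt`, `(s 0, F 0) = (s, F)`,
achieving all tasks.  Let `x` be the union of the `s k` (`x j` = the bit `j` of any `s k` of length `> j`).
Then `Prm (s k) (F k) x` for all `k` (for `r ∈ F k`, `e = enc ..` with `(s k).length ≤ e`: take `k'` large with
`e < (s k').length`, `FExt (s k) (F k) (s k') (F k')` says that bit `e` of `s k'` is false).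
`DecOK q x`: let `v ∈ Keys (q.restr α)`; `theta x v n = true` iff `x` is off on all but finitely many
`enc v n m`.  If `q.val α n = true` then `(v, n) ∈ F k` for some `k`, and `enc v n m ≥ (s k).length` for all
large `m` (`enc_tendsto` in `PU/TopB.lean`).  If `q.val α n = false`, (t3) gives arbitrarily large `m` with
`x (enc v n m) = true`.
-/

namespace RMK

open MeasureTheory Set PU

/-- open dense tasks over `q` -/
private def Tsk (q : Seq (ℕ → Bool)) (T : List Bool → FS → Prop) : Prop :=
  (∀ s F s' F', T s F → FExt s F s' F' → GoodF q F' → T s' F') ∧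
    ∀ s F, GoodF q F → ∃ s' F', FExt s F s' F' ∧ GoodF q F' ∧ T s' F'

private theorem seq_of_tasks {q : Seq (ℕ → Bool)} {S : Set (List Bool → FS → Prop)}
    (hS : S.Countable) (hT : ∀ T ∈ S, Tsk q T) {s : List Bool} {F : FS} (hF : GoodF q F) :
    ∃ a : ℕ → List Bool × FS, a 0 = (s, F) ∧ (∀ k, GoodF q (a k).2) ∧
      (∀ k k', k ≤ k' → FExt (a k).1 (a k).2 (a k').1 (a k').2) ∧
      ∀ T ∈ S, ∃ k, T (a k).1 (a k).2 := by
  classical
  rcases S.eq_empty_or_nonempty with rfl | hne
  · exact ⟨fun _ => (s, F), rfl, fun _ => hF, fun _ _ _ => FExt.refl _ _, fun T h => h.elim⟩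
  obtain ⟨t, rfl⟩ := hS.exists_eq_range hne
  have hstep : ∀ (k : ℕ) (c : {c : List Bool × FS // GoodF q c.2}),
      ∃ c' : {c : List Bool × FS // GoodF q c.2}, FExt c.1.1 c.1.2 c'.1.1 c'.1.2 ∧
        t k c'.1.1 c'.1.2 := by
    intro k c
    obtain ⟨s', F', h1, h2, h3⟩ := (hT _ (mem_range_self k)).2 c.1.1 c.1.2 c.2
    exact ⟨⟨(s', F'), h2⟩, h1, h3⟩
  choose nx hnx using hstep
  let a : ℕ → {c : List Bool × FS // GoodF q c.2} :=
    fun k => Nat.rec ⟨(s, F), hF⟩ (fun k c => nx k c) k
  have ha : ∀ k, a (k + 1) = nx k (a k) := fun k => rfl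
  refine ⟨fun k => (a k).1, rfl, fun k => (a k).2, ?_, ?_⟩
  · intro k k' hk
    induction k', hk using Nat.le_induction with
    | base => exact FExt.refl _ _
    | succ k' _ ih =>
      refine ih.trans ?_
      show FExt _ _ (a (k' + 1)).1.1 (a (k' + 1)).1.2
      rw [ha]
      exact (hnx k' (a k')).1
  · rintro T ⟨k, rfl⟩
    refine ⟨k + 1, ?_⟩
    show t k (a (k + 1)).1.1 (a (k + 1)).1.2
    rw [ha]
    exact (hnx k (a k)).2

private theorem fext_zeros (s : List Bool) (F : FS) (k : ℕ) :
    FExt s F (s ++ List.replicate k false) F := by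
  refine ⟨List.prefix_append _ _, Finset.Subset.refl _, ?_⟩
  intro r _ m hm b hb
  rw [List.getElem?_append_right hm, List.getElem?_replicate] at hb
  split at hb
  · exact (Option.some.inj hb).symm
  · simp at hb

private theorem fext_one (s : List Bool) (F : FS) (e : ℕ) (he : s.length ≤ e)
    (hF : ∀ r ∈ F, ∀ m', e ≠ enc r.1 r.2 m') :
    ∃ s', FExt s F s' F ∧ s'[e]? = some true := by
  refine ⟨s ++ (List.replicate (e - s.length) false ++ [true]), ?_, ?_⟩
  · refine ⟨List.prefix_append _ _, Finset.Subset.refl _, ?_⟩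
    intro r hr m hm b hb
    have hne := hF r hr m
    generalize enc r.1 r.2 m = e' at *
    rw [List.getElem?_append_right hm] at hb
    rcases lt_trichotomy e' e with h | h | h
    · rw [List.getElem?_append_left (by simp; omega), List.getElem?_replicate] at hb
      split at hb
      · exact (Option.some.inj hb).symm
      · simp at hb
    · exact absurd h.symm hne
    · rw [List.getElem?_eq_none (by simp; omega)] at hb
      simp at hb
  · rw [List.getElem?_append_right he, List.getElem?_append_right (by simp)]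
    simp

theorem over_q {G : Set Om} {q : Seq (ℕ → Bool)} (hq : Val G q) (P : ℕ → List Bool → FS → Prop)
    (hmono : ∀ n s F s' F', P n s F → FExt s F s' F' → GoodF q F' → P n s' F')
    (hdense : ∀ n s F, GoodF q F → ∃ s' F', FExt s F s' F' ∧ GoodF q F' ∧ P n s' F')
    {s : List Bool} {F : FS} (hF : GoodF q F) :
    ∃ x ∈ Bas q s F, ∀ n, ∃ s' F', GoodF q F' ∧ P n s' F' ∧ x ∈ Bas q s' F' := by
  classical
  -- the tasks
  let K : Set (ℕ → Bool) := ⋃ α ∈ {α : Om | α < q.len}, Keys (q.restr α)
  have hK : K.Countable := (Om.countable_Iio q.len).biUnion fun α _ => keys_countable _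
  let T2 : (ℕ → Bool) → ℕ → List Bool → FS → Prop := fun v n _ F =>
    (∃ α, α < q.len ∧ v ∈ Keys (q.restr α) ∧ q.val α n = true) → (v, n) ∈ F
  let T3 : (ℕ → Bool) → ℕ → ℕ → List Bool → FS → Prop := fun v n M s _ =>
    (∃ α, α < q.len ∧ v ∈ Keys (q.restr α) ∧ q.val α n = false) →
      ∃ m, M ≤ m ∧ s[enc v n m]? = some true
  let T4 : ℕ → List Bool → FS → Prop := fun k s _ => k ≤ s.length
  let S : Set (List Bool → FS → Prop) := range P ∪ (⋃ v ∈ K, range fun n => T2 v n) ∪
    (⋃ v ∈ K, range fun nM : ℕ × ℕ => T3 v nM.1 nM.2) ∪ range T4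
  have hSc : S.Countable := by
    refine (((countable_range _).union ?_).union ?_).union (countable_range _)
    · exact hK.biUnion fun v _ => countable_range _
    · exact hK.biUnion fun v _ => countable_range _
  have hST : ∀ T ∈ S, Tsk q T := by
    rintro T (((⟨n, rfl⟩ | h) | h) | ⟨k, rfl⟩)
    · exact ⟨fun s F s' F' h1 h2 h3 => hmono n s F s' F' h1 h2 h3, hdense n⟩
    · rw [mem_iUnion₂] at h
      obtain ⟨v, -, n, rfl⟩ := h
      refine ⟨fun s F s' F' h1 h2 _ h4 => h2.2.1 (h1 h4), ?_⟩
      intro s F hF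
      by_cases hv : ∃ α, α < q.len ∧ v ∈ Keys (q.restr α) ∧ q.val α n = true
      · refine ⟨s, F ∪ {(v, n)}, fext_add s F {(v, n)}, ?_, fun _ => by simp⟩
        intro r hr
        rcases Finset.mem_union.1 hr with hr | hr
        · exact hF r hr
        · rw [Finset.mem_singleton] at hr
          subst hr
          exact hv
      · exact ⟨s, F, FExt.refl _ _, hF, fun h => absurd h hv⟩
    · rw [mem_iUnion₂] at h
      obtain ⟨v, -, ⟨n, M⟩, rfl⟩ := h
      refine ⟨?_, ?_⟩
      · intro s F s' F' h1 h2 _ h4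
        obtain ⟨m, hm, hs⟩ := h1 h4
        refine ⟨m, hm, ?_⟩
        obtain ⟨t, rfl⟩ := h2.1
        rw [List.getElem?_append_left]
        · exact hs
        · by_contra hlt
          rw [List.getElem?_eq_none (not_lt.1 hlt)] at hs
          simp at hs
      · intro s F hF
        by_cases hv : ∃ α, α < q.len ∧ v ∈ Keys (q.restr α) ∧ q.val α n = false
        · obtain ⟨α, hα, hvk, hn⟩ := hv
          have hnF := not_promised hq hF hα hvk hn
          obtain ⟨m, hm1, hm2, hm3⟩ := infinite_enc F v n hnF (max M s.length)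
          obtain ⟨s', h1, h2⟩ := fext_one s F (enc v n m) ((le_max_right _ _).trans hm2) hm3
          exact ⟨s', F, h1, hF, fun _ => ⟨m, (le_max_left _ _).trans hm1, h2⟩⟩
        · exact ⟨s, F, FExt.refl _ _, hF, fun h => absurd h hv⟩
    · refine ⟨fun s F s' F' h1 h2 _ => le_trans h1 h2.1.length_le, ?_⟩
      intro s F hF
      refine ⟨s ++ List.replicate k false, F, fext_zeros s F k, hF, ?_⟩
      show k ≤ _
      simp
  obtain ⟨a, ha0, haG, hmon, htask⟩ := seq_of_tasks hSc hST hF (s := s)
  -- lengths are unbounded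
  have hlen : ∀ j, ∃ k, j < (a k).1.length := by
    intro j
    obtain ⟨k, hk⟩ := htask (T4 (j + 1)) (Or.inr (mem_range_self _))
    exact ⟨k, hk⟩
  choose κ hκ using hlen
  have hpre : ∀ k k' : ℕ, k ≤ k' → ∀ (j : ℕ) (b : Bool), (a k).1[j]? = some b → (a k').1[j]? = some b := by
    intro k k' hk j b hb
    obtain ⟨t, ht⟩ := (hmon k k' hk).1
    rw [← ht, List.getElem?_append_left]
    · exact hb
    · by_contra hlt
      rw [List.getElem?_eq_none (not_lt.1 hlt)] at hb
      simp at hb
  let x : ℕ → Bool := fun j => (a (κ j)).1[j]'(hκ j)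
  have hx : ∀ (k j : ℕ) (b : Bool), (a k).1[j]? = some b → x j = b := by
    intro k j b hb
    have h1 : (a (κ j)).1[j]? = some (x j) := List.getElem?_eq_getElem (hκ j)
    have h2 := hpre k (max k (κ j)) (le_max_left _ _) j b hb
    have h3 := hpre (κ j) (max k (κ j)) (le_max_right _ _) j _ h1
    rw [h2] at h3
    exact (Option.some.inj h3).symm
  have hPrm : ∀ k, Prm (a k).1 (a k).2 x := by
    intro k
    refine ⟨fun j b hb => hx k j b hb, ?_⟩
    intro r hr m hm
    set e := enc r.1 r.2 m with he
    have h1 : (a (κ e)).1[e]? = some (x e) := List.getElem?_eq_getElem (hκ e)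
    have h3 := hpre (κ e) (max k (κ e)) (le_max_right _ _) e _ h1
    exact (hmon k (max k (κ e)) (le_max_left _ _)).2.2 r hr m hm _ h3
  have hDec : DecOK q x := by
    intro α hα v hv
    have hvK : v ∈ K := mem_biUnion (show α ∈ {α : Om | α < q.len} from hα) hv
    funext n
    cases hn : q.val α n
    · -- infinitely many ones
      by_contra hne
      have h1 : theta x v n = true := by simpa using hne
      obtain ⟨M, hM⟩ := topb_theta_iff.1 h1
      obtain ⟨k, hk⟩ := htask (T3 v n M) (Or.inl (Or.inr (mem_biUnion hvK ⟨(n, M), rfl⟩)))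
      obtain ⟨m, hm, hs⟩ := hk ⟨α, hα, hv, hn⟩
      have h2 := hM m hm
      rw [hx k _ _ hs] at h2
      simp at h2
    · obtain ⟨k, hk⟩ := htask (T2 v n) (Or.inl (Or.inl (Or.inr (mem_biUnion hvK ⟨n, rfl⟩))))
      have h1 := hk ⟨α, hα, hv, hn⟩
      obtain ⟨M, hM⟩ := Filter.eventually_atTop.1
        ((enc_tendsto v n).eventually_ge_atTop (a k).1.length)
      exact topb_theta_iff.2 ⟨M, fun m hm => (hPrm k).2 (v, n) h1 m (hM m hm)⟩
  refine ⟨x, ⟨?_, hDec⟩, ?_⟩
  · have := hPrm 0
    rw [ha0] at this
    exact this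
  · intro n
    obtain ⟨k, hk⟩ := htask (P n) (Or.inl (Or.inl (Or.inl (mem_range_self n))))
    exact ⟨(a k).1, (a k).2, haG k, hk, hPrm k, hDec⟩

end RMK
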