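import Pool.Agent.RMK.MSet

/-!
RMK PPO: posets of pairs (`PP`, see `PDefs.lean`): basic facts, definability, lifted names.

PROOFS.
`PP.isPoset`: reflexivity and transitivity coordinatewise through `rel` (write elements of `Q'` as
pairs with `sub`).
`MD.pp`: write `PP M Q r C s Q' r'` (all six in `M`) as a conjunction of statements with all quantifiers
over `↥M` (`ZModel.ball`, `ZModel.bex`; in `down` and `rel` the quantified `q, c, q', c'` are in `M` as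
soon as the pairs are in `Q'`, by `ZModel.pair_left`, `ZModel.pair_right` and transitivity of `M`), then use
the calculus `MD.and`, `MD.all`, `MD.ex`, `MD.imp`, `MD.iff`, `MD.mem`, `MD.pair_mem`, `MD.pair3_mem`, ....
It is convenient to prove it for functions: `f1 ... f6 : X → M` with `DFc`; the given form follows
with projections, or compose with `MD.comp`.
`liftZ_mem`: by `exists_sep` for the set `prodM om3 Q'` and the predicate `∃ t q c q1 : M, ...`; the set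
obtained equals `liftZ Q r Q' σ` by extensionality.
`DFc.lift`: the graph is `{(x, y) | ∀ z : M, z ∈ y ↔ z ∈ prod om3 (Q' x) ∧ ∃ t q c q1 : M, ...}`.
`mem_liftZ`: `ZFSet.mem_sep`, `ZFSet.mem_prod`, `mem_om3`, `ZFSet.pair_inj`.
`exists_PP`: `Q'` is the subset of `prodM Q C` of the `z` with `∃ q c : M, z = pair q c ∧ P (q, c)`
(`exists_sep`), `r'` is the subset of `prodM Q' Q'` of the `z` with `∃ q' c' q c : M, z = pair (pair q' c')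
(pair q c) ∧ pair q' q ∈ r ∧ pair c' c ∈ s`.
-/

namespace RMK

open Set

variable {M : Set ZFSet.{0}} {X : Type 1} [Ctx M X] {Q r C s Q' r' : ZFSet.{0}}

private theorem wk {Y : Type 1} [Ctx M Y] {f : X → Y} (h : DFc M f) :
    DFc M fun p : X × M => f p.1 := h.comp (DFc.fst DFc.id)

private theorem lv : DFc M fun p : X × M => p.2 := DFc.snd DFc.id

private theorem tr1 (hM : ZModel M) {a b : ZFSet.{0}} (ha : a ∈ M) (hb : b ∈ a) : b ∈ M :=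
  hM.trans a ha b hb

theorem PP.isPoset (hQ : IsPoset M Q r) (h : PP M Q r C s Q' r') (hne : ∃ w, w ∈ Q') :
    IsPoset M Q' r' := by
  refine ⟨h.memQ', h.memr', hne, ?_, ?_⟩
  · intro w hw
    obtain ⟨q, hq, c, hc, rfl⟩ := h.sub w hw
    exact (h.rel q c q c hw hw).2 ⟨hQ.refl q hq, h.refl c hc⟩
  · intro x hx y hy z hz hxy hyz
    obtain ⟨q1, hq1, c1, hc1, rfl⟩ := h.sub x hx
    obtain ⟨q2, hq2, c2, hc2, rfl⟩ := h.sub y hy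
    obtain ⟨q3, hq3, c3, hc3, rfl⟩ := h.sub z hz
    obtain ⟨a1, a2⟩ := (h.rel q1 c1 q2 c2 hx hy).1 hxy
    obtain ⟨b1, b2⟩ := (h.rel q2 c2 q3 c3 hy hz).1 hyz
    exact (h.rel q1 c1 q3 c3 hx hz).2 ⟨hQ.trans q1 hq1 q2 hq2 q3 hq3 a1 b1,
      h.trans c1 hc1 c2 hc2 c3 hc3 a2 b2⟩

private theorem pp_iff (hM : ZModel M) (Q r C s Q' r' : M) :
    PP M Q.1 r.1 C.1 s.1 Q'.1 r'.1 ↔
      (∀ c : M, c.1 ∈ C.1 → ZFSet.pair c.1 c.1 ∈ s.1) ∧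
      (∀ a b c : M, a.1 ∈ C.1 → b.1 ∈ C.1 → c.1 ∈ C.1 → ZFSet.pair a.1 b.1 ∈ s.1 →
        ZFSet.pair b.1 c.1 ∈ s.1 → ZFSet.pair a.1 c.1 ∈ s.1) ∧
      (∀ w : M, w.1 ∈ Q'.1 → ∃ q c : M, q.1 ∈ Q.1 ∧ c.1 ∈ C.1 ∧ w.1 = ZFSet.pair q.1 c.1) ∧
      (∀ q c q' : M, ZFSet.pair q.1 c.1 ∈ Q'.1 → q'.1 ∈ Q.1 → ZFSet.pair q'.1 q.1 ∈ r.1 →
        ZFSet.pair q'.1 c.1 ∈ Q'.1) ∧
      (∀ z : M, z.1 ∈ r'.1 → ∃ w' w : M, w'.1 ∈ Q'.1 ∧ w.1 ∈ Q'.1 ∧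
        z.1 = ZFSet.pair w'.1 w.1) ∧
      (∀ q' c' q c : M, ZFSet.pair q'.1 c'.1 ∈ Q'.1 → ZFSet.pair q.1 c.1 ∈ Q'.1 →
        (ZFSet.pair (ZFSet.pair q'.1 c'.1) (ZFSet.pair q.1 c.1) ∈ r'.1 ↔
          ZFSet.pair q'.1 q.1 ∈ r.1 ∧ ZFSet.pair c'.1 c.1 ∈ s.1)) := by
  constructor
  · intro h
    refine ⟨fun c hc => h.refl c.1 hc, fun a b c ha hb hc => h.trans a.1 ha b.1 hb c.1 hc, ?_,
      fun q c q' h1 h2 h3 => h.down q.1 c.1 q'.1 h1 h2 h3, ?_,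
      fun q' c' q c h1 h2 => h.rel q'.1 c'.1 q.1 c.1 h1 h2⟩
    · intro w hw
      obtain ⟨q, hq, c, hc, e⟩ := h.sub w.1 hw
      exact ⟨⟨q, tr1 hM Q.2 hq⟩, ⟨c, tr1 hM C.2 hc⟩, hq, hc, e⟩
    · intro z hz
      obtain ⟨w', hw', w, hw, e⟩ := h.relsub z.1 hz
      exact ⟨⟨w', tr1 hM Q'.2 hw'⟩, ⟨w, tr1 hM Q'.2 hw⟩, hw', hw, e⟩
  · rintro ⟨h1, h2, h3, h4, h5, h6⟩
    refine ⟨C.2, s.2, Q'.2, r'.2, ?_, ?_, ?_, ?_, ?_, ?_⟩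
    · intro c hc
      exact h1 ⟨c, tr1 hM C.2 hc⟩ hc
    · intro a ha b hb c hc
      exact h2 ⟨a, tr1 hM C.2 ha⟩ ⟨b, tr1 hM C.2 hb⟩ ⟨c, tr1 hM C.2 hc⟩ ha hb hc
    · intro w hw
      obtain ⟨q, c, hq, hc, e⟩ := h3 ⟨w, tr1 hM Q'.2 hw⟩ hw
      exact ⟨q.1, hq, c.1, hc, e⟩
    · intro q c q' hqc hq' hr
      have e := tr1 hM Q'.2 hqc
      exact h4 ⟨q, hM.pair_left e⟩ ⟨c, hM.pair_right e⟩ ⟨q', tr1 hM Q.2 hq'⟩ hqc hq' hr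
    · intro z hz
      obtain ⟨w', w, hw', hw, e⟩ := h5 ⟨z, tr1 hM r'.2 hz⟩ hz
      exact ⟨w'.1, hw', w.1, hw, e⟩
    · intro q' c' q c hq hq'
      have e := tr1 hM Q'.2 hq
      have e' := tr1 hM Q'.2 hq'
      exact h6 ⟨q', hM.pair_left e⟩ ⟨c', hM.pair_right e⟩ ⟨q, hM.pair_left e'⟩
        ⟨c, hM.pair_right e'⟩ hq hq' 

theorem MD.pp (hM : ZModel M) {f1 f2 f3 f4 f5 f6 : X → M} (h1 : DFc M f1) (h2 : DFc M f2)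
    (h3 : DFc M f3) (h4 : DFc M f4) (h5 : DFc M f5) (h6 : DFc M f6) :
    MD M fun x => PP M (f1 x).1 (f2 x).1 (f3 x).1 (f4 x).1 (f5 x).1 (f6 x).1 := by
  have a0 : DFc M fun p : X × M => p.1 := DFc.fst DFc.id
  have a1 : DFc M fun p : X × M => p.2 := DFc.snd DFc.id
  have b0 : DFc M fun p : (X × M) × M => p.1.1 := DFc.fst (DFc.fst DFc.id)
  have b1 : DFc M fun p : (X × M) × M => p.1.2 := DFc.snd (DFc.fst DFc.id)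
  have b2 : DFc M fun p : (X × M) × M => p.2 := DFc.snd DFc.id
  have c0 : DFc M fun p : ((X × M) × M) × M => p.1.1.1 := DFc.fst (DFc.fst (DFc.fst DFc.id))
  have c1 : DFc M fun p : ((X × M) × M) × M => p.1.1.2 := DFc.snd (DFc.fst (DFc.fst DFc.id))
  have c2 : DFc M fun p : ((X × M) × M) × M => p.1.2 := DFc.snd (DFc.fst DFc.id)
  have c3 : DFc M fun p : ((X × M) × M) × M => p.2 := DFc.snd DFc.id
  have d0 : DFc M fun p : (((X × M) × M) × M) × M => p.1.1.1.1 :=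
    DFc.fst (DFc.fst (DFc.fst (DFc.fst DFc.id)))
  have d1 : DFc M fun p : (((X × M) × M) × M) × M => p.1.1.1.2 :=
    DFc.snd (DFc.fst (DFc.fst (DFc.fst DFc.id)))
  have d2 : DFc M fun p : (((X × M) × M) × M) × M => p.1.1.2 := DFc.snd (DFc.fst (DFc.fst DFc.id))
  have d3 : DFc M fun p : (((X × M) × M) × M) × M => p.1.2 := DFc.snd (DFc.fst DFc.id)
  have d4 : DFc M fun p : (((X × M) × M) × M) × M => p.2 := DFc.snd DFc.id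
  have k1 : MD M fun x : X => ∀ c : M, c.1 ∈ (f3 x).1 → ZFSet.pair c.1 c.1 ∈ (f4 x).1 := by
    apply MD.all (P := fun (x : X) (c : M) => c.1 ∈ (f3 x).1 → ZFSet.pair c.1 c.1 ∈ (f4 x).1)
    have e := MD.pair_mem hM a1 a1 (DFc.comp h4 a0)
    exact (MD.imp (MD.mem a1 (DFc.comp h3 a0)) e :)
  have k2 : MD M fun x : X => ∀ a b c : M, a.1 ∈ (f3 x).1 → b.1 ∈ (f3 x).1 → c.1 ∈ (f3 x).1 →
      ZFSet.pair a.1 b.1 ∈ (f4 x).1 → ZFSet.pair b.1 c.1 ∈ (f4 x).1 →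
      ZFSet.pair a.1 c.1 ∈ (f4 x).1 := by
    apply MD.all (P := fun (x : X) (a : M) => ∀ b c : M, a.1 ∈ (f3 x).1 → b.1 ∈ (f3 x).1 →
      c.1 ∈ (f3 x).1 → ZFSet.pair a.1 b.1 ∈ (f4 x).1 → ZFSet.pair b.1 c.1 ∈ (f4 x).1 →
      ZFSet.pair a.1 c.1 ∈ (f4 x).1)
    apply MD.all (P := fun (p : X × M) (b : M) => ∀ c : M, p.2.1 ∈ (f3 p.1).1 →
      b.1 ∈ (f3 p.1).1 → c.1 ∈ (f3 p.1).1 → ZFSet.pair p.2.1 b.1 ∈ (f4 p.1).1 →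
      ZFSet.pair b.1 c.1 ∈ (f4 p.1).1 → ZFSet.pair p.2.1 c.1 ∈ (f4 p.1).1)
    apply MD.all (P := fun (p : (X × M) × M) (c : M) => p.1.2.1 ∈ (f3 p.1.1).1 →
      p.2.1 ∈ (f3 p.1.1).1 → c.1 ∈ (f3 p.1.1).1 → ZFSet.pair p.1.2.1 p.2.1 ∈ (f4 p.1.1).1 →
      ZFSet.pair p.2.1 c.1 ∈ (f4 p.1.1).1 → ZFSet.pair p.1.2.1 c.1 ∈ (f4 p.1.1).1)
    have g3 := DFc.comp h3 c0
    have g4 := DFc.comp h4 c0
    have e1 := MD.pair_mem hM c1 c2 g4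
    have e2 := MD.pair_mem hM c2 c3 g4
    have e3 := MD.pair_mem hM c1 c3 g4
    exact (MD.imp (MD.mem c1 g3) (MD.imp (MD.mem c2 g3) (MD.imp (MD.mem c3 g3)
      (MD.imp e1 (MD.imp e2 e3)))) :)
  have k3 : MD M fun x : X => ∀ w : M, w.1 ∈ (f5 x).1 → ∃ q c : M, q.1 ∈ (f1 x).1 ∧
      c.1 ∈ (f3 x).1 ∧ w.1 = ZFSet.pair q.1 c.1 := by
    apply MD.all (P := fun (x : X) (w : M) => w.1 ∈ (f5 x).1 → ∃ q c : M, q.1 ∈ (f1 x).1 ∧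
      c.1 ∈ (f3 x).1 ∧ w.1 = ZFSet.pair q.1 c.1)
    have k : MD M fun p : X × M => ∃ q c : M, q.1 ∈ (f1 p.1).1 ∧ c.1 ∈ (f3 p.1).1 ∧
        p.2.1 = ZFSet.pair q.1 c.1 := by
      apply MD.ex (P := fun (p : X × M) (q : M) => ∃ c : M, q.1 ∈ (f1 p.1).1 ∧
        c.1 ∈ (f3 p.1).1 ∧ p.2.1 = ZFSet.pair q.1 c.1)
      apply MD.ex (P := fun (p : (X × M) × M) (c : M) => p.2.1 ∈ (f1 p.1.1).1 ∧
        c.1 ∈ (f3 p.1.1).1 ∧ p.1.2.1 = ZFSet.pair p.2.1 c.1)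
      have e := MD.eq_pair hM c1 c2 c3
      exact (MD.and (MD.mem c2 (DFc.comp h1 c0)) (MD.and (MD.mem c3 (DFc.comp h3 c0)) e) :)
    exact (MD.imp (MD.mem a1 (DFc.comp h5 a0)) k :)
  have k4 : MD M fun x : X => ∀ q c q' : M, ZFSet.pair q.1 c.1 ∈ (f5 x).1 → q'.1 ∈ (f1 x).1 →
      ZFSet.pair q'.1 q.1 ∈ (f2 x).1 → ZFSet.pair q'.1 c.1 ∈ (f5 x).1 := by
    apply MD.all (P := fun (x : X) (q : M) => ∀ c q' : M, ZFSet.pair q.1 c.1 ∈ (f5 x).1 →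
      q'.1 ∈ (f1 x).1 → ZFSet.pair q'.1 q.1 ∈ (f2 x).1 → ZFSet.pair q'.1 c.1 ∈ (f5 x).1)
    apply MD.all (P := fun (p : X × M) (c : M) => ∀ q' : M, ZFSet.pair p.2.1 c.1 ∈ (f5 p.1).1 →
      q'.1 ∈ (f1 p.1).1 → ZFSet.pair q'.1 p.2.1 ∈ (f2 p.1).1 →
      ZFSet.pair q'.1 c.1 ∈ (f5 p.1).1)
    apply MD.all (P := fun (p : (X × M) × M) (q' : M) =>
      ZFSet.pair p.1.2.1 p.2.1 ∈ (f5 p.1.1).1 → q'.1 ∈ (f1 p.1.1).1 →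
      ZFSet.pair q'.1 p.1.2.1 ∈ (f2 p.1.1).1 → ZFSet.pair q'.1 p.2.1 ∈ (f5 p.1.1).1)
    have g5 := DFc.comp h5 c0
    have e1 := MD.pair_mem hM c1 c2 g5
    have e2 := MD.pair_mem hM c3 c1 (DFc.comp h2 c0)
    have e3 := MD.pair_mem hM c3 c2 g5
    exact (MD.imp e1 (MD.imp (MD.mem c3 (DFc.comp h1 c0)) (MD.imp e2 e3)) :)
  have k5 : MD M fun x : X => ∀ z : M, z.1 ∈ (f6 x).1 → ∃ w' w : M, w'.1 ∈ (f5 x).1 ∧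
      w.1 ∈ (f5 x).1 ∧ z.1 = ZFSet.pair w'.1 w.1 := by
    apply MD.all (P := fun (x : X) (z : M) => z.1 ∈ (f6 x).1 → ∃ w' w : M, w'.1 ∈ (f5 x).1 ∧
      w.1 ∈ (f5 x).1 ∧ z.1 = ZFSet.pair w'.1 w.1)
    have k : MD M fun p : X × M => ∃ w' w : M, w'.1 ∈ (f5 p.1).1 ∧ w.1 ∈ (f5 p.1).1 ∧
        p.2.1 = ZFSet.pair w'.1 w.1 := by
      apply MD.ex (P := fun (p : X × M) (w' : M) => ∃ w : M, w'.1 ∈ (f5 p.1).1 ∧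
        w.1 ∈ (f5 p.1).1 ∧ p.2.1 = ZFSet.pair w'.1 w.1)
      apply MD.ex (P := fun (p : (X × M) × M) (w : M) => p.2.1 ∈ (f5 p.1.1).1 ∧
        w.1 ∈ (f5 p.1.1).1 ∧ p.1.2.1 = ZFSet.pair p.2.1 w.1)
      have e := MD.eq_pair hM c1 c2 c3
      have g5 := DFc.comp h5 c0
      exact (MD.and (MD.mem c2 g5) (MD.and (MD.mem c3 g5) e) :)
    exact (MD.imp (MD.mem a1 (DFc.comp h6 a0)) k :)
  have k6 : MD M fun x : X => ∀ q' c' q c : M, ZFSet.pair q'.1 c'.1 ∈ (f5 x).1 →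
      ZFSet.pair q.1 c.1 ∈ (f5 x).1 →
      (ZFSet.pair (ZFSet.pair q'.1 c'.1) (ZFSet.pair q.1 c.1) ∈ (f6 x).1 ↔
        ZFSet.pair q'.1 q.1 ∈ (f2 x).1 ∧ ZFSet.pair c'.1 c.1 ∈ (f4 x).1) := by
    apply MD.all (P := fun (x : X) (q' : M) => ∀ c' q c : M, ZFSet.pair q'.1 c'.1 ∈ (f5 x).1 →
      ZFSet.pair q.1 c.1 ∈ (f5 x).1 →
      (ZFSet.pair (ZFSet.pair q'.1 c'.1) (ZFSet.pair q.1 c.1) ∈ (f6 x).1 ↔
        ZFSet.pair q'.1 q.1 ∈ (f2 x).1 ∧ ZFSet.pair c'.1 c.1 ∈ (f4 x).1))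
    apply MD.all (P := fun (p : X × M) (c' : M) => ∀ q c : M,
      ZFSet.pair p.2.1 c'.1 ∈ (f5 p.1).1 → ZFSet.pair q.1 c.1 ∈ (f5 p.1).1 →
      (ZFSet.pair (ZFSet.pair p.2.1 c'.1) (ZFSet.pair q.1 c.1) ∈ (f6 p.1).1 ↔
        ZFSet.pair p.2.1 q.1 ∈ (f2 p.1).1 ∧ ZFSet.pair c'.1 c.1 ∈ (f4 p.1).1))
    apply MD.all (P := fun (p : (X × M) × M) (q : M) => ∀ c : M,
      ZFSet.pair p.1.2.1 p.2.1 ∈ (f5 p.1.1).1 → ZFSet.pair q.1 c.1 ∈ (f5 p.1.1).1 →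
      (ZFSet.pair (ZFSet.pair p.1.2.1 p.2.1) (ZFSet.pair q.1 c.1) ∈ (f6 p.1.1).1 ↔
        ZFSet.pair p.1.2.1 q.1 ∈ (f2 p.1.1).1 ∧ ZFSet.pair p.2.1 c.1 ∈ (f4 p.1.1).1))
    apply MD.all (P := fun (p : ((X × M) × M) × M) (c : M) =>
      ZFSet.pair p.1.1.2.1 p.1.2.1 ∈ (f5 p.1.1.1).1 → ZFSet.pair p.2.1 c.1 ∈ (f5 p.1.1.1).1 →
      (ZFSet.pair (ZFSet.pair p.1.1.2.1 p.1.2.1) (ZFSet.pair p.2.1 c.1) ∈ (f6 p.1.1.1).1 ↔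
        ZFSet.pair p.1.1.2.1 p.2.1 ∈ (f2 p.1.1.1).1 ∧
          ZFSet.pair p.1.2.1 c.1 ∈ (f4 p.1.1.1).1))
    have g5 := DFc.comp h5 d0
    have e1 := MD.pair_mem hM d1 d2 g5
    have e2 := MD.pair_mem hM d3 d4 g5
    have e3 := MD.pair3_mem hM d1 d2 d3 d4 (DFc.comp h6 d0)
    have e4 := MD.pair_mem hM d1 d3 (DFc.comp h2 d0)
    have e5 := MD.pair_mem hM d2 d4 (DFc.comp h4 d0)
    exact (MD.imp e1 (MD.imp e2 (MD.iff e3 (MD.and e4 e5))) :)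
  refine MD.congr (fun x => (pp_iff hM (f1 x) (f2 x) (f3 x) (f4 x) (f5 x) (f6 x)).symm) ?_
  exact (MD.and k1 (MD.and k2 (MD.and k3 (MD.and k4 (MD.and k5 k6)))) :)

/-- the separated predicate of `liftZ`, over `M` -/
private def LP (Q r σ z : M) : Prop :=
  ∃ t q c q1 : M, z.1 = ZFSet.pair t.1 (ZFSet.pair q.1 c.1) ∧ q1.1 ∈ Q.1 ∧
    ZFSet.pair q.1 q1.1 ∈ r.1 ∧ ZFSet.pair t.1 q1.1 ∈ σ.1

private theorem md_LP (hM : ZModel M) {f g h k : X → M} (hf : DFc M f) (hg : DFc M g)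
    (hh : DFc M h) (hk : DFc M k) : MD M fun x => LP (f x) (g x) (h x) (k x) := by
  unfold LP
  have d0 : DFc M fun p : (((X × M) × M) × M) × M => p.1.1.1.1 :=
    DFc.fst (DFc.fst (DFc.fst (DFc.fst DFc.id)))
  have d1 : DFc M fun p : (((X × M) × M) × M) × M => p.1.1.1.2 :=
    DFc.snd (DFc.fst (DFc.fst (DFc.fst DFc.id)))
  have d2 : DFc M fun p : (((X × M) × M) × M) × M => p.1.1.2 := DFc.snd (DFc.fst (DFc.fst DFc.id))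
  have d3 : DFc M fun p : (((X × M) × M) × M) × M => p.1.2 := DFc.snd (DFc.fst DFc.id)
  have d4 : DFc M fun p : (((X × M) × M) × M) × M => p.2 := DFc.snd DFc.id
  apply MD.ex (P := fun (x : X) (t : M) => ∃ q c q1 : M,
    (k x).1 = ZFSet.pair t.1 (ZFSet.pair q.1 c.1) ∧ q1.1 ∈ (f x).1 ∧
    ZFSet.pair q.1 q1.1 ∈ (g x).1 ∧ ZFSet.pair t.1 q1.1 ∈ (h x).1)
  apply MD.ex (P := fun (p : X × M) (q : M) => ∃ c q1 : M,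
    (k p.1).1 = ZFSet.pair p.2.1 (ZFSet.pair q.1 c.1) ∧ q1.1 ∈ (f p.1).1 ∧
    ZFSet.pair q.1 q1.1 ∈ (g p.1).1 ∧ ZFSet.pair p.2.1 q1.1 ∈ (h p.1).1)
  apply MD.ex (P := fun (p : (X × M) × M) (c : M) => ∃ q1 : M,
    (k p.1.1).1 = ZFSet.pair p.1.2.1 (ZFSet.pair p.2.1 c.1) ∧ q1.1 ∈ (f p.1.1).1 ∧
    ZFSet.pair p.2.1 q1.1 ∈ (g p.1.1).1 ∧ ZFSet.pair p.1.2.1 q1.1 ∈ (h p.1.1).1)
  apply MD.ex (P := fun (p : ((X × M) × M) × M) (q1 : M) =>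
    (k p.1.1.1).1 = ZFSet.pair p.1.1.2.1 (ZFSet.pair p.1.2.1 p.2.1) ∧ q1.1 ∈ (f p.1.1.1).1 ∧
    ZFSet.pair p.1.2.1 q1.1 ∈ (g p.1.1.1).1 ∧ ZFSet.pair p.1.1.2.1 q1.1 ∈ (h p.1.1.1).1)
  have e0 := DFc.pr hM d2 d3
  have e1 := MD.eq_pair hM (DFc.comp hk d0) d1 e0
  have e2 := MD.pair_mem hM d2 d4 (DFc.comp hg d0)
  have e3 := MD.pair_mem hM d1 d4 (DFc.comp hh d0)
  exact (MD.and e1 (MD.and (MD.mem d4 (DFc.comp hf d0)) (MD.and e2 e3)) :)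

private theorem mem_liftZ_iff (hM : ZModel M) (Q r Q' σ z : M) :
    z.1 ∈ liftZ Q.1 r.1 Q'.1 σ.1 ↔
      z.1 ∈ (prodM hM ⟨om3, hM.om3_mem⟩ Q').1 ∧ LP Q r σ z := by
  unfold liftZ
  rw [ZFSet.mem_sep]
  refine and_congr Iff.rfl ?_
  constructor
  · rintro ⟨t, q, c, q1, e, h1, h2, h3⟩
    have ez : ZFSet.pair t (ZFSet.pair q c) ∈ M := e ▸ z.2
    have eqc := hM.pair_right ez
    exact ⟨⟨t, hM.pair_left ez⟩, ⟨q, hM.pair_left eqc⟩, ⟨c, hM.pair_right eqc⟩,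
      ⟨q1, tr1 hM Q.2 h1⟩, e, h1, h2, h3⟩
  · rintro ⟨t, q, c, q1, e, h1, h2, h3⟩
    exact ⟨t.1, q.1, c.1, q1.1, e, h1, h2, h3⟩

theorem liftZ_mem (hM : ZModel M) {σ : ZFSet.{0}} (hQ : Q ∈ M) (hr : r ∈ M) (hQ' : Q' ∈ M)
    (hσ : σ ∈ M) : liftZ Q r Q' σ ∈ M := by
  obtain ⟨b, hb⟩ := exists_sep hM (P := fun z => LP ⟨Q, hQ⟩ ⟨r, hr⟩ ⟨σ, hσ⟩ z)
    (md_LP hM (DFc.const _) (DFc.const _) (DFc.const _) DFc.id)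
    (prodM hM ⟨om3, hM.om3_mem⟩ ⟨Q', hQ'⟩)
  have e : liftZ Q r Q' σ = b.1 := by
    ext z
    constructor
    · intro hz
      have h1 : z ∈ om3.prod Q' := by
        unfold liftZ at hz
        exact (ZFSet.mem_sep.1 hz).1
      have hzM : z ∈ M := tr1 hM (hM.prodZ hM.om3_mem hQ') h1
      exact (hb ⟨z, hzM⟩).2 ((mem_liftZ_iff hM ⟨Q, hQ⟩ ⟨r, hr⟩ ⟨Q', hQ'⟩ ⟨σ, hσ⟩ ⟨z, hzM⟩).1 hz)
    · intro hz
      have hzM : z ∈ M := tr1 hM b.2 hz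
      exact (mem_liftZ_iff hM ⟨Q, hQ⟩ ⟨r, hr⟩ ⟨Q', hQ'⟩ ⟨σ, hσ⟩ ⟨z, hzM⟩).2 ((hb ⟨z, hzM⟩).1 hz)
  rw [e]
  exact b.2

theorem mem_liftZ {σ q c' : ZFSet.{0}} {a b c : ℕ} :
    ZFSet.pair (nat3 a b c) (ZFSet.pair q c') ∈ liftZ Q r Q' σ ↔
      ZFSet.pair q c' ∈ Q' ∧ ∃ q1 ∈ Q, ZFSet.pair q q1 ∈ r ∧ ZFSet.pair (nat3 a b c) q1 ∈ σ := by
  unfold liftZ
  rw [ZFSet.mem_sep, ZFSet.pair_mem_prod]
  constructor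
  · rintro ⟨⟨_, h1⟩, t, q2, c2, q1, e, h2, h3, h4⟩
    obtain ⟨e1, e2⟩ := ZFSet.pair_inj.1 e
    obtain ⟨e3, e4⟩ := ZFSet.pair_inj.1 e2
    subst e1 e3 e4
    exact ⟨h1, q1, h2, h3, h4⟩
  · rintro ⟨h1, q1, h2, h3, h4⟩
    exact ⟨⟨mem_om3.2 ⟨a, b, c, rfl⟩, h1⟩, _, q, c', q1, rfl, h2, h3, h4⟩

/-- the lifted name in `M` -/
noncomputable def liftM (hM : ZModel M) (Q r Q' σ : M) : M :=
  ⟨liftZ Q.1 r.1 Q'.1 σ.1, liftZ_mem hM Q.2 r.2 Q'.2 σ.2⟩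

theorem DFc.lift (hM : ZModel M) {f g h k : X → M} (hf : DFc M f) (hg : DFc M g)
    (hh : DFc M h) (hk : DFc M k) : DFc M fun x => liftM hM (f x) (g x) (h x) (k x) := by
  refine DFc.of_graph ?_
  refine MD.congr (P := fun p : X × M => ∀ z : M, (z.1 ∈ p.2.1 ↔
    z.1 ∈ (RMK.prodM hM ⟨om3, hM.om3_mem⟩ (h p.1)).1 ∧ LP (f p.1) (g p.1) (k p.1) z)) ?_ ?_
  · intro p
    constructor
    · intro hz
      refine hM.ext fun z => ?_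
      rw [hz z]
      exact (mem_liftZ_iff hM _ _ _ _ z).symm
    · intro e z
      rw [e]
      exact mem_liftZ_iff hM _ _ _ _ z
  · exact MD.all (MD.iff (MD.mem lv (wk lv)) (MD.and
      (MD.mem lv (DFc.prodM hM (DFc.const _) (wk (wk hh))))
      (md_LP hM (wk (wk hf)) (wk (wk hg)) (wk (wk hk)) lv)))

theorem exists_PP (hM : ZModel M) (hQ : IsPoset M Q r) (hC : IsPoset M C s)
    {P : M → M → Prop} (hP : MD M fun p : M × M => P p.1 p.2)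
    (hd : ∀ q c q' : M, P q c → q'.1 ∈ Q → ZFSet.pair q'.1 q.1 ∈ r → P q' c) :
    ∃ Q' r' : ZFSet.{0}, PP M Q r C s Q' r' ∧
      ∀ q c : M, ZFSet.pair q.1 c.1 ∈ Q' ↔ q.1 ∈ Q ∧ c.1 ∈ C ∧ P q c := by
  let QM : M := ⟨Q, hQ.memQ⟩
  let rM : M := ⟨r, hQ.memr⟩
  let CM : M := ⟨C, hC.memQ⟩
  let sM : M := ⟨s, hC.memr⟩
  obtain ⟨Q', hQ'⟩ := exists_sep hM (P := fun z : M => ∃ q c : M, z.1 = ZFSet.pair q.1 c.1 ∧ P q c)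
    (MD.ex (MD.ex (MD.and (MD.eq_pair hM (wk (wk DFc.id)) (wk lv) lv)
      (MD.comp hP (DFc.mk (wk lv) lv))))) (prodM hM QM CM)
  obtain ⟨r', hr'⟩ := exists_sep hM (P := fun z : M => ∃ q' c' q c : M,
      z.1 = ZFSet.pair (prM hM q' c').1 (prM hM q c).1 ∧ ZFSet.pair q'.1 q.1 ∈ rM.1 ∧
        ZFSet.pair c'.1 c.1 ∈ sM.1)
    (MD.ex (MD.ex (MD.ex (MD.ex (MD.and (MD.eq_pair hM (wk (wk (wk (wk DFc.id))))
      (DFc.pr hM (wk (wk (wk lv))) (wk (wk lv))) (DFc.pr hM (wk lv) lv))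
      (MD.and (MD.pair_mem hM (wk (wk (wk lv))) (wk lv) (DFc.const _))
        (MD.pair_mem hM (wk (wk lv)) lv (DFc.const _)))))))) (prodM hM Q' Q')
  have hmem : ∀ q c : M, ZFSet.pair q.1 c.1 ∈ Q'.1 ↔ q.1 ∈ Q ∧ c.1 ∈ C ∧ P q c := by
    intro q c
    have h1 := hQ' ⟨ZFSet.pair q.1 c.1, hM.pairZ q.2 c.2⟩
    rw [h1]
    change ZFSet.pair q.1 c.1 ∈ Q.prod C ∧ _ ↔ _
    rw [ZFSet.pair_mem_prod]
    constructor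
    · rintro ⟨⟨h2, h3⟩, q2, c2, e, h4⟩
      obtain ⟨e1, e2⟩ := ZFSet.pair_inj.1 e
      have e1' : q = q2 := Subtype.ext e1
      have e2' : c = c2 := Subtype.ext e2
      subst e1' e2'
      exact ⟨h2, h3, h4⟩
    · rintro ⟨h2, h3, h4⟩
      exact ⟨⟨h2, h3⟩, q, c, rfl, h4⟩
  refine ⟨Q'.1, r'.1, ⟨hC.memQ, hC.memr, Q'.2, r'.2, hC.refl, hC.trans, ?_, ?_, ?_, ?_⟩, hmem⟩
  · intro w hw
    have h1 := ((hQ' ⟨w, tr1 hM Q'.2 hw⟩).1 hw).1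
    obtain ⟨q, hq, c, hc, e⟩ := ZFSet.mem_prod.1 h1
    exact ⟨q, hq, c, hc, e⟩
  · intro q c q' hqc hq' hr
    have e := tr1 hM Q'.2 hqc
    have hq'M : q' ∈ M := tr1 hM hQ.memQ hq'
    obtain ⟨h1, h2, h3⟩ := (hmem ⟨q, hM.pair_left e⟩ ⟨c, hM.pair_right e⟩).1 hqc
    exact (hmem ⟨q', hq'M⟩ ⟨c, hM.pair_right e⟩).2 ⟨hq', h2, hd _ _ ⟨q', hq'M⟩ h3 hq' hr⟩
  · intro z hz
    have h1 := ((hr' ⟨z, tr1 hM r'.2 hz⟩).1 hz).1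
    obtain ⟨w', hw', w, hw, e⟩ := ZFSet.mem_prod.1 h1
    exact ⟨w', hw', w, hw, e⟩
  · intro q' c' q c h1 h2
    have e1 := tr1 hM Q'.2 h1
    have e2 := tr1 hM Q'.2 h2
    have h3 := hr' ⟨ZFSet.pair (ZFSet.pair q' c') (ZFSet.pair q c), hM.pairZ e1 e2⟩
    rw [h3]
    constructor
    · rintro ⟨_, a, b, a', b', e, h4, h5⟩
      obtain ⟨e3, e4⟩ := ZFSet.pair_inj.1 e
      obtain ⟨e5, e6⟩ := ZFSet.pair_inj.1 e3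
      obtain ⟨e7, e8⟩ := ZFSet.pair_inj.1 e4
      rw [e5, e6, e7, e8]
      exact ⟨h4, h5⟩
    · rintro ⟨h4, h5⟩
      exact ⟨ZFSet.pair_mem_prod.2 ⟨h1, h2⟩, ⟨q', hM.pair_left e1⟩, ⟨c', hM.pair_right e1⟩,
        ⟨q, hM.pair_left e2⟩, ⟨c, hM.pair_right e2⟩, rfl, h4, h5⟩

end RMK
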