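import Pool.Agent.RMK.SOr

/-!
RMK REPA: analytic subsets of Cantor space are represented by second-order formulas with parameters.

PROOF of `repS_analytic`.  If `A` is empty: `SO.const False`.  Otherwise let `f : (ℕ → ℕ) → (ℕ → Bool)` be
continuous with range `A` (definition of `AnalyticSet`).  Code finite sequences of natural numbers by
natural numbers (`Encodable`/`Denumerable (List ℕ)`, `dl : ℕ → List ℕ` a surjection).  Parameters:
`Par 0 = Ent`, `Ent s a b :⟺ (dl s)[a]? = some b`;
`Par 1 = Eq`, `Eq a b _ :⟺ a = b`;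
`Par 2 = Gr`, `Gr n s _ :⟺ ∀ y : ℕ → ℕ, (∀ a b, (dl s)[a]? = some b → y a = b) → f y n = true`;
and `v` constant `0`.
For `X : Rel`: `dec X ∈ A` iff there is `Y : Rel` such that (functionality) `∀ a, ∃ b, Y a b 0` and `∀ a b b', Y a b
0 → Y a b' 0 → Eq b b' 0` and
`∀ n, X n 0 0 ↔ ∃ s, Gr n s 0 ∧ ∀ a b, Ent s a b → Y a b 0`.
Indeed let `y` be the function with `Y a (y a) 0`.  For every `n`: `f y n = true` iff there is `s` with `Gr n s 0`
and `dl s` an initial segment of `y`: if `f y n = true`, by continuity of `f` at `y` there is `k` such that all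
`y'` which agree with `y` below `k` have `f y' n = f y n` (basic open sets of `ℕ → ℕ`; e.g. the set `{y' |
f y' n = true}` is open, use `isOpen_pi_iff` or `PiNat.isOpen_iff_cylinder`-like lemmas, or that `f` composed
with the evaluation at `n` is locally constant), and `s` with `dl s = List.ofFn (y restricted to k)` works;
the converse is the definition of `Gr` (applied to `y`).
The formula is `SO`: variables `V 0 = X`, `V 1, V 2, V 3` the parameters after `X` (`scons X Par`), `v i = 0`.
Write it as `fun V v => ∃ Y, (...)` with `exR`, `allN`, `exN`, `atom` (inside, `scons Y V` shifts the indices of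
relations by one and each `scons n v` the indices of numbers; the number `0` is `v` at a sufficiently
large index: after `k` number quantifiers use index `k`, whose value is the original `v 0 = 0`).  Since
the formula must be of the form `P (scons X Par) v` for a fixed `P`, state `P V v` with `v 0` in place of `0`.
-/

namespace RMK

open MeasureTheory

private theorem key {f : (ℕ → ℕ) → (ℕ → Bool)} (hf : Continuous f) (y : ℕ → ℕ) (n : ℕ) :
    f y n = true ↔ ∃ s : ℕ,
      (∀ y' : ℕ → ℕ, (∀ a b, (Denumerable.ofNat (List ℕ) s)[a]? = some b → y' a = b) →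
        f y' n = true) ∧ ∀ a b, (Denumerable.ofNat (List ℕ) s)[a]? = some b → y a = b := by
  constructor
  · intro h
    have ho : IsOpen {y' : ℕ → ℕ | f y' n = true} :=
      (isOpen_discrete {true}).preimage ((continuous_apply n).comp hf)
    obtain ⟨v, hv, hy, hvs⟩ :=
      (PiNat.isTopologicalBasis_cylinders (fun _ : ℕ => ℕ)).exists_subset_of_mem_open
        (show y ∈ {y' : ℕ → ℕ | f y' n = true} from h) ho
    obtain ⟨x, k, rfl⟩ := hv
    refine ⟨Encodable.encode (List.ofFn fun i : Fin k => y i), ?_, ?_⟩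
    · intro y' hy'
      refine hvs ?_
      rw [PiNat.mem_cylinder_iff_eq] at hy
      rw [← hy]
      intro i hi
      refine hy' i (y i) ?_
      rw [Denumerable.ofNat_encode, List.getElem?_ofFn]
      simp [hi]
    · intro a b hab
      rw [Denumerable.ofNat_encode, List.getElem?_ofFn] at hab
      split_ifs at hab with h1
      simpa using hab
  · rintro ⟨s, h1, h2⟩
    exact h1 y h2

theorem repS_analytic {A : Set (ℕ → Bool)} (hA : AnalyticSet A) : RepS A := by
  rw [AnalyticSet] at hA
  rcases hA with rfl | ⟨f, hf, rfl⟩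
  · exact ⟨_, SO.const False, fun _ _ _ _ => False, fun _ => 0, fun X => Iff.rfl⟩
  · have hP := SO.exR (SO.and (SO.allN (SO.exN (SO.atom 0 1 0 2)))
      (SO.and (SO.allN (SO.allN (SO.allN (SO.imp (SO.atom 0 2 1 3)
        (SO.imp (SO.atom 0 2 0 3) (SO.atom 3 1 0 3))))))
        (SO.allN (SO.iff (SO.atom 1 0 1 1) (SO.exN (SO.and (SO.atom 4 1 0 2)
          (SO.allN (SO.allN (SO.imp (SO.atom 2 2 1 0) (SO.atom 0 1 0 4))))))))))
    refine ⟨_, hP, scons (fun s a b => (Denumerable.ofNat (List ℕ) s)[a]? = some b)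
      (scons (fun a b _ => a = b) (scons (fun n s _ => ∀ y : ℕ → ℕ,
        (∀ a b, (Denumerable.ofNat (List ℕ) s)[a]? = some b → y a = b) → f y n = true)
        fun _ _ _ _ => False)), fun _ => 0, fun X => ?_⟩
    show (∃ Y : Rel, (∀ a, ∃ b, Y a b 0) ∧ (∀ a b b', Y a b 0 → Y a b' 0 → b = b') ∧
      ∀ n, X n 0 0 ↔ ∃ s : ℕ, (∀ y : ℕ → ℕ,
        (∀ a b, (Denumerable.ofNat (List ℕ) s)[a]? = some b → y a = b) → f y n = true) ∧
        ∀ a b, (Denumerable.ofNat (List ℕ) s)[a]? = some b → Y a b 0) ↔ dec X ∈ Set.range f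
    constructor
    · rintro ⟨Y, h1, h2, h3⟩
      choose y hy using h1
      refine ⟨y, ?_⟩
      have hY : ∀ a b, Y a b 0 ↔ y a = b := fun a b =>
        ⟨fun h => h2 a _ _ (hy a) h, fun h => h ▸ hy a⟩
      funext n
      rw [Bool.eq_iff_iff, dec_apply, h3 n, key hf y n]
      simp only [hY]
    · rintro ⟨y, hy⟩
      refine ⟨fun a b _ => y a = b, fun a => ⟨y a, rfl⟩, fun a b b' h h' => h.symm.trans h',
        fun n => ?_⟩
      rw [← dec_apply (X := X) (a := n), ← hy, key hf y n]

end RMK
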