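import Pool.Agent.RMK.PDefs

/-!
RMK SOR: calculus of second-order properties (`SO`, see `PDefs.lean`).

PROOFS.
`SO.congr`: `P = Q` by `funext` and `propext`.  `or`, `imp`, `iff`, `allN`, `allR`: from `neg`, `and`, `exN`, `exR` up
to `congr`.
`SO.ren`: induction on `SO P`, for all `f` and `g`.  For `exN`: `P (fun i => V (f i)) (scons n fun i => v (g i))`;
let `g' 0 = 0`, `g' (i + 1) = g i + 1`; then `scons n (fun i => v (g i)) = fun i => scons n v (g' i)` (cases on
`i`), so the induction hypothesis for `f, g'` and `exN` apply.  For `exR` the same with `f'`.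
`SO.atom0`: rename of `atom`: it is `atom` itself.
`SO.const`: `P ∨ ¬ P` and its negation.
-/

namespace RMK

variable {P Q : (ℕ → Rel) → (ℕ → ℕ) → Prop}

theorem SO.congr (h : ∀ V v, P V v ↔ Q V v) (hP : SO P) : SO Q := by
  have e : P = Q := by
    funext V v
    exact propext (h V v)
  rw [← e]
  exact hP

private theorem so_or_59 (hP : SO P) (hQ : SO Q) : SO fun V v => P V v ∨ Q V v :=
  SO.congr (fun V v => by tauto) (SO.neg (SO.and (SO.neg hP) (SO.neg hQ)))

theorem SO.const (p : Prop) : SO fun _ _ => p := by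
  have h1 := so_or_59 (SO.atom 0 0 0 0) (SO.neg (SO.atom 0 0 0 0))
  by_cases h : p
  · exact SO.congr (fun V v => by tauto) h1
  · exact SO.congr (fun V v => by tauto) (SO.neg h1)

theorem SO.or (hP : SO P) (hQ : SO Q) : SO fun V v => P V v ∨ Q V v := by
  exact so_or_59 hP hQ

theorem SO.imp (hP : SO P) (hQ : SO Q) : SO fun V v => P V v → Q V v := by
  exact SO.congr (fun V v => by tauto) (so_or_59 (SO.neg hP) hQ)

theorem SO.iff (hP : SO P) (hQ : SO Q) : SO fun V v => P V v ↔ Q V v := by
  exact SO.congr (fun V v => by tauto)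
    (so_or_59 (SO.and hP hQ) (SO.and (SO.neg hP) (SO.neg hQ)))

theorem SO.allN (hP : SO P) : SO fun V v => ∀ n, P V (scons n v) := by
  exact SO.congr (fun V v => by simp) (SO.neg (SO.exN (SO.neg hP)))

theorem SO.allR (hP : SO P) : SO fun V v => ∀ R, P (scons R V) v := by
  exact SO.congr (fun V v => by simp) (SO.neg (SO.exR (SO.neg hP)))

private theorem scons_ren_59 {α : Type*} (a : α) (v : ℕ → α) (g : ℕ → ℕ) :
    (fun i => scons a v (scons 0 (fun j => g j + 1) i)) = scons a fun i => v (g i) := by
  funext i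
  cases i with
  | zero => rfl
  | succ i => rfl

theorem SO.ren (hP : SO P) (f g : ℕ → ℕ) :
    SO fun V v => P (fun i => V (f i)) (fun i => v (g i)) := by
  induction hP generalizing f g with
  | atom i a b c => exact SO.atom (f i) (g a) (g b) (g c)
  | neg _ ih => exact SO.neg (ih f g)
  | and _ _ ih1 ih2 => exact SO.and (ih1 f g) (ih2 f g)
  | exN _ ih =>
    refine SO.congr (fun V v => ?_) (SO.exN (ih f (scons 0 fun j => g j + 1)))
    simp only [scons_ren_59]
  | exR _ ih =>
    refine SO.congr (fun V v => ?_) (SO.exR (ih (scons 0 fun j => f j + 1) g))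
    simp only [scons_ren_59]

theorem dec_encR (x : ℕ → Bool) : dec (encR x) = x := by
  funext a
  have h : dec (encR x) a = true ↔ x a = true :=
    @decide_eq_true_iff (encR x a 0 0) (Classical.propDecidable _)
  cases hx : x a with
  | true => exact h.2 hx
  | false =>
    rw [hx] at h
    simpa using h

theorem dec_eq_iff {X Y : Rel} : dec X = dec Y ↔ ∀ a, X a 0 0 ↔ Y a 0 0 := by
  rw [funext_iff]
  simp [dec]

theorem dec_apply {X : Rel} {a : ℕ} : dec X a = true ↔ X a 0 0 := by
  simp [dec]

end RMK
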