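import Pool.Agent.RMK.PPo

/-!
RMK TDEFS: forcing relations for second-order formulas (definitions only, complete file).
-/

namespace RMK

open Set

/-- Assignments for forcing relations: poset, order, condition, names, numbers. -/
abbrev FC (M : Set ZFSet.{0}) : Type 1 := M × M × M × (ℕ → M) × (ℕ → M)

variable {M : Set ZFSet.{0}}

/-- `F` is a definable forcing relation for the property `P`. -/
def Truth (hM : ZModel M) (P : (ℕ → Rel) → (ℕ → ℕ) → Prop) (F : FC M → Prop) : Prop :=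
  MD M F ∧ ∀ (Q r : M) (g : Set ZFSet.{0}), IsPoset M Q.1 r.1 → IsGeneric M Q.1 r.1 g →
    ∀ (σ : ℕ → M) (v : ℕ → ℕ), P (fun i => evR (σ i).1 g) v ↔
      ∃ x : M, x.1 ∈ g ∧ F (Q, r, x, σ, fun i => natM hM (v i))

/-- The forcing relation for an existential quantifier over relations. -/
def ExF (hM : ZModel M) (F : FC M → Prop) (p : FC M) : Prop :=
  ∃ C s Q' r' c σ₀ : M, PP M p.1.1 p.2.1.1 C.1 s.1 Q'.1 r'.1 ∧
    ZFSet.pair p.2.2.1.1 c.1 ∈ Q'.1 ∧
    F (Q', r', prM hM p.2.2.1 c, scons σ₀ (fun i => liftM hM p.1 p.2.1 Q' (p.2.2.2.1 i)),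
      p.2.2.2.2)

end RMK
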