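import Pool.Agent.RMK.BaireSeq
import Pool.Agent.PU.TopB

/-!
RMK TOPO: the coding topology and its meager sets.

PROOFS.
`isBasis_TP`: the sets `Bas p s F` (valid, good) cover (take the empty sequence `val_nil`, `s = []`,
`F = ∅`) and are closed under intersection up to unions by `bas_inter` and `Bas.mono`
(`TopologicalSpace.isTopologicalBasis_of_...`: `IsTopologicalBasis` has fields `exists_subset_inter`,
`sUnion_eq`, `eq_generateFrom`).
`isOpen_coord`: for `x` with `x j = b` take the empty sequence, `s = (List.range (j+1)).map x`, `F = ∅`.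
`baireSpace_TP`: let `f n` be dense open, and let `U` be a nonempty open set; take a basic `Bas p s F ⊆ U`
which is nonempty; put `O n p' s' F' := Bas p' s' F' ⊆ f n`.  `ODC G (O n)`: openness by `Bas.mono`;
density: for valid good `(p', s', F')` the set `Bas p' s' F'` is nonempty (by `baire_seq` with the trivial
`O = fun _ _ _ _ => True`, which is `ODC` by reflexivity) and open, so it meets `f n`; take `x` in both and
a basic set `Bas p'' s'' F''` with `x ∈ Bas p'' s'' F'' ⊆ f n`; intersect with `Bas p' s' F'` by `bas_inter` to get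
one that extends `(p', s', F')` (`Bas.mono`).  Then `baire_seq` gives `x ∈ Bas p s F ∩ ⋂ f n`.
(`dense_iff_inter_open`.)
`not_mgr_bas`: a nonempty open subset of a Baire space is not meager (`not_isMeagre_of_isOpen`).
`exists_bas_of_not_mgr`: put on `TP G` the Borel sigma-algebra; the identity map to `ℕ → Bool` is measurable
(`isOpen_coord`, `measurable_pi_lambda`, `measurable_to_bool`; as in `exists_open_of_not_meagre`,
`PU/TopB.lean`), so `B` is Borel, so there is an open `W` with `B =ᵇ W` (`MeasurableSet.residualEq_isOpen`);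
`W` is nonempty because `B` is not meager; take a basic subset.
`mgr_singleton`: `{x}` is contained in the complement of `{z | ∃ j, z j ≠ x j}`, which is open
(`isOpen_coord`) and dense: let `z ∈ Bas p s F`.  Choose `n` larger than all second components of `F` and
`e = enc (fun _ => false) n m` with `e ≥ s.length` and `e` not in a coding set of `F` (`infinite_enc`).  The real
`z'` equal to `z` below `s.length`... is not needed: it suffices to find a nonempty basic subset of
`Bas p s F` all of whose elements differ from `x`: take `s' = (List.range e).map z ++ [!(x e)]`, `F`; then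
`FExt s F s' F` (`z` keeps the promises; `e` is not promised), and `Bas p s' F` is nonempty
(`baire_seq` with trivial `O`).
-/

namespace RMK

open MeasureTheory Set PU

/-- Cantor space with the coding topology. -/
def TP (_ : Set Om) : Type := ℕ → Bool

instance topTP (G : Set Om) : TopologicalSpace (TP G) :=
  TopologicalSpace.generateFrom {U | ∃ p s F, Val G p ∧ GoodF p F ∧
    @Eq (Set (ℕ → Bool)) U (Bas p s F)}

/-- meager sets of the coding topology -/
def Mgr (G : Set Om) (B : Set (ℕ → Bool)) : Prop := @IsMeagre (TP G) (topTP G) B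

private theorem topo_not_lt (α : Om) : ¬ α < natO 0 := by
  intro h
  have h1 : α.1 < ((0 : ℕ) : Ordinal.{0}) := h
  simp at h1

private theorem topo_mem_nil {p : Seq (ℕ → Bool)} (hl : p.len = natO 0) {s : List Bool} {F : FS}
    {x : ℕ → Bool} (h : Prm s F x) : x ∈ Bas p s F := by
  refine ⟨h, fun α hα => ?_⟩
  rw [hl] at hα
  exact absurd hα (topo_not_lt α)

theorem isBasis_TP (G : Set Om) : TopologicalSpace.IsTopologicalBasis
    {U : Set (TP G) | ∃ p s F, Val G p ∧ GoodF p F ∧ @Eq (Set (ℕ → Bool)) U (Bas p s F)} := by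
  refine ⟨?_, ?_, rfl⟩
  · rintro t₁ ⟨p, s, F, hp, hF, rfl⟩ t₂ ⟨p', s', F', hp', hF', rfl⟩ x ⟨hx, hx'⟩
    obtain ⟨p'', s'', F'', h1, h2, h3, h4, h5, h6, h7⟩ := bas_inter hp hp' hF hF' hx hx'
    exact ⟨Bas p'' s'' F'', ⟨p'', s'', F'', h1, h2, rfl⟩, h7,
      fun z hz => ⟨Bas.mono h3 h5 hz, Bas.mono h4 h6 hz⟩⟩
  · rw [sUnion_eq_univ_iff]
    intro x
    obtain ⟨p, hp, hl⟩ := val_nil (G := G)
    refine ⟨Bas p [] ∅, ⟨p, [], ∅, hp, ?_, rfl⟩, topo_mem_nil hl ?_⟩
    · intro r hr
      simp at hr
    · refine ⟨?_, ?_⟩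
      · intro j b h
        simp at h
      · intro r hr
        simp at hr

theorem isOpen_coord (G : Set Om) (j : ℕ) (b : Bool) :
    @IsOpen (TP G) (topTP G) ({x : ℕ → Bool | x j = b} : Set (ℕ → Bool)) := by
  rw [(isBasis_TP G).isOpen_iff]
  intro x hx
  obtain ⟨p, hp, hl⟩ := val_nil (G := G)
  refine ⟨Bas p ((List.range (j + 1)).map (fun i => (x : ℕ → Bool) i)) ∅,
    ⟨p, _, ∅, hp, ?_, rfl⟩, topo_mem_nil hl ?_, ?_⟩
  · intro r hr
    simp at hr
  · refine ⟨?_, ?_⟩
    · intro i c h
      rw [List.getElem?_map] at h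
      by_cases hi : i < j + 1
      · rw [List.getElem?_range hi] at h
        simpa using h
      · have : (List.range (j + 1))[i]? = none := by
          rw [List.getElem?_eq_none_iff]
          simpa using hi
        rw [this] at h
        simp at h
    · intro r hr
      simp at hr
  · intro z hz
    have h := hz.1.1 j (x j) (by
      rw [List.getElem?_map, List.getElem?_range (Nat.lt_succ_self j)]
      rfl)
    show z j = b
    rw [h]
    exact hx

theorem bas_nonempty {G : Set Om} (hG : Captured G) {p : Seq (ℕ → Bool)} (hp : Val G p)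
    (s : List Bool) {F : FS} (hF : GoodF p F) : (Bas p s F).Nonempty := by
  obtain ⟨x, hx, -⟩ := baire_seq hG (fun _ _ _ _ => True)
    (fun _ => ⟨fun _ _ _ _ _ _ _ _ _ _ _ _ _ => trivial,
      fun q t E hq hE => ⟨q, t, E, hq, hE, Ext.refl q, FExt.refl t E, trivial⟩⟩) hp (s := s) hF
  exact ⟨x, hx⟩

private theorem topo_isOpen_bas {G : Set Om} {p : Seq (ℕ → Bool)} (hp : Val G p) (s : List Bool)
    {F : FS} (hF : GoodF p F) : @IsOpen (TP G) (topTP G) (Bas p s F) :=
  (isBasis_TP G).isOpen ⟨p, s, F, hp, hF, rfl⟩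

theorem baireSpace_TP {G : Set Om} (hG : Captured G) : BaireSpace (TP G) := by
  refine ⟨fun f ho hd => ?_⟩
  rw [(isBasis_TP G).dense_iff]
  rintro o ⟨p, s, F, hp, hF, rfl⟩ -
  have hO : ∀ n, ODC G (fun p' s' F' => (Bas p' s' F' : Set (ℕ → Bool)) ⊆ f n) := by
    intro n
    constructor
    · intro p s F p' s' F' _ _ _ _ h1 h2 h3
      exact (Bas.mono h2 h3).trans h1
    · intro q t E hq hE
      obtain ⟨z, hz, hz'⟩ := (hd n).inter_open_nonempty (Bas q t E) (topo_isOpen_bas hq t hE)
        (bas_nonempty hG hq t hE)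
      obtain ⟨v, ⟨p₁, s₁, F₁, h1, h2, rfl⟩, hzv, hv⟩ := (isBasis_TP G).isOpen_iff.1 (ho n) z hz'
      obtain ⟨p'', s'', F'', g1, g2, g3, g4, g5, g6, g7⟩ := bas_inter hq h1 hE h2 hz hzv
      exact ⟨p'', s'', F'', g1, g2, g3, g5, (Bas.mono g4 g6).trans hv⟩
  obtain ⟨x, hx, hx'⟩ := baire_seq hG (fun n p' s' F' => (Bas p' s' F' : Set (ℕ → Bool)) ⊆ f n)
    hO hp (s := s) hF
  refine ⟨x, hx, ?_⟩
  rw [mem_iInter]
  intro n
  obtain ⟨p', s', F', -, -, h, h'⟩ := hx' n
  exact h h'

theorem Mgr.mono {G : Set Om} {A B : Set (ℕ → Bool)} (h : Mgr G A) (hBA : B ⊆ A) : Mgr G B :=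
  IsMeagre.mono (X := TP G) hBA h

theorem Mgr.iUnion {G : Set Om} {A : ℕ → Set (ℕ → Bool)} (h : ∀ n, Mgr G (A n)) :
    Mgr G (⋃ n, A n) :=
  isMeagre_iUnion (X := TP G) h

theorem Mgr.union {G : Set Om} {A B : Set (ℕ → Bool)} (h : Mgr G A) (h' : Mgr G B) :
    Mgr G (A ∪ B) :=
  IsMeagre.union (X := TP G) h h'

theorem not_mgr_bas {G : Set Om} (hG : Captured G) {p : Seq (ℕ → Bool)} (hp : Val G p)
    (s : List Bool) {F : FS} (hF : GoodF p F) : ¬ Mgr G (Bas p s F) := by
  have := baireSpace_TP hG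
  exact not_isMeagre_of_isOpen (X := TP G) (topo_isOpen_bas hp s hF) (bas_nonempty hG hp s hF)

theorem mgr_singleton {G : Set Om} (hG : Captured G) (x : ℕ → Bool) : Mgr G {x} := by
  classical
  have ho : @IsOpen (TP G) (topTP G) ({z : ℕ → Bool | ∃ j, z j ≠ x j} : Set (ℕ → Bool)) := by
    have h1 : ({z : ℕ → Bool | ∃ j, z j ≠ x j} : Set (ℕ → Bool)) =
        ⋃ j, {z : ℕ → Bool | z j = !(x j)} := by
      ext z
      simp only [Set.mem_ofPred_eq, mem_iUnion]
      refine exists_congr fun j => ?_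
      cases z j <;> cases x j <;> simp
    rw [h1]
    exact @isOpen_iUnion (TP G) ℕ (topTP G) _ fun j => isOpen_coord G j (!(x j))
  have hd : @Dense (TP G) (topTP G) ({z : ℕ → Bool | ∃ j, z j ≠ x j} : Set (ℕ → Bool)) := by
    rw [(isBasis_TP G).dense_iff]
    rintro o ⟨p, s, F, hp, hF, rfl⟩ ⟨z, hz⟩
    have hn : ((fun _ => false : ℕ → Bool), F.sup Prod.snd + 1) ∉ F := by
      intro h
      have h1 : F.sup Prod.snd + 1 ≤ F.sup Prod.snd := Finset.le_sup (f := Prod.snd) h
      omega
    obtain ⟨m, -, he, hF'⟩ := infinite_enc F (fun _ => false) (F.sup Prod.snd + 1) hn s.length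
    set e := enc (fun _ => false) (F.sup Prod.snd + 1) m with hedef
    have hz1 : Prm s F z := hz.1
    have hlen : ((List.range e).map (z : ℕ → Bool) ++ [!(x e)]).length = e + 1 := by simp
    have hfe : FExt s F ((List.range e).map (z : ℕ → Bool) ++ [!(x e)]) F := by
      have h1 := fext_of_prm hz1 he (Finset.Subset.refl F)
      refine ⟨h1.1.trans (List.prefix_append _ _), Finset.Subset.refl F, ?_⟩
      intro r hr m' hm' b hb
      rcases lt_trichotomy (enc r.1 r.2 m') e with h | h | h
      · rw [List.getElem?_append_left (by simpa using h)] at hb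
        exact h1.2.2 r hr m' hm' b hb
      · exact absurd h.symm (hF' r hr m')
      · have : ((List.range e).map (z : ℕ → Bool) ++ [!(x e)])[enc r.1 r.2 m']? = none := by
          rw [List.getElem?_eq_none_iff, hlen]
          omega
        rw [this] at hb
        simp at hb
    obtain ⟨w, hw⟩ := bas_nonempty hG hp ((List.range e).map (z : ℕ → Bool) ++ [!(x e)]) hF
    refine ⟨w, Bas.mono (Ext.refl p) hfe hw, e, ?_⟩
    have h2 := hw.1.1 e (!(x e)) (by
      rw [List.getElem?_append_right (by simp)]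
      simp)
    rw [h2]
    cases x e <;> simp
  refine Filter.mem_of_superset (@residual_of_dense_open (TP G) (topTP G) _ ho hd) ?_
  rintro z ⟨j, hj⟩ hz
  exact hj (by rw [mem_singleton_iff.1 hz])

theorem exists_bas_of_not_mgr {G : Set Om} (hG : Captured G) {B : Set (ℕ → Bool)}
    (hB : MeasurableSet B) (h : ¬ Mgr G B) :
    ∃ p s F, Val G p ∧ GoodF p F ∧ Mgr G (Bas p s F \ B) := by
  letI : MeasurableSpace (TP G) := borel _
  haveI : BorelSpace (TP G) := ⟨rfl⟩
  let g : TP G → (ℕ → Bool) := fun z => z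
  have hx : Measurable g :=
    measurable_pi_lambda _ fun j => measurable_to_bool (isOpen_coord G j true).measurableSet
  have hS : MeasurableSet (g ⁻¹' B) := hx hB
  obtain ⟨W, hW, hSW⟩ := hS.residualEq_isOpen
  have hm : IsMeagre {z : TP G | ¬ (g z ∈ B ↔ z ∈ W)} := by
    have h1 : {z : TP G | g z ∈ B ↔ z ∈ W} ∈ residual (TP G) := by
      filter_upwards [hSW] with z hz
      exact iff_of_eq hz
    show {z : TP G | ¬ (g z ∈ B ↔ z ∈ W)}ᶜ ∈ residual (TP G)
    refine Filter.mem_of_superset h1 fun z hz => ?_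
    exact fun h => h hz
  have hne : W.Nonempty := by
    by_contra hne
    rw [not_nonempty_iff_eq_empty] at hne
    apply h
    refine IsMeagre.mono (X := TP G) ?_ hm
    intro z hz hiff
    have h1 : z ∈ W := hiff.1 hz
    rw [hne] at h1
    exact h1
  obtain ⟨z, hz⟩ := hne
  obtain ⟨v, ⟨p, s, F, h1, h2, rfl⟩, hzv, hv⟩ := (isBasis_TP G).isOpen_iff.1 hW z hz
  refine ⟨p, s, F, h1, h2, IsMeagre.mono (X := TP G) ?_ hm⟩
  intro y hy hiff
  exact hy.2 (hiff.2 (hv hy.1))

end RMK
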