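import Pool.Agent.RMK.TDefs
import Pool.Agent.RMK.LiftB

/-!
RMK TRUTHA: forcing relations for atomic formulas, negation, conjunction, number quantifiers.

PROOFS.  Write `F(x)` for `F (Q, r, x, σ, n)`.
`truth_atom`: `F(x) := pair (trip (n a) (n b) (n c)) x ∈ σ i` (`MD.trip_mem`, `DFc.app`); the equivalence is the
definition of `evR` (elements of `g` are in `Q`, hence in `M`).
`truth_neg`: `F'(x) := x ∈ Q ∧ ∀ y ∈ Q, F(y) → ¬ ∃ z ∈ Q, z ≤ x ∧ z ≤ y` (quantifiers over `↥M`; definability: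
the calculus, where `F` is composed with the map `(Q, r, x, σ, n), y ↦ (Q, r, y, σ, n)`).  Equivalence: let
`W = {y ∈ Q | F(y)}`.  The formula holds iff `g` meets `W`.  If some `x ∈ g` has `F'(x)`, then `g` does not meet
`W`, since elements of `g` are compatible.  Conversely suppose `g` does not meet `W`.  The predicate
`(∃ y ∈ W, x ≤ y) ∨ F'(x)` is dense: given `x ∈ Q`, if `F'(x)` fails there are `y ∈ W` and `z ≤ x, y`.  By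
`exists_dense_mem` some `x ∈ g` satisfies it; the first alternative would give `y ∈ g ∩ W` by `up`.
`truth_and`: `F'(x) := x ∈ Q ∧ (∃ y ∈ Q, x ≤ y ∧ F(y)) ∧ (∃ y ∈ Q, x ≤ y ∧ G(y))`; directedness and `up`.
`truth_exN`: `F'(x) := ∃ k ∈ ω, F (Q, r, x, σ, scons k n)`.  The elements of `ω` are the `natZ k`
(`mem_omZ`), and `scons (natM k) (fun i => natM (v i)) = fun i => natM (scons k v i)` (cases on `i`).
-/

namespace RMK

open Set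

variable {M : Set ZFSet.{0}} (hM : ZModel M) {P P' : (ℕ → Rel) → (ℕ → ℕ) → Prop}
  {F F' : FC M → Prop}

private theorem dfc_id5 : DFc M fun p : FC M => p := DFc.id

private theorem md_sub (hF : MD M F) :
    MD M fun q : FC M × M => F (q.1.1, q.1.2.1, q.2, q.1.2.2.2.1, q.1.2.2.2.2) := by
  have h0 : DFc M fun q : FC M × M => q := DFc.id
  exact hF.comp (f := fun q : FC M × M => (q.1.1, q.1.2.1, q.2, q.1.2.2.2.1, q.1.2.2.2.2))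
    (h0.fst.fst.mk (h0.fst.snd.fst.mk (h0.snd.mk (h0.fst.snd.snd.snd.fst.mk
      h0.fst.snd.snd.snd.snd))))

private theorem scons_natM (hM : ZModel M) (k : ℕ) (v : ℕ → ℕ) :
    scons (natM hM k) (fun i => natM hM (v i)) = fun i => natM hM (scons k v i) := by
  funext i
  cases i <;> rfl

private theorem gen_mem (hM : ZModel M) {Q r : M} {g : Set ZFSet.{0}} (hg : IsGeneric M Q.1 r.1 g)
    {x : ZFSet.{0}} (hx : x ∈ g) : x ∈ M :=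
  hM.trans Q.1 Q.2 x (hg.sub x hx)

theorem truth_atom (i a b c : ℕ) :
    ∃ F : FC M → Prop, Truth hM (fun V v => V i (v a) (v b) (v c)) F := by
  have h0 : DFc M fun p : FC M => p := DFc.id
  refine ⟨fun p => ZFSet.pair (trip (p.2.2.2.2 a).1 (p.2.2.2.2 b).1 (p.2.2.2.2 c).1) p.2.2.1.1 ∈
    (p.2.2.2.1 i).1, ?_, ?_⟩
  · exact MD.trip_mem hM (h0.snd.snd.snd.snd.app a) (h0.snd.snd.snd.snd.app b)
      (h0.snd.snd.snd.snd.app c) h0.snd.snd.fst (h0.snd.snd.snd.fst.app i)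
  · intro Q r g _ hg σ v
    constructor
    · rintro ⟨q, hq, h1⟩
      exact ⟨⟨q, gen_mem hM hg hq⟩, hq, h1⟩
    · rintro ⟨x, hx, h1⟩
      exact ⟨x.1, hx, h1⟩

theorem truth_neg (h : Truth hM P F) : ∃ G : FC M → Prop, Truth hM (fun V v => ¬ P V v) G := by
  obtain ⟨G, hGd⟩ : ∃ G : FC M → Prop, G = fun p => p.2.2.1.1 ∈ p.1.1 ∧
      ∀ y : M, y.1 ∈ p.1.1 → F (p.1, p.2.1, y, p.2.2.2.1, p.2.2.2.2) →
        ¬ ∃ z : M, z.1 ∈ p.1.1 ∧ ZFSet.pair z.1 p.2.2.1.1 ∈ p.2.1.1 ∧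
          ZFSet.pair z.1 y.1 ∈ p.2.1.1 := ⟨_, rfl⟩
  have hG : MD M G := by
    have h0 : DFc M fun p : FC M => p := DFc.id
    have h1 : DFc M fun q : FC M × M => q := DFc.id
    have h2 : DFc M fun q : (FC M × M) × M => q := DFc.id
    rw [hGd]
    refine MD.and (MD.mem h0.snd.snd.fst h0.fst) (MD.all (P := fun (p : FC M) (y : M) =>
      y.1 ∈ p.1.1 → F (p.1, p.2.1, y, p.2.2.2.1, p.2.2.2.2) →
        ¬ ∃ z : M, z.1 ∈ p.1.1 ∧ ZFSet.pair z.1 p.2.2.1.1 ∈ p.2.1.1 ∧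
          ZFSet.pair z.1 y.1 ∈ p.2.1.1) ?_)
    refine MD.imp (MD.mem h1.snd h1.fst.fst) (MD.imp (md_sub h.1) (MD.not ?_))
    refine MD.ex (P := fun (q : FC M × M) (z : M) => z.1 ∈ q.1.1.1 ∧
      ZFSet.pair z.1 q.1.2.2.1.1 ∈ q.1.2.1.1 ∧ ZFSet.pair z.1 q.2.1 ∈ q.1.2.1.1) ?_
    exact MD.and (MD.mem h2.snd h2.fst.fst.fst) (MD.and
      (MD.pair_mem hM h2.snd h2.fst.fst.snd.snd.fst h2.fst.fst.snd.fst)
      (MD.pair_mem hM h2.snd h2.fst.snd h2.fst.fst.snd.fst))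
  refine ⟨G, hG, ?_⟩
  intro Q r g hQ hg σ v
  obtain ⟨n, hn⟩ : ∃ n : ℕ → M, n = fun i => natM hM (v i) := ⟨_, rfl⟩
  have hP := h.2 Q r g hQ hg σ v
  rw [← hn] at hP ⊢
  have hGx : ∀ x : M, G (Q, r, x, σ, n) ↔ x.1 ∈ Q.1 ∧ ∀ y : M, y.1 ∈ Q.1 → F (Q, r, y, σ, n) →
      ¬ ∃ z : M, z.1 ∈ Q.1 ∧ ZFSet.pair z.1 x.1 ∈ r.1 ∧ ZFSet.pair z.1 y.1 ∈ r.1 := by
    intro x
    rw [hGd]
  constructor
  · intro hnP
    have hno : ∀ x : M, x.1 ∈ g → ¬ F (Q, r, x, σ, n) := fun x hx hF => hnP (hP.2 ⟨x, hx, hF⟩)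
    have hD : MD M fun x : M => (∃ y : M, y.1 ∈ Q.1 ∧ F (Q, r, y, σ, n) ∧
        ZFSet.pair x.1 y.1 ∈ r.1) ∨ G (Q, r, x, σ, n) := by
      have h0 : DFc M fun x : M => x := DFc.id
      have h1 : DFc M fun q : M × M => q := DFc.id
      refine MD.or (MD.ex (P := fun x y : M => y.1 ∈ Q.1 ∧ F (Q, r, y, σ, n) ∧
        ZFSet.pair x.1 y.1 ∈ r.1) ?_) ?_
      · refine MD.and (MD.mem h1.snd (DFc.const Q)) (MD.and ?_
          (MD.pair_mem hM h1.fst h1.snd (DFc.const r)))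
        exact h.1.comp (f := fun q : M × M => (Q, r, q.2, σ, n))
          ((DFc.const Q).mk ((DFc.const r).mk (h1.snd.mk ((DFc.const σ).mk (DFc.const n)))))
      · exact hG.comp (f := fun x : M => (Q, r, x, σ, n))
          ((DFc.const Q).mk ((DFc.const r).mk (h0.mk ((DFc.const σ).mk (DFc.const n)))))
    have hden : ∀ x : M, x.1 ∈ Q.1 → ∃ y : M, y.1 ∈ Q.1 ∧ ZFSet.pair y.1 x.1 ∈ r.1 ∧
        ((∃ y' : M, y'.1 ∈ Q.1 ∧ F (Q, r, y', σ, n) ∧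
          ZFSet.pair y.1 y'.1 ∈ r.1) ∨ G (Q, r, y, σ, n)) := by
      intro x hx
      by_cases hGG : G (Q, r, x, σ, n)
      · exact ⟨x, hx, hQ.refl _ hx, Or.inr hGG⟩
      · rw [hGx] at hGG
        push Not at hGG
        obtain ⟨y, hy, hF, z, hz, hzx, hzy⟩ := hGG hx
        exact ⟨z, hz, hzx, Or.inl ⟨y, hy, hF, hzy⟩⟩
    obtain ⟨x, hx, hx'⟩ := exists_dense_mem hM Q.2 hg hD hden
    rcases hx' with ⟨y, hy, hF, hxy⟩ | h1
    · exact absurd hF (hno y (hg.up _ hx _ hy hxy))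
    · exact ⟨x, hx, h1⟩
  · rintro ⟨x, hx, hGG⟩ hPv
    obtain ⟨y, hy, hF⟩ := hP.1 hPv
    obtain ⟨z, hz, hzx, hzy⟩ := hg.dir _ hx _ hy
    exact ((hGx x).1 hGG).2 y (hg.sub _ hy) hF ⟨⟨z, gen_mem hM hg hz⟩, hg.sub _ hz, hzx, hzy⟩

theorem truth_and (h : Truth hM P F) (h' : Truth hM P' F') :
    ∃ G : FC M → Prop, Truth hM (fun V v => P V v ∧ P' V v) G := by
  have key : ∀ {E : FC M → Prop}, MD M E → MD M fun p : FC M => ∃ y : M, y.1 ∈ p.1.1 ∧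
      ZFSet.pair p.2.2.1.1 y.1 ∈ p.2.1.1 ∧ E (p.1, p.2.1, y, p.2.2.2.1, p.2.2.2.2) := by
    intro E hE
    have h1 : DFc M fun q : FC M × M => q := DFc.id
    refine MD.ex (P := fun (p : FC M) (y : M) => y.1 ∈ p.1.1 ∧
      ZFSet.pair p.2.2.1.1 y.1 ∈ p.2.1.1 ∧ E (p.1, p.2.1, y, p.2.2.2.1, p.2.2.2.2)) ?_
    exact MD.and (MD.mem h1.snd h1.fst.fst) (MD.and
      (MD.pair_mem hM h1.fst.snd.snd.fst h1.snd h1.fst.snd.fst) (md_sub hE))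
  refine ⟨fun p => (∃ y : M, y.1 ∈ p.1.1 ∧ ZFSet.pair p.2.2.1.1 y.1 ∈ p.2.1.1 ∧
      F (p.1, p.2.1, y, p.2.2.2.1, p.2.2.2.2)) ∧
      ∃ y : M, y.1 ∈ p.1.1 ∧ ZFSet.pair p.2.2.1.1 y.1 ∈ p.2.1.1 ∧
      F' (p.1, p.2.1, y, p.2.2.2.1, p.2.2.2.2), MD.and (key h.1) (key h'.1), ?_⟩
  intro Q r g hQ hg σ v
  have hP := h.2 Q r g hQ hg σ v
  have hP' := h'.2 Q r g hQ hg σ v
  constructor
  · rintro ⟨h1, h2⟩
    obtain ⟨y, hy, hF⟩ := hP.1 h1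
    obtain ⟨y', hy', hF'⟩ := hP'.1 h2
    obtain ⟨z, hz, hzy, hzy'⟩ := hg.dir _ hy _ hy'
    exact ⟨⟨z, gen_mem hM hg hz⟩, hz, ⟨y, hg.sub _ hy, hzy, hF⟩, y', hg.sub _ hy', hzy', hF'⟩
  · rintro ⟨x, hx, ⟨y, hy, hxy, hF⟩, y', hy', hxy', hF'⟩
    exact ⟨hP.2 ⟨y, hg.up _ hx _ hy hxy, hF⟩, hP'.2 ⟨y', hg.up _ hx _ hy' hxy', hF'⟩⟩

theorem truth_exN (h : Truth hM P F) :
    ∃ G : FC M → Prop, Truth hM (fun V v => ∃ n, P V (scons n v)) G := by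
  refine ⟨fun p => ∃ k : M, k.1 ∈ omZ ∧
    F (p.1, p.2.1, p.2.2.1, p.2.2.2.1, scons k p.2.2.2.2), ?_, ?_⟩
  · have h1 : DFc M fun q : FC M × M => q := DFc.id
    refine MD.ex (P := fun (p : FC M) (k : M) => k.1 ∈ omZ ∧
      F (p.1, p.2.1, p.2.2.1, p.2.2.2.1, scons k p.2.2.2.2)) ?_
    refine MD.and (MD.mem (g := fun _ => (⟨omZ, hM.omZ_mem⟩ : M)) h1.snd (DFc.const _)) ?_
    exact h.1.comp (f := fun q : FC M × M => (q.1.1, q.1.2.1, q.1.2.2.1, q.1.2.2.2.1,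
      scons q.2 q.1.2.2.2.2))
      (h1.fst.fst.mk (h1.fst.snd.fst.mk (h1.fst.snd.snd.fst.mk (h1.fst.snd.snd.snd.fst.mk
        (h1.snd.scons h1.fst.snd.snd.snd.snd)))))
  · intro Q r g hQ hg σ v
    constructor
    · rintro ⟨k, hk⟩
      obtain ⟨x, hx, hF⟩ := (h.2 Q r g hQ hg σ (scons k v)).1 hk
      refine ⟨x, hx, natM hM k, natZ_mem_omZ k, ?_⟩
      show F (Q, r, x, σ, scons (natM hM k) fun i => natM hM (v i))
      rw [scons_natM]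
      exact hF
    · rintro ⟨x, hx, k, hk, hF⟩
      obtain ⟨k', hk'⟩ := mem_omZ.1 hk
      have e : k = natM hM k' := Subtype.ext hk'
      refine ⟨k', (h.2 Q r g hQ hg σ (scons k' v)).2 ⟨x, hx, ?_⟩⟩
      rw [← scons_natM, ← e]
      exact hF

end RMK
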