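import Pool.Agent.RMK.DecDefs
import Pool.Agent.PU.TruB

/-!
RMK UNIQ: uniqueness of the decoding.  (Adapt `next_unique`, `sx_unique` from `PU/TruB.lean`.)

PROOFS.
`nx_unique`: if `W u f`, both are `theta x (key u f)`.
`decR_unique`: let `u`, `u'` be decoded by `x` with `u.len ≤ u'.len`.  By strong induction on `μ < u.len`,
`u.val μ = u'.val μ`: the restrictions to `μ` agree (`Seq.ext'`), so `nx_unique`.  Hence
`u'.restr u.len = u` (`Seq.ext'`, `Seq.restr_len`, `Seq.restr_val`).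
`sxR_unique`: from `decR_unique` (lengths equal, so `u' = u`: `u'.restr u'.len = u'`).
`sxR_inj`: `y` codes (through `qqc y`) the successor of `l` and the successor of `l'`; by `IsWO.unique`
these are equal, so `l = l'` (if `l < l'` then `a' > l' ≥ a`... : `Suc l a`, `Suc l' a`: `l' < a` gives
`l' ≤ l` by `Suc l a`, and symmetrically `l ≤ l'`).
`exists_suc`: `⟨α.1 + 1, _⟩`.
`suc_iff`: `Suc a b ↔ b.1 = a.1 + 1` (`Order.lt_succ_iff`).
-/

namespace RMK

open MeasureTheory Set PU

theorem suc_iff {a b : Om} : Suc a b ↔ b.1 = a.1 + 1 := by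
  constructor
  · rintro ⟨h1, h2⟩
    have h3 : a.1 + 1 ≤ b.1 := Order.add_one_le_of_lt h1
    refine le_antisymm ?_ h3
    by_contra h4
    have h5 : a.1 + 1 < b.1 := not_le.1 h4
    have h6 := h2 ⟨a.1 + 1, h5.trans b.2⟩ h5
    have h7 : a.1 + 1 ≤ a.1 := h6
    exact absurd (Order.lt_add_one_iff.2 le_rfl) (not_lt.2 h7)
  · intro h
    refine ⟨?_, fun c hc => ?_⟩
    · change a.1 < b.1
      rw [h]
      exact Order.lt_add_one_iff.2 le_rfl
    · have h1 : c.1 < b.1 := hc
      rw [h] at h1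
      have h2 : c.1 ≤ a.1 := Order.lt_add_one_iff.1 h1
      exact h2

theorem exists_suc (a : Om) : ∃ b, Suc a b := by
  obtain ⟨α, hα⟩ := Om.bdd (countable_singleton a)
  have h1 : a.1 + 1 ≤ α.1 := Order.add_one_le_of_lt (hα a rfl)
  exact ⟨⟨a.1 + 1, h1.trans_lt α.2⟩, suc_iff.2 rfl⟩

theorem nx_unique {x : ℕ → Bool} {u : Seq (ℕ → Bool)} {y y' : ℕ → Bool} (h : Nx x u y)
    (h' : Nx x u y') : y = y' := by
  obtain ⟨f, hf⟩ := h.1
  rw [h.2.1 f hf, h'.2.1 f hf]

theorem decR_unique {x : ℕ → Bool} {u u' : Seq (ℕ → Bool)} (h : DecR x u) (h' : DecR x u')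
    (hl : u.len ≤ u'.len) : u'.restr u.len = u := by
  have key : ∀ μ : Om, μ < u.len → u.val μ = u'.val μ := by
    intro μ
    induction μ using WellFoundedLT.induction with
    | ind μ ih =>
      intro hμ
      have hμ1 : μ ≤ u.len := hμ.le
      have hμ2 : μ ≤ u'.len := hμ1.trans hl
      have h1 := h μ hμ
      have h2 := h' μ (hμ.trans_le hl)
      have h3 : u.restr μ = u'.restr μ := by
        refine Seq.ext' ?_ fun α hα => ?_
        · rw [u.restr_len hμ1, u'.restr_len hμ2]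
        · rw [u.restr_len hμ1] at hα
          rw [u.restr_val hμ1 hα, u'.restr_val hμ2 hα]
          exact ih α hα (hα.trans hμ)
      rw [h3] at h1
      exact nx_unique h1 h2
  refine Seq.ext' (u'.restr_len hl) fun α hα => ?_
  rw [u'.restr_len hl] at hα
  rw [u'.restr_val hl hα]
  exact (key α hα).symm

theorem restr_self (u : Seq (ℕ → Bool)) : u.restr u.len = u := by
  refine Seq.ext' (u.restr_len le_rfl) fun α hα => ?_
  rw [u.restr_len le_rfl] at hα
  exact u.restr_val le_rfl hα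

theorem sxR_unique {x : ℕ → Bool} {l : Om} {y y' : ℕ → Bool} (h : SxR x l y) (h' : SxR x l y') :
    y = y' := by
  obtain ⟨u, hl, hd, hn⟩ := h
  obtain ⟨u', hl', hd', hn'⟩ := h'
  have h1 : u'.restr u.len = u := decR_unique hd hd' (by rw [hl, hl'])
  have h2 : u'.restr u.len = u' := by
    rw [hl, ← hl']
    exact restr_self u'
  have h3 : u = u' := h1.symm.trans h2
  rw [h3] at hn
  exact nx_unique hn hn'

theorem sxR_inj {x : ℕ → Bool} {l l' : Om} {y : ℕ → Bool} (h : SxR x l y) (h' : SxR x l' y) :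
    l = l' := by
  obtain ⟨u, hl, -, -, -, a, ha, hw⟩ := h
  obtain ⟨u', hl', -, -, -, a', ha', hw'⟩ := h'
  rw [hl] at ha
  rw [hl'] at ha'
  have h1 : a = a' := Subtype.ext (hw.unique hw')
  rw [← h1] at ha'
  exact le_antisymm (ha'.2 l ha.1) (ha.2 l' ha'.1)

end RMK
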